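import Mathlib
import Pool.Prelude.Def_F_0dc91acc

/-!
Basic lemmas on the Mahler measure of integer polynomials (helper25).
-/

set_option autoImplicit false

open Polynomial N60ffa576

namespace Pool.Agent.H25

/-- The complex roots of an integer polynomial, with multiplicity. -/
noncomputable def croots (f : ℤ[X]) : Multiset ℂ := (f.map (algebraMap ℤ ℂ)).roots

lemma algMap_inj : Function.Injective (algebraMap ℤ ℂ) := by
  rw [algebraMap_int_eq]; exact RingHom.injective_int _

lemma map_ne_zero_iff' {f : ℤ[X]} : f.map (algebraMap ℤ ℂ) ≠ 0 ↔ f ≠ 0 :=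
  (Polynomial.map_ne_zero_iff algMap_inj)

lemma mem_croots {f : ℤ[X]} (hf : f ≠ 0) {z : ℂ} : z ∈ croots f ↔ aeval z f = 0 := by
  unfold croots
  rw [mem_roots (map_ne_zero_iff'.2 hf), IsRoot.def, eval_map_algebraMap]

lemma card_croots (f : ℤ[X]) : Multiset.card (croots f) = f.natDegree := by
  unfold croots
  rw [← (IsAlgClosed.splits (f.map (algebraMap ℤ ℂ))).natDegree_eq_card_roots,
    natDegree_map_eq_of_injective algMap_inj]

lemma mmZ_eq (f : ℤ[X]) : mahlerMeasureZ f =
    |(f.leadingCoeff : ℝ)| * ((croots f).map (fun a => max 1 ‖a‖)).prod := by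
  unfold mahlerMeasureZ croots
  rw [mahlerMeasure_eq_leadingCoeff_mul_prod_roots, leadingCoeff_map_of_injective algMap_inj]
  congr 1
  simp

lemma mmZ_mul (f g : ℤ[X]) : mahlerMeasureZ (f * g) = mahlerMeasureZ f * mahlerMeasureZ g := by
  unfold mahlerMeasureZ
  rw [Polynomial.map_mul, mahlerMeasure_mul]

lemma one_le_mmZ {f : ℤ[X]} (hf : f ≠ 0) : 1 ≤ mahlerMeasureZ f := by
  have := one_le_mahlerMeasure_of_ne_zero hf
  simpa [mahlerMeasureZ] using this

lemma mmZ_zero : mahlerMeasureZ 0 = 0 := by simp [mahlerMeasureZ]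

lemma mmZ_nonneg (f : ℤ[X]) : 0 ≤ mahlerMeasureZ f := mahlerMeasure_nonneg _

lemma lc_le_mmZ (f : ℤ[X]) : |(f.leadingCoeff : ℝ)| ≤ mahlerMeasureZ f := by
  have := leadingCoeff_le_mahlerMeasure (f.map (algebraMap ℤ ℂ))
  rw [leadingCoeff_map_of_injective algMap_inj] at this
  simpa [mahlerMeasureZ] using this

lemma norm_mprod (s : Multiset ℂ) : ‖s.prod‖ = (s.map (fun z => ‖z‖)).prod :=
  map_multiset_prod (normHom : ℂ →*₀ ℝ) s

/-- Product of the values of an integer polynomial at the roots of an integer polynomial with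
leading coefficient `±1`: it is an integer, so of absolute value at least one if non-zero. -/
lemma one_le_prod_norm_eval (f H : ℤ[X]) (hlc : |f.leadingCoeff| = 1)
    (hne : ∀ z : ℂ, aeval z f = 0 → aeval z H ≠ 0) :
    1 ≤ ((croots f).map (fun z => ‖aeval z H‖)).prod := by
  have hf0 : f ≠ 0 := by
    rintro rfl; simp at hlc
  have hres := resultant_eq_prod_eval (f.map (algebraMap ℤ ℂ)) (H.map (algebraMap ℤ ℂ))
    H.natDegree (natDegree_map_le) (IsAlgClosed.splits _)
  rw [resultant_map_map] at hres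
  have h2 : ‖((algebraMap ℤ ℂ) (f.resultant H (f.map (algebraMap ℤ ℂ)).natDegree H.natDegree))‖
      = ((croots f).map (fun z => ‖aeval z H‖)).prod := by
    rw [hres, norm_mul, norm_pow, leadingCoeff_map_of_injective algMap_inj]
    have : ‖(algebraMap ℤ ℂ) f.leadingCoeff‖ = 1 := by
      simp only [algebraMap_int_eq, eq_intCast, Complex.norm_intCast]
      exact_mod_cast hlc
    rw [this, one_pow, one_mul, norm_mprod, Multiset.map_map]
    unfold croots
    congr 1
    apply Multiset.map_congr rfl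
    intro z _
    simp only [Function.comp_apply, eval_map_algebraMap]
  rw [← h2]
  have hne' : (f.resultant H (f.map (algebraMap ℤ ℂ)).natDegree H.natDegree) ≠ 0 := by
    intro h0
    rw [h0] at h2
    simp only [map_zero, norm_zero] at h2
    have := h2.symm
    rw [Multiset.prod_eq_zero_iff, Multiset.mem_map] at this
    obtain ⟨z, hz, hz0⟩ := this
    rw [norm_eq_zero] at hz0
    exact hne z ((mem_croots hf0).1 hz) hz0
  simp only [algebraMap_int_eq, eq_intCast, Complex.norm_intCast]
  exact_mod_cast Int.one_le_abs hne'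

lemma prod_map_le_prod_map {s : Multiset ℂ} (g h : ℂ → ℝ) (hg : ∀ z ∈ s, 0 ≤ g z)
    (hgh : ∀ z ∈ s, g z ≤ h z) : (s.map g).prod ≤ (s.map h).prod := by
  induction s using Multiset.induction_on with
  | empty => simp
  | cons a s ih =>
    rw [Multiset.map_cons, Multiset.map_cons, Multiset.prod_cons, Multiset.prod_cons]
    have h1 := ih (fun z hz => hg z (Multiset.mem_cons_of_mem hz))
      (fun z hz => hgh z (Multiset.mem_cons_of_mem hz))
    have ha := hg a (Multiset.mem_cons_self a s)
    have hb := hgh a (Multiset.mem_cons_self a s)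
    have hs : 0 ≤ (s.map g).prod := by
      apply Multiset.prod_nonneg
      intro x hx
      rw [Multiset.mem_map] at hx
      obtain ⟨z, hz, rfl⟩ := hx
      exact hg z (Multiset.mem_cons_of_mem hz)
    exact mul_le_mul hb h1 hs (ha.trans hb)

/-- The basic inequality: if an auxiliary polynomial `F` is divisible by `m` at all roots of `f`. -/
lemma key_ineq (f F H : ℤ[X]) (m : ℕ) (K : ℝ) (D : ℕ) (hlc : |f.leadingCoeff| = 1)
    (h : ∀ z : ℂ, aeval z f = 0 → aeval z F = m * aeval z H)
    (hne : ∀ z : ℂ, aeval z f = 0 → aeval z F ≠ 0)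
    (hb : ∀ z : ℂ, ‖aeval z F‖ ≤ K * max 1 ‖z‖ ^ D) :
    (m : ℝ) ^ f.natDegree ≤ K ^ f.natDegree * mahlerMeasureZ f ^ D := by
  have hf0 : f ≠ 0 := by
    rintro rfl; simp at hlc
  have h1 := one_le_prod_norm_eval f H hlc (fun z hz hH => hne z hz (by rw [h z hz, hH, mul_zero]))
  have h2 : ((croots f).map (fun z => ‖aeval z F‖)).prod =
      (m : ℝ) ^ f.natDegree * ((croots f).map (fun z => ‖aeval z H‖)).prod := by
    rw [← card_croots f, ← Multiset.prod_replicate, ← Multiset.map_const',
      ← Multiset.prod_map_mul]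
    congr 1
    apply Multiset.map_congr rfl
    intro z hz
    rw [h z ((mem_croots hf0).1 hz), norm_mul, Complex.norm_natCast]
  have h3 : ((croots f).map (fun z => ‖aeval z F‖)).prod ≤
      ((croots f).map (fun z => K * max 1 ‖z‖ ^ D)).prod :=
    prod_map_le_prod_map _ _ (fun z _ => norm_nonneg _) (fun z _ => hb z)
  have h4 : ((croots f).map (fun z => K * max 1 ‖z‖ ^ D)).prod =
      K ^ f.natDegree * mahlerMeasureZ f ^ D := by
    rw [Multiset.prod_map_mul, Multiset.map_const', Multiset.prod_replicate, card_croots,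
      mmZ_eq, Multiset.prod_map_pow]
    have : |(f.leadingCoeff : ℝ)| = 1 := by exact_mod_cast hlc
    rw [this, one_mul]
  calc (m : ℝ) ^ f.natDegree = (m : ℝ) ^ f.natDegree * 1 := (mul_one _).symm
    _ ≤ (m : ℝ) ^ f.natDegree * ((croots f).map (fun z => ‖aeval z H‖)).prod := by gcongr
    _ = ((croots f).map (fun z => ‖aeval z F‖)).prod := h2.symm
    _ ≤ _ := h3
    _ = _ := h4

end Pool.Agent.H25
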