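import Mathlib
import Pool.Agent.H25.Basic

/-!
Upper bound for the Mahler measure of Lehmer's polynomial: `M(L) ≤ 1.17629`.
-/

set_option autoImplicit false

open Polynomial N60ffa576

namespace Pool.Agent.H25

/-- `X² - rX + 1` with `|r| ≤ 2` has Mahler measure one. -/
lemma mm_quad_small (r : ℝ) (h1 : -2 ≤ r) (h2 : r ≤ 2) :
    (X ^ 2 - C (r : ℂ) * X + 1 : ℂ[X]).mahlerMeasure = 1 := by
  set s := Real.sqrt (4 - r ^ 2) with hs
  have hs2 : s ^ 2 = 4 - r ^ 2 := Real.sq_sqrt (by nlinarith)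
  set a : ℂ := ⟨r / 2, s / 2⟩ with ha
  set b : ℂ := ⟨r / 2, -(s / 2)⟩ with hb
  have hab : a * b = 1 := by
    apply Complex.ext
    · simp [ha, hb]; nlinarith
    · simp [ha, hb]; ring
  have hsum : a + b = r := by
    apply Complex.ext
    · simp [ha, hb]
    · simp [ha, hb]
  have hfac : (X ^ 2 - C (r : ℂ) * X + 1 : ℂ[X]) = (X - C a) * (X - C b) := by
    rw [← hsum]
    have : (1 : ℂ[X]) = C a * C b := by rw [← C_mul, hab, C_1]
    rw [this, C_add]
    ring
  have hna : ‖a‖ = 1 := by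
    have : ‖a‖ ^ 2 = 1 := by
      rw [← Complex.normSq_eq_norm_sq, Complex.normSq_apply, ha]
      simp only []
      nlinarith
    nlinarith [norm_nonneg a]
  have hnb : ‖b‖ = 1 := by
    have : ‖b‖ ^ 2 = 1 := by
      rw [← Complex.normSq_eq_norm_sq, Complex.normSq_apply, hb]
      simp only []
      nlinarith
    nlinarith [norm_nonneg b]
  rw [hfac, mahlerMeasure_mul, mahlerMeasure_X_sub_C, mahlerMeasure_X_sub_C, hna, hnb]
  simp

/-- `X² - rX + 1` with `2 ≤ r`. -/
lemma mm_quad_big (r : ℝ) (h1 : 2 ≤ r) :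
    (X ^ 2 - C (r : ℂ) * X + 1 : ℂ[X]).mahlerMeasure = (r + Real.sqrt (r ^ 2 - 4)) / 2 := by
  set s := Real.sqrt (r ^ 2 - 4) with hs
  have hs0 : 0 ≤ s := Real.sqrt_nonneg _
  have hs2 : s ^ 2 = r ^ 2 - 4 := Real.sq_sqrt (by nlinarith)
  have hsr : s ≤ r := by nlinarith
  have hfac : (X ^ 2 - C (r : ℂ) * X + 1 : ℂ[X]) =
      (X - C (((r + s) / 2 : ℝ) : ℂ)) * (X - C (((r - s) / 2 : ℝ) : ℂ)) := by
    have e1 : ((r : ℝ) : ℂ) = (((r + s) / 2 : ℝ) : ℂ) + (((r - s) / 2 : ℝ) : ℂ) := by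
      push_cast; ring
    have e2 : (1 : ℂ) = (((r + s) / 2 : ℝ) : ℂ) * (((r - s) / 2 : ℝ) : ℂ) := by
      have : ((r + s) / 2) * ((r - s) / 2) = 1 := by nlinarith
      rw [← Complex.ofReal_mul, this, Complex.ofReal_one]
    have e3 : (1 : ℂ[X]) = C (((r + s) / 2 : ℝ) : ℂ) * C (((r - s) / 2 : ℝ) : ℂ) := by
      rw [← C_mul, ← e2, C_1]
    rw [e3, e1, C_add]
    ring
  have h2 : (r - s) / 2 ≤ 1 := by nlinarith
  have h3 : 0 ≤ (r - s) / 2 := by linarith
  rw [hfac, mahlerMeasure_mul, mahlerMeasure_X_sub_C, mahlerMeasure_X_sub_C, Complex.norm_real,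
    Complex.norm_real, Real.norm_eq_abs, Real.norm_eq_abs, abs_of_nonneg h3,
    abs_of_nonneg (by linarith), max_eq_left h2, max_eq_right (by linarith), mul_one]

/-- the trace polynomial of Lehmer's polynomial -/
noncomputable def lehmerTrace (y : ℝ) : ℝ := y ^ 5 + y ^ 4 - 5 * y ^ 3 - 5 * y ^ 2 + 4 * y + 3

lemma lehmerTrace_root (a b : ℝ) (hab : a ≤ b) (ha : lehmerTrace a * lehmerTrace b < 0) :
    ∃ y, a < y ∧ y < b ∧ lehmerTrace y = 0 := by
  have hc : Continuous lehmerTrace := by unfold lehmerTrace; fun_prop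
  have hne : a ≠ b := by
    rintro rfl
    nlinarith [mul_self_nonneg (lehmerTrace a)]
  have hlt : a < b := lt_of_le_of_ne hab hne
  rcases lt_or_ge (lehmerTrace a) 0 with h | h
  · have hb : 0 < lehmerTrace b := by nlinarith
    obtain ⟨y, hy, hy0⟩ := intermediate_value_Ioo hab hc.continuousOn ⟨h, hb⟩
    exact ⟨y, hy.1, hy.2, hy0⟩
  · have hb : lehmerTrace b < 0 := by nlinarith
    have ha' : 0 < lehmerTrace a := by nlinarith
    obtain ⟨y, hy, hy0⟩ := intermediate_value_Ioo' hab hc.continuousOn ⟨hb, ha'⟩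
    exact ⟨y, hy.1, hy.2, hy0⟩

theorem lehmer_upper : mahlerMeasureZ lehmerPolynomial ≤ 1.17629 := by
  obtain ⟨r1, a1, b1, e1⟩ := lehmerTrace_root (-2) (-1.7) (by norm_num)
    (by unfold lehmerTrace; norm_num)
  obtain ⟨r2, a2, b2, e2⟩ := lehmerTrace_root (-1.7) (-1) (by norm_num)
    (by unfold lehmerTrace; norm_num)
  obtain ⟨r3, a3, b3, e3⟩ := lehmerTrace_root (-1) 0 (by norm_num)
    (by unfold lehmerTrace; norm_num)
  obtain ⟨r4, a4, b4, e4⟩ := lehmerTrace_root 0 1 (by norm_num)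
    (by unfold lehmerTrace; norm_num)
  obtain ⟨r5, a5, b5, e5⟩ := lehmerTrace_root 2 2.02642 (by norm_num)
    (by unfold lehmerTrace; norm_num)
  -- factorization of the trace polynomial
  set G : ℝ[X] := X ^ 5 + X ^ 4 - 5 * X ^ 3 - 5 * X ^ 2 + 4 * X + 3 with hG
  have hGe : ∀ y : ℝ, G.eval y = lehmerTrace y := by
    intro y; simp [hG, lehmerTrace]
  have hGd : G.natDegree = 5 := by rw [hG]; compute_degree!
  have hGm : G.Monic := by
    rw [Monic, leadingCoeff, hGd, hG]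
    simp [coeff_X]
  have hG0 : G ≠ 0 := hGm.ne_zero
  have hle : ({r1, r2, r3, r4, r5} : Multiset ℝ) ≤ G.roots := by
    have hnd : ({r1, r2, r3, r4, r5} : Multiset ℝ).Nodup := by
      simp only [Multiset.insert_eq_cons, Multiset.nodup_cons, Multiset.mem_cons,
        Multiset.mem_singleton, Multiset.nodup_singleton, not_or, and_true]
      refine ⟨⟨?_, ?_, ?_, ?_⟩, ⟨?_, ?_, ?_⟩, ⟨?_, ?_⟩, ?_⟩ <;> · intro h; linarith
    rw [Multiset.le_iff_subset hnd]
    intro x hx
    rw [mem_roots hG0, IsRoot.def, hGe]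
    simp only [Multiset.insert_eq_cons, Multiset.mem_cons, Multiset.mem_singleton] at hx
    rcases hx with h | h | h | h | h <;> rw [h] <;> assumption
  have hroots : G.roots = {r1, r2, r3, r4, r5} := by
    symm
    apply Multiset.eq_of_le_of_card_le hle
    calc Multiset.card G.roots ≤ G.natDegree := card_roots' G
      _ = 5 := hGd
      _ ≤ _ := by simp
  have hsplit : G.Splits := by
    rw [splits_iff_card_roots, hroots, hGd]
    simp
  have hfac : ∀ y : ℂ, y ^ 5 + y ^ 4 - 5 * y ^ 3 - 5 * y ^ 2 + 4 * y + 3 =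
      (y - r1) * (y - r2) * (y - r3) * (y - r4) * (y - r5) := by
    intro y
    have h := hsplit.eq_prod_roots_of_monic hGm
    rw [hroots] at h
    have h2 := congrArg (fun P => aeval y P) h
    simp only [Multiset.insert_eq_cons, Multiset.map_cons, Multiset.map_singleton,
      Multiset.prod_cons, Multiset.prod_singleton, map_mul, map_sub, aeval_X, aeval_C] at h2
    rw [hG] at h2
    simp only [map_add, map_sub, map_mul, map_pow, aeval_X, map_ofNat] at h2
    rw [h2]
    simp only [Complex.coe_algebraMap]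
    ring
  have hL : (lehmerPolynomial.map (algebraMap ℤ ℂ)) =
      (X ^ 2 - C (r1 : ℂ) * X + 1) * (X ^ 2 - C (r2 : ℂ) * X + 1) *
      (X ^ 2 - C (r3 : ℂ) * X + 1) * (X ^ 2 - C (r4 : ℂ) * X + 1) *
      (X ^ 2 - C (r5 : ℂ) * X + 1) := by
    apply Polynomial.funext
    intro z
    rcases eq_or_ne z 0 with rfl | hz
    · simp [lehmerPolynomial]
    · have h := hfac (z + z⁻¹)
      simp only [lehmerPolynomial, Polynomial.map_add, Polynomial.map_sub, Polynomial.map_pow,
        map_X, Polynomial.map_one, eval_add, eval_sub, eval_pow, eval_X, eval_one, eval_mul, eval_C]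
      have h3 : ∀ r : ℂ, z ^ 2 - r * z + 1 = z * (z + z⁻¹ - r) := by
        intro r; field_simp; ring
      rw [h3, h3, h3, h3, h3]
      have h4 : z * (z + z⁻¹ - r1) * (z * (z + z⁻¹ - r2)) * (z * (z + z⁻¹ - r3)) *
          (z * (z + z⁻¹ - r4)) * (z * (z + z⁻¹ - r5)) =
          z ^ 5 * ((z + z⁻¹ - r1) * (z + z⁻¹ - r2) * (z + z⁻¹ - r3) * (z + z⁻¹ - r4) *
            (z + z⁻¹ - r5)) := by ring
      rw [h4, ← h]
      field_simp
      ring
  have hM : mahlerMeasureZ lehmerPolynomial = (r5 + Real.sqrt (r5 ^ 2 - 4)) / 2 := by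
    unfold mahlerMeasureZ
    rw [hL, mahlerMeasure_mul, mahlerMeasure_mul, mahlerMeasure_mul, mahlerMeasure_mul,
      mm_quad_small r1 (by linarith) (by linarith), mm_quad_small r2 (by linarith) (by linarith),
      mm_quad_small r3 (by linarith) (by linarith), mm_quad_small r4 (by linarith) (by linarith),
      mm_quad_big r5 a5.le]
    ring
  rw [hM]
  have h6 : Real.sqrt (r5 ^ 2 - 4) ≤ 0.32616 := by
    apply Real.sqrt_le_iff.2
    constructor
    · norm_num
    · nlinarith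
  linarith

end Pool.Agent.H25
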