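import Mathlib
import Pool.Agent.H25.Basic

/-!
A simple lower bound for the Mahler measure of non-reciprocal integer polynomials
(a weak form of Smyth's theorem): `2 M² - M - 2 ≥ 0`, i.e. `M ≥ (1+√17)/4 = 1.2807...`.
-/

set_option autoImplicit false

open Polynomial N60ffa576 Metric Real
open scoped ComplexConjugate

namespace Pool.Agent.H25

lemma circ_int {h : ℂ → ℂ} (hc : ContinuousOn h (sphere 0 1)) : CircleIntegrable h 0 1 :=
  hc.circleIntegrable zero_le_one

lemma circ_int_re {h : ℂ → ℝ} (hc : ContinuousOn h (sphere 0 1)) : CircleIntegrable h 0 1 :=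
  hc.circleIntegrable zero_le_one

lemma avg_re (h : ℂ → ℂ) (hc : ContinuousOn h (sphere 0 1)) :
    circleAverage (fun z => (h z).re) 0 1 = (circleAverage h 0 1).re := by
  have := Complex.reCLM.circleAverage_comp_comm (f := h) (circ_int hc)
  simpa [Function.comp_def] using this

lemma avg_const_mul (a : ℂ) (h : ℂ → ℂ) :
    circleAverage (fun z => a * h z) 0 1 = a * circleAverage h 0 1 := by
  have := circleAverage_fun_smul (𝕜 := ℂ) (a := a) (f := h) (c := 0) (R := 1)
  simpa [smul_eq_mul] using this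

lemma avg_const_mul_re (a : ℝ) (h : ℂ → ℝ) :
    circleAverage (fun z => a * h z) 0 1 = a * circleAverage h 0 1 := by
  have := circleAverage_fun_smul (𝕜 := ℝ) (a := a) (f := h) (c := 0) (R := 1)
  simpa [smul_eq_mul] using this

lemma avg_add_re {f g : ℂ → ℝ} (hf : ContinuousOn f (sphere 0 1))
    (hg : ContinuousOn g (sphere 0 1)) :
    circleAverage (fun z => f z + g z) 0 1 = circleAverage f 0 1 + circleAverage g 0 1 :=
  circleAverage_fun_add (circ_int_re hf) (circ_int_re hg)

lemma avg_pow (k : ℕ) (hk : 0 < k) : circleAverage (fun z : ℂ => z ^ k) 0 1 = 0 := by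
  have h : DiffContOnCl ℂ (fun z : ℂ => z ^ k) (ball 0 |1|) :=
    (differentiable_pow k).diffContOnCl
  have := h.circleAverage
  rw [this]
  exact zero_pow (by omega)

/-- Bessel inequality on the unit circle for the two functions `1` and `z^k`. -/
lemma bessel (h : ℂ → ℂ) (hc : ContinuousOn h (sphere 0 1)) (k : ℕ) (hk : 0 < k) :
    ‖circleAverage h 0 1‖ ^ 2 + ‖circleAverage (fun z => h z / z ^ k) 0 1‖ ^ 2 ≤
      circleAverage (fun z => ‖h z‖ ^ 2) 0 1 := by
  set A := circleAverage h 0 1 with hA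
  set B := circleAverage (fun z => h z / z ^ k) 0 1 with hB
  have hz0 : ∀ z ∈ sphere (0 : ℂ) 1, z ≠ 0 := by
    intro z hz h0
    rw [h0] at hz
    simp at hz
  have hc2 : ContinuousOn (fun z => h z / z ^ k) (sphere 0 1) :=
    hc.div (continuousOn_id.pow k) (fun z hz => pow_ne_zero _ (hz0 z hz))
  have hpt : Set.EqOn (fun z => ‖h z - A - B * z ^ k‖ ^ 2)
      (fun z => ‖h z‖ ^ 2 + (‖A‖ ^ 2 + ‖B‖ ^ 2) + (-2) * (conj A * h z).re
        + (-2) * (conj B * (h z / z ^ k)).re + 2 * (conj A * B * z ^ k).re) (sphere 0 |1|) := by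
    intro z hz
    rw [abs_one] at hz
    have hzn : ‖z‖ = 1 := by simpa using hz
    have hz0' := hz0 z hz
    have hinv : (1 : ℂ) / z ^ k = conj (z ^ k) := by
      rw [map_pow, one_div, ← inv_pow]
      congr 1
      rw [Complex.inv_def, Complex.normSq_eq_norm_sq, hzn]
      simp
    have hzk : conj (z ^ k) * z ^ k = 1 := by
      rw [← hinv, one_div, inv_mul_cancel₀ (pow_ne_zero _ hz0')]
    have hn : ∀ w : ℂ, ‖w‖ ^ 2 = (conj w * w).re := by
      intro w
      rw [← Complex.normSq_eq_norm_sq, ← Complex.normSq_eq_conj_mul_self]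
      simp
    have h2 : h z / z ^ k = h z * conj (z ^ k) := by
      rw [← hinv]; ring
    simp only []
    rw [h2, hn, hn, hn, hn]
    have e1 : conj (h z - A - B * z ^ k) * (h z - A - B * z ^ k) =
      conj (h z) * h z + (conj A * A + conj B * B * (conj (z ^ k) * z ^ k))
      - conj (h z) * A - conj A * h z - conj (h z) * (B * z ^ k) - conj B * (h z * conj (z ^ k))
      + conj A * B * z ^ k + conj (conj A * B * z ^ k) := by
      simp only [map_sub, map_mul, Complex.conj_conj]
      ring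
    rw [e1, hzk, mul_one]
    have e2 : (conj (h z) * A).re = (conj A * h z).re := by
      rw [← Complex.conj_re (conj (h z) * A)]
      simp only [map_mul, Complex.conj_conj]
      ring_nf
    have e3 : (conj (h z) * (B * z ^ k)).re = (conj B * (h z * conj (z ^ k))).re := by
      rw [← Complex.conj_re (conj (h z) * (B * z ^ k))]
      simp only [map_mul, Complex.conj_conj]
      ring_nf
    simp only [Complex.add_re, Complex.sub_re, Complex.conj_re, e2, e3]
    ring
  have hnonneg : 0 ≤ circleAverage (fun z => ‖h z - A - B * z ^ k‖ ^ 2) 0 1 := by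
    apply circleAverage_nonneg_of_nonneg
    intro z _
    positivity
  rw [circleAverage_congr_sphere hpt] at hnonneg
  have c1 : ContinuousOn (fun z => ‖h z‖ ^ 2) (sphere 0 1) := hc.norm.pow 2
  have c2 : ContinuousOn (fun _ : ℂ => (‖A‖ ^ 2 + ‖B‖ ^ 2)) (sphere 0 1) := continuousOn_const
  have c3 : ContinuousOn (fun z => (-2) * (conj A * h z).re) (sphere 0 1) :=
    (continuousOn_const.mul
      (Complex.continuous_re.comp_continuousOn (continuousOn_const.mul hc)))
  have c4 : ContinuousOn (fun z => (-2) * (conj B * (h z / z ^ k)).re) (sphere 0 1) :=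
    (continuousOn_const.mul
      (Complex.continuous_re.comp_continuousOn (continuousOn_const.mul hc2)))
  have c5 : ContinuousOn (fun z => 2 * (conj A * B * z ^ k).re) (sphere 0 1) := by fun_prop
  have c12 := c1.fun_add c2
  have c123 := c12.fun_add c3
  have c1234 := c123.fun_add c4
  rw [avg_add_re c1234 c5, avg_add_re c123 c4, avg_add_re c12 c3, avg_add_re c1 c2,
    circleAverage_const, avg_const_mul_re, avg_const_mul_re,
    avg_const_mul_re, avg_re (fun z => conj A * h z) (continuousOn_const.mul hc),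
    avg_re (fun z => conj B * (h z / z ^ k)) (continuousOn_const.mul hc2),
    avg_re (fun z => conj A * B * z ^ k) (by fun_prop), avg_const_mul, avg_const_mul,
    avg_const_mul, avg_pow k hk, ← hA, ← hB] at hnonneg
  have hn : ∀ w : ℂ, (conj w * w).re = ‖w‖ ^ 2 := by
    intro w
    rw [← Complex.normSq_eq_norm_sq, ← Complex.normSq_eq_conj_mul_self]
    simp
  rw [hn, hn] at hnonneg
  simp only [mul_zero, Complex.zero_re] at hnonneg
  linarith

lemma bessel_gamma (h : ℂ → ℂ) (hd : DiffContOnCl ℂ h (ball 0 1))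
    (h1 : ∀ z ∈ sphere (0 : ℂ) 1, ‖h z‖ = 1) (k : ℕ) (hk : 0 < k) (γ : ℂ) :
    ‖h 0‖ ^ 2 + ‖circleAverage (fun z => h z / z ^ k) 0 1 + γ * h 0‖ ^ 2 ≤ 1 + ‖γ‖ ^ 2 := by
  have hz0 : ∀ z ∈ sphere (0 : ℂ) 1, z ≠ 0 := by
    intro z hz h0
    rw [h0] at hz
    simp at hz
  have hcb : ContinuousOn h (closedBall 0 1) := hd.continuousOn_ball
  have hcs : ContinuousOn h (sphere 0 1) := hcb.mono sphere_subset_closedBall
  set H : ℂ → ℂ := fun z => h z * (1 + γ * z ^ k) with hH
  have hHd : DiffContOnCl ℂ H (ball 0 1) := by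
    have h2 : DiffContOnCl ℂ (fun z : ℂ => 1 + γ * z ^ k) (ball 0 1) := by
      apply Differentiable.diffContOnCl
      fun_prop
    simpa [hH, smul_eq_mul] using hd.smul h2
  have hHs : ContinuousOn H (sphere 0 1) := hHd.continuousOn_ball.mono sphere_subset_closedBall
  have key := bessel H hHs k hk
  have e1 : circleAverage H 0 1 = h 0 := by
    have hHd' : DiffContOnCl ℂ H (ball 0 |1|) := by rwa [abs_one]
    rw [hHd'.circleAverage, hH]
    simp [zero_pow (show k ≠ 0 by omega)]
  have e2 : circleAverage (fun z => H z / z ^ k) 0 1 =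
      circleAverage (fun z => h z / z ^ k) 0 1 + γ * h 0 := by
    have hd' : DiffContOnCl ℂ h (ball 0 |1|) := by rwa [abs_one]
    have : Set.EqOn (fun z => H z / z ^ k) (fun z => h z / z ^ k + γ * h z) (sphere 0 |1|) := by
      intro z hz
      rw [abs_one] at hz
      have := pow_ne_zero k (hz0 z hz)
      simp only [hH]
      field_simp
    rw [circleAverage_congr_sphere this, circleAverage_fun_add, avg_const_mul, hd'.circleAverage]
    · exact circ_int (hcs.div (continuousOn_id.pow k) (fun z hz => pow_ne_zero _ (hz0 z hz)))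
    · exact circ_int (continuousOn_const.mul hcs)
  have e3 : circleAverage (fun z => ‖H z‖ ^ 2) 0 1 = 1 + ‖γ‖ ^ 2 := by
    have : Set.EqOn (fun z => ‖H z‖ ^ 2) (fun z => (1 + ‖γ‖ ^ 2) + 2 * (γ * z ^ k).re)
        (sphere 0 |1|) := by
      intro z hz
      rw [abs_one] at hz
      have hzn : ‖z‖ = 1 := by simpa using hz
      simp only [hH]
      rw [norm_mul, h1 z hz, one_mul, ← Complex.normSq_eq_norm_sq, Complex.normSq_add]
      simp only [map_one, one_mul, Complex.normSq_eq_norm_sq, norm_mul, norm_pow, hzn, one_pow,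
        mul_one, Complex.conj_re]
    rw [circleAverage_congr_sphere this, avg_add_re continuousOn_const (by fun_prop),
      circleAverage_const, avg_const_mul_re, avg_re (fun z => γ * z ^ k) (by fun_prop),
      avg_const_mul, avg_pow k hk]
    simp
  rw [e1, e2, e3] at key
  exact key

/-- Coefficient bound for functions of modulus one on the unit circle. -/
lemma coeff_bound (h : ℂ → ℂ) (hd : DiffContOnCl ℂ h (ball 0 1))
    (h1 : ∀ z ∈ sphere (0 : ℂ) 1, ‖h z‖ = 1) (k : ℕ) (hk : 0 < k) :
    ‖circleAverage (fun z => h z / z ^ k) 0 1‖ ≤ 1 - ‖h 0‖ ^ 2 := by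
  set c := circleAverage (fun z => h z / z ^ k) 0 1 with hc
  set A := ‖h 0‖ ^ 2 with hA
  have hA0 : 0 ≤ A := by positivity
  have key : ∀ t : ℝ, A + ‖c‖ ^ 2 * (1 + t * A) ^ 2 ≤ 1 + t ^ 2 * ‖c‖ ^ 2 * A := by
    intro t
    have := bessel_gamma h hd h1 k hk (t * c * conj (h 0))
    rw [← hc, ← hA] at this
    have e1 : c + t * c * conj (h 0) * h 0 = c * ((1 + t * A : ℝ) : ℂ) := by
      have : conj (h 0) * h 0 = ((‖h 0‖ ^ 2 : ℝ) : ℂ) := by
        rw [← Complex.normSq_eq_conj_mul_self, Complex.normSq_eq_norm_sq]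
      rw [mul_assoc, this, hA]
      push_cast
      ring
    rw [e1, norm_mul, mul_pow, Complex.norm_real, Real.norm_eq_abs, sq_abs, norm_mul, norm_mul,
      mul_pow, mul_pow, Complex.norm_real, Real.norm_eq_abs, sq_abs, Complex.norm_conj, ← hA] at this
    exact this
  have h0 := key 0
  have hcn : 0 ≤ ‖c‖ := norm_nonneg c
  rcases lt_or_ge A 1 with hlt | hge
  · have h2 := key (1 / (1 - A))
    have hpos : 0 < 1 - A := by linarith
    have h3 : ‖c‖ ^ 2 ≤ (1 - A) ^ 2 := by
      have e : (1 + 1 / (1 - A) * A) = 1 / (1 - A) := by field_simp; ring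
      rw [e] at h2
      have h4 : ‖c‖ ^ 2 * (1 / (1 - A)) ^ 2 - (1 / (1 - A)) ^ 2 * ‖c‖ ^ 2 * A ≤ 1 - A := by
        linarith
      have h5 : ‖c‖ ^ 2 * (1 / (1 - A)) ^ 2 - (1 / (1 - A)) ^ 2 * ‖c‖ ^ 2 * A =
        ‖c‖ ^ 2 / (1 - A) := by field_simp
      rw [h5, div_le_iff₀ hpos] at h4
      nlinarith
    nlinarith [abs_le_of_sq_le_sq h3 hpos.le]
  · nlinarith

end Pool.Agent.H25
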