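import Mathlib
import Pool.Agent.H25.Smyth

set_option autoImplicit false

open Polynomial N60ffa576 Metric Real
open scoped ComplexConjugate

namespace Pool.Agent.H25

lemma aeval_eq_prod (f : ℤ[X]) (z : ℂ) :
    aeval z f = (f.leadingCoeff : ℂ) * ((croots f).map (fun a => z - a)).prod := by
  have := (IsAlgClosed.splits (f.map (algebraMap ℤ ℂ))).eval_eq_prod_roots z
  rw [eval_map_algebraMap, leadingCoeff_map_of_injective algMap_inj] at this
  simpa [croots] using this

lemma croots_conj (f : ℤ[X]) : (croots f).map conj = croots f := by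
  unfold croots
  have h := (IsAlgClosed.splits (f.map (algebraMap ℤ ℂ))).roots_map (starRingEnd ℂ)
  rw [Polynomial.map_map] at h
  have e : (starRingEnd ℂ).comp (algebraMap ℤ ℂ) = algebraMap ℤ ℂ := RingHom.ext_int _ _
  rw [e] at h
  exact h.symm

lemma reverse_aeval (f : ℤ[X]) (z : ℂ) :
    aeval z f.reverse = (f.leadingCoeff : ℂ) * ((croots f).map (fun a => 1 - a * z)).prod := by
  rcases eq_or_ne z 0 with rfl | hz
  · simp only [mul_zero, sub_zero, Multiset.map_const', Multiset.prod_replicate, one_pow, mul_one]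
    rw [aeval_def, eval₂_at_zero, coeff_zero_reverse]
    simp
  · let _ : Invertible z⁻¹ := invertibleOfNonzero (inv_ne_zero hz)
    have h := eval₂_reverse_mul_pow (algebraMap ℤ ℂ) z⁻¹ f
    have e : (⅟(z⁻¹)) = z := by
      rw [invOf_eq_inv, inv_inv]
    rw [e] at h
    have h2 := aeval_eq_prod f z⁻¹
    rw [aeval_def, ← h, ← aeval_def] at h2
    have hzd : z ^ f.natDegree ≠ 0 := pow_ne_zero _ hz
    have h3 : aeval z f.reverse = z ^ f.natDegree *
        ((f.leadingCoeff : ℂ) * ((croots f).map (fun a => z⁻¹ - a)).prod) := by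
      rw [← h2, mul_comm, mul_assoc, ← mul_pow, inv_mul_cancel₀ hz, one_pow, mul_one]
    rw [h3, ← mul_assoc, mul_comm (z ^ _), mul_assoc]
    congr 1
    rw [← card_croots f, ← Multiset.prod_replicate, ← Multiset.map_const',
      ← Multiset.prod_map_mul]
    congr 1
    apply Multiset.map_congr rfl
    intro a _
    field_simp

lemma reverse_aeval_conj (f : ℤ[X]) (z : ℂ) :
    aeval z f.reverse = (f.leadingCoeff : ℂ) *
      ((croots f).map (fun a => 1 - conj a * z)).prod := by
  rw [reverse_aeval]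
  conv_lhs => rw [← croots_conj f, Multiset.map_map]
  rfl

lemma differentiableAt_mprod (s : Multiset ℂ) (g : ℂ → ℂ → ℂ) (z : ℂ)
    (h : ∀ a ∈ s, DifferentiableAt ℂ (g a) z) :
    DifferentiableAt ℂ (fun w => (s.map (fun a => g a w)).prod) z := by
  induction s using Multiset.induction_on with
  | empty => simp
  | cons a s ih =>
    simp only [Multiset.map_cons, Multiset.prod_cons]
    exact (h a (Multiset.mem_cons_self a s)).fun_mul
      (ih (fun b hb => h b (Multiset.mem_cons_of_mem hb)))

lemma norm_sub_eq {a z : ℂ} (hz : ‖z‖ = 1) : ‖z - a‖ = ‖1 - conj a * z‖ := by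
  have h1 : z * conj z = 1 := by
    rw [Complex.mul_conj, Complex.normSq_eq_norm_sq, hz]; simp
  have h2 : 1 - conj a * z = z * conj (z - a) := by
    rw [map_sub, mul_sub, h1]; ring
  rw [h2, norm_mul, hz, one_mul, Complex.norm_conj]

lemma mprod_norm_one (s : Multiset ℂ) (g : ℂ → ℂ) (h : ∀ a ∈ s, ‖g a‖ = 1) :
    ‖(s.map g).prod‖ = 1 := by
  rw [norm_mprod, Multiset.map_map]
  apply Multiset.prod_eq_one
  intro x hx
  rw [Multiset.mem_map] at hx
  obtain ⟨a, ha, rfl⟩ := hx
  exact h a ha

/-- decomposition of the roots -/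
lemma split3 (S : Multiset ℂ) : S = S.filter (fun a => ‖a‖ < 1) +
    (S.filter (fun a => 1 < ‖a‖) + S.filter (fun a => ‖a‖ = 1)) := by
  classical
  induction S using Multiset.induction_on with
  | empty => simp
  | cons a S ih =>
    rcases lt_trichotomy ‖a‖ 1 with h | h | h
    · have h2 : ¬ (1 < ‖a‖) := not_lt.2 h.le
      have h3 : ¬ (‖a‖ = 1) := h.ne
      simp only [Multiset.filter_cons, h, h2, h3, if_true, if_false, zero_add,
        Multiset.singleton_add, Multiset.cons_add]
      rw [← ih]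
    · have h2 : ¬ (1 < ‖a‖) := by rw [h]; exact lt_irrefl _
      have h3 : ¬ (‖a‖ < 1) := by rw [h]; exact lt_irrefl _
      simp only [Multiset.filter_cons, h, if_true, if_false, zero_add, lt_irrefl,
        Multiset.singleton_add, Multiset.add_cons]
      rw [← ih]
    · have h2 : ¬ (‖a‖ < 1) := not_lt.2 h.le
      have h3 : ¬ (‖a‖ = 1) := h.ne'
      simp only [Multiset.filter_cons, h, h2, h3, if_true, if_false, zero_add,
        Multiset.singleton_add, Multiset.cons_add, Multiset.add_cons]
      rw [← ih]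


/-- **Weak form of Smyth's theorem.** -/
theorem smyth_weak (f : ℤ[X]) (h0 : f.coeff 0 ≠ 0) (h1 : f.reverse ≠ f) (h2 : f.reverse ≠ -f) :
    1 ≤ mahlerMeasureZ f ∧ mahlerMeasureZ f + 2 ≤ 2 * mahlerMeasureZ f ^ 2 := by
  have hf : f ≠ 0 := by
    rintro rfl; simp at h0
  have hM1 : 1 ≤ mahlerMeasureZ f := one_le_mmZ hf
  refine ⟨hM1, ?_⟩
  have big : 2 ≤ mahlerMeasureZ f → mahlerMeasureZ f + 2 ≤ 2 * mahlerMeasureZ f ^ 2 := by
    intro h; nlinarith
  by_cases hl : |f.leadingCoeff| = 1
  swap
  · apply big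
    have h3 : 1 ≤ |f.leadingCoeff| := Int.one_le_abs (leadingCoeff_ne_zero.2 hf)
    have h4 : 2 ≤ |f.leadingCoeff| := by omega
    have h5 : (2 : ℝ) ≤ |(f.leadingCoeff : ℝ)| := by exact_mod_cast h4
    exact h5.trans (lc_le_mmZ f)
  by_cases hc : |f.coeff 0| = 1
  swap
  · apply big
    have h3 : 1 ≤ |f.coeff 0| := Int.one_le_abs h0
    have h4 : 2 ≤ |f.coeff 0| := by omega
    have h5 : (2 : ℝ) ≤ |(f.coeff 0 : ℝ)| := by exact_mod_cast h4
    have h6 := norm_coeff_le_choose_mul_mahlerMeasure 0 (f.map (algebraMap ℤ ℂ))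
    simp only [coeff_map, algebraMap_int_eq, eq_intCast, Complex.norm_intCast, Nat.choose_zero_right,
      Nat.cast_one, one_mul] at h6
    exact h5.trans h6
  set l : ℤ := f.leadingCoeff with hldef
  set q : ℤ := f.coeff 0 * l with hq
  have hll : l * l = 1 := by
    rcases (abs_eq (by norm_num : (0:ℤ) ≤ 1)).1 hl with h | h <;> rw [h] <;> norm_num
  have hlC : (l : ℂ) * (l : ℂ) = 1 := by exact_mod_cast hll
  have hlC0 : (l : ℂ) ≠ 0 := by
    intro h; rw [h] at hlC; norm_num at hlC
  set D : ℤ[X] := f - C q * f.reverse with hD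
  have hqabs : q = 1 ∨ q = -1 := by
    have : |q| = 1 := by rw [hq, abs_mul, hc, hl]; norm_num
    rcases (abs_eq (by norm_num : (0:ℤ) ≤ 1)).1 this with h | h
    · exact Or.inl h
    · exact Or.inr h
  have hD0 : D ≠ 0 := by
    intro h
    rw [hD, sub_eq_zero] at h
    rcases hqabs with h' | h'
    · rw [h', C_1, one_mul] at h
      exact h1 h.symm
    · rw [h', C_neg, C_1, neg_one_mul] at h
      apply h2
      conv_rhs => rw [h]
      rw [neg_neg]
  have hDc : D.coeff 0 = 0 := by
    rw [hD, coeff_sub, coeff_C_mul, coeff_zero_reverse, hq, ← hldef, mul_assoc, hll, mul_one,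
      sub_self]
  set k := D.natTrailingDegree with hk
  have hkpos : 0 < k := by
    rcases Nat.eq_zero_or_pos k with h | h
    · exfalso
      have : D.trailingCoeff = D.coeff 0 := by rw [trailingCoeff, ← hk, h]
      rw [hDc] at this
      exact hD0 (trailingCoeff_eq_zero.1 this)
    · exact h
  obtain ⟨R, hR⟩ : X ^ k ∣ D := by
    rw [X_pow_dvd_iff]
    intro d hd
    exact coeff_eq_zero_of_lt_natTrailingDegree hd
  have hR0 : R.coeff 0 ≠ 0 := by
    have : D.coeff k = R.coeff 0 := by
      rw [hR, coeff_X_pow_mul', if_pos le_rfl, Nat.sub_self]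
    rw [← this]
    have h3 : D.trailingCoeff ≠ 0 := fun h => hD0 (trailingCoeff_eq_zero.1 h)
    exact h3
  have hfid : ∀ z : ℂ, aeval z f = q * aeval z f.reverse + z ^ k * aeval z R := by
    intro z
    have : f = C q * f.reverse + X ^ k * R := by rw [← hR, hD]; ring
    conv_lhs => rw [this]
    simp
  -- the Blaschke products
  set S := croots f with hS
  set S1 := S.filter (fun a => ‖a‖ < 1) with hS1
  set S2 := S.filter (fun a => 1 < ‖a‖) with hS2
  set S0 := S.filter (fun a => ‖a‖ = 1) with hS0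
  have hsplit : S = S1 + (S2 + S0) := split3 S
  set P1 : ℂ → ℂ := fun z => (S1.map (fun a => z - a)).prod with hP1
  set Q1 : ℂ → ℂ := fun z => (S1.map (fun a => 1 - conj a * z)).prod with hQ1
  set P2 : ℂ → ℂ := fun z => (S2.map (fun a => z - a)).prod with hP2
  set Q2 : ℂ → ℂ := fun z => (S2.map (fun a => 1 - conj a * z)).prod with hQ2
  set P0 : ℂ → ℂ := fun z => (S0.map (fun a => z - a)).prod with hP0
  set Q0 : ℂ → ℂ := fun z => (S0.map (fun a => 1 - conj a * z)).prod with hQ0
  set c : ℂ := (S0.map (fun a => -a)).prod with hcdef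
  have hf1 : ∀ z, aeval z f = l * (P1 z * (P2 z * P0 z)) := by
    intro z
    rw [aeval_eq_prod, ← hS, hsplit, Multiset.map_add, Multiset.map_add, Multiset.prod_add,
      Multiset.prod_add]
  have hf2 : ∀ z, aeval z f.reverse = l * (Q1 z * (Q2 z * Q0 z)) := by
    intro z
    rw [reverse_aeval_conj, ← hS, hsplit, Multiset.map_add, Multiset.map_add, Multiset.prod_add,
      Multiset.prod_add]
  have hcQ : ∀ z, c * Q0 z = P0 z := by
    intro z
    rw [hcdef, hQ0, hP0, ← Multiset.prod_map_mul]
    congr 1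
    apply Multiset.map_congr rfl
    intro a ha
    have : ‖a‖ = 1 := (Multiset.mem_filter.1 ha).2
    have h3 : a * conj a = 1 := by
      rw [Complex.mul_conj, Complex.normSq_eq_norm_sq, this]; simp
    linear_combination z * h3
  have hcn : ‖c‖ = 1 := by
    apply mprod_norm_one
    intro a ha
    rw [norm_neg]
    exact (Multiset.mem_filter.1 ha).2
  have hQ1ne : ∀ z : ℂ, ‖z‖ ≤ 1 → Q1 z ≠ 0 := by
    intro z hz h
    rw [hQ1] at h
    simp only [] at h
    rw [Multiset.prod_eq_zero_iff, Multiset.mem_map] at h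
    obtain ⟨a, ha, h⟩ := h
    have h3 : ‖a‖ < 1 := (Multiset.mem_filter.1 ha).2
    have h4 : ‖conj a * z‖ = 1 := by
      have : conj a * z = 1 := by linear_combination -h
      rw [this, norm_one]
    rw [norm_mul, Complex.norm_conj] at h4
    nlinarith [norm_nonneg a, norm_nonneg z]
  have hP2ne : ∀ z : ℂ, ‖z‖ ≤ 1 → P2 z ≠ 0 := by
    intro z hz h
    rw [hP2] at h
    simp only [] at h
    rw [Multiset.prod_eq_zero_iff, Multiset.mem_map] at h
    obtain ⟨a, ha, h⟩ := h
    have h3 : 1 < ‖a‖ := (Multiset.mem_filter.1 ha).2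
    have : z = a := by linear_combination h
    rw [this] at hz
    linarith
  set U : ℂ → ℂ := fun z => c * (P1 z / Q1 z) with hU
  set W : ℂ → ℂ := fun z => Q2 z / P2 z with hW
  have hUd : ∀ z : ℂ, ‖z‖ ≤ 1 → DifferentiableAt ℂ U z := by
    intro z hz
    apply DifferentiableAt.const_mul
    apply DifferentiableAt.fun_div
    · exact differentiableAt_mprod _ (fun a w => w - a) z (fun a _ => by fun_prop)
    · exact differentiableAt_mprod _ (fun a w => 1 - conj a * w) z (fun a _ => by fun_prop)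
    · exact hQ1ne z hz
  have hWd : ∀ z : ℂ, ‖z‖ ≤ 1 → DifferentiableAt ℂ W z := by
    intro z hz
    apply DifferentiableAt.fun_div
    · exact differentiableAt_mprod _ (fun a w => 1 - conj a * w) z (fun a _ => by fun_prop)
    · exact differentiableAt_mprod _ (fun a w => w - a) z (fun a _ => by fun_prop)
    · exact hP2ne z hz
  have hid : ∀ z : ℂ, ‖z‖ ≤ 1 → U z * aeval z f.reverse = W z * aeval z f := by
    intro z hz
    rw [hf1, hf2]
    simp only [hU, hW]
    have e1 := hQ1ne z hz
    have e2 := hP2ne z hz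
    have e3 := hcQ z
    field_simp
    linear_combination (P1 z) * (Q2 z) * e3
  have hid2 : ∀ z : ℂ, ‖z‖ ≤ 1 → (U z - q * W z) * aeval z f.reverse =
      z ^ k * (aeval z R * W z) := by
    intro z hz
    have e1 := hid z hz
    have e2 := hfid z
    linear_combination e1 + W z * e2
  have hnorm : ∀ (T : Multiset ℂ) (z : ℂ), ‖z‖ = 1 → ‖(T.map (fun a => z - a)).prod‖ =
      ‖(T.map (fun a => 1 - conj a * z)).prod‖ := by
    intro T z hz
    rw [norm_mprod, norm_mprod, Multiset.map_map, Multiset.map_map]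
    congr 1
    apply Multiset.map_congr rfl
    intro a _
    exact norm_sub_eq hz
  have hU1 : ∀ z ∈ sphere (0 : ℂ) 1, ‖U z‖ = 1 := by
    intro z hz
    have hz1 : ‖z‖ = 1 := by simpa using hz
    have := hnorm S1 z hz1
    have h3 : ‖Q1 z‖ ≠ 0 := norm_ne_zero_iff.2 (hQ1ne z hz1.le)
    simp only [hU]
    rw [norm_mul, norm_div, hcn, one_mul, this]
    exact div_self h3
  have hW1 : ∀ z ∈ sphere (0 : ℂ) 1, ‖W z‖ = 1 := by
    intro z hz
    have hz1 : ‖z‖ = 1 := by simpa using hz
    have := hnorm S2 z hz1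
    have h3 : ‖P2 z‖ ≠ 0 := norm_ne_zero_iff.2 (hP2ne z hz1.le)
    simp only [hW]
    rw [norm_div, ← this]
    exact div_self h3
  have hDC : ∀ V : ℂ → ℂ, (∀ z : ℂ, ‖z‖ ≤ 1 → DifferentiableAt ℂ V z) →
      DiffContOnCl ℂ V (ball 0 1) := by
    intro V hV
    apply DifferentiableOn.diffContOnCl_ball (U := closedBall 0 1) _ subset_rfl
    intro z hz
    exact (hV z (by simpa using hz)).differentiableWithinAt
  have hUD := hDC U hUd
  have hWD := hDC W hWd
  have hrev0 : aeval (0 : ℂ) f.reverse = l := by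
    rw [aeval_def, eval₂_at_zero, coeff_zero_reverse]
    simp [hldef]
  have hf0 : aeval (0 : ℂ) f = f.coeff 0 := by
    rw [aeval_def, eval₂_at_zero]
    simp
  have hln : ‖(l : ℂ)‖ = 1 := by
    rw [Complex.norm_intCast]; exact_mod_cast hl
  have ha0n : ‖(f.coeff 0 : ℂ)‖ = 1 := by
    rw [Complex.norm_intCast]; exact_mod_cast hc
  have hqn : ‖(q : ℂ)‖ = 1 := by
    rcases hqabs with h | h <;> rw [h] <;> simp
  have hUW0 : ‖U 0‖ = ‖W 0‖ := by
    have := congrArg norm (hid 0 (by simp))
    rw [hrev0, hf0, norm_mul (U 0), norm_mul (W 0), hln, ha0n, mul_one, mul_one] at this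
    exact this
  have hWM : ‖W 0‖ * mahlerMeasureZ f = 1 := by
    have e1 : mahlerMeasureZ f = (S2.map (fun a => ‖a‖)).prod := by
      rw [mmZ_eq, ← hS, hsplit, Multiset.map_add, Multiset.map_add, Multiset.prod_add,
        Multiset.prod_add]
      have : |(f.leadingCoeff : ℝ)| = 1 := by exact_mod_cast hl
      rw [this, one_mul]
      have g1 : (S1.map (fun a => max 1 ‖a‖)).prod = 1 := by
        apply Multiset.prod_eq_one
        intro x hx
        rw [Multiset.mem_map] at hx
        obtain ⟨a, ha, rfl⟩ := hx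
        exact max_eq_left (Multiset.mem_filter.1 ha).2.le
      have g0 : (S0.map (fun a => max 1 ‖a‖)).prod = 1 := by
        apply Multiset.prod_eq_one
        intro x hx
        rw [Multiset.mem_map] at hx
        obtain ⟨a, ha, rfl⟩ := hx
        exact max_eq_left (Multiset.mem_filter.1 ha).2.le
      have g2 : (S2.map (fun a => max 1 ‖a‖)) = (S2.map (fun a => ‖a‖)) := by
        apply Multiset.map_congr rfl
        intro a ha
        exact max_eq_right (Multiset.mem_filter.1 ha).2.le
      rw [g1, g0, g2, one_mul, mul_one]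
    have e2 : ‖P2 0‖ = (S2.map (fun a => ‖a‖)).prod := by
      rw [hP2]
      simp only []
      rw [norm_mprod, Multiset.map_map]
      congr 1
      apply Multiset.map_congr rfl
      intro a _
      simp
    have e3 : Q2 0 = 1 := by
      rw [hQ2]
      simp
    have h3 : ‖P2 0‖ ≠ 0 := norm_ne_zero_iff.2 (hP2ne 0 (by simp))
    simp only [hW]
    rw [norm_div, e3, norm_one, e1, ← e2]
    field_simp
  -- the function E
  set E : ℂ → ℂ := fun z => if z = 0 then aeval 0 R * W 0 / aeval 0 f.reverse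
    else (U z - q * W z) / z ^ k with hE
  have hEd : ∀ z : ℂ, ‖z‖ ≤ 1 → DifferentiableAt ℂ E z := by
    intro z hz
    by_cases hz0 : z = 0
    · subst hz0
      have hev : E =ᶠ[nhds 0] (fun z => aeval z R * W z / aeval z f.reverse) := by
        have h3 : ∀ᶠ z : ℂ in nhds 0, aeval z f.reverse ≠ 0 := by
          apply ContinuousAt.eventually_ne
          · exact (Polynomial.continuous_aeval _).continuousAt
          · rw [hrev0]; exact hlC0
        have h4 : ∀ᶠ z : ℂ in nhds 0, ‖z‖ ≤ 1 := by
          have : closedBall (0 : ℂ) 1 ∈ nhds 0 := closedBall_mem_nhds 0 one_pos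
          filter_upwards [this] with w hw
          simpa using hw
        filter_upwards [h3, h4] with w hw1 hw2
        by_cases hw0 : w = 0
        · rw [hw0, hE]; simp
        · rw [hE]
          simp only [hw0, if_false]
          rw [div_eq_div_iff (pow_ne_zero k hw0) hw1, hid2 w hw2]
          ring
      apply DifferentiableAt.congr_of_eventuallyEq _ hev
      apply DifferentiableAt.fun_div
      · exact (Polynomial.differentiable_aeval R).differentiableAt.fun_mul (hWd 0 (by simp))
      · exact (Polynomial.differentiable_aeval _).differentiableAt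
      · rw [hrev0]; exact hlC0
    · have hev : E =ᶠ[nhds z] (fun z => (U z - q * W z) / z ^ k) := by
        have : ∀ᶠ w : ℂ in nhds z, w ≠ 0 := isOpen_ne.mem_nhds hz0
        filter_upwards [this] with w hw
        rw [hE]
        simp only [hw, if_false]
      apply DifferentiableAt.congr_of_eventuallyEq _ hev
      apply DifferentiableAt.fun_div
      · exact (hUd z hz).fun_sub ((hWd z hz).const_mul _)
      · fun_prop
      · exact pow_ne_zero k hz0
  have hED := hDC E hEd
  have hEavg : circleAverage E 0 1 = E 0 := by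
    have : DiffContOnCl ℂ E (ball 0 |1|) := by rwa [abs_one]
    exact this.circleAverage
  have hsne : ∀ z ∈ sphere (0 : ℂ) 1, z ≠ 0 := by
    intro z hz h
    rw [h] at hz
    simp at hz
  have hUs : ContinuousOn (fun z => U z / z ^ k) (sphere 0 1) :=
    (hUD.continuousOn_ball.mono sphere_subset_closedBall).div (continuousOn_id.pow k)
      (fun z hz => pow_ne_zero _ (hsne z hz))
  have hWs : ContinuousOn (fun z => W z / z ^ k) (sphere 0 1) :=
    (hWD.continuousOn_ball.mono sphere_subset_closedBall).div (continuousOn_id.pow k)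
      (fun z hz => pow_ne_zero _ (hsne z hz))
  have hEsum : circleAverage E 0 1 = circleAverage (fun z => U z / z ^ k) 0 1 +
      (-(q : ℂ)) * circleAverage (fun z => W z / z ^ k) 0 1 := by
    have : Set.EqOn E (fun z => U z / z ^ k + (-(q : ℂ)) * (W z / z ^ k)) (sphere 0 |1|) := by
      intro z hz
      rw [abs_one] at hz
      have hz0 := hsne z hz
      rw [hE]
      simp only [hz0, if_false]
      ring
    rw [circleAverage_congr_sphere this, circleAverage_fun_add, avg_const_mul]
    · exact circ_int hUs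
    · exact circ_int (continuousOn_const.mul hWs)
  have hE0 : ‖W 0‖ ≤ ‖E 0‖ := by
    have : E 0 = aeval 0 R * W 0 / aeval 0 f.reverse := by rw [hE]; simp
    have h2 : ‖E 0‖ = ‖aeval (0 : ℂ) R‖ * ‖W 0‖ := by
      rw [this, hrev0, norm_div (aeval (0 : ℂ) R * W 0), norm_mul (aeval (0 : ℂ) R), hln, div_one]
    rw [h2]
    have h3 : 1 ≤ ‖aeval (0 : ℂ) R‖ := by
      rw [aeval_def, eval₂_at_zero]
      simp only [algebraMap_int_eq, eq_intCast, Complex.norm_intCast]
      exact_mod_cast Int.one_le_abs hR0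
    nlinarith [norm_nonneg (W 0)]
  have hb1 := coeff_bound U hUD hU1 k hkpos
  have hb2 := coeff_bound W hWD hW1 k hkpos
  have hfin : ‖W 0‖ ≤ 2 * (1 - ‖W 0‖ ^ 2) := by
    calc ‖W 0‖ ≤ ‖E 0‖ := hE0
      _ = ‖circleAverage E 0 1‖ := by rw [hEavg]
      _ ≤ ‖circleAverage (fun z => U z / z ^ k) 0 1‖ +
          ‖(-(q : ℂ)) * circleAverage (fun z => W z / z ^ k) 0 1‖ := by
            rw [hEsum]; exact norm_add_le _ _
      _ ≤ (1 - ‖U 0‖ ^ 2) + (1 - ‖W 0‖ ^ 2) := by
            rw [norm_mul, norm_neg, hqn, one_mul]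
            exact add_le_add hb1 hb2
      _ = 2 * (1 - ‖W 0‖ ^ 2) := by rw [hUW0]; ring
  have hMpos : 0 < mahlerMeasureZ f := by linarith
  have hW0 : ‖W 0‖ = 1 / mahlerMeasureZ f := by
    field_simp
    exact hWM
  rw [hW0] at hfin
  have h5 : mahlerMeasureZ f ^ 2 * (1 / mahlerMeasureZ f) ≤
      mahlerMeasureZ f ^ 2 * (2 * (1 - (1 / mahlerMeasureZ f) ^ 2)) := by gcongr
  have h6 : mahlerMeasureZ f ^ 2 * (1 / mahlerMeasureZ f) = mahlerMeasureZ f := by
    field_simp
  have h7 : mahlerMeasureZ f ^ 2 * (2 * (1 - (1 / mahlerMeasureZ f) ^ 2)) =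
      2 * mahlerMeasureZ f ^ 2 - 2 := by
    field_simp
  rw [h6, h7] at h5
  linarith

theorem smyth_weak' (f : ℤ[X]) (h0 : f.coeff 0 ≠ 0) (h1 : f.reverse ≠ f)
    (h2 : f.reverse ≠ -f) : 1.28 ≤ mahlerMeasureZ f := by
  obtain ⟨h3, h4⟩ := smyth_weak f h0 h1 h2
  nlinarith

end Pool.Agent.H25
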