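import Mathlib
import Pool.Agent.H25.SmythWeak
import Pool.Agent.H25.LehmerVal

/-!
2-adic and 3-adic lower bounds for the Mahler measure.
-/

set_option autoImplicit false

open Polynomial N60ffa576

namespace Pool.Agent.H25

lemma phi_bound_small (w : ℂ) (hw : ‖w‖ ≤ 1) : ‖(w - 1) ^ 2 * (w + 1)‖ ^ 2 ≤ 256 / 27 := by
  set ρ := ‖w‖ ^ 2 with hρ
  have hρ1 : ρ ≤ 1 := by nlinarith [norm_nonneg w]
  have hρ0 : 0 ≤ ρ := by positivity
  have h1 : ‖w - 1‖ ^ 2 = 1 + ρ - 2 * w.re := by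
    rw [hρ, ← Complex.normSq_eq_norm_sq, ← Complex.normSq_eq_norm_sq, Complex.normSq_sub]
    simp
    ring
  have h2 : ‖w + 1‖ ^ 2 = 1 + ρ + 2 * w.re := by
    rw [hρ, ← Complex.normSq_eq_norm_sq, ← Complex.normSq_eq_norm_sq, Complex.normSq_add]
    simp
    ring
  have h3 : 0 ≤ 1 + ρ + 2 * w.re := by rw [← h2]; positivity
  have h4 : 0 ≤ 1 + ρ - 2 * w.re := by rw [← h1]; positivity
  rw [norm_mul, norm_pow, mul_pow, ← pow_mul, mul_comm 2 2, pow_mul, h1, h2]
  set s := 1 + ρ with hs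
  set y := 2 * w.re with hy
  have h5 : (32 / 27) * s ^ 3 - (s - y) ^ 2 * (s + y) = (y + s / 3) ^ 2 * (5 * s / 3 - y) := by ring
  have h6 : 0 ≤ (y + s / 3) ^ 2 * (5 * s / 3 - y) := by
    apply mul_nonneg (by positivity)
    nlinarith
  have h7 : s ^ 3 ≤ 8 := by
    have : s ≤ 2 := by linarith
    have : 0 ≤ s := by linarith
    calc s ^ 3 ≤ 2 ^ 3 := by gcongr
      _ = 8 := by norm_num
  nlinarith

lemma phi_bound (w : ℂ) : ‖(w - 1) ^ 2 * (w + 1)‖ ^ 2 ≤ 256 / 27 * (max 1 ‖w‖ ^ 3) ^ 2 := by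
  rcases le_or_gt ‖w‖ 1 with h | h
  · rw [max_eq_left h, one_pow, one_pow, mul_one]
    exact phi_bound_small w h
  · rw [max_eq_right h.le]
    have hw0 : w ≠ 0 := by rintro rfl; simp at h; linarith
    have h1 : (w - 1) ^ 2 * (w + 1) = w ^ 3 * ((w⁻¹ - 1) ^ 2 * (w⁻¹ + 1)) := by
      field_simp
      ring
    have h2 : ‖w⁻¹‖ ≤ 1 := by
      rw [norm_inv]
      exact inv_le_one_of_one_le₀ h.le
    rw [h1, norm_mul, mul_pow, norm_pow, mul_comm (256 / 27 : ℝ)]
    gcongr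
    exact phi_bound_small _ h2

lemma max_pow (z : ℂ) (n : ℕ) : max 1 ‖z ^ n‖ = max 1 ‖z‖ ^ n := by
  rw [norm_pow]
  rcases le_or_gt ‖z‖ 1 with h | h
  · rw [max_eq_left h, one_pow, max_eq_left (pow_le_one₀ (norm_nonneg _) h)]
  · rw [max_eq_right h.le, max_eq_right (one_le_pow₀ h.le)]

/-- no root of `f` is zero or a root of unity -/
def NoUnityRoots (f : ℤ[X]) : Prop := ∀ z : ℂ, aeval z f = 0 → ∀ n : ℕ, 0 < n → z ^ n ≠ 1

/-- **Key inequality.** If `f` divides `(X^k - 1)(X^l - 1)` modulo 2 and `f` has no root of unity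
among its roots, then `M(f)^(2(k+l)) ≥ (3/2)^(deg f)`. -/
theorem two_binomials (f g h : ℤ[X]) (k l : ℕ) (hk : 0 < k) (hl : 0 < l)
    (hlc : |f.leadingCoeff| = 1) (hU : NoUnityRoots f)
    (hfg : (X ^ k - 1) * (X ^ l - 1) = f * g + 2 * h) :
    (3 / 2 : ℝ) ^ f.natDegree ≤ mahlerMeasureZ f ^ (2 * (k + l)) := by
  set A : ℤ[X] := X ^ k with hA
  set B : ℤ[X] := X ^ l with hB
  set F : ℤ[X] := ((A ^ 2 - 1) ^ 2 * (A ^ 2 + 1)) * ((B ^ 2 - 1) ^ 2 * (B ^ 2 + 1)) with hF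
  set H : ℤ[X] := h ^ 2 * (h + A + B) ^ 2 *
    (2 * h ^ 2 + A * (B - 1) ^ 2 + B * (A - 1) ^ 2 + 2 * A * B) with hH
  have key := key_ineq f F H 32 (256 / 27) (6 * (k + l)) hlc ?_ ?_ ?_
  · have h1 : ((3 / 2 : ℝ) ^ f.natDegree) ^ 3 ≤ (mahlerMeasureZ f ^ (2 * (k + l))) ^ 3 := by
      have e1 : ((3 / 2 : ℝ) ^ f.natDegree) ^ 3 * (256 / 27) ^ f.natDegree
          = ((32 : ℕ) : ℝ) ^ f.natDegree := by
        rw [← pow_mul, mul_comm f.natDegree 3, pow_mul, ← mul_pow]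
        norm_num
      have e2 : (mahlerMeasureZ f ^ (2 * (k + l))) ^ 3 = mahlerMeasureZ f ^ (6 * (k + l)) := by
        rw [← pow_mul]; ring_nf
      rw [e2]
      have e3 : (0 : ℝ) < (256 / 27) ^ f.natDegree := by positivity
      rw [← e1, mul_comm] at key
      exact le_of_mul_le_mul_left key e3
    exact le_of_pow_le_pow_left₀ (by norm_num) (pow_nonneg (mmZ_nonneg f) _) h1
  · intro z hz
    have e : (z ^ k - 1) * (z ^ l - 1) = 2 * aeval z h := by
      have := congrArg (fun P => aeval z P) hfg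
      simp only [map_mul, map_sub, map_pow, aeval_X, map_one, map_add, hz, zero_mul, zero_add,
        map_ofNat, hA, hB] at this
      exact this
    simp only [hF, hH, hA, hB, map_mul, map_sub, map_pow, aeval_X, map_one, map_add, map_ofNat]
    set a := z ^ k with ha
    set b := z ^ l with hb
    set η := aeval z h with hη
    have e2 : (a + 1) * (b + 1) = 2 * (η + a + b) := by linear_combination e
    have e3 : (a ^ 2 + 1) * (b ^ 2 + 1) =
        2 * (2 * η ^ 2 + a * (b - 1) ^ 2 + b * (a - 1) ^ 2 + 2 * a * b) := by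
      linear_combination ((a - 1) * (b - 1) + 2 * η) * e
    have e4 : (a ^ 2 - 1) ^ 2 * (a ^ 2 + 1) * ((b ^ 2 - 1) ^ 2 * (b ^ 2 + 1)) =
        ((a - 1) * (b - 1)) ^ 2 * ((a + 1) * (b + 1)) ^ 2 * ((a ^ 2 + 1) * (b ^ 2 + 1)) := by ring
    rw [e4, e, e2, e3]
    push_cast
    ring
  · intro z hz h0
    have hne : ∀ n : ℕ, 0 < n → z ^ n ≠ 1 := hU z hz
    simp only [hF, hA, hB, map_mul, map_sub, map_pow, aeval_X, map_one, map_add] at h0
    have hk2 : (z ^ k) ^ 2 - 1 ≠ 0 := by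
      rw [← pow_mul]; exact sub_ne_zero.2 (hne _ (by omega))
    have hl2 : (z ^ l) ^ 2 - 1 ≠ 0 := by
      rw [← pow_mul]; exact sub_ne_zero.2 (hne _ (by omega))
    have hk4 : (z ^ k) ^ 2 + 1 ≠ 0 := by
      intro h'
      apply hne (k * 4) (by omega)
      rw [pow_mul]
      linear_combination ((z ^ k) ^ 2 - 1) * h'
    have hl4 : (z ^ l) ^ 2 + 1 ≠ 0 := by
      intro h'
      apply hne (l * 4) (by omega)
      rw [pow_mul]
      linear_combination ((z ^ l) ^ 2 - 1) * h'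
    have := mul_ne_zero (mul_ne_zero (pow_ne_zero 2 hk2) hk4) (mul_ne_zero (pow_ne_zero 2 hl2) hl4)
    exact this h0
  · intro z
    simp only [hF, hA, hB, map_mul, map_sub, map_pow, aeval_X, map_one, map_add]
    have b1 := phi_bound ((z ^ k) ^ 2)
    have b2 := phi_bound ((z ^ l) ^ 2)
    rw [← pow_mul, max_pow] at b1 b2
    rw [← pow_mul, ← pow_mul, norm_mul]
    set m := max 1 ‖z‖ with hm
    have hm1 : 1 ≤ m := le_max_left _ _
    set u := ‖(z ^ (k * 2) - 1) ^ 2 * (z ^ (k * 2) + 1)‖ with hu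
    set v := ‖(z ^ (l * 2) - 1) ^ 2 * (z ^ (l * 2) + 1)‖ with hv
    have hu0 : 0 ≤ u := norm_nonneg _
    have hv0 : 0 ≤ v := norm_nonneg _
    have h1 : (u * v) ^ 2 ≤ (256 / 27 * m ^ (6 * (k + l))) ^ 2 := by
      calc (u * v) ^ 2 = u ^ 2 * v ^ 2 := by ring
        _ ≤ (256 / 27 * ((m ^ (k * 2)) ^ 3) ^ 2) * (256 / 27 * ((m ^ (l * 2)) ^ 3) ^ 2) := by
          gcongr
        _ = (256 / 27 * m ^ (6 * (k + l))) ^ 2 := by ring
    exact le_of_sq_le_sq h1 (by positivity)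

/-- If `f` divides `X^n - 1` modulo 2. -/
theorem one_binomial (f g h : ℤ[X]) (n : ℕ) (hn : 0 < n)
    (hlc : |f.leadingCoeff| = 1) (hU : NoUnityRoots f)
    (hfg : X ^ n - 1 = f * g + 2 * h) :
    (108 : ℝ) ^ f.natDegree ≤ mahlerMeasureZ f ^ (12 * n) := by
  set A : ℤ[X] := X ^ n with hA
  set F : ℤ[X] := ((A ^ 2 - 1) ^ 2 * (A ^ 2 + 1)) ^ 2 with hF
  set H : ℤ[X] := (h ^ 2 * (h + 1) ^ 2 * (2 * h ^ 2 + A)) ^ 2 with hH
  have key := key_ineq f F H 1024 (256 / 27) (12 * n) hlc ?_ ?_ ?_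
  · have e1 : (108 : ℝ) ^ f.natDegree * (256 / 27) ^ f.natDegree
          = ((1024 : ℕ) : ℝ) ^ f.natDegree := by
      rw [← mul_pow]
      norm_num
    have e3 : (0 : ℝ) < (256 / 27) ^ f.natDegree := by positivity
    rw [← e1, mul_comm] at key
    exact le_of_mul_le_mul_left key e3
  · intro z hz
    have e : z ^ n - 1 = 2 * aeval z h := by
      have := congrArg (fun P => aeval z P) hfg
      simp only [map_mul, map_sub, map_pow, aeval_X, map_one, map_add, hz, zero_mul, zero_add,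
        map_ofNat, hA] at this
      exact this
    simp only [hF, hH, hA, map_mul, map_sub, map_pow, aeval_X, map_one, map_add, map_ofNat]
    set a := z ^ n with ha
    set η := aeval z h with hη
    have e2 : a + 1 = 2 * (η + 1) := by linear_combination e
    have e3 : a ^ 2 + 1 = 2 * (2 * η ^ 2 + a) := by
      linear_combination (a - 1 + 2 * η) * e
    have e4 : (a ^ 2 - 1) ^ 2 * (a ^ 2 + 1) =
        (a - 1) ^ 2 * (a + 1) ^ 2 * (a ^ 2 + 1) := by ring
    rw [e4, e, e2, e3]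
    push_cast
    ring
  · intro z hz h0
    have hne : ∀ n : ℕ, 0 < n → z ^ n ≠ 1 := hU z hz
    simp only [hF, hA, map_mul, map_sub, map_pow, aeval_X, map_one, map_add] at h0
    have hk2 : (z ^ n) ^ 2 - 1 ≠ 0 := by
      rw [← pow_mul]; exact sub_ne_zero.2 (hne _ (by omega))
    have hk4 : (z ^ n) ^ 2 + 1 ≠ 0 := by
      intro h'
      apply hne (n * 4) (by omega)
      rw [pow_mul]
      linear_combination ((z ^ n) ^ 2 - 1) * h'
    exact pow_ne_zero 2 (mul_ne_zero (pow_ne_zero 2 hk2) hk4) h0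
  · intro z
    simp only [hF, hA, map_mul, map_sub, map_pow, aeval_X, map_one, map_add]
    have b1 := phi_bound ((z ^ n) ^ 2)
    rw [← pow_mul, max_pow] at b1
    rw [← pow_mul, norm_pow]
    refine b1.trans (le_of_eq ?_)
    ring

lemma norm_sub_sign_le (w : ℂ) (s : ℤ) (hs : |s| = 1) : ‖w - (s : ℂ)‖ ≤ 2 * max 1 ‖w‖ := by
  have h1 : ‖(s : ℂ)‖ = 1 := by rw [Complex.norm_intCast]; exact_mod_cast hs
  calc ‖w - (s : ℂ)‖ ≤ ‖w‖ + ‖(s : ℂ)‖ := norm_sub_le _ _
    _ ≤ max 1 ‖w‖ + max 1 ‖w‖ := by rw [h1]; gcongr <;> simp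
    _ = 2 * max 1 ‖w‖ := by ring

lemma pow_ne_sign {z : ℂ} (hne : ∀ n : ℕ, 0 < n → z ^ n ≠ 1) (n : ℕ) (hn : 0 < n) (s : ℤ)
    (hs : |s| = 1) : z ^ n - (s : ℂ) ≠ 0 := by
  intro h
  rcases (abs_eq (by norm_num : (0:ℤ) ≤ 1)).1 hs with h' | h'
  · rw [h'] at h
    exact hne n hn (by push_cast at h; linear_combination h)
  · rw [h'] at h
    apply hne (n * 2) (by omega)
    rw [pow_mul]
    push_cast at h
    linear_combination (z ^ n - 1) * h

/-- `f` divides `X^n - s` modulo 3. -/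
theorem one_binomial3 (f g h : ℤ[X]) (n : ℕ) (hn : 0 < n) (s : ℤ) (hs : |s| = 1)
    (hlc : |f.leadingCoeff| = 1) (hU : NoUnityRoots f)
    (hfg : X ^ n - C s = f * g + 3 * h) :
    (3 / 2 : ℝ) ^ f.natDegree ≤ mahlerMeasureZ f ^ n := by
  have key := key_ineq f (X ^ n - C s) h 3 2 n hlc ?_ ?_ ?_
  · have e1 : (3 / 2 : ℝ) ^ f.natDegree * 2 ^ f.natDegree = ((3 : ℕ) : ℝ) ^ f.natDegree := by
      rw [← mul_pow]
      norm_num
    have e3 : (0 : ℝ) < 2 ^ f.natDegree := by positivity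
    rw [← e1, mul_comm] at key
    exact le_of_mul_le_mul_left key e3
  · intro z hz
    rw [hfg]
    simp only [map_add, map_mul, hz, zero_mul, zero_add, map_ofNat]
    norm_num
  · intro z hz
    have := pow_ne_sign (hU z hz) n hn s hs
    simpa using this
  · intro z
    simp only [map_sub, map_pow, aeval_X, eq_intCast, map_intCast]
    rw [← max_pow]
    exact norm_sub_sign_le _ s hs

/-- `f` divides `(X^n - s)^2` modulo 3. -/
theorem sq_binomial3 (f g h : ℤ[X]) (n : ℕ) (hn : 0 < n) (s : ℤ) (hs : |s| = 1)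
    (hlc : |f.leadingCoeff| = 1) (hU : NoUnityRoots f)
    (hfg : (X ^ n - C s) ^ 2 = f * g + 3 * h) :
    (27 / 4 : ℝ) ^ f.natDegree ≤ mahlerMeasureZ f ^ (6 * n) := by
  have hss : (s : ℂ) * s = 1 := by
    rcases (abs_eq (by norm_num : (0:ℤ) ≤ 1)).1 hs with h' | h' <;> rw [h'] <;> norm_num
  have key := key_ineq f ((X ^ (n * 3) - C s) ^ 2) (h * (h + C s * X ^ n) ^ 2) 27 4 (6 * n)
    hlc ?_ ?_ ?_
  · have e1 : (27 / 4 : ℝ) ^ f.natDegree * 4 ^ f.natDegree = ((27 : ℕ) : ℝ) ^ f.natDegree := by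
      rw [← mul_pow]
      norm_num
    have e3 : (0 : ℝ) < 4 ^ f.natDegree := by positivity
    rw [← e1, mul_comm] at key
    exact le_of_mul_le_mul_left key e3
  · intro z hz
    have e : (z ^ n - s) ^ 2 = 3 * aeval z h := by
      have := congrArg (fun P => aeval z P) hfg
      simp only [map_mul, map_sub, map_pow, aeval_X, map_add, hz, zero_mul, zero_add,
        map_ofNat, eq_intCast, map_intCast] at this
      exact this
    simp only [map_mul, map_sub, map_pow, aeval_X, map_add, eq_intCast, map_intCast]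
    rw [pow_mul]
    set a := z ^ n with ha
    set η := aeval z h with hη
    have e2 : a ^ 3 - s = (a - s) * ((a - s) ^ 2 + 3 * s * a) := by
      linear_combination (s : ℂ) * hss
    rw [e2, mul_pow, e]
    push_cast
    ring
  · intro z hz
    have := pow_ne_sign (hU z hz) (n * 3) (by omega) s hs
    have h2 := pow_ne_zero 2 this
    simpa using h2
  · intro z
    simp only [map_sub, map_pow, aeval_X, eq_intCast, map_intCast, norm_pow]
    have h1 := norm_sub_sign_le (z ^ (n * 3)) s hs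
    rw [max_pow] at h1
    calc ‖z ^ (n * 3) - (s : ℂ)‖ ^ 2 ≤ (2 * max 1 ‖z‖ ^ (n * 3)) ^ 2 := by gcongr
      _ = 4 * max 1 ‖z‖ ^ (6 * n) := by ring

/-- `f` divides `(X^k - s) * (X^l - t)` modulo 3. -/
theorem two_binomials3 (f g h : ℤ[X]) (k l : ℕ) (hk : 0 < k) (hl : 0 < l) (s t : ℤ)
    (hs : |s| = 1) (ht : |t| = 1)
    (hlc : |f.leadingCoeff| = 1) (hU : NoUnityRoots f)
    (hfg : (X ^ k - C s) * (X ^ l - C t) = f * g + 3 * h) :
    (9 / 4 : ℝ) ^ f.natDegree ≤ mahlerMeasureZ f ^ (3 * (k + l)) := by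
  have hss : (s : ℂ) * s = 1 := by
    rcases (abs_eq (by norm_num : (0:ℤ) ≤ 1)).1 hs with h' | h' <;> rw [h'] <;> norm_num
  have htt : (t : ℂ) * t = 1 := by
    rcases (abs_eq (by norm_num : (0:ℤ) ≤ 1)).1 ht with h' | h' <;> rw [h'] <;> norm_num
  have key := key_ineq f ((X ^ (k * 3) - C s) * (X ^ (l * 3) - C t))
    (h * (3 * h ^ 2 + C s * X ^ k * (X ^ l - C t) ^ 2 + C t * X ^ l * (X ^ k - C s) ^ 2
      + 3 * C s * C t * X ^ k * X ^ l)) 9 4 (3 * (k + l)) hlc ?_ ?_ ?_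
  · have e1 : (9 / 4 : ℝ) ^ f.natDegree * 4 ^ f.natDegree = ((9 : ℕ) : ℝ) ^ f.natDegree := by
      rw [← mul_pow]
      norm_num
    have e3 : (0 : ℝ) < 4 ^ f.natDegree := by positivity
    rw [← e1, mul_comm] at key
    exact le_of_mul_le_mul_left key e3
  · intro z hz
    have e : (z ^ k - s) * (z ^ l - t) = 3 * aeval z h := by
      have := congrArg (fun P => aeval z P) hfg
      simp only [map_mul, map_sub, map_pow, aeval_X, map_add, hz, zero_mul, zero_add,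
        map_ofNat, eq_intCast, map_intCast] at this
      exact this
    simp only [map_mul, map_sub, map_pow, aeval_X, map_add, eq_intCast, map_intCast,
      map_ofNat]
    rw [pow_mul, pow_mul]
    set a := z ^ k with ha
    set b := z ^ l with hb
    set η := aeval z h with hη
    have e2 : a ^ 3 - s = (a - s) * ((a - s) ^ 2 + 3 * s * a) := by
      linear_combination (s : ℂ) * hss
    have e3 : b ^ 3 - t = (b - t) * ((b - t) ^ 2 + 3 * t * b) := by
      linear_combination (t : ℂ) * htt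
    have e4 : (a - s) * ((a - s) ^ 2 + 3 * s * a) * ((b - t) * ((b - t) ^ 2 + 3 * t * b)) =
      ((a - s) * (b - t)) * (((a - s) * (b - t)) ^ 2 + 3 * s * a * (b - t) ^ 2
        + 3 * t * b * (a - s) ^ 2 + 9 * s * t * a * b) := by ring
    rw [e2, e3, e4, e]
    push_cast
    ring
  · intro z hz
    have h1 := pow_ne_sign (hU z hz) (k * 3) (by omega) s hs
    have h2 := pow_ne_sign (hU z hz) (l * 3) (by omega) t ht
    have h3 := mul_ne_zero h1 h2
    simpa using h3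
  · intro z
    simp only [map_sub, map_pow, map_mul, aeval_X, eq_intCast, map_intCast]
    have h1 := norm_sub_sign_le (z ^ (k * 3)) s hs
    have h2 := norm_sub_sign_le (z ^ (l * 3)) t ht
    rw [max_pow] at h1 h2
    rw [norm_mul]
    calc ‖z ^ (k * 3) - (s : ℂ)‖ * ‖z ^ (l * 3) - (t : ℂ)‖
        ≤ (2 * max 1 ‖z‖ ^ (k * 3)) * (2 * max 1 ‖z‖ ^ (l * 3)) := by gcongr
      _ = 4 * max 1 ‖z‖ ^ (3 * (k + l)) := by ring

end Pool.Agent.H25
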