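import Mathlib

/-!
The function `g φ = log |2 sin (φ/2)|` and its primitive `L` (minus the Clausen function).
-/

set_option autoImplicit false

open Real MeasureTheory intervalIntegral Set

namespace Pool.Agent.H25

/-- `log |2 sin (φ/2)|`. -/
noncomputable def g (φ : ℝ) : ℝ := Real.log (2 * Real.sin (φ / 2))

lemma g_neg (φ : ℝ) : g (-φ) = g φ := by
  unfold g
  rw [neg_div, Real.sin_neg, mul_neg, Real.log_neg_eq_log]

lemma g_add_two_pi (φ : ℝ) : g (φ + 2 * π) = g φ := by
  unfold g
  rw [add_div, show 2 * π / 2 = π by ring, Real.sin_add_pi, mul_neg, Real.log_neg_eq_log]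

lemma g_add_int (φ : ℝ) (m : ℤ) : g (φ + m * (2 * π)) = g φ := by
  have h : Function.Periodic g (2 * π) := g_add_two_pi
  exact h.int_mul m φ

lemma g_le (φ : ℝ) : g φ ≤ Real.log 2 := by
  unfold g
  rcases eq_or_ne (2 * Real.sin (φ / 2)) 0 with h | h
  · rw [h, Real.log_zero]; positivity
  · rw [← Real.log_abs]
    apply Real.log_le_log (abs_pos.2 h)
    rw [abs_mul, abs_two]
    have := Real.abs_sin_le_one (φ / 2)
    linarith

lemma g_intervalIntegrable (a b : ℝ) : IntervalIntegrable g volume a b := by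
  have : MeromorphicOn (fun φ : ℝ => 2 * Real.sin (φ / 2)) (Set.uIcc a b) := by
    intro x _
    apply AnalyticAt.meromorphicAt
    fun_prop
  exact this.intervalIntegrable_log

lemma integral_g_zero_pi : ∫ t in (0:ℝ)..π, g t = 0 := by
  have h1 : ∫ t in (0:ℝ)..π, g t = ∫ t in (0:ℝ)..π, (Real.log 2 + Real.log (Real.sin (t / 2))) := by
    apply intervalIntegral.integral_congr_ae
    filter_upwards with t
    intro ht
    rw [Set.uIoc_of_le Real.pi_pos.le] at ht
    unfold g
    rw [Real.log_mul (by norm_num)]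
    apply ne_of_gt
    apply Real.sin_pos_of_pos_of_lt_pi
    · linarith [ht.1]
    · linarith [ht.2, Real.pi_pos]
  rw [h1, intervalIntegral.integral_add intervalIntegrable_const]
  · rw [intervalIntegral.integral_const,
      intervalIntegral.integral_comp_div (fun t => Real.log (Real.sin t)) (by norm_num : (2:ℝ) ≠ 0)]
    rw [zero_div, integral_log_sin_zero_pi_div_two]
    simp only [smul_eq_mul]
    ring
  · have : MeromorphicOn (fun φ : ℝ => Real.sin (φ / 2)) (Set.uIcc 0 π) := by
      intro x _
      apply AnalyticAt.meromorphicAt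
      fun_prop
    exact this.intervalIntegrable_log

/-- The primitive of `g`. -/
noncomputable def L (φ : ℝ) : ℝ := ∫ t in (0:ℝ)..φ, g t

lemma L_sub (a b : ℝ) : L b - L a = ∫ t in a..b, g t := by
  unfold L
  rw [intervalIntegral.integral_interval_sub_left (g_intervalIntegrable _ _)
    (g_intervalIntegrable _ _)]

lemma L_continuous : Continuous L := by
  exact intervalIntegral.continuous_primitive (fun a b => g_intervalIntegrable a b) 0

lemma g_continuousAt {φ : ℝ} (h : Real.sin (φ / 2) ≠ 0) : ContinuousAt g φ := by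
  unfold g
  apply ContinuousAt.log
  · fun_prop
  · simpa using h

lemma L_hasDerivAt {φ : ℝ} (h : Real.sin (φ / 2) ≠ 0) : HasDerivAt L (g φ) φ := by
  apply intervalIntegral.integral_hasDerivAt_right (g_intervalIntegrable _ _)
  · have : Measurable g := by unfold g; fun_prop
    exact this.stronglyMeasurable.stronglyMeasurableAtFilter
  · exact g_continuousAt h

lemma L_neg (φ : ℝ) : L (-φ) = - L φ := by
  unfold L
  have : ∫ t in (0:ℝ)..-φ, g t = ∫ t in (0:ℝ)..-φ, g (-t) := by
    simp only [g_neg]
  rw [this, intervalIntegral.integral_comp_neg, neg_zero, neg_neg, intervalIntegral.integral_symm]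

lemma L_pi : L π = 0 := integral_g_zero_pi

lemma L_two_pi : L (2 * π) = 0 := by
  have h1 := L_sub (-π) π
  rw [L_neg, L_pi] at h1
  have h2 : Function.Periodic g (2 * π) := g_add_two_pi
  have h3 := h2.intervalIntegral_add_eq 0 (-π)
  unfold L
  rw [zero_add] at h3
  rw [h3, show -π + 2 * π = π by ring, ← h1]
  ring

lemma L_add_two_pi (φ : ℝ) : L (φ + 2 * π) = L φ := by
  have h2 : Function.Periodic g (2 * π) := g_add_two_pi
  have h3 := h2.intervalIntegral_add_eq 0 φ
  rw [zero_add] at h3
  have h4 := L_sub φ (φ + 2 * π)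
  rw [← h3] at h4
  have h5 : ∫ t in (0:ℝ)..2 * π, g t = 0 := L_two_pi
  rw [h5] at h4
  linarith

lemma L_add_int (φ : ℝ) (m : ℤ) : L (φ + m * (2 * π)) = L φ := by
  have h : Function.Periodic L (2 * π) := L_add_two_pi
  exact h.int_mul m φ

lemma sin_half_ge {t : ℝ} (h0 : 0 ≤ t) (h1 : t ≤ π / 3) : 3 / π * t ≤ 2 * Real.sin (t / 2) := by
  have hpi := Real.pi_pos
  have hconc := strictConcaveOn_sin_Icc.concaveOn
  have m1 : (0 : ℝ) ∈ Icc 0 π := ⟨le_rfl, hpi.le⟩
  have m2 : π / 6 ∈ Icc 0 π := ⟨by positivity, by linarith⟩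
  have w1 : 0 ≤ 1 - 3 * t / π := by rw [sub_nonneg, div_le_one hpi]; linarith
  have w2 : 0 ≤ 3 * t / π := by positivity
  have h2 := hconc.2 m1 m2 w1 w2 (by ring)
  simp only [smul_eq_mul, Real.sin_zero, mul_zero, zero_add, Real.sin_pi_div_six] at h2
  have e : 3 * t / π * (π / 6) = t / 2 := by field_simp; ring
  rw [e] at h2
  calc 3 / π * t = 2 * (3 * t / π * (1 / 2)) := by ring
    _ ≤ _ := by linarith

lemma one_le_two_sin {t : ℝ} (h0 : π / 3 ≤ t) (h1 : t ≤ 2 * π - π / 3) :
    1 ≤ 2 * Real.sin (t / 2) := by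
  have hpi := Real.pi_pos
  rcases le_total t π with h | h
  · have : Real.sin (π / 6) ≤ Real.sin (t / 2) :=
      Real.sin_le_sin_of_le_of_le_pi_div_two (by linarith) (by linarith) (by linarith)
    rw [Real.sin_pi_div_six] at this
    linarith
  · have : Real.sin (π / 6) ≤ Real.sin (π - t / 2) :=
      Real.sin_le_sin_of_le_of_le_pi_div_two (by linarith) (by linarith) (by linarith)
    rw [Real.sin_pi_div_six, Real.sin_pi_sub] at this
    linarith

lemma g_nonneg {t : ℝ} (h0 : π / 3 ≤ t) (h1 : t ≤ 2 * π - π / 3) : 0 ≤ g t :=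
  Real.log_nonneg (one_le_two_sin h0 h1)

lemma g_ge_log {t : ℝ} (h0 : 0 < t) (h1 : t ≤ π / 3) : Real.log (3 / π * t) ≤ g t := by
  have hpi := Real.pi_pos
  exact Real.log_le_log (by positivity) (sin_half_ge h0.le h1)

lemma g_nonpos {t : ℝ} (h0 : 0 ≤ t) (h1 : t ≤ π / 3) : g t ≤ 0 := by
  have hpi := Real.pi_pos
  unfold g
  apply Real.log_nonpos
  · have := Real.sin_nonneg_of_nonneg_of_le_pi (x := t / 2) (by linarith) (by linarith)
    linarith
  · have : Real.sin (t / 2) ≤ Real.sin (π / 6) :=
      Real.sin_le_sin_of_le_of_le_pi_div_two (by linarith) (by linarith) (by linarith)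
    rw [Real.sin_pi_div_six] at this
    linarith

lemma integral_log_scaled : ∫ t in (0:ℝ)..(π / 3), Real.log (3 / π * t) = -(π / 3) := by
  have hpi := Real.pi_pos
  rw [intervalIntegral.integral_comp_mul_left (fun t => Real.log t) (by positivity)]
  rw [mul_zero, show 3 / π * (π / 3) = 1 by field_simp, integral_log]
  simp only [Real.log_one, smul_eq_mul]
  field_simp
  ring

lemma L_bound_aux {φ : ℝ} (h0 : 0 ≤ φ) (h1 : φ ≤ π) : -(π / 3) ≤ L φ ∧ L φ ≤ 0 := by
  have hpi := Real.pi_pos
  have hlogint : ∀ a b : ℝ, IntervalIntegrable (fun t => Real.log (3 / π * t)) volume a b := by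
    intro a b
    have : MeromorphicOn (fun φ : ℝ => 3 / π * φ) (Set.uIcc a b) := by
      intro x _
      apply AnalyticAt.meromorphicAt
      fun_prop
    exact this.intervalIntegrable_log
  -- lower bound on [0, π/3]
  have key : ∀ φ : ℝ, 0 ≤ φ → φ ≤ π / 3 → -(π / 3) ≤ L φ := by
    intro φ h0 h1
    have e1 : ∫ t in (0:ℝ)..φ, Real.log (3 / π * t) ≤ L φ := by
      unfold L
      apply intervalIntegral.integral_mono_on_of_le_Ioo h0 (hlogint _ _)
        (g_intervalIntegrable _ _)
      intro t ht
      exact g_ge_log ht.1 (ht.2.le.trans h1)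
    have e2 : ∫ t in φ..(π / 3), Real.log (3 / π * t) ≤ 0 := by
      have : ∫ t in φ..(π / 3), Real.log (3 / π * t) ≤ ∫ t in φ..(π / 3), (0 : ℝ) := by
        apply intervalIntegral.integral_mono_on h1 (hlogint _ _) intervalIntegrable_const
        intro t ht
        apply Real.log_nonpos
        · have := h0.trans ht.1; positivity
        · calc 3 / π * t ≤ 3 / π * (π / 3) := by gcongr; exact ht.2
            _ = 1 := by field_simp
      simpa using this
    have e3 := integral_log_scaled
    rw [← intervalIntegral.integral_add_adjacent_intervals (hlogint 0 φ) (hlogint φ (π / 3))] at e3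
    linarith
  rcases le_total φ (π / 3) with h | h
  · refine ⟨key φ h0 h, ?_⟩
    unfold L
    have : ∫ t in (0:ℝ)..φ, g t ≤ ∫ t in (0:ℝ)..φ, (0 : ℝ) := by
      apply intervalIntegral.integral_mono_on h0 (g_intervalIntegrable _ _) intervalIntegrable_const
      intro t ht
      exact g_nonpos ht.1 (ht.2.trans h)
    simpa using this
  · constructor
    · have e1 := L_sub (π / 3) φ
      have e2 : 0 ≤ ∫ t in (π / 3)..φ, g t := by
        apply intervalIntegral.integral_nonneg h
        intro t ht
        exact g_nonneg ht.1 (by linarith [ht.2])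
      have e3 := key (π / 3) (by positivity) le_rfl
      linarith
    · have e1 := L_sub φ π
      rw [L_pi] at e1
      have e2 : 0 ≤ ∫ t in φ..π, g t := by
        apply intervalIntegral.integral_nonneg h1
        intro t ht
        exact g_nonneg (h.trans ht.1) (by linarith [ht.2])
      linarith

lemma abs_L_le (φ : ℝ) : |L φ| ≤ π / 3 := by
  have hpi := Real.pi_pos
  set m : ℤ := round (φ / (2 * π)) with hm
  have h1 : |φ / (2 * π) - m| ≤ 1 / 2 := abs_sub_round _
  set ψ := φ - m * (2 * π) with hψ
  have h2 : L φ = L ψ := by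
    have := L_add_int ψ m
    rw [hψ, sub_add_cancel] at this
    exact this
  have h3 : |ψ| ≤ π := by
    have : ψ = (φ / (2 * π) - m) * (2 * π) := by
      rw [hψ]; field_simp
    rw [this, abs_mul, abs_of_pos (by positivity : 0 < 2 * π)]
    calc |φ / (2 * π) - m| * (2 * π) ≤ 1 / 2 * (2 * π) := by gcongr
      _ = π := by ring
  rw [h2, abs_le]
  rw [abs_le] at h3
  rcases le_total 0 ψ with h | h
  · have := L_bound_aux h h3.2
    constructor
    · exact this.1
    · linarith [this.2]
  · have := L_bound_aux (φ := -ψ) (by linarith) (by linarith)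
    rw [L_neg] at this
    constructor
    · linarith [this.2]
    · linarith [this.1]

end Pool.Agent.H25
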