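import Mathlib
import Pool.Agent.H25.Clausen

/-!
Lower bounds for `∫ g (Φ x) dx` with `Φ` convex.
-/

set_option autoImplicit false

open Real MeasureTheory intervalIntegral Set

namespace Pool.Agent.H25

lemma two_pi_int_of_sin_half {φ : ℝ} (h : Real.sin (φ / 2) = 0) :
    φ ∈ Set.range (fun m : ℤ => (m : ℝ) * (2 * π)) := by
  rw [Real.sin_eq_zero_iff] at h
  obtain ⟨n, hn⟩ := h
  exact ⟨n, by simp only; linarith⟩

lemma steep (a b : ℝ) (hab : a ≤ b) (Φ D ψ ψ' : ℝ → ℝ)
    (hΦc : ContinuousOn Φ (Icc a b)) (hΦ : ∀ x ∈ Ioo a b, HasDerivAt Φ (D x) x)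
    (hψc : ContinuousOn ψ (Icc a b)) (hψ : ∀ x ∈ Ioo a b, HasDerivAt ψ (ψ' x) x)
    (hψ' : ∀ x ∈ Ioo a b, ψ' x ≤ 0) (hDψ : ∀ x ∈ Ioo a b, D x * ψ x = 1)
    (hinj : InjOn Φ (Ioo a b))
    (hint : IntervalIntegrable (fun x => g (Φ x)) volume a b) :
    -(π / 3) * (|ψ a| + |ψ b| + (ψ a - ψ b)) ≤ ∫ x in a..b, g (Φ x) := by
  have hpi := Real.pi_pos
  set S : Set ℝ := {x ∈ Ioo a b | Real.sin (Φ x / 2) = 0} with hS
  have hSc : S.Countable := by
    apply Set.countable_of_injective_of_countable_image (f := Φ)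
      (hinj.mono (fun x hx => hx.1))
    apply (Set.countable_range (fun m : ℤ => (m : ℝ) * (2 * π))).mono
    rintro _ ⟨x, hx, rfl⟩
    exact two_pi_int_of_sin_half hx.2
  have hψint : IntervalIntegrable ψ' volume a b := by
    have : IntervalIntegrable (fun x => - ψ' x) volume a b := by
      apply intervalIntegral.intervalIntegrable_deriv_of_nonneg (g := fun x => - ψ x)
      · rw [Set.uIcc_of_le hab]; exact hψc.neg
      · rw [min_eq_left hab, max_eq_right hab]
        intro x hx; exact (hψ x hx).neg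
      · rw [min_eq_left hab, max_eq_right hab]
        intro x hx; linarith [hψ' x hx]
    have h := this.neg
    have e : (-fun x => - ψ' x) = ψ' := by ext x; simp
    rwa [e] at h
  have hLΦ : ContinuousOn (fun x => L (Φ x)) (Icc a b) := L_continuous.comp_continuousOn hΦc
  have hint2 : IntervalIntegrable (fun x => L (Φ x) * ψ' x) volume a b := by
    apply hψint.continuousOn_mul
    rw [Set.uIcc_of_le hab]
    exact hLΦ
  have hFTC := MeasureTheory.integral_eq_of_hasDerivAt_off_countable_of_le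
    (fun x => L (Φ x) * ψ x) (fun x => g (Φ x) + L (Φ x) * ψ' x) hab hSc
    (hLΦ.mul hψc) (by
      intro x hx
      have hx1 : x ∈ Ioo a b := hx.1
      have hx2 : Real.sin (Φ x / 2) ≠ 0 := fun h => hx.2 ⟨hx1, h⟩
      have h1 := (L_hasDerivAt hx2).comp x (hΦ x hx1)
      have h2 := h1.mul (hψ x hx1)
      have e : g (Φ x) + L (Φ x) * ψ' x = (g (Φ x) * D x) * ψ x + L (Φ x) * ψ' x := by
        linear_combination - g (Φ x) * hDψ x hx1
      rw [e]
      exact h2) (hint.add hint2)
  rw [intervalIntegral.integral_add hint hint2] at hFTC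
  have h1 : ∫ x in a..b, L (Φ x) * ψ' x ≤ ∫ x in a..b, (-(π / 3)) * (ψ' x) := by
    apply intervalIntegral.integral_mono_on_of_le_Ioo hab hint2 (hψint.const_mul _)
    intro x hx
    have h3 := abs_L_le (Φ x)
    have h4 := hψ' x hx
    rw [abs_le] at h3
    nlinarith [h3.1, h3.2]
  have h2 : ∫ x in a..b, (-(π / 3)) * (ψ' x) = (π / 3) * (ψ a - ψ b) := by
    rw [intervalIntegral.integral_const_mul,
      intervalIntegral.integral_eq_sub_of_hasDerivAt_of_le hab hψc hψ hψint]
    ring
  have h3 : |L (Φ a) * ψ a| ≤ π / 3 * |ψ a| := by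
    rw [abs_mul]; gcongr; exact abs_L_le _
  have h4 : |L (Φ b) * ψ b| ≤ π / 3 * |ψ b| := by
    rw [abs_mul]; gcongr; exact abs_L_le _
  rw [abs_le] at h3 h4
  linarith [h3.2, h4.1]

/-- three points inequality -/
lemma three_points (c d : ℝ) (Ψ D : ℝ → ℝ) (μ : ℝ)
    (hΨ : ∀ x ∈ Icc c d, HasDerivAt Ψ (D x) x)
    (hD : ∀ x ∈ Icc c d, ∀ y ∈ Icc c d, x ≤ y → μ * (y - x) ≤ D y - D x)
    (u v w : ℝ) (hu : c ≤ u) (huv : u < v) (hvw : v < w) (hw : w ≤ d) :
    (w - u) * Ψ v ≤ (w - v) * Ψ u + (v - u) * Ψ w - μ / 2 * ((v - u) * (w - v) * (w - u)) := by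
  set h : ℝ → ℝ := fun x => Ψ x - μ / 2 * x ^ 2 with hh
  have hder : ∀ x ∈ Icc c d, HasDerivAt h (D x - μ * x) x := by
    intro x hx
    have h1 : HasDerivAt (fun x : ℝ => μ / 2 * x ^ 2) (μ / 2 * (2 * x)) x := by
      have := (hasDerivAt_pow 2 x).const_mul (μ / 2)
      simpa using this
    have := (hΨ x hx).sub h1
    have e : D x - μ * x = D x - μ / 2 * (2 * x) := by ring
    rw [e]
    exact this
  have hcont : ContinuousOn h (Icc c d) := fun x hx => (hder x hx).continuousAt.continuousWithinAt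
  have hconv : ConvexOn ℝ (Icc c d) h := by
    apply MonotoneOn.convexOn_of_deriv (convex_Icc c d) hcont
    · rw [interior_Icc]
      intro x hx
      exact (hder x (Ioo_subset_Icc_self hx)).differentiableAt.differentiableWithinAt
    · rw [interior_Icc]
      intro x hx y hy hxy
      rw [(hder x (Ioo_subset_Icc_self hx)).deriv, (hder y (Ioo_subset_Icc_self hy)).deriv]
      have := hD x (Ioo_subset_Icc_self hx) y (Ioo_subset_Icc_self hy) hxy
      linarith
  have hsl := hconv.slope_mono_adjacent (x := u) (y := v) (z := w) ⟨hu, by linarith⟩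
    ⟨by linarith, hw⟩ huv hvw
  have h1 : 0 < v - u := by linarith
  have h2 : 0 < w - v := by linarith
  rw [div_le_div_iff₀ h1 h2] at hsl
  simp only [hh] at hsl
  nlinarith

lemma two_points (c d : ℝ) (Ψ D : ℝ → ℝ) (μ : ℝ)
    (hΨ : ∀ x ∈ Icc c d, HasDerivAt Ψ (D x) x)
    (hD : ∀ x ∈ Icc c d, ∀ y ∈ Icc c d, x ≤ y → μ * (y - x) ≤ D y - D x)
    (s : ℝ) (hs : s ∈ Icc c d)
    (hgrow : ∀ x ∈ Icc c d, Ψ s + μ / 2 * (x - s) ^ 2 ≤ Ψ x) :
    ∃ p q : ℝ, ∀ x ∈ Icc c d, μ / 2 * (|x - p| * |x - q|) ≤ |Ψ x| := by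
  have hcont : ContinuousOn Ψ (Icc c d) := fun x hx => (hΨ x hx).continuousAt.continuousWithinAt
  rcases le_or_gt 0 (Ψ s) with h0 | h0
  · refine ⟨s, s, ?_⟩
    intro x hx
    have h1 := hgrow x hx
    rw [← abs_mul, ← sq, abs_of_nonneg (sq_nonneg _)]
    calc μ / 2 * (x - s) ^ 2 ≤ Ψ x := by linarith
      _ ≤ |Ψ x| := le_abs_self _
  · obtain ⟨q, hq1, hq2, hq3, hq4⟩ : ∃ q, s ≤ q ∧ q ≤ d ∧ Ψ q ≤ 0 ∧ (q = d ∨ (Ψ q = 0 ∧ s < q)) := by
      rcases le_or_gt (Ψ d) 0 with h1 | h1
      · exact ⟨d, hs.2, le_rfl, h1, Or.inl rfl⟩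
      · have hc' : ContinuousOn Ψ (Icc s d) := hcont.mono (Icc_subset_Icc_left hs.1)
        obtain ⟨q, hq, hq0⟩ := intermediate_value_Icc hs.2 hc' ⟨h0.le, h1.le⟩
        refine ⟨q, hq.1, hq.2, hq0.le, Or.inr ⟨hq0, ?_⟩⟩
        rcases eq_or_lt_of_le hq.1 with h | h
        · exfalso; rw [h, hq0] at h0; exact lt_irrefl _ h0
        · exact h
    obtain ⟨p, hp1, hp2, hp3, hp4⟩ : ∃ p, p ≤ s ∧ c ≤ p ∧ Ψ p ≤ 0 ∧ (p = c ∨ (Ψ p = 0 ∧ p < s)) := by
      rcases le_or_gt (Ψ c) 0 with h1 | h1
      · exact ⟨c, hs.1, le_rfl, h1, Or.inl rfl⟩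
      · have hc' : ContinuousOn Ψ (Icc c s) := hcont.mono (Icc_subset_Icc_right hs.2)
        obtain ⟨p, hp, hp0⟩ := intermediate_value_Icc' hs.1 hc' ⟨h0.le, h1.le⟩
        refine ⟨p, hp.2, hp.1, hp0.le, Or.inr ⟨hp0, ?_⟩⟩
        rcases eq_or_lt_of_le hp.2 with h | h
        · exfalso; rw [← h, hp0] at h0; exact lt_irrefl _ h0
        · exact h
    refine ⟨p, q, ?_⟩
    intro x hx
    rcases lt_trichotomy x p with hxp | hxp | hxp
    · -- x < p
      have hpc : Ψ p = 0 ∧ p < s := by
        rcases hp4 with h | h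
        · exfalso; rw [h] at hxp; exact absurd hx.1 (not_le.2 hxp)
        · exact h
      have hpq : p < q := lt_of_lt_of_le hpc.2 hq1
      have h3 := three_points c d Ψ D μ hΨ hD x p q hx.1 hxp hpq hq2
      rw [hpc.1] at h3
      have h4 : (q - p) * (μ / 2 * ((p - x) * (q - x))) ≤ (q - p) * Ψ x := by nlinarith
      have h5 := le_of_mul_le_mul_left h4 (by linarith)
      rw [abs_of_neg (by linarith : x - p < 0), abs_of_neg (by linarith : x - q < 0)]
      calc μ / 2 * (-(x - p) * -(x - q)) = μ / 2 * ((p - x) * (q - x)) := by ring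
        _ ≤ Ψ x := h5
        _ ≤ |Ψ x| := le_abs_self _
    · rw [hxp, sub_self, abs_zero, zero_mul, mul_zero]; exact abs_nonneg _
    rcases lt_trichotomy x q with hxq | hxq | hxq
    · -- p < x < q
      have h3 := three_points c d Ψ D μ hΨ hD p x q hp2 hxp hxq hq2
      have h4 : (q - p) * (μ / 2 * ((x - p) * (q - x))) ≤ (q - p) * (- Ψ x) := by nlinarith
      have h5 := le_of_mul_le_mul_left h4 (by linarith)
      rw [abs_of_pos (by linarith : 0 < x - p), abs_of_neg (by linarith : x - q < 0)]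
      calc μ / 2 * ((x - p) * -(x - q)) = μ / 2 * ((x - p) * (q - x)) := by ring
        _ ≤ - Ψ x := h5
        _ ≤ |Ψ x| := neg_le_abs _
    · rw [hxq, sub_self, abs_zero, mul_zero, mul_zero]; exact abs_nonneg _
    · -- q < x
      have hqc : Ψ q = 0 ∧ s < q := by
        rcases hq4 with h | h
        · exfalso; rw [h] at hxq; exact absurd hx.2 (not_le.2 hxq)
        · exact h
      have hpq : p < q := lt_of_le_of_lt hp1 hqc.2
      have h3 := three_points c d Ψ D μ hΨ hD p q x hp2 hpq hxq hx.2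
      rw [hqc.1] at h3
      have h4 : (q - p) * (μ / 2 * ((x - p) * (x - q))) ≤ (q - p) * Ψ x := by nlinarith
      have h5 := le_of_mul_le_mul_left h4 (by linarith)
      rw [abs_of_pos (by linarith : 0 < x - p), abs_of_pos (by linarith : 0 < x - q)]
      calc μ / 2 * ((x - p) * (x - q)) ≤ Ψ x := h5
        _ ≤ |Ψ x| := le_abs_self _

/-- `min 0 (log |u|)` -/
noncomputable def ml (u : ℝ) : ℝ := min 0 (Real.log u)

lemma ml_le (u : ℝ) : ml u ≤ 0 := min_le_left _ _

lemma ml_intervalIntegrable (a b : ℝ) : IntervalIntegrable ml volume a b := by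
  have h1 : IntervalIntegrable Real.log volume a b := intervalIntegrable_log'
  have h2 : ml = fun u => (Real.log u - |Real.log u|) / 2 := by
    ext u
    unfold ml
    rcases le_total 0 (Real.log u) with h | h
    · rw [min_eq_left h, abs_of_nonneg h]; ring
    · rw [min_eq_right h, abs_of_nonpos h]; ring
  rw [h2]
  exact (h1.sub h1.abs).div_const 2

lemma integral_ml_ge (a b : ℝ) : -2 ≤ ∫ u in a..b, ml u := by
  set a' := min a (-1) with ha'
  set b' := max b 1 with hb'
  have hle1 : a' ≤ a := min_le_left _ _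
  have hle2 : a' ≤ -1 := min_le_right _ _
  have hle3 : b ≤ b' := le_max_left _ _
  have hle4 : 1 ≤ b' := le_max_right _ _
  have hI := ml_intervalIntegrable
  have h1 : ∫ u in a'..b', ml u ≤ ∫ u in a..b, ml u := by
    rw [← intervalIntegral.integral_add_adjacent_intervals (hI a' a) (hI a b'),
      ← intervalIntegral.integral_add_adjacent_intervals (hI a b) (hI b b')]
    have e1 : ∫ u in a'..a, ml u ≤ 0 := by
      have : ∫ u in a'..a, ml u ≤ ∫ u in a'..a, (0:ℝ) := by
        apply intervalIntegral.integral_mono_on hle1 (hI _ _) intervalIntegrable_const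
        intro t _; exact ml_le t
      simpa using this
    have e2 : ∫ u in b..b', ml u ≤ 0 := by
      have : ∫ u in b..b', ml u ≤ ∫ u in b..b', (0:ℝ) := by
        apply intervalIntegral.integral_mono_on hle3 (hI _ _) intervalIntegrable_const
        intro t _; exact ml_le t
      simpa using this
    linarith
  have h2 : ∫ u in a'..b', ml u = -2 := by
    rw [← intervalIntegral.integral_add_adjacent_intervals (hI a' (-1)) (hI (-1) b'),
      ← intervalIntegral.integral_add_adjacent_intervals (hI (-1) 1) (hI 1 b')]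
    have e1 : ∫ u in a'..(-1), ml u = 0 := by
      have : ∫ u in a'..(-1), ml u = ∫ u in a'..(-1), (0:ℝ) := by
        apply intervalIntegral.integral_congr
        intro t ht
        rw [Set.uIcc_of_le hle2] at ht
        unfold ml
        simp only
        apply min_eq_left
        rw [← Real.log_abs]
        apply Real.log_nonneg
        rw [abs_of_nonpos (by linarith [ht.2])]
        linarith [ht.2]
      simpa using this
    have e2 : ∫ u in (1:ℝ)..b', ml u = 0 := by
      have : ∫ u in (1:ℝ)..b', ml u = ∫ u in (1:ℝ)..b', (0:ℝ) := by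
        apply intervalIntegral.integral_congr
        intro t ht
        rw [Set.uIcc_of_le hle4] at ht
        unfold ml
        simp only
        apply min_eq_left
        apply Real.log_nonneg
        exact ht.1
      simpa using this
    have e3 : ∫ u in (-1:ℝ)..1, ml u = -2 := by
      have : ∫ u in (-1:ℝ)..1, ml u = ∫ u in (-1:ℝ)..1, Real.log u := by
        apply intervalIntegral.integral_congr
        intro t ht
        rw [Set.uIcc_of_le (by norm_num : (-1:ℝ) ≤ 1)] at ht
        apply min_eq_right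
        rw [← Real.log_abs]
        apply Real.log_nonpos (abs_nonneg _)
        rw [abs_le]; exact ⟨ht.1, ht.2⟩
      rw [this, integral_log]
      norm_num
    rw [e1, e2, e3]; norm_num
  linarith

lemma integral_ml_scaled (c d p κ : ℝ) (hκ : 0 < κ) :
    -(2 / κ) ≤ ∫ x in c..d, ml (κ * x - κ * p) := by
  rw [intervalIntegral.integral_comp_mul_sub (fun u => ml u) hκ.ne']
  have h1 := integral_ml_ge (κ * c - κ * p) (κ * d - κ * p)
  rw [smul_eq_mul]
  calc -(2 / κ) = κ⁻¹ * (-2) := by field_simp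
    _ ≤ _ := by gcongr

lemma ml_scaled_intervalIntegrable (c d p κ : ℝ) :
    IntervalIntegrable (fun x => ml (κ * x - κ * p)) volume c d := by
  have h2 : (fun x => ml (κ * x - κ * p)) =
      fun x => (Real.log (κ * x - κ * p) - |Real.log (κ * x - κ * p)|) / 2 := by
    ext u
    unfold ml
    rcases le_total 0 (Real.log (κ * u - κ * p)) with h | h
    · rw [min_eq_left h, abs_of_nonneg h]; ring
    · rw [min_eq_right h, abs_of_nonpos h]; ring
  have h1 : IntervalIntegrable (fun x => Real.log (κ * x - κ * p)) volume c d := by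
    have : MeromorphicOn (fun x : ℝ => κ * x - κ * p) (Set.uIcc c d) := by
      intro x _
      apply AnalyticAt.meromorphicAt
      fun_prop
    exact this.intervalIntegrable_log
  rw [h2]
  exact (h1.sub h1.abs).div_const 2

/-- growth and range on the right of a critical point -/
lemma right_side (s d : ℝ) (hsd : s ≤ d) (Ψ D : ℝ → ℝ) (μ lam : ℝ) (hμ : 0 < μ)
    (hΨ : ∀ x ∈ Icc s d, HasDerivAt Ψ (D x) x)
    (hD : ∀ x ∈ Icc s d, ∀ y ∈ Icc s d, x ≤ y → μ * (y - x) ≤ D y - D x)
    (hDs : D s = 0) (hDd : D d ≤ lam) (x : ℝ) (hx : x ∈ Icc s d) :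
    Ψ s + μ / 2 * (x - s) ^ 2 ≤ Ψ x ∧ Ψ x ≤ Ψ s + lam ^ 2 / (2 * μ) := by
  have hs : s ∈ Icc s d := ⟨le_rfl, hsd⟩
  have hd : d ∈ Icc s d := ⟨hsd, le_rfl⟩
  constructor
  · set K : ℝ → ℝ := fun t => Ψ t - μ / 2 * (t - s) ^ 2 with hK
    have hder : ∀ t ∈ Icc s d, HasDerivAt K (D t - μ * (t - s)) t := by
      intro t ht
      have h1 : HasDerivAt (fun t : ℝ => μ / 2 * (t - s) ^ 2) (μ / 2 * (2 * (t - s))) t := by
        have := (((hasDerivAt_id t).sub_const s).pow 2).const_mul (μ / 2)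
        simpa using this
      have h2 := (hΨ t ht).sub h1
      have e : D t - μ * (t - s) = D t - μ / 2 * (2 * (t - s)) := by ring
      rw [e]; exact h2
    have hmono : MonotoneOn K (Icc s d) := by
      apply monotoneOn_of_deriv_nonneg (convex_Icc s d)
      · exact fun t ht => (hder t ht).continuousAt.continuousWithinAt
      · rw [interior_Icc]
        exact fun t ht => (hder t (Ioo_subset_Icc_self ht)).differentiableAt.differentiableWithinAt
      · rw [interior_Icc]
        intro t ht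
        rw [(hder t (Ioo_subset_Icc_self ht)).deriv]
        have := hD s hs t (Ioo_subset_Icc_self ht) ht.1.le
        rw [hDs] at this
        linarith
    have := hmono hs hx hx.1
    simp only [hK, sub_self] at this
    nlinarith
  · set K : ℝ → ℝ := fun t => Ψ t - lam * t - μ / 2 * (d - t) ^ 2 with hK
    have hder : ∀ t ∈ Icc s d, HasDerivAt K (D t - lam + μ * (d - t)) t := by
      intro t ht
      have h1 : HasDerivAt (fun t : ℝ => μ / 2 * (d - t) ^ 2) (μ / 2 * (2 * (d - t) * (-1))) t := by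
        have := (((hasDerivAt_id t).const_sub d).pow 2).const_mul (μ / 2)
        simpa using this
      have h0 : HasDerivAt (fun t : ℝ => lam * t) lam t := by
        simpa using (hasDerivAt_id t).const_mul lam
      have h2 := ((hΨ t ht).sub h0).sub h1
      have e : D t - lam + μ * (d - t) = D t - lam - μ / 2 * (2 * (d - t) * (-1)) := by ring
      rw [e]; exact h2
    have hanti : AntitoneOn K (Icc s d) := by
      apply antitoneOn_of_deriv_nonpos (convex_Icc s d)
      · exact fun t ht => (hder t ht).continuousAt.continuousWithinAt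
      · rw [interior_Icc]
        exact fun t ht => (hder t (Ioo_subset_Icc_self ht)).differentiableAt.differentiableWithinAt
      · rw [interior_Icc]
        intro t ht
        rw [(hder t (Ioo_subset_Icc_self ht)).deriv]
        have := hD t (Ioo_subset_Icc_self ht) d hd ht.2.le
        linarith
    have h3 := hanti hs hx hx.1
    simp only [hK] at h3
    have h4 : Ψ x - Ψ s ≤ lam * (x - s) - μ / 2 * (x - s) ^ 2 := by
      have h5 : 0 ≤ μ * ((x - s) * (d - x)) := by
        apply mul_nonneg hμ.le (mul_nonneg (by linarith [hx.1]) (by linarith [hx.2]))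
      nlinarith
    have h6 : lam * (x - s) - μ / 2 * (x - s) ^ 2 ≤ lam ^ 2 / (2 * μ) := by
      rw [le_div_iff₀ (by positivity)]
      nlinarith [sq_nonneg (lam - μ * (x - s))]
    linarith

lemma both_sides (c d s : ℝ) (hs : s ∈ Icc c d) (Ψ D : ℝ → ℝ) (μ lam : ℝ) (hμ : 0 < μ)
    (hΨ : ∀ x ∈ Icc c d, HasDerivAt Ψ (D x) x)
    (hD : ∀ x ∈ Icc c d, ∀ y ∈ Icc c d, x ≤ y → μ * (y - x) ≤ D y - D x)
    (hDs : D s = 0) (hDd : D d ≤ lam) (hDc : -lam ≤ D c) (x : ℝ) (hx : x ∈ Icc c d) :
    Ψ s + μ / 2 * (x - s) ^ 2 ≤ Ψ x ∧ Ψ x ≤ Ψ s + lam ^ 2 / (2 * μ) := by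
  rcases le_total s x with h | h
  · have sub : Icc s d ⊆ Icc c d := Icc_subset_Icc_left hs.1
    exact right_side s d hs.2 Ψ D μ lam hμ (fun y hy => hΨ y (sub hy))
      (fun y hy z hz => hD y (sub hy) z (sub hz)) hDs hDd x ⟨h, hx.2⟩
  · have sub : ∀ y, y ∈ Icc (-s) (-c) → -y ∈ Icc c d := by
      intro y hy
      exact ⟨by linarith [hy.2], by linarith [hy.1, hs.2]⟩
    have := right_side (-s) (-c) (by linarith [hs.1]) (fun y => Ψ (-y)) (fun y => - D (-y)) μ lam hμ
      (by
        intro y hy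
        have h1 := (hΨ (-y) (sub y hy)).comp y (hasDerivAt_neg y)
        have e : - D (-y) = D (-y) * (-1) := by ring
        rw [e]; exact h1)
      (by
        intro y hy z hz hyz
        have := hD (-z) (sub z hz) (-y) (sub y hy) (by linarith)
        linarith)
      (by rw [neg_neg, hDs, neg_zero]) (by rw [neg_neg]; linarith) (-x)
      ⟨by linarith, by linarith [hx.1]⟩
    simp only [neg_neg] at this
    have e : (-x - -s) ^ 2 = (x - s) ^ 2 := by ring
    rw [e] at this
    exact this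

lemma g_ge_ml {t : ℝ} (ht0 : t ≠ 0) (ht : |t| ≤ 5 * π / 3) : min 0 (Real.log (3 / π * |t|)) ≤ g t := by
  have hpi := Real.pi_pos
  have hg : g t = g |t| := by
    rcases abs_choice t with h | h
    · rw [h]
    · rw [h, g_neg]
  rw [hg]
  have h0 : 0 < |t| := abs_pos.2 ht0
  rcases le_total |t| (π / 3) with h | h
  · exact (min_le_right _ _).trans (g_ge_log h0 h)
  · exact (min_le_left _ _).trans (g_nonneg h (by linarith))

lemma window (c d : ℝ) (hcd : c ≤ d) (Φ D : ℝ → ℝ) (μ lam : ℝ) (hμ : 0 < μ)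
    (hΦ : ∀ x ∈ Icc c d, HasDerivAt Φ (D x) x)
    (hD : ∀ x ∈ Icc c d, ∀ y ∈ Icc c d, x ≤ y → μ * (y - x) ≤ D y - D x)
    (s : ℝ) (hs : s ∈ Icc c d) (hDs : D s = 0) (hDd : D d ≤ lam) (hDc : -lam ≤ D c)
    (hlam : lam ^ 2 ≤ 8 * μ)
    (hint : IntervalIntegrable (fun x => g (Φ x)) volume c d) :
    -(4 * Real.sqrt (2 * π / (3 * μ))) ≤ ∫ x in c..d, g (Φ x) := by
  have hpi := Real.pi_pos
  have hpi3 := Real.pi_gt_three
  have hboth := both_sides c d s hs Φ D μ lam hμ hΦ hD hDs hDd hDc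
  have hrange : ∀ x ∈ Icc c d, Φ s ≤ Φ x ∧ Φ x ≤ Φ s + 4 := by
    intro x hx
    obtain ⟨h1, h2⟩ := hboth x hx
    constructor
    · nlinarith [sq_nonneg (x - s)]
    · have : lam ^ 2 / (2 * μ) ≤ 4 := by
        rw [div_le_iff₀ (by positivity)]; linarith
      linarith
  set m : ℤ := ⌈(Φ s - π / 3) / (2 * π)⌉ with hm
  have hm1 : (Φ s - π / 3) / (2 * π) ≤ m := Int.le_ceil _
  have hm2 : (m : ℝ) < (Φ s - π / 3) / (2 * π) + 1 := Int.ceil_lt_add_one _
  rw [div_le_iff₀ (by positivity)] at hm1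
  have hm3 : (m : ℝ) * (2 * π) < Φ s - π / 3 + 2 * π := by
    have := mul_lt_mul_of_pos_right hm2 (by positivity : 0 < 2 * π)
    rw [add_mul, div_mul_cancel₀ _ (by positivity), one_mul] at this
    exact this
  set Ψ : ℝ → ℝ := fun x => Φ x - m * (2 * π) with hΨ
  have hgΨ : ∀ x, g (Φ x) = g (Ψ x) := by
    intro x
    have := g_add_int (Ψ x) m
    simp only [hΨ, sub_add_cancel] at this
    exact this
  have hΨder : ∀ x ∈ Icc c d, HasDerivAt Ψ (D x) x := by
    intro x hx
    exact (hΦ x hx).sub_const _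
  obtain ⟨p, q, hpq⟩ := two_points c d Ψ D μ hΨder hD s hs (by
    intro x hx
    have := (hboth x hx).1
    simp only [hΨ]
    linarith)
  set κ := Real.sqrt (3 * μ / (2 * π)) with hκ
  have hκ0 : 0 < κ := Real.sqrt_pos.2 (by positivity)
  have hκ2 : κ ^ 2 = 3 * μ / (2 * π) := Real.sq_sqrt (by positivity)
  have hbound : ∀ x ∈ Icc c d, x ≠ p → x ≠ q →
      ml (κ * x - κ * p) + ml (κ * x - κ * q) ≤ g (Φ x) := by
    intro x hx hxp hxq
    rw [hgΨ]
    have hxp' : 0 < |x - p| := abs_pos.2 (sub_ne_zero.2 hxp)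
    have hxq' : 0 < |x - q| := abs_pos.2 (sub_ne_zero.2 hxq)
    have h1 := hpq x hx
    have hΨ0 : 0 < |Ψ x| := lt_of_lt_of_le (by positivity) h1
    have hΨ1 : |Ψ x| ≤ 5 * π / 3 := by
      obtain ⟨h2, h3⟩ := hrange x hx
      simp only [hΨ]
      rw [abs_le]
      constructor
      · linarith
      · linarith
    refine le_trans ?_ (g_ge_ml (abs_pos.1 hΨ0) hΨ1)
    have h4 : Real.log (κ * x - κ * p) + Real.log (κ * x - κ * q) ≤ Real.log (3 / π * |Ψ x|) := by
      rw [← Real.log_abs (κ * x - κ * p), ← Real.log_abs (κ * x - κ * q), ← mul_sub, ← mul_sub,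
        abs_mul, abs_mul, abs_of_pos hκ0, ← Real.log_mul (by positivity) (by positivity)]
      apply Real.log_le_log (by positivity)
      calc κ * |x - p| * (κ * |x - q|) = κ ^ 2 * (|x - p| * |x - q|) := by ring
        _ = 3 / π * (μ / 2 * (|x - p| * |x - q|)) := by rw [hκ2]; ring
        _ ≤ 3 / π * |Ψ x| := by gcongr
    unfold ml
    refine le_min ?_ ?_
    · have := min_le_left 0 (Real.log (κ * x - κ * p))
      have := min_le_left 0 (Real.log (κ * x - κ * q))
      linarith
    · have := min_le_right 0 (Real.log (κ * x - κ * p))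
      have := min_le_right 0 (Real.log (κ * x - κ * q))
      linarith
  have hi1 := ml_scaled_intervalIntegrable c d p κ
  have hi2 := ml_scaled_intervalIntegrable c d q κ
  have h5 : ∫ x in c..d, (ml (κ * x - κ * p) + ml (κ * x - κ * q)) ≤ ∫ x in c..d, g (Φ x) := by
    apply intervalIntegral.integral_mono_ae_restrict hcd (hi1.add hi2) hint
    have hfin : ({p, q} : Set ℝ).Countable := (Set.toFinite _).countable
    have h6 : ∀ᵐ x ∂(volume.restrict (Icc c d)), x ∉ ({p, q} : Set ℝ) :=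
      ae_restrict_of_ae (hfin.ae_notMem volume)
    filter_upwards [h6, ae_restrict_mem measurableSet_Icc] with x hx1 hx2
    simp only [Set.mem_insert_iff, Set.mem_singleton_iff, not_or] at hx1
    exact hbound x hx2 hx1.1 hx1.2
  rw [intervalIntegral.integral_add hi1 hi2] at h5
  have h7 := integral_ml_scaled c d p κ hκ0
  have h8 := integral_ml_scaled c d q κ hκ0
  have h9 : Real.sqrt (2 * π / (3 * μ)) = 1 / κ := by
    rw [hκ, one_div, ← Real.sqrt_inv]
    congr 1
    rw [inv_div]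
  rw [h9]
  have e : -(4 * (1 / κ)) = -(2 / κ) + -(2 / κ) := by ring
  rw [e]
  linarith

end Pool.Agent.H25
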