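import Mathlib
import Pool.Agent.H25.Steep

/-!
The curve `2 cos ω + 2 cos x + β = 0` and oscillatory integrals along it.
-/

set_option autoImplicit false

open Real MeasureTheory intervalIntegral Set

namespace Pool.Agent.H25

/-- left end of the elliptic arc -/
noncomputable def xz (β : ℝ) : ℝ := Real.arccos (1 - β / 2)

/-- `cos ω` -/
noncomputable def uu (β x : ℝ) : ℝ := -(β / 2 + Real.cos x)

/-- `sin ω` -/
noncomputable def RR (β x : ℝ) : ℝ := Real.sqrt (1 - uu β x ^ 2)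

/-- `ω` -/
noncomputable def om (β x : ℝ) : ℝ := Real.arccos (uu β x)

section
variable {β : ℝ}

lemma cos_xz (h0 : 0 < β) (h4 : β < 4) : Real.cos (xz β) = 1 - β / 2 := by
  unfold xz
  exact Real.cos_arccos (by linarith) (by linarith)

lemma xz_pos (h0 : 0 < β) : 0 < xz β := by
  unfold xz
  rw [Real.arccos_pos]; linarith

lemma xz_lt_pi (h4 : β < 4) : xz β < π := by
  unfold xz
  rcases lt_or_eq_of_le (Real.arccos_le_pi (1 - β / 2)) with h | h
  · exact h
  · rw [Real.arccos_eq_pi] at h; linarith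

lemma sin_xz_pos (h0 : 0 < β) (h4 : β < 4) : 0 < Real.sin (xz β) :=
  Real.sin_pos_of_pos_of_lt_pi (xz_pos h0) (xz_lt_pi h4)

lemma uu_deriv (x : ℝ) : HasDerivAt (uu β) (Real.sin x) x := by
  have h1 := ((Real.hasDerivAt_cos x).const_add (β / 2)).neg
  rw [neg_neg] at h1
  exact h1

lemma uu_cont : Continuous (uu β) := by
  unfold uu; fun_prop

/-- inside the arc `cos x < 1 - β/2` -/
lemma cos_lt (h0 : 0 < β) (h4 : β < 4) {x : ℝ} (hx : x ∈ Ioo (xz β) (2 * π - xz β)) :
    Real.cos x < 1 - β / 2 := by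
  rw [← cos_xz h0 h4]
  rcases le_total x π with h | h
  · exact Real.cos_lt_cos_of_nonneg_of_le_pi (xz_pos h0).le h hx.1
  · have : Real.cos x = Real.cos (2 * π - x) := by
      rw [Real.cos_two_pi_sub]
    rw [this]
    exact Real.cos_lt_cos_of_nonneg_of_le_pi (xz_pos h0).le (by linarith) (by linarith [hx.2])

lemma uu_mem (h0 : 0 < β) (h4 : β < 4) {x : ℝ} (hx : x ∈ Ioo (xz β) (2 * π - xz β)) :
    -1 < uu β x ∧ uu β x < 1 := by
  have h1 := cos_lt h0 h4 hx
  have h2 := Real.neg_one_le_cos x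
  unfold uu
  constructor
  · linarith
  · linarith

lemma one_sub_uu_sq_pos (h0 : 0 < β) (h4 : β < 4) {x : ℝ} (hx : x ∈ Ioo (xz β) (2 * π - xz β)) :
    0 < 1 - uu β x ^ 2 := by
  obtain ⟨h1, h2⟩ := uu_mem h0 h4 hx
  nlinarith

lemma RR_pos (h0 : 0 < β) (h4 : β < 4) {x : ℝ} (hx : x ∈ Ioo (xz β) (2 * π - xz β)) :
    0 < RR β x := Real.sqrt_pos.2 (one_sub_uu_sq_pos h0 h4 hx)

lemma RR_cont : Continuous (RR β) := by
  unfold RR
  exact Real.continuous_sqrt.comp (continuous_const.sub (uu_cont.pow 2))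

lemma om_cont : Continuous (om β) := by
  unfold om
  exact Real.continuous_arccos.comp uu_cont

lemma RR_sq (h0 : 0 < β) (h4 : β < 4) {x : ℝ} (hx : x ∈ Ioo (xz β) (2 * π - xz β)) :
    RR β x ^ 2 = 1 - uu β x ^ 2 := Real.sq_sqrt (one_sub_uu_sq_pos h0 h4 hx).le

lemma RR_le_one (x : ℝ) : RR β x ≤ 1 := by
  unfold RR
  rw [Real.sqrt_le_iff]
  constructor
  · norm_num
  · nlinarith [sq_nonneg (uu β x)]

lemma RR_xz (h0 : 0 < β) (h4 : β < 4) : RR β (xz β) = 0 := by
  unfold RR uu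
  rw [cos_xz h0 h4]
  rw [Real.sqrt_eq_zero_of_nonpos]
  have : -(β / 2 + (1 - β / 2)) = -1 := by ring
  rw [this]; norm_num

lemma RR_xz' (h0 : 0 < β) (h4 : β < 4) : RR β (2 * π - xz β) = 0 := by
  unfold RR uu
  rw [Real.cos_two_pi_sub, cos_xz h0 h4]
  rw [Real.sqrt_eq_zero_of_nonpos]
  have : -(β / 2 + (1 - β / 2)) = -1 := by ring
  rw [this]; norm_num

lemma RR_deriv (h0 : 0 < β) (h4 : β < 4) {x : ℝ} (hx : x ∈ Ioo (xz β) (2 * π - xz β)) :
    HasDerivAt (RR β) (-(uu β x * Real.sin x) / RR β x) x := by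
  have h1 : HasDerivAt (fun x => 1 - uu β x ^ 2) (-(2 * uu β x * Real.sin x)) x := by
    have := ((uu_deriv (β := β) x).pow 2).const_sub 1
    simpa using this
  have h2 := h1.sqrt (one_sub_uu_sq_pos h0 h4 hx).ne'
  have e : -(uu β x * Real.sin x) / RR β x =
      -(2 * uu β x * Real.sin x) / (2 * Real.sqrt (1 - uu β x ^ 2)) := by
    unfold RR
    have := Real.sqrt_pos.2 (one_sub_uu_sq_pos h0 h4 hx)
    field_simp
  rw [e]
  exact h2

lemma om_deriv (h0 : 0 < β) (h4 : β < 4) {x : ℝ} (hx : x ∈ Ioo (xz β) (2 * π - xz β)) :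
    HasDerivAt (om β) (-(Real.sin x / RR β x)) x := by
  obtain ⟨h1, h2⟩ := uu_mem h0 h4 hx
  have h3 := (Real.hasDerivAt_arccos h1.ne' h2.ne).comp x (uu_deriv (β := β) x)
  have e : -(Real.sin x / RR β x) = -(1 / Real.sqrt (1 - uu β x ^ 2)) * Real.sin x := by
    unfold RR; ring
  rw [e]
  exact h3

/-- derivative of the phase `n ω + l x + τ` -/
noncomputable def DD (β n l x : ℝ) : ℝ := l - n * Real.sin x / RR β x

/-- second derivative of the phase -/
noncomputable def D2 (β n x : ℝ) : ℝ :=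
  n * (β / 2) * (1 - Real.cos x * uu β x) / RR β x ^ 3

lemma phase_deriv (h0 : 0 < β) (h4 : β < 4) (n l τ : ℝ) {x : ℝ}
    (hx : x ∈ Ioo (xz β) (2 * π - xz β)) :
    HasDerivAt (fun x => n * om β x + l * x + τ) (DD β n l x) x := by
  have h1 := ((om_deriv h0 h4 hx).const_mul n).add ((hasDerivAt_id x).const_mul l)
  have h2 := h1.add_const τ
  have e : DD β n l x = n * -(Real.sin x / RR β x) + l * 1 := by
    unfold DD; ring
  rw [e]
  exact h2

lemma DD_deriv (h0 : 0 < β) (h4 : β < 4) (n l : ℝ) {x : ℝ}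
    (hx : x ∈ Ioo (xz β) (2 * π - xz β)) :
    HasDerivAt (DD β n l) (D2 β n x) x := by
  have hR := RR_pos h0 h4 hx
  have hR2 := RR_sq h0 h4 hx
  have h1 := ((((Real.hasDerivAt_sin x).const_mul n).div (RR_deriv h0 h4 hx) hR.ne').const_sub l)
  have hcu : uu β x = -(β / 2 + Real.cos x) := rfl
  have hs2 := Real.sin_sq x
  have e : D2 β n x = -((n * Real.cos x * RR β x - n * Real.sin x *
      (-(uu β x * Real.sin x) / RR β x)) / RR β x ^ 2) := by
    unfold D2
    rw [div_eq_iff (by positivity), neg_mul, div_mul_eq_mul_div, ← neg_div, eq_div_iff (by positivity)]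
    have e1 : n * Real.sin x * (-(uu β x * Real.sin x) / RR β x) =
        -(n * uu β x * Real.sin x ^ 2) / RR β x := by ring
    rw [e1, hs2]
    have e2 : (n * Real.cos x * RR β x - -(n * uu β x * (1 - Real.cos x ^ 2)) / RR β x) * RR β x ^ 3
        = (n * Real.cos x * RR β x ^ 2 + n * uu β x * (1 - Real.cos x ^ 2)) * RR β x ^ 2 := by
      field_simp
      ring
    rw [e2, hR2, hcu]
    ring
  rw [e]
  exact h1

lemma D2_ge (h0 : 0 < β) (h4 : β < 4) (n : ℝ) (hn : 0 < n) {x : ℝ}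
    (hx : x ∈ Ioo (xz β) (2 * π - xz β)) :
    n * (β / 2 * (1 - β ^ 2 / 16)) ≤ D2 β n x := by
  have hR := RR_pos h0 h4 hx
  have hR1 := RR_le_one (β := β) x
  have hR3 : RR β x ^ 3 ≤ 1 := pow_le_one₀ hR.le hR1
  have hβ : 0 < 1 - β ^ 2 / 16 := by nlinarith
  have h1 : 1 - β ^ 2 / 16 ≤ 1 - Real.cos x * uu β x := by
    unfold uu
    nlinarith [sq_nonneg (Real.cos x + β / 4)]
  unfold D2
  rw [le_div_iff₀ (by positivity)]
  calc n * (β / 2 * (1 - β ^ 2 / 16)) * RR β x ^ 3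
      ≤ n * (β / 2 * (1 - β ^ 2 / 16)) * 1 := by gcongr
    _ = n * (β / 2) * (1 - β ^ 2 / 16) := by ring
    _ ≤ n * (β / 2) * (1 - Real.cos x * uu β x) := by gcongr

/-- every real value is attained by the derivative of the phase -/
lemma DD_surj (h0 : 0 < β) (h4 : β < 4) (n l : ℝ) (hn : 0 < n) (v : ℝ) :
    ∃ x ∈ Ioo (xz β) (2 * π - xz β), DD β n l x = v := by
  have hs := sin_xz_pos h0 h4
  have hlt := xz_lt_pi h4
  have hcont : ContinuousOn (fun x => (l - v) * RR β x - n * Real.sin x)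
      (Icc (xz β) (2 * π - xz β)) := by
    apply Continuous.continuousOn
    exact (continuous_const.mul RR_cont).sub (continuous_const.mul Real.continuous_sin)
  have h1 : (l - v) * RR β (xz β) - n * Real.sin (xz β) < 0 := by
    rw [RR_xz h0 h4]
    have := mul_pos hn hs
    linarith
  have h2 : 0 < (l - v) * RR β (2 * π - xz β) - n * Real.sin (2 * π - xz β) := by
    rw [RR_xz' h0 h4, Real.sin_two_pi_sub]
    have := mul_pos hn hs
    linarith
  obtain ⟨x, hx, hx0⟩ := intermediate_value_Ioo (by linarith) hcont ⟨h1, h2⟩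
  refine ⟨x, hx, ?_⟩
  have hR := RR_pos h0 h4 hx
  simp only at hx0
  unfold DD
  have : n * Real.sin x / RR β x = l - v := by
    rw [div_eq_iff hR.ne']; linarith
  rw [this]; ring

lemma DD_mono (h0 : 0 < β) (h4 : β < 4) (n l : ℝ) (hn : 0 < n) {x y : ℝ}
    (hx : x ∈ Ioo (xz β) (2 * π - xz β)) (hy : y ∈ Ioo (xz β) (2 * π - xz β)) (hxy : x ≤ y) :
    n * (β / 2 * (1 - β ^ 2 / 16)) * (y - x) ≤ DD β n l y - DD β n l x := by
  set μ := n * (β / 2 * (1 - β ^ 2 / 16)) with hμ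
  have hder : ∀ t ∈ Ioo (xz β) (2 * π - xz β),
      HasDerivAt (fun t => DD β n l t - μ * t) (D2 β n t - μ * 1) t := by
    intro t ht
    exact (DD_deriv h0 h4 n l ht).sub ((hasDerivAt_id t).const_mul μ)
  have hmono : MonotoneOn (fun t => DD β n l t - μ * t) (Ioo (xz β) (2 * π - xz β)) := by
    apply monotoneOn_of_deriv_nonneg (convex_Ioo _ _)
    · exact fun t ht => (hder t ht).continuousAt.continuousWithinAt
    · rw [interior_Ioo]
      exact fun t ht => (hder t ht).differentiableAt.differentiableWithinAt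
    · rw [interior_Ioo]
      intro t ht
      rw [(hder t ht).deriv]
      have := D2_ge h0 h4 n hn ht
      linarith
  have := hmono hx hy hxy
  simp only at this
  linarith

end

end Pool.Agent.H25
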