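import Mathlib
import Pool.Agent.H25.Curve

/-!
The oscillatory integral along the whole elliptic arc.
-/

set_option autoImplicit false

open Real MeasureTheory intervalIntegral Set

namespace Pool.Agent.H25

section
variable {β : ℝ}

/-- reciprocal of the derivative of the phase, extended continuously to the end points -/
noncomputable def ps (β n l x : ℝ) : ℝ := RR β x / (l * RR β x - n * Real.sin x)

lemma ps_eq (h0 : 0 < β) (h4 : β < 4) (n l : ℝ) {x : ℝ}
    (hx : x ∈ Ioo (xz β) (2 * π - xz β)) : ps β n l x = (DD β n l x)⁻¹ := by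
  have hR := RR_pos h0 h4 hx
  have : DD β n l x = (l * RR β x - n * Real.sin x) / RR β x := by
    unfold DD; field_simp
  rw [this, inv_div, ps]

lemma ps_deriv (h0 : 0 < β) (h4 : β < 4) (n l : ℝ) {x : ℝ}
    (hx : x ∈ Ioo (xz β) (2 * π - xz β)) (hD : DD β n l x ≠ 0) :
    HasDerivAt (ps β n l) (-D2 β n x / DD β n l x ^ 2) x := by
  have h1 := (DD_deriv h0 h4 n l hx).inv hD
  apply h1.congr_of_eventuallyEq
  filter_upwards [Ioo_mem_nhds hx.1 hx.2] with y hy
  exact ps_eq h0 h4 n l hy

lemma osc (h0 : 0 < β) (h4 : β < 4) (n l τ : ℝ) (hn : 0 < n)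
    (hint : IntervalIntegrable (fun x => g (n * om β x + l * x + τ)) volume
      (xz β) (2 * π - xz β)) :
    -(4 * Real.sqrt (2 * π / (3 * (n * (β / 2 * (1 - β ^ 2 / 16))))) +
      4 * π / 3 / Real.sqrt (8 * (n * (β / 2 * (1 - β ^ 2 / 16))))) ≤
    ∫ x in (xz β)..(2 * π - xz β), g (n * om β x + l * x + τ) := by
  have hpi := Real.pi_pos
  set μ := n * (β / 2 * (1 - β ^ 2 / 16)) with hμdef
  have hβ : 0 < 1 - β ^ 2 / 16 := by nlinarith
  have hμ : 0 < μ := by positivity
  set lam := Real.sqrt (8 * μ) with hlam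
  have hlam0 : 0 < lam := Real.sqrt_pos.2 (by positivity)
  have hlam2 : lam ^ 2 = 8 * μ := Real.sq_sqrt (by positivity)
  set A := xz β with hA
  set B := 2 * π - xz β with hB
  set Φ : ℝ → ℝ := fun x => n * om β x + l * x + τ with hΦ
  have hΦc : Continuous Φ := by
    simp only [hΦ]
    exact ((continuous_const.mul om_cont).add (continuous_const.mul continuous_id)).add
      continuous_const
  have hΦd : ∀ x ∈ Ioo A B, HasDerivAt Φ (DD β n l x) x := fun x hx => phase_deriv h0 h4 n l τ hx
  have hmono := @DD_mono β h0 h4 n l hn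
  rw [← hμdef, ← hA, ← hB] at hmono
  obtain ⟨c, hc, hDc⟩ := DD_surj h0 h4 n l hn (-lam)
  obtain ⟨s, hs, hDs⟩ := DD_surj h0 h4 n l hn 0
  obtain ⟨d, hd, hDd⟩ := DD_surj h0 h4 n l hn lam
  rw [← hA, ← hB] at hc hs hd
  have hcs : c ≤ s := by
    by_contra h
    push Not at h
    have := hmono hs hc h.le
    rw [hDc, hDs] at this
    have h5 : 0 ≤ μ * (c - s) := mul_nonneg hμ.le (by linarith)
    linarith
  have hsd : s ≤ d := by
    by_contra h
    push Not at h
    have := hmono hd hs h.le
    rw [hDd, hDs] at this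
    have h5 : 0 ≤ μ * (s - d) := mul_nonneg hμ.le (by linarith)
    linarith
  have hD2 : ∀ x ∈ Ioo A B, 0 ≤ D2 β n x := fun x hx => hμ.le.trans (D2_ge h0 h4 n hn hx)
  have hAB : A < B := hc.1.trans hc.2
  have hi : ∀ a b : ℝ, a ∈ Icc A B → b ∈ Icc A B →
      IntervalIntegrable (fun x => g (Φ x)) volume a b := by
    intro a b ha hb
    apply hint.mono_set
    rw [Set.uIcc_of_le hAB.le]
    exact Set.uIcc_subset_Icc ha hb
  have hAm : A ∈ Icc A B := ⟨le_rfl, hAB.le⟩
  have hBm : B ∈ Icc A B := ⟨hAB.le, le_rfl⟩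
  have hcm := Ioo_subset_Icc_self hc
  have hdm := Ioo_subset_Icc_self hd
  -- left part
  have hleft : -(π / 3) * (2 / lam) ≤ ∫ x in A..c, g (Φ x) := by
    have hneg : ∀ x ∈ Ioc A c, DD β n l x ≤ -lam := by
      intro x hx
      have hx' : x ∈ Ioo A B := ⟨hx.1, lt_of_le_of_lt hx.2 hc.2⟩
      have := hmono hx' hc hx.2
      rw [hDc] at this
      have h5 : 0 ≤ μ * (c - x) := mul_nonneg hμ.le (by linarith [hx.2])
      linarith
    have hsub : ∀ x ∈ Ioo A c, x ∈ Ioo A B := fun x hx => ⟨hx.1, hx.2.trans hc.2⟩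
    have key := steep A c hc.1.le Φ (DD β n l) (ps β n l)
      (fun x => -D2 β n x / DD β n l x ^ 2) hΦc.continuousOn
      (fun x hx => hΦd x (hsub x hx)) (by
        intro x hx
        apply ContinuousAt.continuousWithinAt
        unfold ps
        apply ContinuousAt.div RR_cont.continuousAt
        · exact ((continuous_const.mul RR_cont).sub
            (continuous_const.mul Real.continuous_sin)).continuousAt
        · rcases eq_or_lt_of_le hx.1 with h | h
          · rw [← h, hA, RR_xz h0 h4]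
            have := mul_pos hn (sin_xz_pos h0 h4)
            linarith
          · have hx' : x ∈ Ioo A B := ⟨h, lt_of_le_of_lt hx.2 hc.2⟩
            have hR := RR_pos h0 h4 hx'
            have h5 := hneg x ⟨h, hx.2⟩
            have e : l * RR β x - n * Real.sin x = RR β x * DD β n l x := by
              unfold DD; field_simp
            rw [e]
            apply mul_ne_zero hR.ne'
            linarith)
      (fun x hx => ps_deriv h0 h4 n l (hsub x hx) (by linarith [hneg x ⟨hx.1, hx.2.le⟩]))
      (fun x hx => by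
        have := hD2 x (hsub x hx)
        exact div_nonpos_of_nonpos_of_nonneg (by linarith) (sq_nonneg _))
      (fun x hx => by
        rw [ps_eq h0 h4 n l (hsub x hx)]
        exact mul_inv_cancel₀ (by linarith [hneg x ⟨hx.1, hx.2.le⟩]))
      (by
        have : StrictAntiOn Φ (Icc A c) := by
          apply strictAntiOn_of_deriv_neg (convex_Icc A c) hΦc.continuousOn
          rw [interior_Icc]
          intro x hx
          rw [(hΦd x (hsub x hx)).deriv]
          linarith [hneg x ⟨hx.1, hx.2.le⟩]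
        exact (this.injOn).mono Ioo_subset_Icc_self)
      (hi A c hAm hcm)
    have e1 : ps β n l A = 0 := by
      unfold ps; rw [hA, RR_xz h0 h4, zero_div]
    have e2 : ps β n l c = -(1 / lam) := by
      rw [ps_eq h0 h4 n l hc, hDc, inv_neg, one_div]
    rw [e1, e2, abs_zero, abs_neg, abs_of_pos (by positivity)] at key
    calc -(π / 3) * (2 / lam) = -(π / 3) * (0 + 1 / lam + (0 - -(1 / lam))) := by ring
      _ ≤ _ := key
  -- right part
  have hright : -(π / 3) * (2 / lam) ≤ ∫ x in d..B, g (Φ x) := by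
    have hpos : ∀ x ∈ Ico d B, lam ≤ DD β n l x := by
      intro x hx
      have hx' : x ∈ Ioo A B := ⟨lt_of_lt_of_le hd.1 hx.1, hx.2⟩
      have := hmono hd hx' hx.1
      rw [hDd] at this
      have h5 : 0 ≤ μ * (x - d) := mul_nonneg hμ.le (by linarith [hx.1])
      linarith
    have hsub : ∀ x ∈ Ioo d B, x ∈ Ioo A B := fun x hx => ⟨hd.1.trans hx.1, hx.2⟩
    have key := steep d B hd.2.le Φ (DD β n l) (ps β n l)
      (fun x => -D2 β n x / DD β n l x ^ 2) hΦc.continuousOn
      (fun x hx => hΦd x (hsub x hx)) (by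
        intro x hx
        apply ContinuousAt.continuousWithinAt
        unfold ps
        apply ContinuousAt.div RR_cont.continuousAt
        · exact ((continuous_const.mul RR_cont).sub
            (continuous_const.mul Real.continuous_sin)).continuousAt
        · rcases eq_or_lt_of_le hx.2 with h | h
          · rw [h, hB, RR_xz' h0 h4, Real.sin_two_pi_sub]
            have := mul_pos hn (sin_xz_pos h0 h4)
            linarith
          · have hx' : x ∈ Ioo A B := ⟨lt_of_lt_of_le hd.1 hx.1, h⟩
            have hR := RR_pos h0 h4 hx'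
            have h5 := hpos x ⟨hx.1, h⟩
            have e : l * RR β x - n * Real.sin x = RR β x * DD β n l x := by
              unfold DD; field_simp
            rw [e]
            apply mul_ne_zero hR.ne'
            linarith)
      (fun x hx => ps_deriv h0 h4 n l (hsub x hx) (by linarith [hpos x ⟨hx.1.le, hx.2⟩]))
      (fun x hx => by
        have := hD2 x (hsub x hx)
        exact div_nonpos_of_nonpos_of_nonneg (by linarith) (sq_nonneg _))
      (fun x hx => by
        rw [ps_eq h0 h4 n l (hsub x hx)]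
        exact mul_inv_cancel₀ (by linarith [hpos x ⟨hx.1.le, hx.2⟩]))
      (by
        have : StrictMonoOn Φ (Icc d B) := by
          apply strictMonoOn_of_deriv_pos (convex_Icc d B) hΦc.continuousOn
          rw [interior_Icc]
          intro x hx
          rw [(hΦd x (hsub x hx)).deriv]
          linarith [hpos x ⟨hx.1.le, hx.2⟩]
        exact (this.injOn).mono Ioo_subset_Icc_self)
      (hi d B hdm hBm)
    have e1 : ps β n l B = 0 := by
      unfold ps; rw [hB, RR_xz' h0 h4, zero_div]
    have e2 : ps β n l d = 1 / lam := by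
      rw [ps_eq h0 h4 n l hd, hDd, one_div]
    rw [e1, e2, abs_zero, abs_of_pos (by positivity)] at key
    calc -(π / 3) * (2 / lam) = -(π / 3) * (1 / lam + 0 + (1 / lam - 0)) := by ring
      _ ≤ _ := key
  -- window
  have hwin : -(4 * Real.sqrt (2 * π / (3 * μ))) ≤ ∫ x in c..d, g (Φ x) := by
    have hsub : ∀ x ∈ Icc c d, x ∈ Ioo A B :=
      fun x hx => ⟨lt_of_lt_of_le hc.1 hx.1, lt_of_le_of_lt hx.2 hd.2⟩
    exact window c d (hcs.trans hsd) Φ (DD β n l) μ lam hμ (fun x hx => hΦd x (hsub x hx))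
      (fun x hx y hy hxy => hmono (hsub x hx) (hsub y hy) hxy) s ⟨hcs, hsd⟩ hDs hDd.le hDc.ge
      hlam2.le (hi c d hcm hdm)
  rw [← intervalIntegral.integral_add_adjacent_intervals (hi A c hAm hcm) (hi c B hcm hBm),
    ← intervalIntegral.integral_add_adjacent_intervals (hi c d hcm hdm) (hi d B hdm hBm)]
  have e : 4 * π / 3 / lam = (π / 3) * (2 / lam) + (π / 3) * (2 / lam) := by ring
  rw [e]
  linarith

/-- numerical form -/
lemma osc_num (h0 : 0 < β) (h4 : β < 4) (n l τ : ℝ) (hn : 0 < n)
    (hint : IntervalIntegrable (fun x => g (n * om β x + l * x + τ)) volume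
      (xz β) (2 * π - xz β)) :
    -(7.28 / Real.sqrt (n * (β / 2 * (1 - β ^ 2 / 16)))) ≤
    ∫ x in (xz β)..(2 * π - xz β), g (n * om β x + l * x + τ) := by
  refine le_trans ?_ (osc h0 h4 n l τ hn hint)
  have hβ : 0 < 1 - β ^ 2 / 16 := by nlinarith
  set μ := n * (β / 2 * (1 - β ^ 2 / 16)) with hμdef
  have hμ : 0 < μ := by positivity
  have hpi := Real.pi_lt_d4
  have hpi0 := Real.pi_pos
  rw [neg_le_neg_iff]
  have hs0 : 0 < Real.sqrt μ := Real.sqrt_pos.2 hμ
  have h1 : Real.sqrt (2 * π / (3 * μ)) ≤ 1.4474 / Real.sqrt μ := by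
    have e : 2 * π / (3 * μ) = (2 * π / 3) / μ := by field_simp
    rw [e, Real.sqrt_div' _ hμ.le]
    gcongr
    rw [Real.sqrt_le_iff]
    constructor
    · norm_num
    · norm_num; linarith
  have h2 : 4 * π / 3 / Real.sqrt (8 * μ) ≤ 1.4811 / Real.sqrt μ := by
    rw [Real.sqrt_mul (by norm_num), div_le_div_iff₀ (by positivity) hs0]
    have h8 : 2.8284 ≤ Real.sqrt 8 := by
      apply Real.le_sqrt_of_sq_le; norm_num
    have h9 : 4 * π / 3 ≤ 1.4811 * Real.sqrt 8 := by nlinarith
    calc 4 * π / 3 * Real.sqrt μ ≤ 1.4811 * Real.sqrt 8 * Real.sqrt μ := by gcongr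
      _ = 1.4811 * (Real.sqrt 8 * Real.sqrt μ) := by ring
  calc 4 * Real.sqrt (2 * π / (3 * μ)) + 4 * π / 3 / Real.sqrt (8 * μ)
      ≤ 4 * (1.4474 / Real.sqrt μ) + 1.4811 / Real.sqrt μ := by gcongr
    _ = 7.2707 / Real.sqrt μ := by ring
    _ ≤ 7.28 / Real.sqrt μ := by gcongr; norm_num

end

end Pool.Agent.H25
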