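import Mathlib
import Pool.Agent.H25.Osc

/-!
The hyperbolic part.
-/

set_option autoImplicit false

open Real MeasureTheory intervalIntegral Set Polynomial.Chebyshev

namespace Pool.Agent.H25

lemma inv_sqrt_integrable : IntervalIntegrable (fun x : ℝ => 1 / Real.sqrt (1 - x ^ 2)) volume (-1) 1 := by
  apply intervalIntegral.intervalIntegrable_deriv_of_nonneg (g := Real.arcsin)
  · exact Real.continuous_arcsin.continuousOn
  · intro x hx
    rw [min_eq_left (by norm_num), max_eq_right (by norm_num)] at hx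
    exact Real.hasDerivAt_arcsin hx.1.ne' hx.2.ne
  · intro x _
    positivity

lemma integral_inv_sqrt : ∫ x in (-1:ℝ)..1, 1 / Real.sqrt (1 - x ^ 2) = π := by
  rw [intervalIntegral.integral_eq_sub_of_hasDerivAt_of_le (by norm_num)
    Real.continuous_arcsin.continuousOn
    (fun x hx => Real.hasDerivAt_arcsin (ne_of_gt hx.1) (ne_of_lt hx.2)) inv_sqrt_integrable]
  rw [Real.arcsin_one, Real.arcsin_neg_one]
  ring

lemma sinh_mul_le {r y : ℝ} (hr0 : 0 ≤ r) (hr1 : r ≤ 1) (hy : 0 ≤ y) :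
    Real.sinh (r * y) ≤ r * Real.sinh y := by
  set K : ℝ → ℝ := fun t => r * Real.sinh t - Real.sinh (r * t) with hK
  have hder : ∀ t, HasDerivAt K (r * Real.cosh t - Real.cosh (r * t) * r) t := by
    intro t
    have h1 := (Real.hasDerivAt_sinh t).const_mul r
    have h2 : HasDerivAt (fun t => Real.sinh (r * t)) (Real.cosh (r * t) * r) t := by
      have h3 : HasDerivAt (fun t => r * t) r t := by
        simpa using (hasDerivAt_id t).const_mul r
      exact (Real.hasDerivAt_sinh (r * t)).comp t h3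
    exact h1.sub h2
  have hmono : MonotoneOn K (Ici 0) := by
    apply monotoneOn_of_deriv_nonneg (convex_Ici 0)
    · exact fun t _ => (hder t).continuousAt.continuousWithinAt
    · exact fun t _ => (hder t).differentiableAt.differentiableWithinAt
    · intro t ht
      rw [interior_Ici] at ht
      rw [(hder t).deriv]
      have h5 : Real.cosh (r * t) ≤ Real.cosh t := by
        rw [Real.cosh_le_cosh, abs_of_nonneg (mul_nonneg hr0 (le_of_lt ht)),
          abs_of_pos ht]
        have : (0:ℝ) < t := ht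
        nlinarith
      nlinarith
  have := hmono (Set.mem_Ici.2 (le_refl (0:ℝ))) hy hy
  simp only [hK, Real.sinh_zero, mul_zero, sub_zero] at this
  linarith

lemma cosh_mul_le {r c : ℝ} (hr0 : 0 ≤ r) (hr1 : r ≤ 1) (hc : 0 ≤ c) :
    Real.cosh (c * r) - 1 ≤ r ^ 2 * (Real.cosh c - 1) := by
  have e : ∀ y : ℝ, Real.cosh y - 1 = 2 * Real.sinh (y / 2) ^ 2 := by
    intro y
    have h1 := Real.cosh_sq (y / 2)
    have h2 := Real.cosh_two_mul (y / 2)
    rw [show 2 * (y / 2) = y by ring] at h2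
    rw [h2, h1]; ring
  rw [e, e]
  have h1 : Real.sinh (c * r / 2) ≤ r * Real.sinh (c / 2) := by
    rw [show c * r / 2 = r * (c / 2) by ring]
    exact sinh_mul_le hr0 hr1 (by positivity)
  have h0 : 0 ≤ Real.sinh (c * r / 2) := by
    rw [Real.sinh_nonneg_iff]; positivity
  calc 2 * Real.sinh (c * r / 2) ^ 2 ≤ 2 * (r * Real.sinh (c / 2)) ^ 2 := by gcongr
    _ = r ^ 2 * (2 * Real.sinh (c / 2) ^ 2) := by ring

lemma sin_ge_mul {z x : ℝ} (hz0 : 0 < z) (hz : z ≤ π) (hx0 : 0 ≤ x) (hx : x ≤ z) :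
    x / z * Real.sin z ≤ Real.sin x := by
  have hconc := strictConcaveOn_sin_Icc.concaveOn
  have m1 : (0 : ℝ) ∈ Icc 0 π := ⟨le_rfl, Real.pi_pos.le⟩
  have m2 : z ∈ Icc 0 π := ⟨hz0.le, hz⟩
  have w1 : 0 ≤ 1 - x / z := by rw [sub_nonneg, div_le_one hz0]; linarith
  have w2 : 0 ≤ x / z := by positivity
  have h2 := hconc.2 m1 m2 w1 w2 (by ring)
  simp only [smul_eq_mul, Real.sin_zero, mul_zero, zero_add] at h2
  rwa [div_mul_cancel₀ _ hz0.ne'] at h2

lemma cos_sub_ge_aux {z : ℝ} (hz0 : 0 < z) (hz : z ≤ π) {x : ℝ} (hx0 : 0 ≤ x) (hx : x ≤ z) :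
    z * Real.sin z / 2 * (1 - (x / z) ^ 2) ≤ Real.cos x - Real.cos z := by
  set K : ℝ → ℝ := fun t => Real.cos t - Real.cos z - z * Real.sin z / 2 * (1 - (t / z) ^ 2) with hK
  have hder : ∀ t, HasDerivAt K (-Real.sin t - z * Real.sin z / 2 * (-(2 * (t / z) * (1 / z)))) t := by
    intro t
    have h1 := (Real.hasDerivAt_cos t).sub_const (Real.cos z)
    have h2 : HasDerivAt (fun t => z * Real.sin z / 2 * (1 - (t / z) ^ 2))
        (z * Real.sin z / 2 * (-(2 * (t / z) * (1 / z)))) t := by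
      have := ((((hasDerivAt_id t).div_const z).pow 2).const_sub 1).const_mul
        (z * Real.sin z / 2)
      simpa using this
    exact h1.sub h2
  have hanti : AntitoneOn K (Icc 0 z) := by
    apply antitoneOn_of_deriv_nonpos (convex_Icc 0 z)
    · exact fun t _ => (hder t).continuousAt.continuousWithinAt
    · exact fun t _ => (hder t).differentiableAt.differentiableWithinAt
    · intro t ht
      rw [interior_Icc] at ht
      rw [(hder t).deriv]
      have h5 := sin_ge_mul hz0 hz ht.1.le ht.2.le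
      have e : z * Real.sin z / 2 * (-(2 * (t / z) * (1 / z))) = -(t / z * Real.sin z) := by
        field_simp
      rw [e]; linarith
  have h6 := hanti (show x ∈ Icc 0 z from ⟨hx0, hx⟩) (show z ∈ Icc 0 z from ⟨hz0.le, le_rfl⟩) hx
  simp only [hK, sub_self, div_self hz0.ne', one_pow, mul_zero] at h6
  linarith

lemma cos_sub_ge {z : ℝ} (hz0 : 0 < z) (hz : z ≤ π) {x : ℝ} (hx : |x| ≤ z) :
    z * Real.sin z / 2 * (1 - (x / z) ^ 2) ≤ Real.cos x - Real.cos z := by
  have h := cos_sub_ge_aux hz0 hz (abs_nonneg x) hx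
  rw [Real.cos_abs, div_pow, sq_abs, ← div_pow] at h
  exact h

lemma log_two_cosh_sub {t : ℝ} (ht : 0 < t) : t - 2 / t ≤ Real.log (2 * Real.cosh t - 2) := by
  have h1 : 0 < 1 - Real.exp (-t) := by
    have : Real.exp (-t) < 1 := by rw [Real.exp_lt_one_iff]; linarith
    linarith
  have e : 2 * Real.cosh t - 2 = Real.exp t * (1 - Real.exp (-t)) ^ 2 := by
    rw [Real.cosh_eq]
    have h2 : Real.exp t * Real.exp (-t) = 1 := by rw [← Real.exp_add]; simp
    have h3 : Real.exp t * (1 - Real.exp (-t)) ^ 2 = Real.exp t - 2 * (Real.exp t * Real.exp (-t))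
        + (Real.exp t * Real.exp (-t)) * Real.exp (-t) := by ring
    rw [h3, h2]; ring
  rw [e, Real.log_mul (Real.exp_pos t).ne' (by positivity), Real.log_exp, Real.log_pow]
  have h4 : -(1 / t) ≤ Real.log (1 - Real.exp (-t)) := by
    have h5 := Real.one_sub_inv_le_log_of_pos h1
    refine le_trans ?_ h5
    have h6 : Real.exp (-t) ≤ 1 / (1 + t) := by
      rw [Real.exp_neg, ← one_div]
      apply one_div_le_one_div_of_le (by positivity)
      linarith [Real.add_one_le_exp t]
    have h7 : t / (1 + t) ≤ 1 - Real.exp (-t) := by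
      have : t / (1 + t) = 1 - 1 / (1 + t) := by field_simp; ring
      rw [this]; linarith
    have h8 : (1 - Real.exp (-t))⁻¹ ≤ (t / (1 + t))⁻¹ := by
      apply inv_anti₀ (by positivity) h7
    have h9 : (t / (1 + t))⁻¹ = 1 / t + 1 := by
      rw [inv_div]; field_simp
    linarith
  push_cast
  have : 2 / t = 2 * (1 / t) := by ring
  rw [this]; linarith

section
variable {β : ℝ}

/-- the function whose logarithm is integrated -/
noncomputable def QQ (β : ℝ) (n : ℕ) (k τ x : ℝ) : ℝ :=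
  2 * (T ℝ n).eval (uu β x) - 2 * Real.cos (k * x + τ)

lemma hyp_point (h0 : 0 < β) (h4 : β < 4) (c : ℝ) (hc : 0 < c)
    (hcosh : Real.cosh c ≤ 1 + xz β * Real.sin (xz β) / 2) (n : ℕ) (hn : 0 < n) (k τ x : ℝ)
    (hx : x ∈ Ioo (-xz β) (xz β)) :
    n * c * Real.sqrt (1 - (x / xz β) ^ 2) - 2 / (n * c * Real.sqrt (1 - (x / xz β) ^ 2)) ≤
      Real.log (QQ β n k τ x) := by
  have hz0 := xz_pos h0
  have hzπ := xz_lt_pi h4
  set z := xz β with hz
  set q := 1 - (x / z) ^ 2 with hq
  have hxabs : |x| < z := abs_lt.2 hx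
  have hq0 : 0 < q := by
    have : (x / z) ^ 2 < 1 := by
      rw [div_pow, div_lt_one (by positivity)]
      rw [← sq_abs]
      have := abs_nonneg x
      nlinarith
    linarith
  have hq1 : q ≤ 1 := by
    have := sq_nonneg (x / z)
    linarith
  set r := Real.sqrt q with hr
  have hr0 : 0 < r := Real.sqrt_pos.2 hq0
  have hr2 : r ^ 2 = q := Real.sq_sqrt hq0.le
  have hr1 : r ≤ 1 := by nlinarith
  have hu : Real.cosh (c * r) ≤ - uu β x := by
    have h1 := cosh_mul_le hr0.le hr1 hc.le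
    have h2 := cos_sub_ge hz0 hzπ.le hxabs.le
    rw [← hq] at h2
    have h3 : Real.cos z = 1 - β / 2 := cos_xz h0 h4
    rw [h3] at h2
    unfold uu
    rw [hr2] at h1
    nlinarith
  have h1u : 1 ≤ - uu β x := (Real.one_le_cosh _).trans hu
  set s := Real.arcosh (- uu β x) with hs
  have hs1 : Real.cosh s = - uu β x := Real.cosh_arcosh h1u
  have hs0 : 0 ≤ s := Real.arcosh_nonneg h1u
  have hcr : c * r ≤ s := by
    have h5 : Real.cosh (c * r) ≤ Real.cosh s := by rw [hs1]; exact hu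
    rw [Real.cosh_le_cosh, abs_of_nonneg (by positivity), abs_of_nonneg hs0] at h5
    exact h5
  have hT : |(T ℝ n).eval (uu β x)| = Real.cosh (n * s) := by
    have h5 := T_eval_neg ℝ n (- uu β x)
    rw [neg_neg] at h5
    rw [h5, abs_mul, ← hs1, T_real_cosh]
    have : |((Int.negOnePow (n:ℤ) : ℤˣ) : ℝ)| = 1 := by
      rcases Int.units_eq_one_or (Int.negOnePow (n:ℤ)) with h | h <;> rw [h] <;> simp
    rw [show ((((Int.negOnePow (n:ℤ)) : ℤˣ) : ℤ) : ℝ) = ((Int.negOnePow (n:ℤ) : ℤˣ) : ℝ) from rfl, this,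
      one_mul, abs_of_pos (Real.cosh_pos _)]
    norm_cast
  have hn0 : (0:ℝ) < n := by exact_mod_cast hn
  have ht : 0 < n * c * r := by positivity
  refine (log_two_cosh_sub ht).trans ?_
  rw [← Real.log_abs (QQ β n k τ x)]
  apply Real.log_le_log
  · have : 1 < Real.cosh (n * c * r) := by rw [Real.one_lt_cosh]; exact ht.ne'
    linarith
  · have h6 : Real.cosh (n * c * r) ≤ Real.cosh (n * s) := by
      rw [Real.cosh_le_cosh, abs_of_pos ht, abs_of_nonneg (by positivity), mul_assoc]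
      gcongr
    unfold QQ
    have h7 := abs_sub_abs_le_abs_sub (2 * (T ℝ n).eval (uu β x)) (2 * Real.cos (k * x + τ))
    rw [abs_mul, abs_mul, hT, abs_two] at h7
    have h8 := Real.abs_cos_le_one (k * x + τ)
    linarith

lemma hyp_integral (h0 : 0 < β) (h4 : β < 4) (c : ℝ) (hc : 0 < c)
    (hcosh : Real.cosh c ≤ 1 + xz β * Real.sin (xz β) / 2) (n : ℕ) (hn : 0 < n) (k τ : ℝ)
    (hint : IntervalIntegrable (fun x => Real.log (QQ β n k τ x)) volume (-xz β) (xz β)) :
    n * c * xz β * (π / 2) - 2 * π * xz β / (n * c) ≤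
      ∫ x in (-xz β)..(xz β), Real.log (QQ β n k τ x) := by
  have hz0 := xz_pos h0
  set z := xz β with hz
  have hn0 : (0:ℝ) < n := by exact_mod_cast hn
  have i1 : IntervalIntegrable (fun x => n * c * Real.sqrt (1 - (x / z) ^ 2)) volume (-z) z := by
    apply Continuous.intervalIntegrable
    fun_prop
  have i2' : IntervalIntegrable (fun x : ℝ => 1 / Real.sqrt (1 - (x / z) ^ 2)) volume (-z) z := by
    have := inv_sqrt_integrable.comp_mul_left (c := z⁻¹)
    have e1 : (-1:ℝ) / z⁻¹ = -z := by rw [div_inv_eq_mul]; ring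
    have e2 : (1:ℝ) / z⁻¹ = z := by rw [div_inv_eq_mul]; ring
    rw [e1, e2] at this
    have e3 : (fun x : ℝ => 1 / Real.sqrt (1 - (x / z) ^ 2)) =
        fun x => 1 / Real.sqrt (1 - (z⁻¹ * x) ^ 2) := by
      ext x; rw [show x / z = z⁻¹ * x from div_eq_inv_mul x z]
    rw [e3]; exact this
  have i2 : IntervalIntegrable (fun x => 2 / (n * c * Real.sqrt (1 - (x / z) ^ 2))) volume (-z) z := by
    have e3 : (fun x => 2 / (n * c * Real.sqrt (1 - (x / z) ^ 2))) =
        fun x => (2 / (n * c)) * (1 / Real.sqrt (1 - (x / z) ^ 2)) := by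
      ext x; rw [div_mul_div_comm, mul_one]
    rw [e3]; exact i2'.const_mul _
  have key : ∫ x in (-z)..z, (n * c * Real.sqrt (1 - (x / z) ^ 2) -
      2 / (n * c * Real.sqrt (1 - (x / z) ^ 2))) ≤ ∫ x in (-z)..z, Real.log (QQ β n k τ x) := by
    apply intervalIntegral.integral_mono_on_of_le_Ioo (by linarith) (i1.sub i2) hint
    intro x hx
    exact hyp_point h0 h4 c hc hcosh n hn k τ x hx
  rw [intervalIntegral.integral_sub i1 i2] at key
  have e1 : ∫ x in (-z)..z, n * c * Real.sqrt (1 - (x / z) ^ 2) = n * c * (z * (π / 2)) := by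
    rw [intervalIntegral.integral_const_mul,
      intervalIntegral.integral_comp_div (fun x => Real.sqrt (1 - x ^ 2)) hz0.ne', neg_div,
      div_self hz0.ne', integral_sqrt_one_sub_sq, smul_eq_mul]
  have e2 : ∫ x in (-z)..z, 2 / (n * c * Real.sqrt (1 - (x / z) ^ 2)) =
      (2 / (n * c)) * (z * π) := by
    have e3 : (fun x => 2 / (n * c * Real.sqrt (1 - (x / z) ^ 2))) =
        fun x => (2 / (n * c)) * (1 / Real.sqrt (1 - (x / z) ^ 2)) := by
      ext x; rw [div_mul_div_comm, mul_one]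
    rw [e3, intervalIntegral.integral_const_mul,
      intervalIntegral.integral_comp_div (fun x => 1 / Real.sqrt (1 - x ^ 2)) hz0.ne', neg_div,
      div_self hz0.ne', integral_inv_sqrt, smul_eq_mul]
  rw [e1, e2] at key
  calc n * c * z * (π / 2) - 2 * π * z / (n * c) = n * c * (z * (π / 2)) - 2 / (n * c) * (z * π) := by
        ring
    _ ≤ _ := key

end

end Pool.Agent.H25
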