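import Mathlib
import Pool.Agent.H25.Hyp

/-!
The elliptic part and the total lower bound.
-/

set_option autoImplicit false

open Real MeasureTheory intervalIntegral Set Polynomial.Chebyshev

namespace Pool.Agent.H25

section
variable {β : ℝ}

lemma zero_countable (h0 : 0 < β) (h4 : β < 4) (n l τ : ℝ) (hn : 0 < n) :
    {x ∈ Ioo (xz β) (2 * π - xz β) | Real.sin ((n * om β x + l * x + τ) / 2) = 0}.Countable := by
  set A := xz β with hA
  set B := 2 * π - xz β with hB
  set Φ : ℝ → ℝ := fun x => n * om β x + l * x + τ with hΦ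
  have hβ : 0 < 1 - β ^ 2 / 16 := by nlinarith
  have hμ : 0 < n * (β / 2 * (1 - β ^ 2 / 16)) := by positivity
  have hΦd : ∀ x ∈ Ioo A B, HasDerivAt Φ (DD β n l x) x := fun x hx => phase_deriv h0 h4 n l τ hx
  obtain ⟨s, hs, hDs⟩ := DD_surj h0 h4 n l hn 0
  rw [← hA, ← hB] at hs
  have aux : ∀ S : Set ℝ, InjOn Φ S → {x ∈ S | Real.sin (Φ x / 2) = 0}.Countable := by
    intro S hS
    apply Set.countable_of_injective_of_countable_image (f := Φ)
      (hS.mono (fun x hx => hx.1))
    apply (Set.countable_range (fun m : ℤ => (m : ℝ) * (2 * π))).mono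
    rintro _ ⟨x, hx, rfl⟩
    exact two_pi_int_of_sin_half hx.2
  have h1 : InjOn Φ (Ioc A s) := by
    have : StrictAntiOn Φ (Ioc A s) := by
      apply strictAntiOn_of_deriv_neg (convex_Ioc A s)
      · intro x hx
        exact (hΦd x ⟨hx.1, lt_of_le_of_lt hx.2 hs.2⟩).continuousAt.continuousWithinAt
      · rw [interior_Ioc]
        intro x hx
        have hx' : x ∈ Ioo A B := ⟨hx.1, hx.2.trans hs.2⟩
        rw [(hΦd x hx').deriv]
        have := DD_mono h0 h4 n l hn hx' hs hx.2.le
        rw [hDs] at this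
        have h5 := mul_pos hμ (sub_pos.2 hx.2)
        linarith
    exact this.injOn
  have h2 : InjOn Φ (Ico s B) := by
    have : StrictMonoOn Φ (Ico s B) := by
      apply strictMonoOn_of_deriv_pos (convex_Ico s B)
      · intro x hx
        exact (hΦd x ⟨lt_of_lt_of_le hs.1 hx.1, hx.2⟩).continuousAt.continuousWithinAt
      · rw [interior_Ico]
        intro x hx
        have hx' : x ∈ Ioo A B := ⟨hs.1.trans hx.1, hx.2⟩
        rw [(hΦd x hx').deriv]
        have := DD_mono h0 h4 n l hn hs hx' hx.1.le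
        rw [hDs] at this
        have h5 := mul_pos hμ (sub_pos.2 hx.1)
        linarith
    exact this.injOn
  apply ((aux _ h1).union (aux _ h2)).mono
  intro x hx
  rcases le_total x s with h | h
  · left; exact ⟨⟨hx.1.1, h⟩, hx.2⟩
  · right; exact ⟨⟨h, hx.1.2⟩, hx.2⟩

lemma QQ_arc (h0 : 0 < β) (h4 : β < 4) (n : ℕ) (k τ x : ℝ)
    (hx : x ∈ Ioo (xz β) (2 * π - xz β)) :
    QQ β n k τ x = -((2 * Real.sin ((n * om β x + k * x + τ) / 2)) *
      (2 * Real.sin ((n * om β x + (-k) * x + (-τ)) / 2))) := by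
  obtain ⟨h1, h2⟩ := uu_mem h0 h4 hx
  have hcos : Real.cos (om β x) = uu β x := Real.cos_arccos h1.le h2.le
  unfold QQ
  rw [← hcos, T_real_cos]
  have := Real.cos_sub_cos (n * om β x) (k * x + τ)
  have e1 : (n * om β x + (k * x + τ)) / 2 = (n * om β x + k * x + τ) / 2 := by ring
  have e2 : (n * om β x - (k * x + τ)) / 2 = (n * om β x + (-k) * x + (-τ)) / 2 := by ring
  rw [e1, e2] at this
  have e3 : ((n : ℤ) : ℝ) * om β x = n * om β x := by norm_cast
  rw [e3]
  linear_combination 2 * this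

lemma ell_integral (h0 : 0 < β) (h4 : β < 4) (n : ℕ) (hn : 0 < n) (k τ : ℝ)
    (hint : IntervalIntegrable (fun x => Real.log (QQ β n k τ x)) volume (xz β) (2 * π - xz β)) :
    -(14.56 / Real.sqrt (n * (β / 2 * (1 - β ^ 2 / 16)))) ≤
      ∫ x in (xz β)..(2 * π - xz β), Real.log (QQ β n k τ x) := by
  have hn0 : (0:ℝ) < n := by exact_mod_cast hn
  set A := xz β with hA
  set B := 2 * π - xz β with hB
  have hAB : A ≤ B := by
    have := xz_lt_pi h4
    rw [hB, hA]; linarith
  set Φ₁ : ℝ → ℝ := fun x => n * om β x + k * x + τ with hΦ₁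
  set Φ₂ : ℝ → ℝ := fun x => n * om β x + (-k) * x + (-τ) with hΦ₂
  have hc1 : Continuous Φ₁ := ((continuous_const.mul om_cont).add
    (continuous_const.mul continuous_id)).add continuous_const
  have hc2 : Continuous Φ₂ := ((continuous_const.mul om_cont).add
    (continuous_const.mul continuous_id)).add continuous_const
  have hgm : Measurable g := by unfold g; fun_prop
  have hm1 : Measurable (fun x => g (Φ₁ x)) := hgm.comp hc1.measurable
  have hm2 : Measurable (fun x => g (Φ₂ x)) := hgm.comp hc2.measurable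
  have hcount := (zero_countable h0 h4 n k τ hn0).union (zero_countable h0 h4 n (-k) (-τ) hn0)
  have hae : ∀ᵐ x ∂(volume.restrict (Set.Ioc A B)),
      Real.log (QQ β n k τ x) = g (Φ₁ x) + g (Φ₂ x) := by
    have hB0 : ∀ᵐ x ∂(volume : Measure ℝ), x ≠ B := by
      have : ({B} : Set ℝ).Countable := Set.countable_singleton B
      filter_upwards [this.ae_notMem volume] with x hx
      simpa using hx
    filter_upwards [ae_restrict_of_ae (hcount.ae_notMem volume), ae_restrict_mem measurableSet_Ioc,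
      ae_restrict_of_ae hB0] with x hx1 hx2 hx3
    have hx : x ∈ Ioo A B := ⟨hx2.1, lt_of_le_of_ne hx2.2 hx3⟩
    rw [Set.mem_union, not_or] at hx1
    have hs1 : Real.sin (Φ₁ x / 2) ≠ 0 := fun h => hx1.1 ⟨hx, h⟩
    have hs2 : Real.sin (Φ₂ x / 2) ≠ 0 := fun h => hx1.2 ⟨hx, h⟩
    rw [QQ_arc h0 h4 n k τ x hx, Real.log_neg_eq_log, Real.log_mul]
    · rfl
    · exact mul_ne_zero two_ne_zero hs1
    · exact mul_ne_zero two_ne_zero hs2
  rw [intervalIntegrable_iff_integrableOn_Ioc_of_le hAB] at hint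
  have hbound : IntegrableOn (fun x => |Real.log (QQ β n k τ x)| + Real.log 2) (Set.Ioc A B) := by
    apply Integrable.add hint.abs
    exact integrable_const _
  have hlog2 : 0 ≤ Real.log 2 := by positivity
  have hi1 : IntegrableOn (fun x => g (Φ₁ x)) (Set.Ioc A B) := by
    apply Integrable.mono' hbound hm1.aestronglyMeasurable
    filter_upwards [hae] with x hx
    rw [Real.norm_eq_abs, abs_le]
    have e1 := g_le (Φ₁ x)
    have e2 := g_le (Φ₂ x)
    have e3 := neg_abs_le (Real.log (QQ β n k τ x))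
    have e4 := abs_nonneg (Real.log (QQ β n k τ x))
    constructor <;> linarith
  have hi2 : IntegrableOn (fun x => g (Φ₂ x)) (Set.Ioc A B) := by
    apply Integrable.mono' hbound hm2.aestronglyMeasurable
    filter_upwards [hae] with x hx
    rw [Real.norm_eq_abs, abs_le]
    have e1 := g_le (Φ₁ x)
    have e2 := g_le (Φ₂ x)
    have e3 := neg_abs_le (Real.log (QQ β n k τ x))
    have e4 := abs_nonneg (Real.log (QQ β n k τ x))
    constructor <;> linarith
  have hI1 : IntervalIntegrable (fun x => g (Φ₁ x)) volume A B := by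
    rwa [intervalIntegrable_iff_integrableOn_Ioc_of_le hAB]
  have hI2 : IntervalIntegrable (fun x => g (Φ₂ x)) volume A B := by
    rwa [intervalIntegrable_iff_integrableOn_Ioc_of_le hAB]
  have heq : ∫ x in A..B, Real.log (QQ β n k τ x) =
      (∫ x in A..B, g (Φ₁ x)) + ∫ x in A..B, g (Φ₂ x) := by
    rw [← intervalIntegral.integral_add hI1 hI2]
    rw [intervalIntegral.integral_of_le hAB, intervalIntegral.integral_of_le hAB]
    exact integral_congr_ae hae
  rw [heq]
  have k1 := osc_num h0 h4 n k τ hn0 hI1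
  have k2 := osc_num h0 h4 n (-k) (-τ) hn0 hI2
  have e : -(14.56 / Real.sqrt (n * (β / 2 * (1 - β ^ 2 / 16)))) =
    -(7.28 / Real.sqrt (n * (β / 2 * (1 - β ^ 2 / 16)))) +
    -(7.28 / Real.sqrt (n * (β / 2 * (1 - β ^ 2 / 16)))) := by ring
  rw [e]
  exact add_le_add k1 k2

/-- the total lower bound -/
lemma total_integral (h0 : 0 < β) (h4 : β < 4) (c : ℝ) (hc : 0 < c)
    (hcosh : Real.cosh c ≤ 1 + xz β * Real.sin (xz β) / 2) (n : ℕ) (hn : 0 < n) (k τ : ℝ)
    (hint : ∀ a b : ℝ, IntervalIntegrable (fun x => Real.log (QQ β n k τ x)) volume a b)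
    (hper : Function.Periodic (fun x => Real.log (QQ β n k τ x)) (2 * π)) (t : ℝ) :
    n * c * xz β * (π / 2) - 2 * π * xz β / (n * c)
      -(14.56 / Real.sqrt (n * (β / 2 * (1 - β ^ 2 / 16)))) ≤
      ∫ x in t..(t + 2 * π), Real.log (QQ β n k τ x) := by
  rw [hper.intervalIntegral_add_eq t (-xz β)]
  have e : -xz β + 2 * π = 2 * π - xz β := by ring
  rw [e, ← intervalIntegral.integral_add_adjacent_intervals (hint (-xz β) (xz β))
    (hint (xz β) (2 * π - xz β))]
  have h1 := hyp_integral h0 h4 c hc hcosh n hn k τ (hint _ _)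
  have h2 := ell_integral h0 h4 n hn k τ (hint _ _)
  linarith

end

end Pool.Agent.H25
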