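import Mathlib
import Pool.Agent.H25.Basic

/-!
Product formula and the Mahler measure as an integral of a Chebyshev expression.
-/

set_option autoImplicit false

open Real MeasureTheory intervalIntegral Set

namespace Pool.Agent.H25

lemma prod_range_zeta {n : ℕ} (hn : 0 < n) {ζ : ℂ} (h : IsPrimitiveRoot ζ n) (x y : ℂ) :
    ∏ j ∈ Finset.range n, (x - ζ ^ j * y) = x ^ n - y ^ n := by
  have : NeZero n := ⟨hn.ne'⟩
  rw [h.pow_sub_pow_eq_prod_sub_mul x y hn]
  apply Finset.prod_nbij (fun j => ζ ^ j)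
  · intro j _
    rw [Polynomial.mem_nthRootsFinset hn, ← pow_mul, mul_comm, pow_mul, h.pow_eq_one, one_pow]
  · intro i hi j hj hij
    exact h.pow_inj (by simpa using hi) (by simpa using hj) hij
  · intro z hz
    rw [Finset.mem_coe, Polynomial.mem_nthRootsFinset hn] at hz
    obtain ⟨i, hi, hiz⟩ := h.eq_pow_of_pow_eq_one hz
    exact ⟨i, by simpa using hi, hiz⟩
  · intro j _; rfl

/-- `∏_j (2c - 2cos (y + 2πkj/n)) = 2 T_n(c) - 2 cos (n y)` -/
lemma prod_cos {n k : ℕ} (hn : 0 < n) (hk : k.Coprime n) (c y : ℝ) :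
    ∏ j ∈ Finset.range n, (2 * c - 2 * Real.cos (y + 2 * π * k * j / n)) =
      2 * (Polynomial.Chebyshev.T ℝ n).eval c - 2 * Real.cos (n * y) := by
  obtain ⟨θ, hθ⟩ := Complex.cos_surjective (c : ℂ)
  have hζ := Complex.isPrimitiveRoot_exp_of_coprime k n hn.ne' hk
  set ζ := Complex.exp (2 * π * Complex.I * (k / n)) with hζdef
  have hnC : (n : ℂ) ≠ 0 := by exact_mod_cast hn.ne'
  apply Complex.ofReal_injective
  push_cast
  rw [← hθ, Polynomial.Chebyshev.T_complex_cos]
  set w := Complex.exp (θ * Complex.I) with hw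
  set z := Complex.exp (y * Complex.I) with hz
  have hw0 : w ≠ 0 := Complex.exp_ne_zero _
  have hz0 : z ≠ 0 := Complex.exp_ne_zero _
  have hfac : ∀ j ∈ Finset.range n, (2 * Complex.cos θ - 2 * Complex.cos (y + 2 * π * k * j / n)) =
      (w - ζ ^ j * z) * (1 - (ζ⁻¹) ^ j * (w⁻¹ * z⁻¹)) := by
    intro j _
    have e1 : 2 * Complex.cos θ = w + w⁻¹ := by
      rw [Complex.two_cos, hw, ← Complex.exp_neg]
      congr 2; ring
    have e2 : 2 * Complex.cos (y + 2 * π * k * j / n) = ζ ^ j * z + (ζ ^ j * z)⁻¹ := by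
      have e3 : ζ ^ j * z = Complex.exp ((y + 2 * π * k * j / n) * Complex.I) := by
        rw [hζdef, hz, ← Complex.exp_nat_mul, ← Complex.exp_add]
        congr 1
        field_simp
        ring
      rw [Complex.two_cos, e3, ← Complex.exp_neg]
      congr 2; ring
    have hζ0 : ζ ≠ 0 := Complex.exp_ne_zero _
    have hζj : ζ ^ j ≠ 0 := pow_ne_zero _ hζ0
    rw [e1, e2, inv_pow]
    field_simp
    ring
  rw [Finset.prod_congr rfl hfac, Finset.prod_mul_distrib, prod_range_zeta hn hζ,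
    prod_range_zeta hn hζ.inv, one_pow, mul_pow]
  have e4 : 2 * Complex.cos ((n : ℤ) * θ) = w ^ n + (w⁻¹) ^ n := by
    rw [Complex.two_cos, hw, ← Complex.exp_neg, ← Complex.exp_nat_mul, ← Complex.exp_nat_mul]
    push_cast
    congr 2 <;> ring
  have e5 : 2 * Complex.cos (n * y) = z ^ n + (z⁻¹) ^ n := by
    rw [Complex.two_cos, hz, ← Complex.exp_neg, ← Complex.exp_nat_mul, ← Complex.exp_nat_mul]
    congr 2 <;> ring
  rw [e4, e5]
  have hwn : w ^ n ≠ 0 := pow_ne_zero _ hw0
  have hzn : z ^ n ≠ 0 := pow_ne_zero _ hz0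
  rw [inv_pow, inv_pow]
  field_simp
  ring

/-- Summing a periodic function over equally spaced shifts. -/
lemma sum_shift {h : ℝ → ℝ} (hper : Function.Periodic h (2 * π))
    (hint : ∀ a b : ℝ, IntervalIntegrable h volume a b) (n : ℕ) :
    ∫ θ in (0:ℝ)..(2 * π), ∑ j ∈ Finset.range n, h (θ + 2 * π * j / n) =
      n * ∫ θ in (0:ℝ)..(2 * π), h θ := by
  rw [intervalIntegral.integral_finsetSum]
  · have : ∀ j ∈ Finset.range n, ∫ θ in (0:ℝ)..(2 * π), h (θ + 2 * π * j / n) =
        ∫ θ in (0:ℝ)..(2 * π), h θ := by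
      intro j _
      rw [intervalIntegral.integral_comp_add_right (fun θ => h θ), zero_add, add_comm (2 * π)]
      have := hper.intervalIntegral_add_eq (2 * π * j / n) 0
      rw [zero_add] at this
      exact this
    rw [Finset.sum_congr rfl this, Finset.sum_const, Finset.card_range, nsmul_eq_mul]
  · intro j _
    have := (hint (0 + 2 * π * j / n) (2 * π + 2 * π * j / n)).comp_add_right (2 * π * j / n)
    simpa using this

lemma integral_comp_nat_mul {G : ℝ → ℝ} (hper : Function.Periodic G (2 * π))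
    (hint : ∀ a b : ℝ, IntervalIntegrable G volume a b) {n : ℕ} (hn : 0 < n) :
    ∫ θ in (0:ℝ)..(2 * π), G (n * θ) = ∫ θ in (0:ℝ)..(2 * π), G θ := by
  have hn0 : (n:ℝ) ≠ 0 := by exact_mod_cast hn.ne'
  rw [intervalIntegral.integral_comp_mul_left (fun θ => G θ) hn0, mul_zero]
  have := hper.intervalIntegral_add_zsmul_eq (n : ℤ) 0 hint
  rw [zero_add, zero_add] at this
  have e : ((n : ℤ) • (2 * π) : ℝ) = n * (2 * π) := by simp
  rw [e] at this
  rw [this]
  simp only [zsmul_eq_mul, smul_eq_mul]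
  push_cast
  field_simp

end Pool.Agent.H25
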