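import Mathlib
import Pool.Agent.H25.ProdCos
import Pool.Agent.H25.Ell

/-!
The Mahler measure of a reciprocal pentanomial as an integral.
-/

set_option autoImplicit false

open Real MeasureTheory intervalIntegral Set N60ffa576

namespace Pool.Agent.H25

/-- The pentanomial `X^(2n) + a X^(n+k) + b X^n + a X^(n-k) + 1`. -/
noncomputable def penta (n k : ℕ) (a b : ℤ) : Polynomial ℤ :=
  Polynomial.X ^ (2 * n) + Polynomial.C a * Polynomial.X ^ (n + k) +
    Polynomial.C b * Polynomial.X ^ n + Polynomial.C a * Polynomial.X ^ (n - k) + 1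

/-- its values on the unit circle -/
noncomputable def FF (n k : ℕ) (a b : ℝ) (θ : ℝ) : ℝ :=
  2 * Real.cos (n * θ) + 2 * a * Real.cos (k * θ) + b

lemma norm_penta (n k : ℕ) (hk : k ≤ n) (a b : ℤ) (θ : ℝ) :
    ‖Polynomial.aeval (circleMap 0 1 θ) (penta n k a b)‖ = |FF n k a b θ| := by
  have hz : circleMap 0 1 θ = Complex.exp (θ * Complex.I) := by simp [circleMap]
  rw [hz]
  set z := Complex.exp (θ * Complex.I) with hzdef
  have hz0 : z ≠ 0 := Complex.exp_ne_zero _
  have hnorm : ‖z‖ = 1 := Complex.norm_exp_ofReal_mul_I θ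
  have hcos : ∀ m : ℕ, (2 * Real.cos (m * θ) : ℂ) = z ^ m + (z ^ m)⁻¹ := by
    intro m
    rw [Complex.ofReal_cos]
    push_cast
    rw [Complex.two_cos, hzdef, ← Complex.exp_nat_mul, ← Complex.exp_neg]
    congr 2 <;> ring
  have key : Polynomial.aeval z (penta n k a b) = z ^ n * ((FF n k a b θ : ℝ) : ℂ) := by
    unfold penta FF
    simp only [map_add, map_mul, map_pow, Polynomial.aeval_X, map_one, eq_intCast, map_intCast]
    push_cast
    have e1 := hcos n
    have e2 := hcos k
    push_cast at e1 e2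
    have e3 : z ^ (n - k) = z ^ n * (z ^ k)⁻¹ := by
      rw [← div_eq_mul_inv, eq_div_iff (pow_ne_zero _ hz0), ← pow_add, Nat.sub_add_cancel hk]
    have e4 : z ^ n * (2 * Complex.cos (n * θ) + 2 * a * Complex.cos (k * θ) + b) =
        z ^ n * ((z ^ n + (z ^ n)⁻¹) + a * (z ^ k + (z ^ k)⁻¹) + b) := by
      rw [← e1, ← e2]; ring
    rw [e4, e3]
    have h1 : z ^ n * (z ^ n)⁻¹ = 1 := mul_inv_cancel₀ (pow_ne_zero _ hz0)
    rw [show z ^ (2 * n) = z ^ n * z ^ n by rw [two_mul, pow_add], pow_add]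
    linear_combination -h1
  rw [key, norm_mul, norm_pow, hnorm, one_pow, one_mul, Complex.norm_real, Real.norm_eq_abs]

lemma log_mm_eq (f : Polynomial ℤ) :
    Real.log (mahlerMeasureZ f) = (2 * π)⁻¹ *
      ∫ θ in (0:ℝ)..(2 * π), Real.log ‖Polynomial.aeval (circleMap 0 1 θ) f‖ := by
  unfold mahlerMeasureZ
  rw [← Polynomial.logMahlerMeasure_eq_log_MahlerMeasure, Polynomial.logMahlerMeasure_def,
    circleAverage_def, smul_eq_mul]
  congr 2
  ext θ
  rw [Polynomial.eval_map_algebraMap]

lemma log_mm_penta (n k : ℕ) (hk : k ≤ n) (a b : ℤ) :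
    2 * π * Real.log (mahlerMeasureZ (penta n k a b)) =
      ∫ θ in (0:ℝ)..(2 * π), Real.log (FF n k a b θ) := by
  rw [log_mm_eq]
  have hpi := Real.pi_pos
  rw [← mul_assoc, mul_inv_cancel₀ (by positivity), one_mul]
  congr 1
  ext θ
  rw [norm_penta n k hk a b θ, Real.log_abs]

lemma FF_periodic (n k : ℕ) (a b : ℝ) : Function.Periodic (FF n k a b) (2 * π) := by
  intro θ
  unfold FF
  have h1 : Real.cos (n * (θ + 2 * π)) = Real.cos (n * θ) := by
    rw [mul_add]
    exact Real.cos_add_nat_mul_two_pi _ n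
  have h2 : Real.cos (k * (θ + 2 * π)) = Real.cos (k * θ) := by
    rw [mul_add]
    exact Real.cos_add_nat_mul_two_pi _ k
  rw [h1, h2]

lemma logFF_integrable (n k : ℕ) (a b : ℝ) (s t : ℝ) :
    IntervalIntegrable (fun θ => Real.log (FF n k a b θ)) volume s t := by
  have : MeromorphicOn (FF n k a b) (Set.uIcc s t) := by
    intro x _
    apply AnalyticAt.meromorphicAt
    unfold FF
    fun_prop
  exact this.intervalIntegrable_log

/-- the function obtained after taking the product -/
noncomputable def HH (n k : ℕ) (a b : ℝ) (x : ℝ) : ℝ :=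
  2 * (Polynomial.Chebyshev.T ℝ n).eval (-a * (b + 2 * Real.cos x) / 2) - 2 * Real.cos (k * x)

lemma HH_periodic (n k : ℕ) (a b : ℝ) : Function.Periodic (HH n k a b) (2 * π) := by
  intro θ
  unfold HH
  have h2 : Real.cos (k * (θ + 2 * π)) = Real.cos (k * θ) := by
    rw [mul_add]
    exact Real.cos_add_nat_mul_two_pi _ k
  rw [h2, Real.cos_add_two_pi]

lemma logHH_integrable (n k : ℕ) (a b : ℝ) (s t : ℝ) :
    IntervalIntegrable (fun θ => Real.log (HH n k a b θ)) volume s t := by
  have : MeromorphicOn (HH n k a b) (Set.uIcc s t) := by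
    intro x _
    apply AnalyticAt.meromorphicAt
    unfold HH
    have h1 : AnalyticAt ℝ (fun x : ℝ => -a * (b + 2 * Real.cos x) / 2) x := by fun_prop
    have h2 := h1.aeval_polynomial (Polynomial.Chebyshev.T ℝ n)
    simp only [Polynomial.coe_aeval_eq_eval] at h2
    have h3 : AnalyticAt ℝ (fun x : ℝ => 2 * Real.cos (k * x)) x := by fun_prop
    exact (analyticAt_const.mul h2).sub h3
  exact this.intervalIntegrable_log

lemma prod_FF {n k : ℕ} (hn : 0 < n) (hk : k.Coprime n) (a b : ℝ) (ha : a ^ 2 = 1) (θ : ℝ) :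
    ∏ j ∈ Finset.range n, FF n k a b (θ + 2 * π * j / n) = (-a) ^ n * HH n k a b (n * θ) := by
  have hn0 : (n:ℝ) ≠ 0 := by exact_mod_cast hn.ne'
  have hfac : ∀ j ∈ Finset.range n, FF n k a b (θ + 2 * π * j / n) =
      (-a) * (2 * (-a * (b + 2 * Real.cos (n * θ)) / 2) -
        2 * Real.cos (k * θ + 2 * π * k * j / n)) := by
    intro j _
    unfold FF
    have e1 : Real.cos (n * (θ + 2 * π * j / n)) = Real.cos (n * θ) := by
      have : n * (θ + 2 * π * j / n) = n * θ + j * (2 * π) := by field_simp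
      rw [this, Real.cos_add_nat_mul_two_pi]
    have e2 : k * (θ + 2 * π * j / n) = k * θ + 2 * π * k * j / n := by ring
    rw [e1, e2]
    linear_combination (-(b + 2 * Real.cos (n * θ))) * ha
  rw [Finset.prod_congr rfl hfac, Finset.prod_mul_distrib, Finset.prod_const, Finset.card_range,
    prod_cos hn hk]
  unfold HH
  congr 3
  ring_nf

/-- `n` times the integral. -/
lemma integral_FF_eq {n k : ℕ} (hn : 0 < n) (hkn : k < n) (hk : k.Coprime n) (a b : ℤ)
    (ha : a = 1 ∨ a = -1) :
    n * ∫ θ in (0:ℝ)..(2 * π), Real.log (FF n k a b θ) =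
      ∫ x in (0:ℝ)..(2 * π), Real.log (HH n k a b x) := by
  have ha2 : (a:ℝ) ^ 2 = 1 := by
    rcases ha with h | h <;> rw [h] <;> norm_num
  have hper1 : Function.Periodic (fun θ => Real.log (FF n k a b θ)) (2 * π) := by
    intro θ; simp only; rw [FF_periodic n k a b θ]
  have hper2 : Function.Periodic (fun θ => Real.log (HH n k a b θ)) (2 * π) := by
    intro θ; simp only; rw [HH_periodic n k a b θ]
  rw [← sum_shift hper1 (logFF_integrable n k a b) n,
    ← integral_comp_nat_mul hper2 (logHH_integrable n k a b) hn]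
  -- the zero set of FF is countable
  have hf0 : penta n k a b ≠ 0 := by
    intro h
    have h1 : (penta n k a b).coeff 0 = 1 := by
      unfold penta
      simp only [Polynomial.coeff_add, Polynomial.coeff_C_mul, Polynomial.coeff_X_pow,
        Polynomial.coeff_one_zero]
      have e1 : ¬ (0 = 2 * n) := by omega
      have e2 : ¬ (0 = n + k) := by omega
      have e3 : ¬ (0 = n) := by omega
      have e4 : ¬ (0 = n - k) := by omega
      simp [e1, e2, e3, e4]
    rw [h] at h1
    simp at h1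
  have hzero : {θ : ℝ | FF n k a b θ = 0}.Countable := by
    have h1 : {z : ℂ | Polynomial.aeval z (penta n k a b) = 0}.Countable := by
      have : {z : ℂ | Polynomial.aeval z (penta n k a b) = 0} ⊆
          ((croots (penta n k a b)).toFinset : Set ℂ) := by
        intro z hz
        rw [Finset.mem_coe, Multiset.mem_toFinset]
        exact (mem_croots hf0).2 hz
      exact (Finset.countable_toSet _).mono this
    apply (h1.preimage_circleMap 0 (one_ne_zero : (1:ℝ) ≠ 0)).mono
    intro θ hθ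
    rw [Set.mem_preimage, Set.mem_ofPred_eq, ← norm_eq_zero, norm_penta n k hkn.le a b θ]
    rw [Set.mem_ofPred_eq] at hθ
    rw [hθ, abs_zero]
  have hzero' : ∀ j : ℕ, {θ : ℝ | FF n k a b (θ + 2 * π * j / n) = 0}.Countable := by
    intro j
    have : {θ : ℝ | FF n k a b (θ + 2 * π * j / n) = 0} =
        (fun θ => θ + 2 * π * j / n) ⁻¹' {θ : ℝ | FF n k a b θ = 0} := rfl
    rw [this]
    exact hzero.preimage (add_left_injective _)
  have hall : (⋃ j : ℕ, {θ : ℝ | FF n k a b (θ + 2 * π * j / n) = 0}).Countable :=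
    Set.countable_iUnion hzero'
  apply intervalIntegral.integral_congr_ae
  filter_upwards [hall.ae_notMem volume] with θ hθ _
  rw [Set.mem_iUnion] at hθ
  push Not at hθ
  rw [← Real.log_prod (fun j _ => hθ j), prod_FF hn hk a b ha2 θ]
  rw [← Real.log_abs ((-(a:ℝ)) ^ n * _), abs_mul, abs_pow]
  have : |(-(a:ℝ))| = 1 := by
    rcases ha with h | h <;> rw [h] <;> norm_num
  rw [this, one_pow, one_mul, Real.log_abs]

/-- changing the sign of the argument of `T` amounts to a shift of phase -/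
lemma log_T_sign (n : ℕ) (u α : ℝ) :
    Real.log (2 * (Polynomial.Chebyshev.T ℝ n).eval (-u) - 2 * Real.cos α) =
      Real.log (2 * (Polynomial.Chebyshev.T ℝ n).eval u - 2 * Real.cos (α + n * π)) := by
  rw [Polynomial.Chebyshev.T_eval_neg, Real.cos_add_nat_mul_pi]
  rcases Nat.even_or_odd n with h | h
  · have e1 : Int.negOnePow (n:ℤ) = 1 := Int.negOnePow_even _ (by exact_mod_cast h)
    rw [e1, h.neg_one_pow]
    simp
  · have e1 : Int.negOnePow (n:ℤ) = -1 := Int.negOnePow_odd _ (by exact_mod_cast h)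
    rw [e1, h.neg_one_pow, ← Real.log_neg_eq_log]
    congr 1
    simp
    ring

lemma HH_eq_QQ (n k : ℕ) (a b : ℤ) (ha : a = 1 ∨ a = -1) (hb : b ≠ 0) :
    ∃ t τ : ℝ, ∀ x, Real.log (HH n k a b (x + t)) = Real.log (QQ |(b:ℝ)| n k τ x) := by
  rcases lt_or_gt_of_ne hb with hb' | hb'
  · have hbabs : |(b:ℝ)| = -b := abs_of_neg (by exact_mod_cast hb')
    rcases ha with rfl | rfl
    · refine ⟨π, k * π + n * π, ?_⟩
      intro x
      unfold HH QQ uu
      rw [Real.cos_add_pi, hbabs]
      have e1 : -((1:ℤ):ℝ) * (b + 2 * -Real.cos x) / 2 = -(-(-b / 2 + Real.cos x)) := by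
        push_cast; ring
      rw [e1, log_T_sign]
      congr 4; ring
    · refine ⟨π, k * π, ?_⟩
      intro x
      unfold HH QQ uu
      rw [Real.cos_add_pi, hbabs]
      have e1 : -((-1:ℤ):ℝ) * (b + 2 * -Real.cos x) / 2 = (-(-b / 2 + Real.cos x)) := by
        push_cast; ring
      rw [e1]
      congr 4; ring
  · have hbabs : |(b:ℝ)| = b := abs_of_pos (by exact_mod_cast hb')
    rcases ha with rfl | rfl
    · refine ⟨0, 0, ?_⟩
      intro x
      unfold HH QQ uu
      rw [hbabs, add_zero]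
      have e1 : -((1:ℤ):ℝ) * (b + 2 * Real.cos x) / 2 = (-(b / 2 + Real.cos x)) := by
        push_cast; ring
      rw [e1]
      congr 4; ring
    · refine ⟨0, n * π, ?_⟩
      intro x
      unfold HH QQ uu
      rw [hbabs, add_zero]
      have e1 : -((-1:ℤ):ℝ) * (b + 2 * Real.cos x) / 2 = -(-(b / 2 + Real.cos x)) := by
        push_cast; ring
      rw [e1, log_T_sign]

/-- **Lower bound for the Mahler measure of a pentanomial with `a = ±1`.** -/
theorem penta_lower {n k : ℕ} (hk0 : 0 < k) (hkn : k < n) (hk : k.Coprime n) (a b : ℤ)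
    (ha : a = 1 ∨ a = -1) (β : ℝ) (hβ : |(b:ℝ)| = β) (h0 : 0 < β) (h4 : β < 4)
    (c : ℝ) (hc : 0 < c) (hcosh : Real.cosh c ≤ 1 + xz β * Real.sin (xz β) / 2) :
    n * c * xz β * (π / 2) - 2 * π * xz β / (n * c)
      -(14.56 / Real.sqrt (n * (β / 2 * (1 - β ^ 2 / 16)))) ≤
      2 * π * n * Real.log (mahlerMeasureZ (penta n k a b)) := by
  have hn : 0 < n := by omega
  have hb : b ≠ 0 := by
    rintro rfl
    simp at hβ
    linarith
  obtain ⟨t, τ, hH⟩ := HH_eq_QQ n k a b ha hb
  rw [hβ] at hH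
  have e1 : 2 * π * n * Real.log (mahlerMeasureZ (penta n k a b)) =
      ∫ x in (0:ℝ)..(2 * π), Real.log (HH n k a b x) := by
    rw [← integral_FF_eq hn hkn hk a b ha, ← log_mm_penta n k hkn.le a b]
    ring
  have hper2 : Function.Periodic (fun θ => Real.log (HH n k a b θ)) (2 * π) := by
    intro θ; simp only; rw [HH_periodic n k a b θ]
  have e2 : ∫ x in (0:ℝ)..(2 * π), Real.log (HH n k a b x) =
      ∫ x in (0:ℝ)..(0 + 2 * π), Real.log (QQ β n k τ x) := by
    have h1 := hper2.intervalIntegral_add_eq 0 (0 + t)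
    rw [zero_add] at h1
    rw [h1]
    have h2 := intervalIntegral.integral_comp_add_right (a := 0) (b := 2 * π)
      (fun x => Real.log (HH n k a b x)) t
    rw [zero_add] at h2 ⊢
    rw [add_comm t (2 * π), ← h2]
    simp only [zero_add, hH]
  rw [e1, e2]
  apply total_integral h0 h4 c hc hcosh n hn k τ
  · intro s u
    have h1 := (logHH_integrable n k a b (s + t) (u + t)).comp_add_right t
    simp only [add_sub_cancel_right, hH] at h1
    exact h1
  · intro x
    have h1 := hper2 (x + t)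
    simp only at h1
    have e3 : x + t + 2 * π = (x + 2 * π) + t := by ring
    rw [e3, hH, hH] at h1
    exact h1

end Pool.Agent.H25
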