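import Mathlib
import Pool.Agent.H25.PentaInt

/-!
Invariance of the Mahler measure under `X ↦ X^g` and `X ↦ -X`, Graeffe iteration on lists.
-/

set_option autoImplicit false

open Polynomial N60ffa576 Real MeasureTheory

namespace Pool.Agent.H25

/-- the integrand -/
noncomputable def GG (f : ℤ[X]) (θ : ℝ) : ℝ := Real.log ‖aeval (circleMap 0 1 θ) f‖

lemma GG_periodic (f : ℤ[X]) : Function.Periodic (GG f) (2 * π) := by
  intro θ
  unfold GG
  rw [periodic_circleMap 0 1 θ]

lemma GG_integrable (f : ℤ[X]) (s t : ℝ) : IntervalIntegrable (GG f) volume s t := by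
  apply (GG_periodic f).intervalIntegrable (t := 0) (by positivity)
  rw [zero_add]
  have h := (f.map (algebraMap ℤ ℂ)).intervalIntegrable_mahlerMeasure
  have e : GG f = fun θ => Real.log ‖(f.map (algebraMap ℤ ℂ)).eval (circleMap 0 1 θ)‖ := by
    ext θ
    unfold GG
    rw [eval_map_algebraMap]
  rw [e]; exact h

lemma mmZ_pos {f : ℤ[X]} (hf : f ≠ 0) : 0 < mahlerMeasureZ f :=
  lt_of_lt_of_le one_pos (one_le_mmZ hf)

lemma mm_eq_of_log {f h : ℤ[X]} (hf : f ≠ 0) (hh : h ≠ 0)
    (e : Real.log (mahlerMeasureZ f) = Real.log (mahlerMeasureZ h)) :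
    mahlerMeasureZ f = mahlerMeasureZ h :=
  Real.log_injOn_pos (mmZ_pos hf) (mmZ_pos hh) e

lemma comp_ne_zero_of {f q : ℤ[X]} (hf : f ≠ 0) (hq : 0 < q.natDegree) : f.comp q ≠ 0 := by
  intro h
  rw [comp_eq_zero_iff] at h
  rcases h with h | ⟨_, h⟩
  · exact hf h
  · rw [h] at hq; simp at hq

theorem mm_expand (f : ℤ[X]) {m : ℕ} (hm : 0 < m) :
    mahlerMeasureZ (f.comp (X ^ m)) = mahlerMeasureZ f := by
  rcases eq_or_ne f 0 with rfl | hf
  · simp
  have hq : 0 < (X ^ m : ℤ[X]).natDegree := by rw [natDegree_X_pow]; exact hm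
  apply mm_eq_of_log (comp_ne_zero_of hf hq) hf
  rw [log_mm_eq, log_mm_eq]
  congr 1
  have h := integral_comp_nat_mul (GG_periodic f) (GG_integrable f) hm
  unfold GG at h
  rw [← h]
  congr 1
  ext θ
  congr 2
  rw [aeval_comp, map_pow, aeval_X]
  congr 1
  simp only [circleMap, Complex.ofReal_one, one_mul, zero_add]
  rw [← Complex.exp_nat_mul]
  congr 1
  push_cast; ring

theorem mm_neg (f : ℤ[X]) : mahlerMeasureZ (f.comp (-X)) = mahlerMeasureZ f := by
  rcases eq_or_ne f 0 with rfl | hf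
  · simp
  have hq : 0 < (-X : ℤ[X]).natDegree := by rw [natDegree_neg, natDegree_X]; exact one_pos
  apply mm_eq_of_log (comp_ne_zero_of hf hq) hf
  rw [log_mm_eq, log_mm_eq]
  congr 1
  have h := (GG_periodic f).intervalIntegral_add_eq 0 (0 + π)
  have h2 := intervalIntegral.integral_comp_add_right (a := 0) (b := 2 * π) (GG f) π
  have e2 : 0 + π + 2 * π = 2 * π + π := by ring
  rw [e2, ← h2, zero_add] at h
  unfold GG at h
  rw [h]
  congr 1
  ext θ
  congr 2
  rw [aeval_comp, map_neg, aeval_X]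
  congr 1
  simp only [circleMap, Complex.ofReal_one, one_mul, zero_add]
  push_cast
  rw [add_mul, Complex.exp_add, Complex.exp_pi_mul_I]
  ring

/-! Lists -/

/-- polynomial with a given list of coefficients (constant term first) -/
noncomputable def toPoly : List ℤ → ℤ[X]
  | [] => 0
  | a :: l => C a + X * toPoly l

def addL : List ℤ → List ℤ → List ℤ
  | [], m => m
  | a :: l, [] => a :: l
  | a :: l, b :: m => (a + b) :: addL l m

def smulL (c : ℤ) : List ℤ → List ℤ
  | [] => []
  | a :: l => (c * a) :: smulL c l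

def mulL : List ℤ → List ℤ → List ℤ
  | [], _ => []
  | a :: l, m => addL (smulL a m) (0 :: mulL l m)

mutual
def evensL : List ℤ → List ℤ
  | [] => []
  | a :: l => a :: oddsL l
def oddsL : List ℤ → List ℤ
  | [] => []
  | _ :: l => evensL l
end

def graeffe (l : List ℤ) : List ℤ :=
  addL (mulL (evensL l) (evensL l)) (0 :: smulL (-1) (mulL (oddsL l) (oddsL l)))

lemma toPoly_addL : ∀ l m : List ℤ, toPoly (addL l m) = toPoly l + toPoly m
  | [], m => by simp [addL, toPoly]
  | a :: l, [] => by simp [addL, toPoly]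
  | a :: l, b :: m => by
    simp only [addL, toPoly, toPoly_addL l m, map_add]
    ring

lemma toPoly_smulL (c : ℤ) : ∀ l : List ℤ, toPoly (smulL c l) = C c * toPoly l
  | [] => by simp [smulL, toPoly]
  | a :: l => by
    simp only [smulL, toPoly, toPoly_smulL c l, map_mul]
    ring

lemma toPoly_mulL : ∀ l m : List ℤ, toPoly (mulL l m) = toPoly l * toPoly m
  | [], m => by simp [mulL, toPoly]
  | a :: l, m => by
    simp only [mulL, toPoly, toPoly_addL, toPoly_smulL, toPoly_mulL l m, map_zero]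
    ring

mutual
lemma toPoly_split : ∀ l : List ℤ,
    toPoly l = (toPoly (evensL l)).comp (X ^ 2) + X * (toPoly (oddsL l)).comp (X ^ 2)
  | [] => by simp [evensL, oddsL, toPoly]
  | a :: l => by
    have := toPoly_split l
    simp only [evensL, oddsL, toPoly, add_comp, mul_comp, X_comp, C_comp]
    rw [this]
    ring
end

lemma toPoly_graeffe (l : List ℤ) :
    (toPoly (graeffe l)).comp (X ^ 2) = toPoly l * (toPoly l).comp (-X) := by
  set E := (toPoly (evensL l)).comp (X ^ 2) with hE
  set O := (toPoly (oddsL l)).comp (X ^ 2) with hO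
  have h1 : toPoly l = E + X * O := toPoly_split l
  have hE' : E.comp (-X) = E := by
    rw [hE, comp_assoc]; congr 1; simp
  have hO' : O.comp (-X) = O := by
    rw [hO, comp_assoc]; congr 1; simp
  have h2 : (toPoly l).comp (-X) = E - X * O := by
    rw [h1, add_comp, mul_comp, X_comp, hE', hO']; ring
  rw [h2, h1]
  simp only [graeffe, toPoly_addL, toPoly_mulL, toPoly, toPoly_smulL, add_comp, mul_comp, X_comp,
    C_comp, ← hE, ← hO]
  simp
  ring

lemma mm_graeffe (l : List ℤ) :
    mahlerMeasureZ (toPoly (graeffe l)) = mahlerMeasureZ (toPoly l) ^ 2 := by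
  rw [← mm_expand (toPoly (graeffe l)) (m := 2) (by norm_num), toPoly_graeffe, mmZ_mul, mm_neg, sq]

lemma coeff_toPoly : ∀ (l : List ℤ) (i : ℕ), (toPoly l).coeff i = l.getD i 0
  | [], i => by simp [toPoly]
  | a :: l, 0 => by simp [toPoly]
  | a :: l, i + 1 => by
    simp only [toPoly, coeff_add, coeff_C_succ, zero_add, coeff_X_mul, List.getD_cons_succ]
    exact coeff_toPoly l i

lemma natDegree_toPoly_le (l : List ℤ) : (toPoly l).natDegree ≤ l.length - 1 := by
  rw [natDegree_le_iff_coeff_eq_zero]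
  intro i hi
  rw [coeff_toPoly, List.getD_eq_default]
  omega

lemma abs_coeff_le (f : ℤ[X]) (i : ℕ) (d : ℕ) (hd : f.natDegree ≤ d) :
    |(f.coeff i : ℝ)| ≤ d.choose i * mahlerMeasureZ f := by
  have h := norm_coeff_le_choose_mul_mahlerMeasure i (f.map (algebraMap ℤ ℂ))
  rw [coeff_map, natDegree_map_eq_of_injective algMap_inj] at h
  simp only [algebraMap_int_eq, eq_intCast, Complex.norm_intCast] at h
  refine h.trans ?_
  have h2 : ((f.natDegree.choose i : ℕ) : ℝ) ≤ d.choose i := by
    exact_mod_cast Nat.choose_le_choose i hd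
  have h3 := mmZ_nonneg f
  unfold mahlerMeasureZ at h3 ⊢
  rw [algebraMap_int_eq] at h3 ⊢
  gcongr

def certI (l : List ℤ) (r i : ℕ) : Bool :=
  Nat.ble (11763 ^ (2 ^ r) * (l.length - 1).factorial)
    (10000 ^ (2 ^ r) * (l.getD i 0).natAbs * (i.factorial * (l.length - 1 - i).factorial))

def searchI (l : List ℤ) (r : ℕ) : ℕ → Bool
  | 0 => certI l r 0
  | i + 1 => certI l r (i + 1) || searchI l r i

def searchR : ℕ → List ℤ → ℕ → Bool
  | 0, l, r => searchI l r ((l.length - 1) / 2)
  | fuel + 1, l, r => searchI l r ((l.length - 1) / 2) || searchR fuel (graeffe l) (r + 1)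

lemma certI_sound (l : List ℤ) (r i : ℕ) (hi : i ≤ l.length - 1) (h : certI l r i = true) :
    (1.1763 : ℝ) ^ (2 ^ r) ≤ mahlerMeasureZ (toPoly l) := by
  unfold certI at h
  rw [Nat.ble_eq] at h
  set d := l.length - 1 with hd
  have h1 := abs_coeff_le (toPoly l) i d (natDegree_toPoly_le l)
  rw [coeff_toPoly] at h1
  have h2 := Nat.choose_mul_factorial_mul_factorial hi
  rw [← h2] at h
  have h3 : 11763 ^ (2 ^ r) * d.choose i ≤ 10000 ^ (2 ^ r) * (l.getD i 0).natAbs := by
    have hpos : 0 < i.factorial * (d - i).factorial :=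
      Nat.mul_pos (Nat.factorial_pos _) (Nat.factorial_pos _)
    apply Nat.le_of_mul_le_mul_right _ hpos
    calc 11763 ^ (2 ^ r) * d.choose i * (i.factorial * (d - i).factorial)
        = 11763 ^ (2 ^ r) * (d.choose i * i.factorial * (d - i).factorial) := by ring
      _ ≤ _ := h
  have h4 : (11763 : ℝ) ^ (2 ^ r) * d.choose i ≤ 10000 ^ (2 ^ r) * |((l.getD i 0 : ℤ) : ℝ)| := by
    have : (((11763 ^ (2 ^ r) * d.choose i : ℕ)) : ℝ) ≤
        ((10000 ^ (2 ^ r) * (l.getD i 0).natAbs : ℕ) : ℝ) := by exact_mod_cast h3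
    push_cast at this
    rw [Nat.cast_natAbs] at this
    push_cast at this
    exact this
  have h5 : (0:ℝ) < d.choose i := by exact_mod_cast Nat.choose_pos hi
  have h6 : (1.1763 : ℝ) ^ (2 ^ r) = 11763 ^ (2 ^ r) / 10000 ^ (2 ^ r) := by
    rw [← div_pow]; norm_num
  rw [h6, div_le_iff₀ (by positivity)]
  have h7 : (11763 : ℝ) ^ (2 ^ r) * d.choose i ≤
      (mahlerMeasureZ (toPoly l) * 10000 ^ (2 ^ r)) * d.choose i := by
    calc (11763 : ℝ) ^ (2 ^ r) * d.choose i ≤ 10000 ^ (2 ^ r) * |((l.getD i 0 : ℤ) : ℝ)| := h4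
      _ ≤ 10000 ^ (2 ^ r) * (d.choose i * mahlerMeasureZ (toPoly l)) := by gcongr
      _ = _ := by ring
  exact le_of_mul_le_mul_right h7 h5

lemma searchI_sound (l : List ℤ) (r : ℕ) : ∀ j : ℕ, j ≤ l.length - 1 → searchI l r j = true →
    (1.1763 : ℝ) ^ (2 ^ r) ≤ mahlerMeasureZ (toPoly l)
  | 0, hj, h => certI_sound l r 0 hj h
  | j + 1, hj, h => by
    rw [searchI, Bool.or_eq_true] at h
    rcases h with h | h
    · exact certI_sound l r (j + 1) hj h
    · exact searchI_sound l r j (by omega) h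

lemma searchR_sound (M : ℝ) (hM : 0 ≤ M) : ∀ (fuel : ℕ) (l : List ℤ) (r : ℕ),
    mahlerMeasureZ (toPoly l) = M ^ (2 ^ r) → searchR fuel l r = true → 1.1763 ≤ M
  | 0, l, r, he, h => by
    have h1 := searchI_sound l r _ (by omega) h
    rw [he] at h1
    exact le_of_pow_le_pow_left₀ (by positivity) hM h1
  | fuel + 1, l, r, he, h => by
    rw [searchR, Bool.or_eq_true] at h
    rcases h with h | h
    · have h1 := searchI_sound l r _ (by omega) h
      rw [he] at h1
      exact le_of_pow_le_pow_left₀ (by positivity) hM h1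
    · apply searchR_sound M hM fuel (graeffe l) (r + 1) _ h
      rw [mm_graeffe, he, ← pow_mul, pow_succ]

theorem cert_sound (fuel : ℕ) (l : List ℤ) (h : searchR fuel l 0 = true) :
    1.1763 ≤ mahlerMeasureZ (toPoly l) :=
  searchR_sound _ (mmZ_nonneg _) fuel l 0 (by simp) h

end Pool.Agent.H25
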