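import Mathlib
import Pool.Agent.H25.MM

/-!
Mahler's inequality `M(p') ≤ deg p * M(p)`.
-/

set_option autoImplicit false

open Polynomial Real ComplexConjugate

namespace Pool.Agent.H25

lemma countable_zero_circle {p : ℂ[X]} (hp : p ≠ 0) :
    {θ : ℝ | p.eval (circleMap 0 1 θ) = 0}.Countable := by
  have h1 : {z : ℂ | p.eval z = 0}.Countable := by
    have : {z : ℂ | p.eval z = 0} ⊆ (p.roots.toFinset : Set ℂ) := by
      intro z hz
      rw [Finset.mem_coe, Multiset.mem_toFinset, mem_roots hp]
      exact hz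
    exact (Finset.countable_toSet _).mono this
  exact h1.preimage_circleMap 0 (one_ne_zero : (1:ℝ) ≠ 0)

theorem mmC_mono {p q : ℂ[X]} (hp : p ≠ 0) (hq : q ≠ 0)
    (h : ∀ z : ℂ, ‖z‖ = 1 → ‖p.eval z‖ ≤ ‖q.eval z‖) :
    p.mahlerMeasure ≤ q.mahlerMeasure := by
  have h1 : Real.log p.mahlerMeasure ≤ Real.log q.mahlerMeasure := by
    rw [← logMahlerMeasure_eq_log_MahlerMeasure, ← logMahlerMeasure_eq_log_MahlerMeasure,
      logMahlerMeasure_def, logMahlerMeasure_def, circleAverage_def, circleAverage_def,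
      smul_eq_mul, smul_eq_mul]
    apply mul_le_mul_of_nonneg_left _ (by positivity)
    apply intervalIntegral.integral_mono_ae (by positivity) p.intervalIntegrable_mahlerMeasure
      q.intervalIntegrable_mahlerMeasure
    filter_upwards [(countable_zero_circle hp).ae_notMem MeasureTheory.volume] with θ hθ
    apply Real.log_le_log (norm_pos_iff.2 hθ) (h _ (by simp))
  exact (Real.log_le_log_iff (mahlerMeasure_pos_of_ne_zero hp)
    (mahlerMeasure_pos_of_ne_zero hq)).1 h1

/-- Gauss and Lucas for the closed unit disc -/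
lemma derivative_roots_disc {P : ℂ[X]} (hP : 0 < P.degree)
    (h : ∀ z, P.eval z = 0 → ‖z‖ ≤ 1) {z : ℂ} (hz : P.derivative.eval z = 0) : ‖z‖ ≤ 1 := by
  have hP0 : P ≠ 0 := by rintro rfl; simp at hP
  have h1 : z ∈ convexHull ℝ (P.rootSet ℂ) := by
    rw [eq_centerMass_of_eval_derivative_eq_zero hP hz]
    apply Finset.centerMass_mem_convexHull
    · simp [derivRootWeight_nonneg]
    · apply sum_derivRootWeight_pos hP
    · simp [mem_rootSet]
  have h2 : P.rootSet ℂ ⊆ Metric.closedBall (0:ℂ) 1 := by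
    intro w hw
    rw [mem_rootSet, coe_aeval_eq_eval] at hw
    simpa using h w hw.2
  have h3 := convexHull_min h2 (convex_closedBall (0:ℂ) 1) h1
  simpa using h3

/-- the reflected polynomial factor -/
noncomputable def refl (α : ℂ) : ℂ[X] :=
  if ‖α‖ ≤ 1 then X - C α else C (-conj α) * X + C 1

lemma refl_natDegree (α : ℂ) : (refl α).natDegree = 1 := by
  unfold refl
  split_ifs with h
  · exact natDegree_X_sub_C α
  · apply natDegree_linear
    rw [neg_ne_zero, _root_.map_ne_zero]
    rintro rfl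
    simp at h

lemma refl_leadingCoeff (α : ℂ) : ‖(refl α).leadingCoeff‖ = max 1 ‖α‖ := by
  unfold refl
  split_ifs with h
  · rw [leadingCoeff_X_sub_C, norm_one, max_eq_left h]
  · rw [leadingCoeff_linear, norm_neg, RCLike.norm_conj, max_eq_right (by linarith)]
    rw [neg_ne_zero, _root_.map_ne_zero]
    rintro rfl
    simp at h

lemma refl_ge {α z : ℂ} (hz : 1 ≤ ‖z‖) : ‖z - α‖ ≤ ‖(refl α).eval z‖ := by
  unfold refl
  split_ifs with h
  · simp
  · push Not at h
    have e : (C (-conj α) * X + C 1 : ℂ[X]).eval z = 1 - conj α * z := by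
      simp only [eval_add, eval_mul, eval_C, eval_X]; ring
    rw [e]
    apply le_of_sq_le_sq _ (norm_nonneg _)
    have h1 : ‖z - α‖ ^ 2 = ‖z‖ ^ 2 + ‖α‖ ^ 2 - 2 * (z * conj α).re := by
      rw [← Complex.normSq_eq_norm_sq, Complex.normSq_sub, Complex.normSq_eq_norm_sq,
        Complex.normSq_eq_norm_sq]
    have h2 : ‖1 - conj α * z‖ ^ 2 = 1 + ‖α‖ ^ 2 * ‖z‖ ^ 2 - 2 * (z * conj α).re := by
      rw [← Complex.normSq_eq_norm_sq, Complex.normSq_sub, Complex.normSq_eq_norm_sq,
        Complex.normSq_eq_norm_sq]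
      have e1 : (1 * conj (conj α * z)).re = (z * conj α).re := by
        simp only [map_mul, Complex.conj_conj, one_mul, Complex.mul_re, Complex.conj_re,
          Complex.conj_im]
        ring
      rw [e1, norm_one, norm_mul, RCLike.norm_conj]
      ring
    rw [h1, h2]
    have h3 : 0 ≤ (‖z‖ ^ 2 - 1) * (‖α‖ ^ 2 - 1) := by
      apply mul_nonneg <;> nlinarith
    nlinarith

lemma refl_ne_zero {α z : ℂ} (hz : 1 < ‖z‖) : (refl α).eval z ≠ 0 := by
  unfold refl
  split_ifs with h
  · rw [eval_sub, eval_X, eval_C, sub_ne_zero]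
    rintro rfl
    linarith
  · push Not at h
    have e : (C (-conj α) * X + C 1 : ℂ[X]).eval z = 1 - conj α * z := by
      simp only [eval_add, eval_mul, eval_C, eval_X]; ring
    rw [e, sub_ne_zero]
    intro h1
    have h2 : ‖(1:ℂ)‖ = ‖conj α * z‖ := by rw [h1]
    rw [norm_one, norm_mul, RCLike.norm_conj] at h2
    nlinarith

/-- the polynomial with all zeros reflected into the closed disc -/
noncomputable def reflP (p : ℂ[X]) : ℂ[X] := C p.leadingCoeff * (p.roots.map refl).prod

lemma reflP_leadingCoeff (p : ℂ[X]) : ‖(reflP p).leadingCoeff‖ = p.mahlerMeasure := by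
  unfold reflP
  rw [leadingCoeff_mul, leadingCoeff_C, norm_mul, mahlerMeasure_eq_leadingCoeff_mul_prod_roots,
    leadingCoeff_multiset_prod, Multiset.map_map, norm_mprod, Multiset.map_map]
  congr 2
  apply Multiset.map_congr rfl
  intro α _
  exact refl_leadingCoeff α

lemma reflP_natDegree (p : ℂ[X]) (hp : p ≠ 0) : (reflP p).natDegree = p.natDegree := by
  unfold reflP
  rw [natDegree_C_mul (leadingCoeff_ne_zero.2 hp), natDegree_multiset_prod _ (by
    intro h
    rw [Multiset.mem_map] at h
    obtain ⟨α, _, hα⟩ := h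
    have := refl_natDegree α
    rw [hα] at this
    simp at this), Multiset.map_map]
  have : (p.roots.map (natDegree ∘ refl)) = p.roots.map (fun _ => 1) := by
    apply Multiset.map_congr rfl
    intro α _
    exact refl_natDegree α
  rw [this, Multiset.map_const', Multiset.sum_replicate, smul_eq_mul, mul_one]
  exact ((IsAlgClosed.splits p).natDegree_eq_card_roots).symm

lemma eval_eq_prod_roots (p : ℂ[X]) (z : ℂ) :
    p.eval z = p.leadingCoeff * (p.roots.map (fun α => z - α)).prod := by
  conv_lhs => rw [← C_leadingCoeff_mul_prod_multiset_X_sub_C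
    ((IsAlgClosed.splits p).natDegree_eq_card_roots).symm]
  rw [eval_mul, eval_C, eval_multiset_prod, Multiset.map_map]
  congr 2
  apply Multiset.map_congr rfl
  intro α _
  simp

lemma eval_reflP (p : ℂ[X]) (z : ℂ) :
    (reflP p).eval z = p.leadingCoeff * (p.roots.map (fun α => (refl α).eval z)).prod := by
  unfold reflP
  rw [eval_mul, eval_C, eval_multiset_prod, Multiset.map_map]
  rfl

lemma norm_le_reflP (p : ℂ[X]) {z : ℂ} (hz : 1 ≤ ‖z‖) : ‖p.eval z‖ ≤ ‖(reflP p).eval z‖ := by
  rw [eval_eq_prod_roots, eval_reflP, norm_mul, norm_mul, norm_mprod, norm_mprod,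
    Multiset.map_map, Multiset.map_map]
  apply mul_le_mul_of_nonneg_left _ (norm_nonneg _)
  apply prod_map_le_prod_map
  · intro α _; exact norm_nonneg _
  · intro α _; exact refl_ge hz

lemma reflP_ne_zero_of (p : ℂ[X]) (hp : p ≠ 0) {z : ℂ} (hz : 1 < ‖z‖) :
    (reflP p).eval z ≠ 0 := by
  rw [eval_reflP]
  apply mul_ne_zero (leadingCoeff_ne_zero.2 hp)
  intro h
  rw [Multiset.prod_eq_zero_iff, Multiset.mem_map] at h
  obtain ⟨α, _, hα⟩ := h
  exact refl_ne_zero hz hα

lemma mm_eq_lead_of_disc {q : ℂ[X]} (h : ∀ z, q.eval z = 0 → ‖z‖ ≤ 1) (hq : q ≠ 0) :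
    q.mahlerMeasure = ‖q.leadingCoeff‖ := by
  rw [mahlerMeasure_eq_leadingCoeff_mul_prod_roots]
  have : (q.roots.map (fun a => max 1 ‖a‖)) = q.roots.map (fun _ => (1:ℝ)) := by
    apply Multiset.map_congr rfl
    intro α hα
    rw [mem_roots hq] at hα
    exact max_eq_left (h α hα)
  rw [this, Multiset.map_const', Multiset.prod_replicate, one_pow, mul_one]

/-- **Mahler's inequality** `M(p') ≤ deg p * M(p)`. -/
theorem mahler_derivative (p : ℂ[X]) :
    p.derivative.mahlerMeasure ≤ p.natDegree * p.mahlerMeasure := by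
  rcases Nat.eq_zero_or_pos p.natDegree with hd | hd
  · rw [natDegree_eq_zero] at hd
    obtain ⟨c, rfl⟩ := hd
    simp
  have hp : p ≠ 0 := by rintro rfl; simp at hd
  set q := reflP p with hq
  have hqd : q.natDegree = p.natDegree := reflP_natDegree p hp
  have hM : 0 < p.mahlerMeasure := mahlerMeasure_pos_of_ne_zero hp
  have hqlc : ‖q.leadingCoeff‖ = p.mahlerMeasure := reflP_leadingCoeff p
  have hq0 : q ≠ 0 := by
    intro h
    rw [h] at hqlc
    simp at hqlc
    linarith
  have hqdeg : 0 < q.degree := by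
    rw [← natDegree_pos_iff_degree_pos, hqd]; exact hd
  have hqdisc : ∀ z, q.eval z = 0 → ‖z‖ ≤ 1 := by
    intro z hz
    by_contra h
    push Not at h
    exact reflP_ne_zero_of p hp h hz
  have hq'disc : ∀ z, q.derivative.eval z = 0 → ‖z‖ ≤ 1 := fun z hz =>
    derivative_roots_disc hqdeg hqdisc hz
  -- the key comparison outside the closed disc
  have hout : ∀ z : ℂ, 1 < ‖z‖ → ‖p.derivative.eval z‖ ≤ ‖q.derivative.eval z‖ := by
    intro z hz
    by_contra hcon
    push Not at hcon
    have hq'z : q.derivative.eval z ≠ 0 := fun h => absurd (hq'disc z h) (not_le.2 hz)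
    set lam : ℂ := p.derivative.eval z / q.derivative.eval z with hlam
    have hlam1 : 1 < ‖lam‖ := by
      rw [hlam, norm_div, one_lt_div (norm_pos_iff.2 hq'z)]
      exact hcon
    set H : ℂ[X] := p - C lam * q with hH
    have hHcoeff : H.coeff p.natDegree ≠ 0 := by
      rw [hH, coeff_sub, coeff_C_mul]
      intro h0
      have h1 : p.coeff p.natDegree = lam * q.coeff p.natDegree := by linear_combination h0
      have h2 : ‖p.leadingCoeff‖ = ‖lam‖ * ‖q.leadingCoeff‖ := by
        rw [← norm_mul]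
        unfold leadingCoeff
        rw [hqd, h1]
      rw [hqlc] at h2
      have h3 := leadingCoeff_le_mahlerMeasure p
      nlinarith
    have hHd : 0 < H.degree := by
      rw [← natDegree_pos_iff_degree_pos]
      exact lt_of_lt_of_le hd (le_natDegree_of_ne_zero hHcoeff)
    have hHdisc : ∀ w, H.eval w = 0 → ‖w‖ ≤ 1 := by
      intro w hw
      by_contra hw1
      push Not at hw1
      rw [hH, eval_sub, eval_mul, eval_C, sub_eq_zero] at hw
      have h1 := norm_le_reflP p hw1.le
      rw [hw, norm_mul] at h1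
      have h2 : 0 < ‖q.eval w‖ := norm_pos_iff.2 (reflP_ne_zero_of p hp hw1)
      rw [← hq] at h1
      nlinarith
    have hHz : H.derivative.eval z = 0 := by
      rw [hH, derivative_sub, derivative_C_mul, eval_sub, eval_mul, eval_C, hlam,
        div_mul_cancel₀ _ hq'z, sub_self]
    exact absurd (derivative_roots_disc hHd hHdisc hHz) (not_le.2 hz)
  have hon : ∀ z : ℂ, ‖z‖ = 1 → ‖p.derivative.eval z‖ ≤ ‖q.derivative.eval z‖ := by
    intro z hz
    have hc1 : Continuous (fun t : ℝ => ‖p.derivative.eval ((t:ℂ) * z)‖) := by fun_prop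
    have hc2 : Continuous (fun t : ℝ => ‖q.derivative.eval ((t:ℂ) * z)‖) := by fun_prop
    have h1 : ∀ t ∈ Set.Ioi (1:ℝ), ‖p.derivative.eval ((t:ℂ) * z)‖ ≤
        ‖q.derivative.eval ((t:ℂ) * z)‖ := by
      intro t ht
      apply hout
      rw [norm_mul, hz, mul_one, Complex.norm_real, Real.norm_eq_abs]
      exact lt_of_lt_of_le ht (le_abs_self t)
    have h2 := le_on_closure h1 hc1.continuousOn hc2.continuousOn (x := 1) (by
      rw [closure_Ioi]; exact Set.mem_Ici.2 le_rfl)
    simpa using h2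
  have hp' : p.derivative ≠ 0 := derivative_ne_zero.2 (by omega)
  have hq' : q.derivative ≠ 0 := derivative_ne_zero.2 (by omega)
  refine (mmC_mono hp' hq' hon).trans ?_
  rw [mm_eq_lead_of_disc hq'disc hq', leadingCoeff_derivative, norm_mul, hqlc, hqd]
  simp [mul_comm]

end Pool.Agent.H25
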