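import Mathlib
import Pool.Agent.H25.DerivIneq

/-!
The Akhtari and Vaaler inequality: coefficients of sparse polynomials are bounded by the Mahler
measure times a binomial coefficient depending only on the number of terms.
-/

set_option autoImplicit false

open Polynomial Real

namespace Pool.Agent.H25

noncomputable def GC (p : ℂ[X]) (θ : ℝ) : ℝ := Real.log ‖p.eval (circleMap 0 1 θ)‖

lemma GC_periodic (p : ℂ[X]) : Function.Periodic (GC p) (2 * π) := by
  intro θ
  unfold GC
  rw [periodic_circleMap 0 1 θ]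

lemma log_mmC_eq (p : ℂ[X]) : Real.log p.mahlerMeasure =
    (2 * π)⁻¹ * ∫ θ in (0:ℝ)..(2 * π), GC p θ := by
  rw [← logMahlerMeasure_eq_log_MahlerMeasure, logMahlerMeasure_def, circleAverage_def, smul_eq_mul]
  rfl

lemma circleMap_inv (θ : ℝ) : (circleMap 0 1 θ)⁻¹ = circleMap 0 1 (-θ) := by
  simp only [circleMap, Complex.ofReal_one, one_mul, zero_add]
  rw [← Complex.exp_neg]
  congr 1
  push_cast; ring

lemma mm_of_inv {p q : ℂ[X]} (hp : p ≠ 0) (hq : q ≠ 0)
    (h : ∀ z : ℂ, ‖z‖ = 1 → ‖q.eval z‖ = ‖p.eval z⁻¹‖) : q.mahlerMeasure = p.mahlerMeasure := by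
  apply Real.log_injOn_pos (mahlerMeasure_pos_of_ne_zero hq) (mahlerMeasure_pos_of_ne_zero hp)
  rw [log_mmC_eq, log_mmC_eq]
  congr 1
  have h1 : ∀ θ, GC q θ = GC p (-θ) := by
    intro θ
    unfold GC
    rw [h _ (by simp), circleMap_inv]
  have h2 : ∫ θ in (0:ℝ)..(2 * π), GC q θ = ∫ θ in (0:ℝ)..(2 * π), GC p (-θ) := by
    congr 1; ext θ; exact h1 θ
  rw [h2, intervalIntegral.integral_comp_neg, neg_zero]
  have h3 := (GC_periodic p).intervalIntegral_add_eq (-(2 * π)) 0
  rw [neg_add_cancel, zero_add] at h3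
  exact h3

lemma mm_reflect {p : ℂ[X]} {D : ℕ} (hD : p.natDegree ≤ D) :
    (reflect D p).mahlerMeasure = p.mahlerMeasure := by
  rcases eq_or_ne p 0 with rfl | hp
  · simp
  apply mm_of_inv hp
  · rw [Ne, reflect_eq_zero_iff]; exact hp
  · intro z hz
    have hz0 : z ≠ 0 := by rintro rfl; simp at hz
    have hz' : z⁻¹ ≠ 0 := inv_ne_zero hz0
    let _ : Invertible z⁻¹ := invertibleOfNonzero hz'
    have h := eval₂_reflect_mul_pow (RingHom.id ℂ) z⁻¹ D p hD
    rw [invOf_eq_inv, inv_inv, eval₂_id, eval₂_id] at h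
    rw [← h, norm_mul, norm_pow, norm_inv, hz, inv_one, one_pow, mul_one]

lemma mm_X_pow_mul (p : ℂ[X]) (m : ℕ) : (X ^ m * p).mahlerMeasure = p.mahlerMeasure := by
  rw [mahlerMeasure_mul]
  have : (X ^ m : ℂ[X]).mahlerMeasure = 1 := by
    have h := prod_mahlerMeasure_eq_mahlerMeasure_prod (Multiset.replicate m (X : ℂ[X]))
    rw [Multiset.prod_replicate, Multiset.map_replicate, Multiset.prod_replicate] at h
    rw [h]
    have h2 := mahlerMeasure_X_sub_C (0:ℂ)
    rw [C_0, sub_zero] at h2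
    rw [h2]; simp
  rw [this, one_mul]

/-- kill the lowest exponent -/
lemma kill_low (p : ℂ[X]) (m₀ m₁ : ℕ) (hlow : ∀ i < m₀, p.coeff i = 0)
    (hhigh : ∀ i, m₁ < i → p.coeff i = 0) :
    ∃ q : ℂ[X], q.mahlerMeasure ≤ ((m₁ - m₀ : ℕ) : ℝ) * p.mahlerMeasure ∧
      (∀ i, m₀ ≤ i → q.coeff i = ((i - m₀ : ℕ) : ℂ) * p.coeff i) ∧
      (∀ i < m₀, q.coeff i = 0) := by
  have hdvd : X ^ m₀ ∣ p := by
    rw [X_pow_dvd_iff]; exact hlow
  obtain ⟨s, hs⟩ := hdvd
  refine ⟨X ^ m₀ * (X * derivative s), ?_, ?_, ?_⟩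
  · rw [mm_X_pow_mul, ← pow_one (X : ℂ[X]), mm_X_pow_mul, hs, mm_X_pow_mul]
    refine (mahler_derivative s).trans ?_
    have h1 : s.natDegree ≤ m₁ - m₀ := by
      rw [natDegree_le_iff_coeff_eq_zero]
      intro i hi
      have := hhigh (i + m₀) (by omega)
      rw [hs, coeff_X_pow_mul] at this
      exact this
    have h2 : ((s.natDegree : ℕ) : ℝ) ≤ ((m₁ - m₀ : ℕ) : ℝ) := by exact_mod_cast h1
    have h3 := mahlerMeasure_nonneg s
    gcongr
  · intro i hi
    obtain ⟨j, rfl⟩ := Nat.exists_eq_add_of_le hi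
    rw [add_comm m₀ j, coeff_X_pow_mul, hs, coeff_X_pow_mul, Nat.add_sub_cancel]
    rcases j with _ | j
    · simp
    · rw [coeff_X_mul, coeff_derivative]; push_cast; ring
  · intro i hi
    rw [coeff_X_pow_mul']
    simp [not_le.2 hi]

/-- kill the highest exponent -/
lemma kill_high (p : ℂ[X]) (m₀ m₁ : ℕ) (hlow : ∀ i < m₀, p.coeff i = 0)
    (hhigh : ∀ i, m₁ < i → p.coeff i = 0) :
    ∃ q : ℂ[X], q.mahlerMeasure ≤ ((m₁ - m₀ : ℕ) : ℝ) * p.mahlerMeasure ∧
      (∀ i, i ≤ m₁ → q.coeff i = ((m₁ - i : ℕ) : ℂ) * p.coeff i) ∧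
      (∀ i, m₁ < i → q.coeff i = 0) := by
  have hpd : p.natDegree ≤ m₁ := natDegree_le_iff_coeff_eq_zero.2 (fun i hi => hhigh i hi)
  set r := reflect m₁ p with hr
  have hrc : ∀ j, j ≤ m₁ → r.coeff j = p.coeff (m₁ - j) := by
    intro j hj
    rw [hr, coeff_reflect, revAt_le hj]
  have hrd : r.natDegree ≤ m₁ - m₀ := by
    rw [natDegree_le_iff_coeff_eq_zero]
    intro i hi
    rcases le_or_gt i m₁ with h | h
    · rw [hrc i h]
      apply hlow; omega
    · rw [hr, coeff_reflect, revAt_eq_self_of_lt h]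
      exact hhigh i h
  have hXd : (X * derivative r).natDegree ≤ m₁ := by
    rw [natDegree_le_iff_coeff_eq_zero]
    intro i hi
    rcases i with _ | i
    · omega
    · rw [coeff_X_mul, coeff_derivative, coeff_eq_zero_of_natDegree_lt (by omega), zero_mul]
  refine ⟨reflect m₁ (X * derivative r), ?_, ?_, ?_⟩
  · rw [mm_reflect hXd, ← pow_one (X : ℂ[X]), mm_X_pow_mul]
    refine (mahler_derivative r).trans ?_
    rw [hr, mm_reflect hpd, ← hr]
    have h2 : ((r.natDegree : ℕ) : ℝ) ≤ ((m₁ - m₀ : ℕ) : ℝ) := by exact_mod_cast hrd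
    have h3 := mahlerMeasure_nonneg p
    gcongr
  · intro i hi
    rw [coeff_reflect, revAt_le hi]
    have h1 : (X * derivative r).coeff (m₁ - i) = ((m₁ - i : ℕ) : ℂ) * r.coeff (m₁ - i) := by
      rcases (m₁ - i) with _ | j
      · simp
      · rw [coeff_X_mul, coeff_derivative]; push_cast; ring
    rw [h1, hrc _ (Nat.sub_le _ _), Nat.sub_sub_self hi]
  · intro i hi
    rw [coeff_reflect, revAt_eq_self_of_lt hi]
    exact coeff_eq_zero_of_natDegree_lt (by omega)

/-- **Akhtari and Vaaler.** -/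
theorem sparse_coeff_le : ∀ (N : ℕ) (S : Finset ℕ) (p : ℂ[X]), S.card = N + 1 →
    (∀ i, i ∉ S → p.coeff i = 0) → ∀ i ∈ S,
      ‖p.coeff i‖ ≤ (N.choose (S.filter (· < i)).card : ℝ) * p.mahlerMeasure := by
  intro N
  induction N with
  | zero =>
    intro S p hS hp i hi
    rw [zero_add, Finset.card_eq_one] at hS
    obtain ⟨j, rfl⟩ := hS
    rw [Finset.mem_singleton] at hi
    subst hi
    have e : p = X ^ i * C (p.coeff i) := by
      ext m
      rw [coeff_X_pow_mul', coeff_C]
      by_cases h : i ≤ m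
      · rw [if_pos h]
        by_cases h2 : m = i
        · rw [h2]; simp
        · rw [if_neg (by omega)]
          exact hp m (by simpa using h2)
      · rw [if_neg h]
        exact hp m (by rw [Finset.mem_singleton]; omega)
    have h1 : p.mahlerMeasure = ‖p.coeff i‖ := by
      conv_lhs => rw [e]
      rw [mm_X_pow_mul, mahlerMeasure_const]
    have h2 : ({i} : Finset ℕ).filter (· < i) = ∅ := by
      rw [Finset.filter_singleton, if_neg (lt_irrefl i)]
    rw [h1, h2, Finset.card_empty, Nat.choose_self, Nat.cast_one, one_mul]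
  | succ N ih =>
    intro S p hS hp i hi
    have hne : S.Nonempty := ⟨i, hi⟩
    set m₀ := S.min' hne with hm₀
    set m₁ := S.max' hne with hm₁
    have hm₀S : m₀ ∈ S := S.min'_mem hne
    have hm₁S : m₁ ∈ S := S.max'_mem hne
    have hle0 : ∀ j ∈ S, m₀ ≤ j := fun j hj => S.min'_le j hj
    have hle1 : ∀ j ∈ S, j ≤ m₁ := fun j hj => S.le_max' j hj
    have hlt : m₀ < m₁ := by
      rw [hm₀, hm₁]
      exact S.min'_lt_max'_of_card (by omega)
    have hlow : ∀ j < m₀, p.coeff j = 0 := by
      intro j hj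
      apply hp
      intro h
      have := hle0 j h
      omega
    have hhigh : ∀ j, m₁ < j → p.coeff j = 0 := by
      intro j hj
      apply hp
      intro h
      have := hle1 j h
      omega
    obtain ⟨q, hq1, hq2, hq3⟩ := kill_low p m₀ m₁ hlow hhigh
    obtain ⟨t, ht1, ht2, ht3⟩ := kill_high p m₀ m₁ hlow hhigh
    have hM := mahlerMeasure_nonneg (p := p)
    set R : ℝ := ((m₁ - m₀ : ℕ) : ℝ) with hR
    have hRpos : 0 < R := by
      rw [hR]; exact_mod_cast Nat.sub_pos_of_lt hlt
    set j := (S.filter (· < i)).card with hj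
    -- bound from q
    have hB1 : ((i - m₀ : ℕ) : ℝ) * ‖p.coeff i‖ ≤
        (if j = 0 then 0 else (N.choose (j - 1) : ℝ)) * (R * p.mahlerMeasure) := by
      rcases eq_or_ne i m₀ with h | h
      · rw [h, Nat.sub_self]
        simp only [Nat.cast_zero, zero_mul]
        split_ifs
        · simp
        · positivity
      · have hi0 : m₀ < i := lt_of_le_of_ne (hle0 i hi) (Ne.symm h)
        have hmem : m₀ ∈ S.filter (· < i) := by
          rw [Finset.mem_filter]; exact ⟨hm₀S, hi0⟩
        have hj0 : j ≠ 0 := by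
          rw [hj]; exact Finset.card_ne_zero_of_mem hmem
        rw [if_neg hj0]
        have hcard : (S.erase m₀).card = N + 1 := by
          rw [Finset.card_erase_of_mem hm₀S]; omega
        have h1 := ih (S.erase m₀) q hcard (by
          intro l hl
          rw [Finset.mem_erase, not_and_or, not_not] at hl
          rcases hl with hl | hl
          · rw [hl, hq2 m₀ le_rfl]; simp
          · rcases le_or_gt m₀ l with h | h
            · rw [hq2 l h, hp l hl, mul_zero]
            · exact hq3 l h) i (Finset.mem_erase.2 ⟨h, hi⟩)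
        have hf : (S.erase m₀).filter (· < i) = (S.filter (· < i)).erase m₀ := by
          rw [Finset.filter_erase]
        rw [hf, Finset.card_erase_of_mem hmem, ← hj, hq2 i hi0.le, norm_mul, Complex.norm_natCast] at h1
        refine h1.trans ?_
        gcongr
    have hB2 : ((m₁ - i : ℕ) : ℝ) * ‖p.coeff i‖ ≤ (N.choose j : ℝ) * (R * p.mahlerMeasure) := by
      rcases eq_or_ne i m₁ with h | h
      · rw [h, Nat.sub_self]
        simp only [Nat.cast_zero, zero_mul]
        positivity
      · have hcard : (S.erase m₁).card = N + 1 := by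
          rw [Finset.card_erase_of_mem hm₁S]; omega
        have h1 := ih (S.erase m₁) t hcard (by
          intro l hl
          rw [Finset.mem_erase, not_and_or, not_not] at hl
          rcases hl with hl | hl
          · rw [hl, ht2 m₁ le_rfl]; simp
          · rcases le_or_gt l m₁ with h | h
            · rw [ht2 l h, hp l hl, mul_zero]
            · exact ht3 l h) i (Finset.mem_erase.2 ⟨h, hi⟩)
        have hf : (S.erase m₁).filter (· < i) = S.filter (· < i) := by
          ext l
          simp only [Finset.mem_filter, Finset.mem_erase]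
          constructor
          · exact fun h => ⟨h.1.2, h.2⟩
          · intro h'
            have := hle1 i hi
            exact ⟨⟨by omega, h'.1⟩, h'.2⟩
        rw [hf, ← hj, ht2 i (hle1 i hi), norm_mul, Complex.norm_natCast] at h1
        refine h1.trans ?_
        gcongr
    have hsum : ((i - m₀ : ℕ) : ℝ) + ((m₁ - i : ℕ) : ℝ) = R := by
      have h0 := hle0 i hi
      have h1 := hle1 i hi
      rw [hR, ← Nat.cast_add]
      congr 1
      omega
    have hpascal : (if j = 0 then 0 else (N.choose (j - 1) : ℝ)) + (N.choose j : ℝ) =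
        ((N + 1).choose j : ℝ) := by
      rcases j with _ | j'
      · simp
      · rw [if_neg (by omega), Nat.add_sub_cancel, Nat.choose_succ_succ]
        push_cast; ring
    have h5 : R * ‖p.coeff i‖ ≤ R * (((N + 1).choose j : ℝ) * p.mahlerMeasure) := by
      calc R * ‖p.coeff i‖ = ((i - m₀ : ℕ) : ℝ) * ‖p.coeff i‖ + ((m₁ - i : ℕ) : ℝ) * ‖p.coeff i‖ := by
            rw [← hsum]; ring
        _ ≤ (if j = 0 then 0 else (N.choose (j - 1) : ℝ)) * (R * p.mahlerMeasure) +
            (N.choose j : ℝ) * (R * p.mahlerMeasure) := add_le_add hB1 hB2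
        _ = ((if j = 0 then 0 else (N.choose (j - 1) : ℝ)) + (N.choose j : ℝ)) *
            (R * p.mahlerMeasure) := by ring
        _ = _ := by rw [hpascal]; ring
    exact le_of_mul_le_mul_left h5 hRpos

end Pool.Agent.H25
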