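import Mathlib
import Pool.Agent.H25.PentaInt

/-!
Numerical forms of the lower bound.
-/

set_option autoImplicit false

open Real N60ffa576

namespace Pool.Agent.H25

lemma xz_one : xz 1 = π / 3 := by
  unfold xz
  rw [show (1:ℝ) - 1 / 2 = Real.cos (π / 3) by rw [Real.cos_pi_div_three]; norm_num]
  apply Real.arccos_cos <;> linarith [Real.pi_pos]

lemma xz_two : xz 2 = π / 2 := by
  unfold xz
  rw [show (1:ℝ) - 2 / 2 = 0 by norm_num, Real.arccos_zero]

lemma xz_three : xz 3 = 2 * π / 3 := by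
  unfold xz
  rw [show (1:ℝ) - 3 / 2 = Real.cos (2 * π / 3) by
    rw [show 2 * π / 3 = π - π / 3 by ring, Real.cos_pi_sub, Real.cos_pi_div_three]; norm_num]
  apply Real.arccos_cos <;> linarith [Real.pi_pos]

lemma sin_two_pi_div_three : Real.sin (2 * π / 3) = Real.sqrt 3 / 2 := by
  rw [show 2 * π / 3 = π - π / 3 by ring, Real.sin_pi_sub, Real.sin_pi_div_three]

lemma sqrt_three_ge : 1.732 ≤ Real.sqrt 3 := by
  apply Real.le_sqrt_of_sq_le; norm_num

/-- upper bound for `cosh` from Taylor polynomials of `exp` -/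
lemma cosh_upper {x : ℝ} (hx0 : 0 ≤ x) (hx1 : x ≤ 1) {U V : ℝ}
    (hU : (∑ m ∈ Finset.range 8, x ^ m / m.factorial) +
      x ^ 8 * ((8:ℕ) + 1) / ((Nat.factorial 8) * (8:ℕ)) ≤ U)
    (hV0 : 0 < V) (hV : V ≤ ∑ m ∈ Finset.range 8, x ^ m / m.factorial) :
    Real.cosh x ≤ (U + 1 / V) / 2 := by
  have h1 := Real.exp_bound' hx0 hx1 (n := 8) (by norm_num)
  have h2 := Real.sum_le_exp_of_nonneg hx0 8
  rw [Real.cosh_eq, Real.exp_neg]
  have h3 : (Real.exp x)⁻¹ ≤ 1 / V := by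
    rw [inv_eq_one_div]
    exact one_div_le_one_div_of_le hV0 (hV.trans h2)
  have h4 : Real.exp x ≤ U := h1.trans hU
  linarith

lemma cosh_a : Real.cosh 0.919 ≤ 1.4529 := by
  have := cosh_upper (x := 0.919) (U := 2.5068) (V := 2.5067) (by norm_num) (by norm_num)
    (by norm_num [Finset.sum_range_succ, Nat.factorial]) (by norm_num)
    (by norm_num [Finset.sum_range_succ, Nat.factorial])
  norm_num at this ⊢
  linarith

lemma cosh_b' : Real.cosh 0.59 ≤ 1.1792 := by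
  have := cosh_upper (x := 0.59) (U := 1.80400) (V := 1.80398) (by norm_num) (by norm_num)
    (by norm_num [Finset.sum_range_succ, Nat.factorial]) (by norm_num)
    (by norm_num [Finset.sum_range_succ, Nat.factorial])
  norm_num at this ⊢
  linarith

lemma cosh_b : Real.cosh 1.18 ≤ 1.7811 := by
  have h1 := cosh_b'
  have h2 := Real.cosh_sq (0.59 : ℝ)
  have h3 := Real.cosh_two_mul (0.59 : ℝ)
  rw [show (2:ℝ) * 0.59 = 1.18 by norm_num] at h3
  have h0 := Real.cosh_pos (0.59 : ℝ)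
  rw [h3]
  nlinarith

lemma cosh_c' : Real.cosh 0.625 ≤ 1.2018 := by
  have := cosh_upper (x := 0.625) (U := 1.86826) (V := 1.86824) (by norm_num) (by norm_num)
    (by norm_num [Finset.sum_range_succ, Nat.factorial]) (by norm_num)
    (by norm_num [Finset.sum_range_succ, Nat.factorial])
  norm_num at this ⊢
  linarith

lemma cosh_c : Real.cosh 1.25 ≤ 1.8887 := by
  have h1 := cosh_c'
  have h2 := Real.cosh_sq (0.625 : ℝ)
  have h3 := Real.cosh_two_mul (0.625 : ℝ)
  rw [show (2:ℝ) * 0.625 = 1.25 by norm_num] at h3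
  have h0 := Real.cosh_pos (0.625 : ℝ)
  rw [h3]
  nlinarith

/-- the case `b = ±1`, `n ≥ 14` -/
theorem penta_b1 {n k : ℕ} (hk0 : 0 < k) (hkn : k < n) (hk : k.Coprime n) (hn : 14 ≤ n)
    (a b : ℤ) (ha : a = 1 ∨ a = -1) (hb : |b| = 1) :
    0.1624 ≤ Real.log (mahlerMeasureZ (penta n k a b)) := by
  have hb' : |(b:ℝ)| = 1 := by exact_mod_cast hb
  have hpi1 := Real.pi_gt_d4
  have hpi2 := Real.pi_lt_d4
  have hs3 := sqrt_three_ge
  have key := penta_lower hk0 hkn hk a b ha 1 hb' (by norm_num) (by norm_num) 0.919 (by norm_num)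
    (by
      rw [xz_one, Real.sin_pi_div_three]
      refine cosh_a.trans ?_
      nlinarith)
  rw [xz_one] at key
  have hnR : (14:ℝ) ≤ n := by exact_mod_cast hn
  have h1 : 14.56 / Real.sqrt (n * (1 / 2 * (1 - 1 ^ 2 / 16))) ≤ 5.69 := by
    have : 2.56 ≤ Real.sqrt (n * (1 / 2 * (1 - 1 ^ 2 / 16))) := by
      apply Real.le_sqrt_of_sq_le
      nlinarith
    rw [div_le_iff₀ (by linarith)]
    linarith
  have h2 : 2 * π * (π / 3) / (n * 0.919) ≤ 0.52 := by
    rw [div_le_iff₀ (by positivity)]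
    nlinarith
  have h3 : n * 0.919 * (π / 3) * (π / 2) - 2 * π * n * 0.1624 ≥ 6.8 := by
    have e : n * 0.919 * (π / 3) * (π / 2) - 2 * π * n * 0.1624 =
        n * (π * (0.919 * π / 6 - 0.3248)) := by ring
    rw [e]
    have h4 : 0.49 ≤ π * (0.919 * π / 6 - 0.3248) := by nlinarith
    nlinarith
  have h5 : 2 * π * n * 0.1624 ≤ 2 * π * n * Real.log (mahlerMeasureZ (penta n k a b)) := by
    linarith
  exact le_of_mul_le_mul_left h5 (by positivity)

/-- the case `b = ±2`, `n ≥ 5` -/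
theorem penta_b2 {n k : ℕ} (hk0 : 0 < k) (hkn : k < n) (hk : k.Coprime n) (hn : 5 ≤ n)
    (a b : ℤ) (ha : a = 1 ∨ a = -1) (hb : |b| = 2) :
    0.1624 ≤ Real.log (mahlerMeasureZ (penta n k a b)) := by
  have hb' : |(b:ℝ)| = 2 := by exact_mod_cast hb
  have hpi1 := Real.pi_gt_d4
  have hpi2 := Real.pi_lt_d4
  have key := penta_lower hk0 hkn hk a b ha 2 hb' (by norm_num) (by norm_num) 1.18 (by norm_num)
    (by
      rw [xz_two, Real.sin_pi_div_two]
      refine cosh_b.trans ?_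
      nlinarith)
  rw [xz_two] at key
  have hnR : (5:ℝ) ≤ n := by exact_mod_cast hn
  have h1 : 14.56 / Real.sqrt (n * (2 / 2 * (1 - 2 ^ 2 / 16))) ≤ 7.53 := by
    have : 1.936 ≤ Real.sqrt (n * (2 / 2 * (1 - 2 ^ 2 / 16))) := by
      apply Real.le_sqrt_of_sq_le
      nlinarith
    rw [div_le_iff₀ (by linarith)]
    linarith
  have h2 : 2 * π * (π / 2) / (n * 1.18) ≤ 1.68 := by
    rw [div_le_iff₀ (by positivity)]
    nlinarith
  have h3 : n * 1.18 * (π / 2) * (π / 2) - 2 * π * n * 0.1624 ≥ 9.4 := by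
    have e : n * 1.18 * (π / 2) * (π / 2) - 2 * π * n * 0.1624 =
        n * (π * (1.18 * π / 4 - 0.3248)) := by ring
    rw [e]
    have h4 : 1.89 ≤ π * (1.18 * π / 4 - 0.3248) := by nlinarith
    nlinarith
  have h5 : 2 * π * n * 0.1624 ≤ 2 * π * n * Real.log (mahlerMeasureZ (penta n k a b)) := by
    linarith
  exact le_of_mul_le_mul_left h5 (by positivity)

/-- the case `b = ±3`, `n ≥ 4` -/
theorem penta_b3 {n k : ℕ} (hk0 : 0 < k) (hkn : k < n) (hk : k.Coprime n) (hn : 4 ≤ n)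
    (a b : ℤ) (ha : a = 1 ∨ a = -1) (hb : |b| = 3) :
    0.1624 ≤ Real.log (mahlerMeasureZ (penta n k a b)) := by
  have hb' : |(b:ℝ)| = 3 := by exact_mod_cast hb
  have hpi1 := Real.pi_gt_d4
  have hpi2 := Real.pi_lt_d4
  have hs3 := sqrt_three_ge
  have key := penta_lower hk0 hkn hk a b ha 3 hb' (by norm_num) (by norm_num) 1.25 (by norm_num)
    (by
      rw [xz_three, sin_two_pi_div_three]
      refine cosh_c.trans ?_
      nlinarith)
  rw [xz_three] at key
  have hnR : (4:ℝ) ≤ n := by exact_mod_cast hn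
  have h1 : 14.56 / Real.sqrt (n * (3 / 2 * (1 - 3 ^ 2 / 16))) ≤ 8.99 := by
    have : 1.62 ≤ Real.sqrt (n * (3 / 2 * (1 - 3 ^ 2 / 16))) := by
      apply Real.le_sqrt_of_sq_le
      nlinarith
    rw [div_le_iff₀ (by linarith)]
    linarith
  have h2 : 2 * π * (2 * π / 3) / (n * 1.25) ≤ 2.64 := by
    rw [div_le_iff₀ (by positivity)]
    nlinarith
  have h3 : n * 1.25 * (2 * π / 3) * (π / 2) - 2 * π * n * 0.1624 ≥ 12.3 := by
    have e : n * 1.25 * (2 * π / 3) * (π / 2) - 2 * π * n * 0.1624 =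
        n * (π * (1.25 * π / 3 - 0.3248)) := by ring
    rw [e]
    have h4 : 3.08 ≤ π * (1.25 * π / 3 - 0.3248) := by nlinarith
    nlinarith
  have h5 : 2 * π * n * 0.1624 ≤ 2 * π * n * Real.log (mahlerMeasureZ (penta n k a b)) := by
    linarith
  exact le_of_mul_le_mul_left h5 (by positivity)

lemma mm_of_log {x : ℝ} (hx : 0 < x) (h : 0.1624 ≤ Real.log x) : 1.1763 ≤ x := by
  have h1 : Real.exp 0.1624 ≤ x := by
    rw [← Real.exp_log hx]
    exact Real.exp_le_exp.2 h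
  have h2 := Real.sum_le_exp_of_nonneg (by norm_num : (0:ℝ) ≤ 0.1624) 5
  norm_num [Finset.sum_range_succ, Nat.factorial] at h2
  norm_num at h1 ⊢
  linarith

end Pool.Agent.H25
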