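import Mathlib
import Pool.Agent.H25.MM
import Pool.Agent.H25.PentaNum
import Pool.Agent.H25.LehmerVal

/-!
Pentanomials with `a = ±1`.
-/

set_option autoImplicit false

open Polynomial N60ffa576

namespace Pool.Agent.H25

lemma penta_ne_zero (n k : ℕ) (hk0 : 0 < k) (hkn : k < n) (a b : ℤ) : penta n k a b ≠ 0 := by
  intro h
  have h1 : (penta n k a b).coeff 0 = 1 := by
    unfold penta
    simp only [coeff_add, coeff_C_mul, coeff_X_pow, coeff_one_zero]
    have e1 : ¬ (0 = 2 * n) := by omega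
    have e2 : ¬ (0 = n + k) := by omega
    have e3 : ¬ (0 = n) := by omega
    have e4 : ¬ (0 = n - k) := by omega
    simp [e1, e2, e3, e4]
  rw [h] at h1
  simp at h1

lemma zero_set_countable {p : ℤ[X]} (hp : p ≠ 0) :
    {θ : ℝ | aeval (circleMap 0 1 θ) p = 0}.Countable := by
  have h1 : {z : ℂ | aeval z p = 0}.Countable := by
    have : {z : ℂ | aeval z p = 0} ⊆ ((croots p).toFinset : Set ℂ) := by
      intro z hz
      rw [Finset.mem_coe, Multiset.mem_toFinset]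
      exact (mem_croots hp).2 hz
    exact (Finset.countable_toSet _).mono this
  exact h1.preimage_circleMap 0 (one_ne_zero : (1:ℝ) ≠ 0)

/-- monotonicity of the Mahler measure in the absolute value on the unit circle -/
theorem mm_mono {p q : ℤ[X]} (hp : p ≠ 0) (hq : q ≠ 0)
    (h : ∀ θ : ℝ, ‖aeval (circleMap 0 1 θ) p‖ ≤ ‖aeval (circleMap 0 1 θ) q‖) :
    mahlerMeasureZ p ≤ mahlerMeasureZ q := by
  have h1 : Real.log (mahlerMeasureZ p) ≤ Real.log (mahlerMeasureZ q) := by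
    rw [log_mm_eq, log_mm_eq]
    apply mul_le_mul_of_nonneg_left _ (by positivity)
    apply intervalIntegral.integral_mono_ae (by positivity) (GG_integrable p _ _)
      (GG_integrable q _ _)
    filter_upwards [(zero_set_countable hp).ae_notMem MeasureTheory.volume] with θ hθ
    apply Real.log_le_log (norm_pos_iff.2 hθ) (h θ)
  exact (Real.log_le_log_iff (mmZ_pos hp) (mmZ_pos hq)).1 h1

lemma mmZ_C (c : ℤ) : mahlerMeasureZ (C c) = |(c:ℝ)| := by
  unfold mahlerMeasureZ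
  rw [map_C, Polynomial.mahlerMeasure_const, algebraMap_int_eq, eq_intCast, Complex.norm_intCast]

lemma mmZ_pow (f : ℤ[X]) (m : ℕ) : mahlerMeasureZ (f ^ m) = mahlerMeasureZ f ^ m := by
  induction m with
  | zero =>
    rw [pow_zero, pow_zero, show (1 : ℤ[X]) = C 1 by simp, mmZ_C]; simp
  | succ m ih => rw [pow_succ, mmZ_mul, ih, pow_succ]

lemma circle_cos (m : ℕ) (θ : ℝ) :
    ((2 * Real.cos (m * θ) : ℝ) : ℂ) = circleMap 0 1 θ ^ m + (circleMap 0 1 θ ^ m)⁻¹ := by
  have hz : circleMap 0 1 θ = Complex.exp (θ * Complex.I) := by simp [circleMap]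
  rw [hz]
  push_cast
  rw [Complex.two_cos, ← Complex.exp_nat_mul, ← Complex.exp_neg]
  congr 2 <;> ring

lemma circle_ne_zero (θ : ℝ) : circleMap 0 1 θ ≠ 0 := by
  have hz : circleMap 0 1 θ = Complex.exp (θ * Complex.I) := by simp [circleMap]
  rw [hz]; exact Complex.exp_ne_zero _

lemma circle_norm (θ : ℝ) : ‖circleMap 0 1 θ‖ = 1 := by simp

lemma norm_binom (n : ℕ) (s : ℤ) (hs : s = 1 ∨ s = -1) (θ : ℝ) :
    ‖aeval (circleMap 0 1 θ) (X ^ n + C s : ℤ[X])‖ ^ 2 = 2 + 2 * s * Real.cos (n * θ) := by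
  set z := circleMap 0 1 θ with hz
  have hz0 : z ≠ 0 := circle_ne_zero θ
  have h1 := circle_cos n θ
  rw [← hz] at h1
  simp only [map_add, map_pow, aeval_X, eq_intCast, map_intCast]
  have hnz : ‖z ^ n‖ = 1 := by rw [norm_pow, hz, circle_norm, one_pow]
  have hss : (s:ℂ) * s = 1 := by rcases hs with h | h <;> rw [h] <;> norm_num
  have e : (z ^ n + s) ^ 2 = z ^ n * s * ((2 + 2 * s * Real.cos (n * θ) : ℝ) : ℂ) := by
    have e2 : ((2 + 2 * s * Real.cos (n * θ) : ℝ) : ℂ) =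
        2 + s * (((2 * Real.cos (n * θ) : ℝ)) : ℂ) := by push_cast; ring
    rw [e2, h1]
    have h3 : z ^ n * (z ^ n)⁻¹ = 1 := mul_inv_cancel₀ (pow_ne_zero _ hz0)
    linear_combination (1 - z ^ n * z ^ n - z ^ n * (z ^ n)⁻¹) * hss - h3
  have h4 : ‖(z ^ n + s) ^ 2‖ = ‖z ^ n * s * ((2 + 2 * s * Real.cos (n * θ) : ℝ) : ℂ)‖ := by rw [e]
  have hsn : ‖(s:ℂ)‖ = 1 := by rcases hs with h | h <;> rw [h] <;> simp
  rw [norm_pow, norm_mul, norm_mul, hnz, hsn, one_mul, one_mul, Complex.norm_real,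
    Real.norm_eq_abs] at h4
  rw [h4, abs_of_nonneg]
  have hc := Real.abs_cos_le_one (n * θ)
  rw [abs_le] at hc
  rcases hs with h | h <;> rw [h] <;> push_cast <;> linarith [hc.1, hc.2]

/-- positivity: `|b| ≥ 2|a| + 2` -/
theorem penta_pos (n k : ℕ) (hk0 : 0 < k) (hkn : k < n) (a b : ℤ) (ha : a ≠ 0)
    (hb : 2 * |a| + 2 ≤ |b|) : 2 ≤ mahlerMeasureZ (penta n k a b) := by
  obtain ⟨s, hs, hsb⟩ : ∃ s : ℤ, (s = 1 ∨ s = -1) ∧ b = s * |b| := by
    rcases abs_choice b with h | h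
    · exact ⟨1, Or.inl rfl, by rw [h, one_mul]⟩
    · exact ⟨-1, Or.inr rfl, by rw [h]; ring⟩
  have hs2 : s * s = 1 := by rcases hs with h | h <;> rw [h] <;> norm_num
  set q : ℤ[X] := C (s * a) * X ^ (2 * k) + C (|b| - 2) * X ^ k + C (s * a) with hq
  set P : ℤ[X] := C 4 * ((X ^ n + C s) ^ 2 * q) with hP
  have hXn : (X ^ n + C s : ℤ[X]) ≠ 0 := by
    intro h
    have := congrArg (fun p => p.coeff n) h
    simp only [coeff_add, coeff_X_pow, if_true, coeff_C, coeff_zero] at this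
    have hn : ¬ (n = 0) := by omega
    simp [hn] at this
  have hapos : 1 ≤ |a| := Int.one_le_abs ha
  have hq0 : q ≠ 0 := by
    intro h
    have h1 := congrArg (fun p => p.coeff k) h
    simp only [hq, coeff_add, coeff_C_mul, coeff_X_pow, if_true, coeff_C, coeff_zero] at h1
    have hk1 : ¬ (k = 0) := by omega
    have hk2 : ¬ (k = 2 * k) := by omega
    simp only [hk1, hk2, if_false, mul_zero, zero_add, mul_one, add_zero] at h1
    omega
  have hP0 : P ≠ 0 := by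
    rw [hP]
    exact mul_ne_zero (by simp) (mul_ne_zero (pow_ne_zero _ hXn) hq0)
  have hf0 := penta_ne_zero n k hk0 hkn a b
  have hf20 : penta n k a b ^ 2 ≠ 0 := pow_ne_zero _ hf0
  have hmono := mm_mono hP0 hf20 (by
    intro θ
    set z := circleMap 0 1 θ with hz
    have hz0 : z ≠ 0 := circle_ne_zero θ
    have hqn : ‖aeval z q‖ = |(|(b:ℝ)| - 2) + 2 * s * a * Real.cos (k * θ)| := by
      have h1 := circle_cos k θ
      rw [← hz] at h1
      have hnz : ‖z ^ k‖ = 1 := by rw [norm_pow, hz, circle_norm, one_pow]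
      have e : aeval z q = z ^ k * (((|(b:ℝ)| - 2) + 2 * s * a * Real.cos (k * θ) : ℝ) : ℂ) := by
        simp only [hq, map_add, map_mul, map_pow, aeval_X, eq_intCast, map_intCast]
        have e2 : (((|(b:ℝ)| - 2) + 2 * s * a * Real.cos (k * θ) : ℝ) : ℂ) =
            ((|b| - 2 : ℤ) : ℂ) + s * a * (((2 * Real.cos (k * θ) : ℝ)) : ℂ) := by
          obtain ⟨B, hB⟩ : ∃ B : ℤ, B = |b| := ⟨_, rfl⟩
          rw [show |(b:ℝ)| = (B : ℝ) by rw [hB]; push_cast; rfl, ← hB]
          push_cast; ring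
        rw [e2, h1]
        have h3 : z ^ k * (z ^ k)⁻¹ = 1 := mul_inv_cancel₀ (pow_ne_zero _ hz0)
        push_cast
        rw [show z ^ (2 * k) = z ^ k * z ^ k by rw [two_mul, pow_add]]
        linear_combination (-(s:ℂ) * a) * h3
      rw [e, norm_mul, hnz, one_mul, Complex.norm_real, Real.norm_eq_abs]
    rw [hP]
    simp only [map_mul, map_pow, norm_mul, norm_pow]
    rw [norm_penta n k hkn.le a b θ, norm_binom n s hs θ, hqn]
    simp only [eq_intCast, map_intCast]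
    have hcn := Real.abs_cos_le_one (n * θ)
    have hck := Real.abs_cos_le_one (k * θ)
    rw [abs_le] at hcn hck
    have h4 : ‖((4:ℤ):ℂ)‖ = 4 := by norm_num
    rw [h4]
    have hbR : (2:ℝ) * |(a:ℝ)| + 2 ≤ |(b:ℝ)| := by exact_mod_cast hb
    have hsa : |(s:ℝ) * a * Real.cos (k * θ)| ≤ |(a:ℝ)| := by
      rw [abs_mul, abs_mul]
      have h5 : |(s:ℝ)| = 1 := by rcases hs with h | h <;> rw [h] <;> simp
      rw [h5, one_mul]
      have h6 := Real.abs_cos_le_one (k * θ)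
      have h7 := abs_nonneg (a:ℝ)
      nlinarith
    rw [abs_le] at hsa
    rw [abs_of_nonneg (by nlinarith [hsa.1] :
      0 ≤ (|(b:ℝ)| - 2) + 2 * s * a * Real.cos (k * θ)), sq_abs]
    have hbs : (b:ℝ) = s * |(b:ℝ)| := by exact_mod_cast hsb
    have hF : FF n k a b θ ^ 2 = ((2 + 2 * s * Real.cos (n * θ)) +
        ((|(b:ℝ)| - 2) + 2 * s * a * Real.cos (k * θ))) ^ 2 := by
      have hss : (s:ℝ) * s = 1 := by exact_mod_cast hs2
      have e : FF n k a b θ = s * ((2 + 2 * s * Real.cos (n * θ)) +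
        ((|(b:ℝ)| - 2) + 2 * s * a * Real.cos (k * θ))) := by
        unfold FF
        linear_combination hbs - (2 * Real.cos (n * θ) + 2 * a * Real.cos (k * θ)) * hss
      rw [e, mul_pow, sq (s:ℝ), hss, one_mul]
    rw [hF]
    nlinarith [sq_nonneg ((2 + 2 * s * Real.cos (n * θ)) -
        ((|(b:ℝ)| - 2) + 2 * s * a * Real.cos (k * θ)))])
  rw [mmZ_pow, hP, mmZ_mul, mmZ_mul, mmZ_pow, mmZ_C] at hmono
  have h1 := one_le_mmZ hXn
  have h2 := one_le_mmZ hq0
  have h3 : (1:ℝ) ≤ mahlerMeasureZ (X ^ n + C s) ^ 2 := one_le_pow₀ h1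
  have h4 := one_le_mul_of_one_le_of_one_le h3 h2
  have h5 : (4:ℝ) ≤ mahlerMeasureZ (penta n k a b) ^ 2 := by
    refine le_trans ?_ hmono
    have e4 : |((4:ℤ):ℝ)| = 4 := by norm_num
    rw [e4]
    linarith
  have h6 := mmZ_nonneg (penta n k a b)
  nlinarith

end Pool.Agent.H25
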