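import Mathlib
import Pool.Agent.H25.MM
import Pool.Agent.H25.TwoAdic

/-!
Splitting off the roots of unity.
-/

set_option autoImplicit false

open Polynomial N60ffa576

namespace Pool.Agent.H25

def IsUnity (z : ℂ) : Prop := ∃ n : ℕ, 0 < n ∧ z ^ n = 1

lemma cyc_dvd_of_root {f : ℤ[X]} {z : ℂ} (hz : aeval z f = 0) {n : ℕ} (hn : 0 < n)
    (hzn : z ^ n = 1) : 0 < orderOf z ∧ IsPrimitiveRoot z (orderOf z) ∧
      cyclotomic (orderOf z) ℤ ∣ f := by
  have hfin : IsOfFinOrder z := isOfFinOrder_iff_pow_eq_one.2 ⟨n, hn, hzn⟩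
  have hpos : 0 < orderOf z := hfin.orderOf_pos
  have hprim : IsPrimitiveRoot z (orderOf z) := IsPrimitiveRoot.orderOf z
  refine ⟨hpos, hprim, ?_⟩
  rw [cyclotomic_eq_minpoly hprim hpos]
  exact minpoly.isIntegrallyClosed_dvd (hprim.isIntegral hpos) hz

lemma aeval_cyc_iff {m : ℕ} (hm : 0 < m) (w : ℂ) :
    aeval w (cyclotomic m ℤ) = 0 ↔ IsPrimitiveRoot w m := by
  have : NeZero (m : ℂ) := ⟨by exact_mod_cast hm.ne'⟩
  rw [← isRoot_cyclotomic_iff (R := ℂ), IsRoot.def, ← map_cyclotomic m (algebraMap ℤ ℂ),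
    eval_map_algebraMap]

theorem factor_unity : ∀ (d : ℕ) (f : ℤ[X]), f.natDegree ≤ d → f ≠ 0 →
    ∃ Φ g : ℤ[X], f = Φ * g ∧ (∀ z : ℂ, aeval z Φ = 0 → IsUnity z) ∧ NoUnityRoots g := by
  intro d
  induction d with
  | zero =>
    intro f hd hf
    refine ⟨1, f, by rw [one_mul], ?_, ?_⟩
    · intro z hz; simp at hz
    · intro z hz
      obtain ⟨c, hc⟩ := natDegree_eq_zero.1 (Nat.le_zero.1 hd)
      rw [← hc] at hz hf
      simp at hz
      rw [hz] at hf
      simp at hf
  | succ d ih =>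
    intro f hd hf
    by_cases hU : NoUnityRoots f
    · refine ⟨1, f, by rw [one_mul], ?_, hU⟩
      intro z hz; simp at hz
    · unfold NoUnityRoots at hU
      push Not at hU
      obtain ⟨z, hz, n, hn, hzn⟩ := hU
      obtain ⟨hpos, hprim, f1, hf1⟩ := cyc_dvd_of_root hz hn hzn
      have hcyc0 : cyclotomic (orderOf z) ℤ ≠ 0 := cyclotomic_ne_zero _ _
      have hf10 : f1 ≠ 0 := by rintro rfl; rw [mul_zero] at hf1; exact hf hf1
      have hdeg : f1.natDegree ≤ d := by
        rw [hf1, natDegree_mul hcyc0 hf10, natDegree_cyclotomic] at hd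
        have := Nat.totient_pos.2 hpos
        omega
      obtain ⟨Φ, g, h1, h2, h3⟩ := ih f1 hdeg hf10
      refine ⟨cyclotomic (orderOf z) ℤ * Φ, g, by rw [hf1, h1, mul_assoc], ?_, h3⟩
      intro w hw
      rw [map_mul, mul_eq_zero] at hw
      rcases hw with hw | hw
      · rw [aeval_cyc_iff hpos] at hw
        exact ⟨orderOf z, hpos, hw.pow_eq_one⟩
      · exact h2 w hw

lemma croots_mul {f g : ℤ[X]} (h : f * g ≠ 0) : croots (f * g) = croots f + croots g := by
  unfold croots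
  rw [Polynomial.map_mul, roots_mul]
  rw [← Polynomial.map_mul]
  exact map_ne_zero_iff'.2 h

/-- bound for the degree of the cyclotomic part -/
lemma natDegree_unity_part {f Φ g : ℤ[X]} (hf : f ≠ 0) (hfg : f = Φ * g)
    (hΦ : ∀ z : ℂ, aeval z Φ = 0 → IsUnity z) (Z : Finset ℂ) (w : ℂ → ℕ)
    (hZ : ∀ z : ℂ, aeval z f = 0 → IsUnity z → z ∈ Z ∧ (croots f).count z ≤ w z) :
    Φ.natDegree ≤ ∑ z ∈ Z, w z := by
  classical
  have hΦ0 : Φ ≠ 0 := by rintro rfl; rw [zero_mul] at hfg; exact hf hfg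
  rw [← card_croots Φ, ← Multiset.toFinset_sum_count_eq]
  have hmem : ∀ z ∈ (croots Φ).toFinset, z ∈ Z ∧ (croots Φ).count z ≤ w z := by
    intro z hz
    rw [Multiset.mem_toFinset, mem_croots hΦ0] at hz
    have h1 : aeval z f = 0 := by rw [hfg, map_mul, hz, zero_mul]
    obtain ⟨h2, h3⟩ := hZ z h1 (hΦ z hz)
    refine ⟨h2, le_trans ?_ h3⟩
    rw [hfg, croots_mul (hfg ▸ hf), Multiset.count_add]
    exact Nat.le_add_right _ _
  calc ∑ z ∈ (croots Φ).toFinset, (croots Φ).count z ≤ ∑ z ∈ (croots Φ).toFinset, w z :=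
        Finset.sum_le_sum (fun z hz => (hmem z hz).2)
    _ ≤ ∑ z ∈ Z, w z := Finset.sum_le_sum_of_subset (fun z hz => (hmem z hz).1)

/-- if an integer polynomial is small at all primitive `m`-th roots of unity it vanishes there -/
lemma small_conj {z : ℂ} {m : ℕ} (hm : 0 < m) (hz : IsPrimitiveRoot z m) (H : ℤ[X])
    (hsmall : ∀ w : ℂ, IsPrimitiveRoot w m → ‖aeval w H‖ ≤ 3 / 4) : aeval z H = 0 := by
  by_contra hne
  have h1 := one_le_prod_norm_eval (cyclotomic m ℤ) H (by rw [cyclotomic.monic]; norm_num) (by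
    intro w hw hw0
    rw [aeval_cyc_iff hm] at hw
    apply hne
    have hdvd : cyclotomic m ℤ ∣ H := by
      rw [cyclotomic_eq_minpoly hw hm]
      exact minpoly.isIntegrallyClosed_dvd (hw.isIntegral hm) hw0
    obtain ⟨q, hq⟩ := hdvd
    rw [hq, map_mul, (aeval_cyc_iff hm z).2 hz, zero_mul])
  have h2 : ((croots (cyclotomic m ℤ)).map (fun z => ‖aeval z H‖)).prod ≤
      ((croots (cyclotomic m ℤ)).map (fun _ => (3 / 4 : ℝ))).prod := by
    have hc0 : cyclotomic m ℤ ≠ 0 := cyclotomic_ne_zero _ _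
    have : ∀ s : Multiset ℂ, (∀ w ∈ s, ‖aeval w H‖ ≤ 3 / 4) →
        (s.map (fun z => ‖aeval z H‖)).prod ≤ (s.map (fun _ => (3 / 4 : ℝ))).prod := by
      intro s
      induction s using Multiset.induction_on with
      | empty => intro _; simp
      | cons a s ih =>
        intro hs
        rw [Multiset.map_cons, Multiset.map_cons, Multiset.prod_cons, Multiset.prod_cons]
        apply mul_le_mul (hs a (Multiset.mem_cons_self a s))
          (ih (fun w hw => hs w (Multiset.mem_cons_of_mem hw)))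
        · apply Multiset.prod_nonneg
          intro x hx
          rw [Multiset.mem_map] at hx
          obtain ⟨w, _, rfl⟩ := hx
          exact norm_nonneg _
        · norm_num
    apply this
    intro w hw
    rw [mem_croots hc0, aeval_cyc_iff hm] at hw
    exact hsmall w hw
  rw [Multiset.map_const', Multiset.prod_replicate, card_croots, natDegree_cyclotomic] at h2
  have h3 : (3 / 4 : ℝ) ^ (Nat.totient m) < 1 := by
    apply pow_lt_one₀ (by norm_num) (by norm_num)
    exact (Nat.totient_pos.2 hm).ne'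
  linarith

end Pool.Agent.H25
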