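import Mathlib
import Pool.Agent.H25.Unity
import Pool.Agent.H25.PentaOne

/-!
Roots of unity among the roots of a pentanomial with `2 ≤ |a| ≤ 4` satisfy `z^12 = 1`.
-/

set_option autoImplicit false

open Polynomial N60ffa576

namespace Pool.Agent.H25

lemma exists_circleMap {w : ℂ} (hw : ‖w‖ = 1) : ∃ φ : ℝ, w = circleMap 0 1 φ := by
  refine ⟨Complex.arg w, ?_⟩
  have := Complex.norm_mul_exp_arg_mul_I w
  rw [hw, Complex.ofReal_one, one_mul] at this
  simp only [circleMap, Complex.ofReal_one, one_mul, zero_add]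
  exact this.symm

/-- `X^(2k) - N X^k + 1` -/
noncomputable def quad (k : ℕ) (N : ℤ) : ℤ[X] := X ^ (2 * k) - C N * X ^ k + 1

lemma aeval_quad (k : ℕ) (N : ℤ) (φ : ℝ) :
    aeval (circleMap 0 1 φ) (quad k N) =
      circleMap 0 1 φ ^ k * ((2 * Real.cos (k * φ) - N : ℝ) : ℂ) := by
  have h1 := circle_cos k φ
  have hz0 := circle_ne_zero φ
  set z := circleMap 0 1 φ with hz
  unfold quad
  simp only [map_add, map_sub, map_mul, map_pow, aeval_X, map_one, eq_intCast, map_intCast]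
  have e : ((2 * Real.cos (k * φ) - N : ℝ) : ℂ) = (((2 * Real.cos (k * φ)) : ℝ) : ℂ) - N := by
    push_cast; ring
  rw [e, h1]
  have h3 : z ^ k * (z ^ k)⁻¹ = 1 := mul_inv_cancel₀ (pow_ne_zero _ hz0)
  rw [show z ^ (2 * k) = z ^ k * z ^ k by rw [two_mul, pow_add]]
  linear_combination -h3

lemma norm_aeval_quad (k : ℕ) (N : ℤ) (φ : ℝ) :
    ‖aeval (circleMap 0 1 φ) (quad k N)‖ = |2 * Real.cos (k * φ) - N| := by
  rw [aeval_quad, norm_mul, norm_pow, circle_norm, one_pow, one_mul, Complex.norm_real,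
    Real.norm_eq_abs]

lemma pow12 {y : ℂ} {N : ℤ} (hN : |N| ≤ 2) (h : y ^ 2 - N * y + 1 = 0) : y ^ 12 = 1 := by
  rw [abs_le] at hN
  have hcases : N = -2 ∨ N = -1 ∨ N = 0 ∨ N = 1 ∨ N = 2 := by omega
  rcases hcases with rfl | rfl | rfl | rfl | rfl
  · have h1 : (y + 1) ^ 2 = 0 := by push_cast at h; linear_combination h
    have h2 : y = -1 := by
      have := pow_eq_zero_iff (two_ne_zero) |>.1 h1
      linear_combination this
    rw [h2]; norm_num
  · have h1 : y ^ 3 = 1 := by push_cast at h; linear_combination (y - 1) * h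
    calc y ^ 12 = (y ^ 3) ^ 4 := by ring
      _ = 1 := by rw [h1, one_pow]
  · have h1 : y ^ 2 = -1 := by push_cast at h; linear_combination h
    calc y ^ 12 = (y ^ 2) ^ 6 := by ring
      _ = 1 := by rw [h1]; norm_num
  · have h1 : y ^ 3 = -1 := by push_cast at h; linear_combination (y + 1) * h
    calc y ^ 12 = (y ^ 3) ^ 4 := by ring
      _ = 1 := by rw [h1]; norm_num
  · have h1 : (y - 1) ^ 2 = 0 := by push_cast at h; linear_combination h
    have h2 : y = 1 := by
      have := pow_eq_zero_iff (two_ne_zero) |>.1 h1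
      linear_combination this
    rw [h2]; norm_num

lemma quad_root_int {k : ℕ} {N : ℤ} {φ : ℝ}
    (h : aeval (circleMap 0 1 φ) (quad k N) = 0) : 2 * Real.cos (k * φ) = N := by
  have h1 := norm_aeval_quad k N φ
  rw [h, norm_zero] at h1
  have := abs_eq_zero.1 h1.symm
  linarith

lemma pow12_of_int {k : ℕ} {N : ℤ} {φ : ℝ} (h : 2 * Real.cos (k * φ) = N) :
    (circleMap 0 1 φ ^ k) ^ 12 = 1 := by
  have hN : |N| ≤ 2 := by
    have h1 := Real.abs_cos_le_one (k * φ)
    rw [abs_le] at h1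
    have h2 : (-2 : ℝ) ≤ N := by linarith [h1.1]
    have h3 : (N : ℝ) ≤ 2 := by linarith [h1.2]
    rw [abs_le]
    exact ⟨by exact_mod_cast h2, by exact_mod_cast h3⟩
  apply pow12 hN
  have h1 := circle_cos k φ
  have hz0 := circle_ne_zero φ
  rw [h] at h1
  have h3 : circleMap 0 1 φ ^ k * (circleMap 0 1 φ ^ k)⁻¹ = 1 :=
    mul_inv_cancel₀ (pow_ne_zero _ hz0)
  have h4 : ((N:ℝ):ℂ) = (N:ℂ) := by norm_cast
  rw [h4] at h1
  rw [h1]
  linear_combination -h3

/-- the key integrality statement -/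
lemma cos_integral {n k : ℕ} (hkn : k < n) {a b : ℤ} (ha : 2 ≤ |a|) (ha4 : |a| ≤ 4)
    {φ : ℝ} (hroot : aeval (circleMap 0 1 φ) (penta n k a b) = 0)
    (hun : IsUnity (circleMap 0 1 φ)) : ∃ N : ℤ, 2 * Real.cos (k * φ) = N := by
  obtain ⟨N', hN', hzN⟩ := hun
  obtain ⟨hpos, hprim, q, hq⟩ := cyc_dvd_of_root hroot hN' hzN
  set m := orderOf (circleMap 0 1 φ) with hm
  -- relation at all conjugates
  have hrel : ∀ w : ℂ, IsPrimitiveRoot w m → ∃ ψ : ℝ, w = circleMap 0 1 ψ ∧
      2 * Real.cos (n * ψ) + 2 * a * Real.cos (k * ψ) + b = 0 := by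
    intro w hw
    have hnorm : ‖w‖ = 1 := by
      have h1 := hw.pow_eq_one
      exact Complex.norm_eq_one_of_pow_eq_one h1 hpos.ne'
    obtain ⟨ψ, hψ⟩ := exists_circleMap hnorm
    refine ⟨ψ, hψ, ?_⟩
    have h1 : aeval w (penta n k a b) = 0 := by
      rw [hq, map_mul, (aeval_cyc_iff hpos w).2 hw, zero_mul]
    have h2 := norm_penta n k hkn.le a b ψ
    rw [← hψ, h1, norm_zero] at h2
    have := abs_eq_zero.1 h2.symm
    unfold FF at this
    exact this
  have hcos : ∀ x : ℝ, -2 ≤ 2 * Real.cos x ∧ 2 * Real.cos x ≤ 2 := by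
    intro x
    have := Real.abs_cos_le_one x
    rw [abs_le] at this
    constructor <;> linarith [this.1, this.2]
  -- final extraction
  have hfin : ∀ Ns : List ℤ, aeval (circleMap 0 1 φ) ((Ns.map (quad k)).prod) = 0 →
      ∃ N : ℤ, 2 * Real.cos (k * φ) = N := by
    intro Ns
    induction Ns with
    | nil => intro h; simp at h
    | cons N Ns ih =>
      intro h
      rw [List.map_cons, List.prod_cons, map_mul, mul_eq_zero] at h
      rcases h with h | h
      · exact ⟨N, quad_root_int h⟩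
      · exact ih h
  -- case A: |a| |w| ≤ |a|
  have caseA : ∀ N₀ r : ℤ, -b = a * N₀ + r → 2 + |r| ≤ |a| →
      ∃ N : ℤ, 2 * Real.cos (k * φ) = N := by
    intro N₀ r hb hr
    apply hfin [N₀ - 1, N₀, N₀ + 1]
    apply small_conj hpos hprim
    intro w hw
    obtain ⟨ψ, hψ, h1⟩ := hrel w hw
    rw [hψ]
    simp only [List.map_cons, List.map_nil, List.prod_cons, List.prod_nil, mul_one, map_mul,
      norm_mul, norm_aeval_quad]
    push_cast
    set v := 2 * Real.cos (k * ψ) with hv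
    set u := 2 * Real.cos (n * ψ) with hu
    have hu2 := hcos (n * ψ)
    rw [← hu] at hu2
    have hbR : -(b:ℝ) = a * N₀ + r := by exact_mod_cast hb
    have h2 : (a:ℝ) * (v - N₀) = -u + r := by
      have : u + a * v + b = 0 := by rw [hv]; linarith
      linarith
    have h3 : |(a:ℝ)| * |v - N₀| ≤ |(a:ℝ)| := by
      rw [← abs_mul, h2]
      have hrR : 2 + |(r:ℝ)| ≤ |(a:ℝ)| := by exact_mod_cast hr
      refine le_trans ?_ hrR
      calc |-u + r| ≤ |-u| + |(r:ℝ)| := abs_add_le _ _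
        _ ≤ 2 + |(r:ℝ)| := by
          rw [abs_neg]
          have : |u| ≤ 2 := abs_le.2 ⟨hu2.1, hu2.2⟩
          linarith
    have haR : (0:ℝ) < |(a:ℝ)| := by
      have : (2:ℝ) ≤ |(a:ℝ)| := by exact_mod_cast ha
      linarith
    have h4 : |v - N₀| ≤ 1 := by
      have : |(a:ℝ)| * |v - N₀| ≤ |(a:ℝ)| * 1 := by rw [mul_one]; exact h3
      exact le_of_mul_le_mul_left this haR
    set x := v - N₀ with hx
    have e1 : v - (N₀ - 1) = x + 1 := by rw [hx]; ring
    have e2 : v - (N₀ + 1) = x - 1 := by rw [hx]; ring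
    rw [e1, e2]
    have h5 : |x + 1| * (|x| * |x - 1|) = |x| * (1 - |x| ^ 2) := by
      have h6 : |x + 1| * |x - 1| = 1 - |x| ^ 2 := by
        rw [← abs_mul, show (x + 1) * (x - 1) = -(1 - x ^ 2) by ring, abs_neg, sq_abs]
        apply abs_of_nonneg
        rw [← sq_abs]
        nlinarith [abs_nonneg x]
      calc |x + 1| * (|x| * |x - 1|) = |x| * (|x + 1| * |x - 1|) := by ring
        _ = _ := by rw [h6]
    rw [h5]
    have h7 := abs_nonneg x
    nlinarith [mul_nonneg (sq_nonneg (|x| - 1 / 2)) (by linarith : (0:ℝ) ≤ |x| + 1)]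
  -- case B
  have caseB : ∀ N₀ s : ℤ, (s = 1 ∨ s = -1) → a = 2 * s → -b = a * N₀ + s →
      ∃ N : ℤ, 2 * Real.cos (k * φ) = N := by
    intro N₀ s hs has hb
    apply hfin [N₀, N₀ + 1]
    apply small_conj hpos hprim
    intro w hw
    obtain ⟨ψ, hψ, h1⟩ := hrel w hw
    rw [hψ]
    simp only [List.map_cons, List.map_nil, List.prod_cons, List.prod_nil, mul_one, map_mul,
      norm_mul, norm_aeval_quad]
    push_cast
    set v := 2 * Real.cos (k * ψ) with hv
    set u := 2 * Real.cos (n * ψ) with hu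
    have hu2 := hcos (n * ψ)
    rw [← hu] at hu2
    have hbR : -(b:ℝ) = a * N₀ + s := by exact_mod_cast hb
    have haR : (a:ℝ) = 2 * s := by exact_mod_cast has
    have h2 : (a:ℝ) * (v - N₀) = -u + s := by
      have : u + a * v + b = 0 := by rw [hv]; linarith
      linarith
    have h3 : (v - N₀) * (v - (N₀ + 1)) = (u ^ 2 - 1) / 4 := by
      rcases hs with h | h
      · rw [h] at h2 haR
        push_cast at h2 haR
        rw [haR] at h2
        have : v - N₀ = (1 - u) / 2 := by linarith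
        have e : v - (N₀ + 1) = (1 - u) / 2 - 1 := by linarith
        rw [this, e]; ring
      · rw [h] at h2 haR
        push_cast at h2 haR
        rw [haR] at h2
        have : v - N₀ = (1 + u) / 2 := by linarith
        have e : v - (N₀ + 1) = (1 + u) / 2 - 1 := by linarith
        rw [this, e]; ring
    rw [← abs_mul, h3, abs_le]
    constructor <;> nlinarith
  -- choose
  rcases le_or_gt |a| 3 with h3 | h3
  · rcases le_or_gt |a| 2 with h2 | h2
    · have ha2 : |a| = 2 := by omega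
      rcases (abs_eq (by norm_num : (0:ℤ) ≤ 2)).1 ha2 with h | h
      · rcases Int.even_or_odd' b with ⟨c, hc | hc⟩
        · exact caseA (-c) 0 (by rw [hc, h]; ring) (by rw [ha2]; norm_num)
        · exact caseB (-c - 1) 1 (Or.inl rfl) (by rw [h]; norm_num) (by rw [hc, h]; ring)
      · rcases Int.even_or_odd' b with ⟨c, hc | hc⟩
        · exact caseA c 0 (by rw [hc, h]; ring) (by rw [ha2]; norm_num)
        · exact caseB c (-1) (Or.inr rfl) (by rw [h]; norm_num) (by rw [hc, h]; ring)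
    · have ha3 : |a| = 3 := by omega
      obtain ⟨c, r, hc, hr⟩ : ∃ c r : ℤ, -b = 3 * c + r ∧ |r| ≤ 1 := by
        have h5 : (-b) % 3 = 0 ∨ (-b) % 3 = 1 ∨ (-b) % 3 = 2 := by omega
        rcases h5 with h | h | h
        · exact ⟨(-b) / 3, 0, by omega, by norm_num⟩
        · exact ⟨(-b) / 3, 1, by omega, by norm_num⟩
        · exact ⟨(-b) / 3 + 1, -1, by omega, by norm_num⟩
      rcases (abs_eq (by norm_num : (0:ℤ) ≤ 3)).1 ha3 with h | h
      · exact caseA c r (by rw [hc, h]) (by rw [ha3]; omega)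
      · exact caseA (-c) r (by rw [hc, h]; ring) (by rw [ha3]; omega)
  · have ha4' : |a| = 4 := by omega
    obtain ⟨c, r, hc, hr⟩ : ∃ c r : ℤ, -b = 4 * c + r ∧ |r| ≤ 2 := by
      have h5 : (-b) % 4 = 0 ∨ (-b) % 4 = 1 ∨ (-b) % 4 = 2 ∨ (-b) % 4 = 3 := by omega
      rcases h5 with h | h | h | h
      · exact ⟨(-b) / 4, 0, by omega, by norm_num⟩
      · exact ⟨(-b) / 4, 1, by omega, by norm_num⟩
      · exact ⟨(-b) / 4, 2, by omega, by norm_num⟩
      · exact ⟨(-b) / 4 + 1, -1, by omega, by norm_num⟩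
    rcases (abs_eq (by norm_num : (0:ℤ) ≤ 4)).1 ha4' with h | h
    · exact caseA c r (by rw [hc, h]) (by rw [ha4']; omega)
    · exact caseA (-c) r (by rw [hc, h]; ring) (by rw [ha4']; omega)

/-- unity roots have order dividing 12 -/
lemma root_pow12 {n k : ℕ} (hkn : k < n) (hk : k.Coprime n) {a b : ℤ}
    (ha : 2 ≤ |a|) (ha4 : |a| ≤ 4) {z : ℂ} (hroot : aeval z (penta n k a b) = 0)
    (hun : IsUnity z) : z ^ 12 = 1 := by
  have hnorm : ‖z‖ = 1 := by
    obtain ⟨N, hN, hzN⟩ := hun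
    exact Complex.norm_eq_one_of_pow_eq_one hzN hN.ne'
  obtain ⟨φ, hφ⟩ := exists_circleMap hnorm
  rw [hφ] at hroot hun ⊢
  obtain ⟨N, hN⟩ := cos_integral hkn ha ha4 hroot hun
  have hrel : 2 * Real.cos (n * φ) + 2 * a * Real.cos (k * φ) + b = 0 := by
    have h2 := norm_penta n k hkn.le a b φ
    rw [hroot, norm_zero] at h2
    have := abs_eq_zero.1 h2.symm
    unfold FF at this
    exact this
  have hn : 2 * Real.cos (n * φ) = ((-b - a * N : ℤ) : ℝ) := by
    push_cast
    linear_combination hrel - (a:ℝ) * hN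
  have h1 := pow12_of_int hN
  have h2 := pow12_of_int hn
  rw [← pow_mul] at h1 h2
  set w := circleMap 0 1 φ with hw
  have h3 : orderOf w ∣ k * 12 := orderOf_dvd_of_pow_eq_one h1
  have h4 : orderOf w ∣ n * 12 := orderOf_dvd_of_pow_eq_one h2
  have h5 : orderOf w ∣ Nat.gcd (k * 12) (n * 12) := Nat.dvd_gcd h3 h4
  rw [Nat.gcd_mul_right, hk, one_mul] at h5
  exact orderOf_dvd_iff_pow_eq_one.1 h5

end Pool.Agent.H25
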