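import Mathlib
import Pool.Agent.H25.Roots12

/-!
Multiplicities of the roots of unity among the roots of a pentanomial.
-/

set_option autoImplicit false

open Polynomial N60ffa576

namespace Pool.Agent.H25

lemma aeval_iter_derivative_of_lt_count {f : ℤ[X]} {z : ℂ} {m : ℕ}
    (h : m < (croots f).count z) : aeval z (derivative^[m] f) = 0 := by
  classical
  unfold croots at h
  rw [count_roots] at h
  have h1 := isRoot_iterate_derivative_of_lt_rootMultiplicity h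
  rw [IsRoot.def, iterate_derivative_map, eval_map_algebraMap] at h1
  exact h1

/-- integer values of the cosines at a root of unity -/
lemma int_data {n k : ℕ} (hkn : k < n) {a b : ℤ} (ha : 2 ≤ |a|) (ha4 : |a| ≤ 4)
    {z : ℂ} (hroot : aeval z (penta n k a b) = 0) (hun : IsUnity z) :
    ∃ N N' : ℤ, z ^ (2 * k) - N * z ^ k + 1 = 0 ∧ z ^ (2 * n) - N' * z ^ n + 1 = 0 ∧
      N' + a * N + b = 0 ∧ |N| ≤ 2 ∧ |N'| ≤ 2 := by
  have hnorm : ‖z‖ = 1 := by
    obtain ⟨N, hN, hzN⟩ := hun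
    exact Complex.norm_eq_one_of_pow_eq_one hzN hN.ne'
  obtain ⟨φ, hφ⟩ := exists_circleMap hnorm
  rw [hφ] at hroot hun ⊢
  obtain ⟨N, hN⟩ := cos_integral hkn ha ha4 hroot hun
  have hrel : 2 * Real.cos (n * φ) + 2 * a * Real.cos (k * φ) + b = 0 := by
    have h2 := norm_penta n k hkn.le a b φ
    rw [hroot, norm_zero] at h2
    have := abs_eq_zero.1 h2.symm
    unfold FF at this
    exact this
  have hn : 2 * Real.cos (n * φ) = ((-b - a * N : ℤ) : ℝ) := by
    push_cast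
    linear_combination hrel - (a:ℝ) * hN
  have hquad : ∀ (j : ℕ) (c : ℤ), 2 * Real.cos (j * φ) = c →
      circleMap 0 1 φ ^ (2 * j) - c * circleMap 0 1 φ ^ j + 1 = 0 := by
    intro j c hc
    have h1 := circle_cos j φ
    have hz0 := circle_ne_zero φ
    rw [hc] at h1
    have h3 : circleMap 0 1 φ ^ j * (circleMap 0 1 φ ^ j)⁻¹ = 1 :=
      mul_inv_cancel₀ (pow_ne_zero _ hz0)
    have h4 : ((c:ℝ):ℂ) = (c:ℂ) := by norm_cast
    rw [h4] at h1
    rw [h1, show circleMap 0 1 φ ^ (2 * j) = circleMap 0 1 φ ^ j * circleMap 0 1 φ ^ j by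
      rw [two_mul, pow_add]]
    linear_combination -h3
  have hbound : ∀ (j : ℕ) (c : ℤ), 2 * Real.cos (j * φ) = c → |c| ≤ 2 := by
    intro j c h
    have h1 := Real.abs_cos_le_one (j * φ)
    rw [abs_le] at h1
    have h2 : (-2 : ℝ) ≤ c := by linarith [h1.1]
    have h3 : (c : ℝ) ≤ 2 := by linarith [h1.2]
    rw [abs_le]
    exact ⟨by exact_mod_cast h2, by exact_mod_cast h3⟩
  exact ⟨N, -b - a * N, hquad k N hN, hquad n _ hn, by ring, hbound k N hN, hbound n _ hn⟩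

/-- `(X d/dX) f` -/
lemma aeval_deriv_penta {m k : ℕ} (a b : ℤ) (z : ℂ) :
    z * aeval z (derivative (penta (m + k) k a b)) =
      2 * (m + k) * z ^ (2 * (m + k)) + a * (m + 2 * k) * z ^ (m + 2 * k)
        + b * (m + k) * z ^ (m + k) + a * m * z ^ m := by
  unfold penta
  rw [Nat.add_sub_cancel]
  have hX : ∀ (j : ℕ), z * aeval z (derivative (X ^ j : ℤ[X])) = j * z ^ j := by
    intro j
    rw [derivative_X_pow]
    rcases Nat.eq_zero_or_pos j with rfl | hj
    · simp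
    · obtain ⟨i, rfl⟩ : ∃ i, j = i + 1 := ⟨j - 1, by omega⟩
      rw [Nat.add_sub_cancel, pow_succ, map_mul, aeval_C, map_pow, aeval_X]
      simp only [map_natCast]
      ring
  have h1 := hX (2 * (m + k))
  have h2 := hX (m + k + k)
  have h3 := hX (m + k)
  have h4 := hX m
  simp only [derivative_add, derivative_C_mul, derivative_one, add_zero]
  rw [map_add, map_add, map_add, map_mul, map_mul, map_mul, aeval_C, aeval_C, mul_add, mul_add,
    mul_add]
  simp only [algebraMap_int_eq, eq_intCast]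
  rw [h1]
  have e2 : z * ((a:ℂ) * aeval z (derivative (X ^ (m + k + k) : ℤ[X]))) =
      a * ((m + k + k : ℕ) * z ^ (m + k + k)) := by rw [← h2]; ring
  have e3 : z * ((b:ℂ) * aeval z (derivative (X ^ (m + k) : ℤ[X]))) =
      b * ((m + k : ℕ) * z ^ (m + k)) := by rw [← h3]; ring
  have e4 : z * ((a:ℂ) * aeval z (derivative (X ^ m : ℤ[X]))) =
      a * (m * z ^ m) := by rw [← h4]; ring
  rw [e2, e3, e4]
  have e5 : m + k + k = m + 2 * k := by ring
  rw [e5]
  push_cast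
  ring

/-- second derivative -/
lemma aeval_deriv2_penta {m k : ℕ} (a b : ℤ) (z : ℂ) :
    z ^ 2 * aeval z (derivative (derivative (penta (m + k) k a b))) =
      2 * (m + k) * (2 * (m + k) - 1) * z ^ (2 * (m + k))
        + a * (m + 2 * k) * (m + 2 * k - 1) * z ^ (m + 2 * k)
        + b * (m + k) * (m + k - 1) * z ^ (m + k) + a * m * (m - 1) * z ^ m := by
  unfold penta
  rw [Nat.add_sub_cancel]
  have hX : ∀ (j : ℕ), z ^ 2 * aeval z (derivative (derivative (X ^ j : ℤ[X]))) =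
      j * (j - 1) * z ^ j := by
    intro j
    rcases j with _ | _ | j
    · simp
    · simp
    · rw [derivative_X_pow, derivative_C_mul, derivative_X_pow]
      have e1 : j + 1 + 1 - 1 = j + 1 := by omega
      rw [e1, Nat.add_sub_cancel, map_mul, map_mul, aeval_C, aeval_C, map_pow, aeval_X]
      simp only [map_natCast]
      push_cast
      ring
  have h1 := hX (2 * (m + k))
  have h2 := hX (m + k + k)
  have h3 := hX (m + k)
  have h4 := hX m
  simp only [derivative_add, derivative_C_mul, derivative_one, add_zero]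
  rw [map_add, map_add, map_add, map_mul, map_mul, map_mul, aeval_C, aeval_C, mul_add, mul_add,
    mul_add]
  simp only [algebraMap_int_eq, eq_intCast]
  rw [h1]
  have e2 : z ^ 2 * ((a:ℂ) * aeval z (derivative (derivative (X ^ (m + k + k) : ℤ[X])))) =
      a * ((m + k + k : ℕ) * ((m + k + k : ℕ) - 1) * z ^ (m + k + k)) := by rw [← h2]; ring
  have e3 : z ^ 2 * ((b:ℂ) * aeval z (derivative (derivative (X ^ (m + k) : ℤ[X])))) =
      b * ((m + k : ℕ) * ((m + k : ℕ) - 1) * z ^ (m + k)) := by rw [← h3]; ring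
  have e4 : z ^ 2 * ((a:ℂ) * aeval z (derivative (derivative (X ^ m : ℤ[X])))) =
      a * (m * (m - 1) * z ^ m) := by rw [← h4]; ring
  rw [e2, e3, e4]
  have e5 : m + k + k = m + 2 * k := by ring
  rw [e5]
  push_cast
  ring

lemma aeval_penta {m k : ℕ} (a b : ℤ) (z : ℂ) :
    aeval z (penta (m + k) k a b) = z ^ (2 * (m + k)) + a * z ^ (m + 2 * k)
        + b * z ^ (m + k) + a * z ^ m + 1 := by
  unfold penta
  rw [Nat.add_sub_cancel]
  simp only [map_add, map_mul, map_pow, aeval_X, map_one, eq_intCast, map_intCast]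
  have e5 : m + k + k = m + 2 * k := by ring
  rw [e5]

lemma arith_aux {n k a : ℤ} (hcop : IsCoprime n k) (hn : 5 ≤ n) (hk : 1 ≤ k) (hkn : k < n)
    (ha4 : |a| ≤ 4) (ha : 2 ≤ |a|) {c d : ℤ} (hc : c = 3 ∨ c = 4) (hd : d = 3 ∨ d = 4)
    (h : n ^ 2 * c = a ^ 2 * k ^ 2 * d) : False := by
  have habs : |a| = 2 ∨ |a| = 3 ∨ |a| = 4 := by omega
  have haq : a ^ 2 = 4 ∨ a ^ 2 = 9 ∨ a ^ 2 = 16 := by
    rcases habs with h | h | h
    · left; rw [← sq_abs, h]; norm_num
    · right; left; rw [← sq_abs, h]; norm_num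
    · right; right; rw [← sq_abs, h]; norm_num
  have h6 : n ^ 2 ∣ k ^ 2 * (a ^ 2 * d) := ⟨c, by linear_combination -h⟩
  have h7 := (hcop.pow).dvd_of_dvd_mul_left h6
  have hd0 : 0 < a ^ 2 * d := by
    rcases haq with h' | h' | h' <;> rw [h'] <;> rcases hd with h | h <;> rw [h] <;> norm_num
  have h8 := Int.le_of_dvd hd0 h7
  have h9 : a ^ 2 * d ≤ 64 := by
    rcases haq with h' | h' | h' <;> rw [h'] <;> rcases hd with h | h <;> rw [h] <;> norm_num
  have hn8 : n ≤ 8 := by nlinarith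
  rw [Int.isCoprime_iff_gcd_eq_one] at hcop
  rcases haq with h' | h' | h' <;> rw [h'] at h <;> interval_cases n <;> interval_cases k <;>
    first | omega | (revert hcop; decide)

/-- a double root at a root of unity is `±1` -/
lemma double_root {n k : ℕ} (hk0 : 0 < k) (hkn : k < n) (hk : k.Coprime n) (hn : 5 ≤ n) {a b : ℤ}
    (ha : 2 ≤ |a|) (ha4 : |a| ≤ 4) {z : ℂ} (hroot : aeval z (penta n k a b) = 0)
    (hd : aeval z (derivative (penta n k a b)) = 0) (hun : IsUnity z) : z ^ 2 = 1 := by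
  obtain ⟨N, N', h1, h2, h3, h4, h5⟩ := int_data hkn ha ha4 hroot hun
  obtain ⟨m, hm⟩ : ∃ m, n = m + k := ⟨n - k, by omega⟩
  have hz0 : z ≠ 0 := by
    obtain ⟨j, hj, hzj⟩ := hun
    rintro rfl
    rw [zero_pow hj.ne'] at hzj
    exact zero_ne_one hzj
  subst hm
  have hA := aeval_penta (m := m) (k := k) a b z
  have hB := aeval_deriv_penta (m := m) (k := k) a b z
  rw [hroot] at hA
  rw [hd, mul_zero] at hB
  have ep : z ^ (2 * (m + k)) = (z ^ m * z ^ k) ^ 2 := by rw [← pow_add, ← pow_mul]; ring_nf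
  have eq1 : z ^ (m + 2 * k) = z ^ m * (z ^ k) ^ 2 := by rw [← pow_mul, ← pow_add]; ring_nf
  have er : z ^ (m + k) = z ^ m * z ^ k := by rw [pow_add]
  have es : z ^ (2 * k) = (z ^ k) ^ 2 := by rw [← pow_mul]; ring_nf
  rw [ep, eq1, er] at hA hB
  rw [ep, er] at h2
  rw [es] at h1
  have hW0 : z ^ m ≠ 0 := pow_ne_zero _ hz0
  have hQ0 : z ^ k ≠ 0 := pow_ne_zero _ hz0
  set W := z ^ m with hW
  set Q := z ^ k with hQ
  -- n (P²-1) Q = -a k P (Q² - 1)
  have key : ((m:ℂ) + k) * ((W * Q) ^ 2 - 1) * Q = -(a * k * (W * Q) * (Q ^ 2 - 1)) := by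
    linear_combination (((m:ℂ) + k) * Q) * hA - Q * hB
  have key2 : (((m:ℂ) + k) ^ 2 * (N' ^ 2 - 4)) * ((W * Q) ^ 2 * Q ^ 2) =
      ((a:ℂ) ^ 2 * k ^ 2 * (N ^ 2 - 4)) * ((W * Q) ^ 2 * Q ^ 2) := by
    have s1 : ((W * Q) ^ 2 - 1) ^ 2 = ((N':ℂ) ^ 2 - 4) * (W * Q) ^ 2 := by
      linear_combination ((W * Q) ^ 2 + 1 + N' * (W * Q)) * h2
    have s2 : (Q ^ 2 - 1) ^ 2 = ((N:ℂ) ^ 2 - 4) * Q ^ 2 := by
      linear_combination (Q ^ 2 + 1 + N * Q) * h1
    have s3 : (((m:ℂ) + k) * ((W * Q) ^ 2 - 1) * Q) ^ 2 = (-(a * k * (W * Q) * (Q ^ 2 - 1))) ^ 2 := by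
      rw [key]
    have s4 : (((m:ℂ) + k) * ((W * Q) ^ 2 - 1) * Q) ^ 2 =
      ((m:ℂ) + k) ^ 2 * ((W * Q) ^ 2 - 1) ^ 2 * Q ^ 2 := by ring
    have s5 : (-((a:ℂ) * k * (W * Q) * (Q ^ 2 - 1))) ^ 2 =
      a ^ 2 * k ^ 2 * (W * Q) ^ 2 * (Q ^ 2 - 1) ^ 2 := by ring
    rw [s4, s5, s1, s2] at s3
    linear_combination s3
  have hPQ : ((W * Q) ^ 2 * Q ^ 2) ≠ 0 :=
    mul_ne_zero (pow_ne_zero _ (mul_ne_zero hW0 hQ0)) (pow_ne_zero _ hQ0)
  have key3 := mul_right_cancel₀ hPQ key2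
  have key4 : ((m:ℤ) + k) ^ 2 * (N' ^ 2 - 4) = a ^ 2 * k ^ 2 * (N ^ 2 - 4) := by
    exact_mod_cast key3
  -- arithmetic
  have hN2 : (N = 2 ∨ N = -2) ∨ (N ^ 2 - 4 = -4 ∨ N ^ 2 - 4 = -3) := by
    rw [abs_le] at h4
    have : N = -2 ∨ N = -1 ∨ N = 0 ∨ N = 1 ∨ N = 2 := by omega
    rcases this with rfl | rfl | rfl | rfl | rfl <;> norm_num
  have hN2' : (N' = 2 ∨ N' = -2) ∨ (N' ^ 2 - 4 = -4 ∨ N' ^ 2 - 4 = -3) := by
    rw [abs_le] at h5
    have : N' = -2 ∨ N' = -1 ∨ N' = 0 ∨ N' = 1 ∨ N' = 2 := by omega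
    rcases this with rfl | rfl | rfl | rfl | rfl <;> norm_num
  have ha0 : a ≠ 0 := by rintro rfl; simp at ha
  have hmk : ((m:ℤ) + k) ≠ 0 := by omega
  have hk0' : (k:ℤ) ≠ 0 := by omega
  have hone : N ^ 2 - 4 = 0 → N' ^ 2 - 4 = 0 → z ^ 2 = 1 := by
    intro hN0 hN0'
    have t1 : z ^ (2 * k) = 1 := by
      rw [es]
      have : (Q ^ 2 - 1) ^ 2 = ((N:ℂ) ^ 2 - 4) * Q ^ 2 := by
        linear_combination (Q ^ 2 + 1 + N * Q) * h1
      have h0 : ((N:ℂ) ^ 2 - 4) = 0 := by exact_mod_cast congrArg (Int.cast : ℤ → ℂ) hN0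
      rw [h0, zero_mul] at this
      have := (pow_eq_zero_iff two_ne_zero).1 this
      linear_combination this
    have t2 : z ^ (2 * (m + k)) = 1 := by
      rw [ep]
      have : ((W * Q) ^ 2 - 1) ^ 2 = ((N':ℂ) ^ 2 - 4) * (W * Q) ^ 2 := by
        linear_combination ((W * Q) ^ 2 + 1 + N' * (W * Q)) * h2
      have h0 : ((N':ℂ) ^ 2 - 4) = 0 := by exact_mod_cast congrArg (Int.cast : ℤ → ℂ) hN0'
      rw [h0, zero_mul] at this
      have := (pow_eq_zero_iff two_ne_zero).1 this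
      linear_combination this
    have d1 := orderOf_dvd_of_pow_eq_one t1
    have d2 := orderOf_dvd_of_pow_eq_one t2
    have d3 : orderOf z ∣ Nat.gcd (2 * k) (2 * (m + k)) := Nat.dvd_gcd d1 d2
    rw [Nat.gcd_mul_left, hk, mul_one] at d3
    exact orderOf_dvd_iff_pow_eq_one.1 d3
  have hcop : IsCoprime ((m:ℤ) + k) k := by
    have : Nat.Coprime (m + k) k := hk.symm
    exact_mod_cast Nat.isCoprime_iff_coprime.2 this
  have hnk : (5:ℤ) ≤ (m:ℤ) + k := by exact_mod_cast hn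
  have hkk : (k:ℤ) < (m:ℤ) + k := by exact_mod_cast hkn
  have hk1 : (1:ℤ) ≤ k := by exact_mod_cast hk0
  rcases hN2' with hN' | hN'
  · have e0 : N' ^ 2 - 4 = 0 := by rcases hN' with h | h <;> rw [h] <;> norm_num
    rw [e0, mul_zero] at key4
    have e1 : N ^ 2 - 4 = 0 := by
      have := key4.symm
      rw [mul_eq_zero, mul_eq_zero] at this
      rcases this with (h | h) | h
      · exact absurd ((pow_eq_zero_iff two_ne_zero).1 h) ha0
      · exact absurd ((pow_eq_zero_iff two_ne_zero).1 h) hk0'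
      · exact h
    exact hone e1 e0
  · exfalso
    rcases hN2 with hN | hN
    · have e0 : N ^ 2 - 4 = 0 := by rcases hN with h | h <;> rw [h] <;> norm_num
      rw [e0, mul_zero] at key4
      rcases mul_eq_zero.1 key4 with h | h
      · exact hmk ((pow_eq_zero_iff two_ne_zero).1 h)
      · rcases hN' with h' | h' <;> omega
    · refine arith_aux hcop hnk hk1 hkk ha4 ha (c := -(N' ^ 2 - 4)) (d := -(N ^ 2 - 4)) ?_ ?_ ?_
      · rcases hN' with h' | h' <;> omega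
      · rcases hN with h' | h' <;> omega
      · linear_combination -key4

/-- multiplicities are at most two -/
lemma no_triple {n k : ℕ} (hk0 : 0 < k) (hkn : k < n) (hk : k.Coprime n) (hn : 3 ≤ n) {a b : ℤ}
    (ha4 : |a| ≤ 4) {z : ℂ} (hroot : aeval z (penta n k a b) = 0)
    (hd : aeval z (derivative (penta n k a b)) = 0)
    (hd2 : aeval z (derivative (derivative (penta n k a b))) = 0) (hz : z ^ 2 = 1) : False := by
  obtain ⟨m, hm⟩ : ∃ m, n = m + k := ⟨n - k, by omega⟩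
  subst hm
  have hA := aeval_penta (m := m) (k := k) a b z
  have hB := aeval_deriv_penta (m := m) (k := k) a b z
  have hC := aeval_deriv2_penta (m := m) (k := k) a b z
  rw [hroot] at hA
  rw [hd, mul_zero] at hB
  rw [hd2, mul_zero] at hC
  have ep : z ^ (2 * (m + k)) = 1 := by rw [pow_mul, hz, one_pow]
  have eq1 : z ^ (m + 2 * k) = z ^ m := by rw [pow_add, pow_mul, hz, one_pow, mul_one]
  rw [ep, eq1] at hA hB hC
  have key : ((m:ℂ) + k) ^ 2 + a * k ^ 2 * z ^ m = 0 := by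
    have h2 : (2:ℂ) * (((m:ℂ) + k) ^ 2 + a * k ^ 2 * z ^ m) = 0 := by
      linear_combination (-(m + k : ℂ) ^ 2) * hA - (1 - 2 * (m + k : ℂ)) * hB - hC
    rcases mul_eq_zero.1 h2 with h | h
    · norm_num at h
    · exact h
  have hzm : z ^ m = 1 ∨ z ^ m = -1 := by
    have : (z ^ m) ^ 2 = 1 := by rw [← pow_mul, mul_comm, pow_mul, hz, one_pow]
    exact sq_eq_one_iff.1 this
  have key2 : ∃ s : ℤ, (s = 1 ∨ s = -1) ∧ ((m:ℤ) + k) ^ 2 + a * k ^ 2 * s = 0 := by
    rcases hzm with h | h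
    · refine ⟨1, Or.inl rfl, ?_⟩
      rw [h] at key
      exact_mod_cast key
    · refine ⟨-1, Or.inr rfl, ?_⟩
      rw [h] at key
      exact_mod_cast key
  obtain ⟨s, hs, key3⟩ := key2
  have hcop : IsCoprime ((m:ℤ) + k) k := by
    have : Nat.Coprime (m + k) k := hk.symm
    exact_mod_cast Nat.isCoprime_iff_coprime.2 this
  have h6 : ((m:ℤ) + k) ^ 2 ∣ k ^ 2 * (-(a * s)) := ⟨1, by linear_combination -key3⟩
  have h7 := (hcop.pow).dvd_of_dvd_mul_left h6
  have hn3 : (3:ℤ) ≤ (m:ℤ) + k := by exact_mod_cast hn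
  have hk1 : (1:ℤ) ≤ k := by exact_mod_cast hk0
  have ha0 : a * s ≠ 0 := by
    intro h
    have : ((m:ℤ) + k) ^ 2 = 0 := by linear_combination key3 - (k:ℤ) ^ 2 * h
    have := (pow_eq_zero_iff two_ne_zero).1 this
    omega
  have h8 := Int.le_of_dvd (a := ((m:ℤ) + k) ^ 2) (b := |a * s|) (abs_pos.2 ha0)
    ((dvd_abs _ _).2 ((dvd_neg).1 h7))
  have h9 : |a * s| ≤ 4 := by
    rw [abs_mul]
    rcases hs with h | h <;> rw [h] <;> simpa using ha4
  nlinarith

/-- the multiplicity bound -/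
lemma count_le {n k : ℕ} (hk0 : 0 < k) (hkn : k < n) (hk : k.Coprime n) (hn : 5 ≤ n) {a b : ℤ}
    (ha : 2 ≤ |a|) (ha4 : |a| ≤ 4) {z : ℂ} (hroot : aeval z (penta n k a b) = 0)
    (hun : IsUnity z) [Decidable (z ^ 2 = 1)] :
    (croots (penta n k a b)).count z ≤ if z ^ 2 = 1 then 2 else 1 := by
  split_ifs with h
  · by_contra hlt
    push Not at hlt
    exact no_triple hk0 hkn hk (by omega) ha4 hroot
      (aeval_iter_derivative_of_lt_count (m := 1) (by omega))
      (aeval_iter_derivative_of_lt_count (m := 2) (by omega)) h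
  · by_contra hlt
    push Not at hlt
    exact h (double_root hk0 hkn hk hn ha ha4 hroot
      (aeval_iter_derivative_of_lt_count (m := 1) (by omega)) hun)

end Pool.Agent.H25
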