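import Mathlib
import Pool.Agent.H25.Mult

/-!
Counting the roots of unity among the roots of a pentanomial.
-/

set_option autoImplicit false

open Polynomial N60ffa576 Real

namespace Pool.Agent.H25

def rT (t : ℕ) : ℤ := [2, 0, 1, 0, -1, 0, -2, 0, -1, 0, 1, 0].getD t 0
def sT (t : ℕ) : ℤ := [0, 1, 0, 0, 0, -1, 0, -1, 0, 0, 0, 1].getD t 0

lemma cos_table (t : ℕ) :
    2 * Real.cos (t * (π / 6)) = rT (t % 12) + sT (t % 12) * Real.sqrt 3 := by
  have h1 : Real.cos (t * (π / 6)) = Real.cos ((t % 12 : ℕ) * (π / 6)) := by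
    have e : (t : ℝ) * (π / 6) = (t % 12 : ℕ) * (π / 6) + (t / 12 : ℕ) * (2 * π) := by
      have : (t : ℝ) = (t % 12 : ℕ) + 12 * (t / 12 : ℕ) := by
        exact_mod_cast (Nat.mod_add_div t 12).symm
      rw [this]
      rw [show (((t % 12 : ℕ) : ℝ) + 12 * ((t / 12 : ℕ) : ℝ)) * (π / 6) =
        (t % 12 : ℕ) * (π / 6) + (t / 12 : ℕ) * (2 * π) by ring]
      
    rw [e, Real.cos_add_nat_mul_two_pi]
  rw [h1]
  have hlt : t % 12 < 12 := Nat.mod_lt _ (by norm_num)
  generalize t % 12 = s at hlt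
  have c1 := Real.cos_pi_div_six
  have c2 := Real.cos_pi_div_three
  have c3 := Real.cos_pi_div_two
  interval_cases s <;> simp only [rT, sT, List.getD_cons_zero, List.getD_cons_succ] <;> push_cast
  · simp
  · rw [one_mul, c1]; ring
  · rw [show (2:ℝ) * (π / 6) = π / 3 by ring, c2]; ring
  · rw [show (3:ℝ) * (π / 6) = π / 2 by ring, c3]; ring
  · rw [show (4:ℝ) * (π / 6) = π - π / 3 by ring, Real.cos_pi_sub, c2]; ring
  · rw [show (5:ℝ) * (π / 6) = π - π / 6 by ring, Real.cos_pi_sub, c1]; ring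
  · rw [show (6:ℝ) * (π / 6) = π by ring, Real.cos_pi]; ring
  · rw [show (7:ℝ) * (π / 6) = π / 6 + π by ring, Real.cos_add_pi, c1]; ring
  · rw [show (8:ℝ) * (π / 6) = π / 3 + π by ring, Real.cos_add_pi, c2]; ring
  · rw [show (9:ℝ) * (π / 6) = π / 2 + π by ring, Real.cos_add_pi, c3]; ring
  · rw [show (10:ℝ) * (π / 6) = 2 * π - π / 3 by ring, Real.cos_two_pi_sub, c2]; ring
  · rw [show (11:ℝ) * (π / 6) = 2 * π - π / 6 by ring, Real.cos_two_pi_sub, c1]; ring

lemma sqrt3_indep {x y : ℤ} (h : (x:ℝ) + y * Real.sqrt 3 = 0) : x = 0 ∧ y = 0 := by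
  have hirr : Irrational (Real.sqrt 3) := by
    have := Nat.Prime.irrational_sqrt (p := 3) (by norm_num)
    exact_mod_cast this
  have hy : y = 0 := by
    by_contra hy
    apply hirr
    refine ⟨-(x:ℚ) / y, ?_⟩
    have hyR : (y:ℝ) ≠ 0 := by exact_mod_cast hy
    push_cast
    rw [div_eq_iff hyR]
    linear_combination -h
  subst hy
  simp at h
  exact ⟨h, rfl⟩

def rootB (n k : ℕ) (a b : ℤ) (j : ℕ) : Bool :=
  decide (rT (n * j % 12) + a * rT (k * j % 12) + b = 0) &&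
    decide (sT (n * j % 12) + a * sT (k * j % 12) = 0)

def cntB (n k : ℕ) (a b : ℤ) : ℕ :=
  ∑ j ∈ (Finset.range 12).filter (fun j => rootB n k a b j = true), (if j % 6 = 0 then 2 else 1)

def cntL (n k : ℕ) (a b : ℤ) : ℕ :=
  ((List.range 12).map (fun j => cond (rootB n k a b j) (if j % 6 = 0 then 2 else 1) 0)).sum

lemma cntL_eq (n k : ℕ) (a b : ℤ) : cntL n k a b = cntB n k a b := by
  unfold cntL cntB
  rw [Finset.sum_filter]
  have e : (fun j => cond (rootB n k a b j) (if j % 6 = 0 then 2 else 1) 0) =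
      (fun j => if rootB n k a b j = true then (if j % 6 = 0 then 2 else 1) else 0) := by
    ext j
    cases rootB n k a b j <;> rfl
  rw [e]
  rfl

def chkAB (n k : ℕ) (a b : ℤ) : Bool :=
  Nat.ble (cntL n k a b) 6 && (decide (a % 2 = 1) || decide (b % 2 = 0) || Nat.ble (cntL n k a b) 4)

def chkB (n k : ℕ) (a : ℤ) : ℕ → Bool
  | 0 => true
  | i + 1 => chkAB n k a i && chkAB n k a (-(i:ℤ)) && chkB n k a i

def chkNK (n k : ℕ) : Bool :=
  (Nat.gcd (Nat.gcd n k) 12 != 1) || (chkB n k 2 10 && chkB n k (-2) 10 && chkB n k 3 10 &&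
    chkB n k (-3) 10 && chkB n k 4 10 && chkB n k (-4) 10)

def chkN (n : ℕ) : ℕ → Bool
  | 0 => true
  | k + 1 => chkNK n k && chkN n k

def chkAll : ℕ → Bool
  | 0 => true
  | n + 1 => chkN n 12 && chkAll n

set_option maxRecDepth 100000 in
theorem chk_all : chkAll 12 = true := by decide +kernel

lemma chkAll_spec : ∀ N : ℕ, chkAll N = true → ∀ n < N, chkN n 12 = true
  | 0, _, n, hn => by omega
  | N + 1, h, n, hn => by
    rw [chkAll, Bool.and_eq_true] at h
    rcases Nat.lt_succ_iff_lt_or_eq.1 hn with h' | h'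
    · exact chkAll_spec N h.2 n h'
    · rw [h']; exact h.1

lemma chkN_spec (n : ℕ) : ∀ K : ℕ, chkN n K = true → ∀ k < K, chkNK n k = true
  | 0, _, k, hk => by omega
  | K + 1, h, k, hk => by
    rw [chkN, Bool.and_eq_true] at h
    rcases Nat.lt_succ_iff_lt_or_eq.1 hk with h' | h'
    · exact chkN_spec n K h.2 k h'
    · rw [h']; exact h.1

lemma chkB_spec (n k : ℕ) (a : ℤ) : ∀ I : ℕ, chkB n k a I = true → ∀ b : ℤ, |b| < I →
    chkAB n k a b = true
  | 0, _, b, hb => by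
    have := abs_nonneg b
    simp at hb
    omega
  | I + 1, h, b, hb => by
    rw [chkB, Bool.and_eq_true, Bool.and_eq_true] at h
    have hb' : |b| < (I : ℤ) ∨ |b| = I := by push_cast at hb; omega
    rcases hb' with h' | h'
    · exact chkB_spec n k a I h.2 b h'
    · rcases (abs_eq (by omega)).1 h' with h'' | h''
      · rw [h'']; exact h.1.1
      · rw [h'']; exact h.1.2

lemma rootB_mod (n k : ℕ) (a b : ℤ) (j : ℕ) : rootB (n % 12) (k % 12) a b j = rootB n k a b j := by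
  unfold rootB
  have h1 : ∀ m : ℕ, (m % 12) * j % 12 = m * j % 12 := by
    intro m
    rw [Nat.mod_mul_mod]
  rw [h1, h1]

lemma cntB_mod (n k : ℕ) (a b : ℤ) : cntB (n % 12) (k % 12) a b = cntB n k a b := by
  unfold cntB
  simp only [rootB_mod]

lemma cntB_le {n k : ℕ} (hk : k.Coprime n) {a b : ℤ} (ha : 2 ≤ |a|) (ha4 : |a| ≤ 4)
    (hb : |b| ≤ 9) : cntB n k a b ≤ 6 ∧ (a % 2 = 0 → b % 2 = 1 → cntB n k a b ≤ 4) := by
  have h1 := chkN_spec _ _ (chkAll_spec _ chk_all (n % 12) (Nat.mod_lt _ (by norm_num))) (k % 12)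
    (Nat.mod_lt _ (by norm_num))
  unfold chkNK at h1
  have hg : Nat.gcd (Nat.gcd (n % 12) (k % 12)) 12 = 1 := by
    have d1 : Nat.gcd (Nat.gcd (n % 12) (k % 12)) 12 ∣ Nat.gcd k n := by
      set d := Nat.gcd (Nat.gcd (n % 12) (k % 12)) 12 with hd
      have e1 : d ∣ 12 := Nat.gcd_dvd_right _ _
      have e2 : d ∣ n % 12 := (Nat.gcd_dvd_left _ _).trans (Nat.gcd_dvd_left _ _)
      have e3 : d ∣ k % 12 := (Nat.gcd_dvd_left _ _).trans (Nat.gcd_dvd_right _ _)
      exact Nat.dvd_gcd ((Nat.dvd_mod_iff e1).1 e3) ((Nat.dvd_mod_iff e1).1 e2)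
    rw [hk] at d1
    exact Nat.dvd_one.1 d1
  rw [hg] at h1
  simp only [bne_self_eq_false, Bool.false_or, Bool.and_eq_true] at h1
  obtain ⟨⟨⟨⟨⟨h2, h3⟩, h4⟩, h5⟩, h6⟩, h7⟩ := h1
  have hb' : |b| < ((10:ℕ) : ℤ) := by push_cast; omega
  have hac : a = 2 ∨ a = -2 ∨ a = 3 ∨ a = -3 ∨ a = 4 ∨ a = -4 := by
    rcases abs_cases a with ⟨h, _⟩ | ⟨h, _⟩ <;> omega
  have key : chkAB (n % 12) (k % 12) a b = true := by
    rcases hac with rfl | rfl | rfl | rfl | rfl | rfl
    · exact chkB_spec _ _ _ _ h2 b hb'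
    · exact chkB_spec _ _ _ _ h3 b hb'
    · exact chkB_spec _ _ _ _ h4 b hb'
    · exact chkB_spec _ _ _ _ h5 b hb'
    · exact chkB_spec _ _ _ _ h6 b hb'
    · exact chkB_spec _ _ _ _ h7 b hb'
  unfold chkAB at key
  rw [cntL_eq, cntB_mod] at key
  simp only [Bool.and_eq_true, Bool.or_eq_true, Nat.ble_eq, decide_eq_true_eq] at key
  refine ⟨key.1, ?_⟩
  intro h8 h9
  rcases key.2 with (h | h) | h
  · omega
  · omega
  · exact h

/-- degree of the part with roots of unity -/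
theorem unity_degree {n k : ℕ} (hk0 : 0 < k) (hkn : k < n) (hk : k.Coprime n) (hn : 5 ≤ n) {a b : ℤ}
    (ha : 2 ≤ |a|) (ha4 : |a| ≤ 4) {Φ g : ℤ[X]} (hfg : penta n k a b = Φ * g)
    (hΦ : ∀ z : ℂ, aeval z Φ = 0 → IsUnity z) : Φ.natDegree ≤ cntB n k a b := by
  classical
  set ζ : ℂ := circleMap 0 1 (π / 6) with hζ
  have hprim : IsPrimitiveRoot ζ 12 := by
    have := Complex.isPrimitiveRoot_exp 12 (by norm_num)
    have e : ζ = Complex.exp (2 * π * Complex.I / (12:ℕ)) := by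
      rw [hζ]
      simp only [circleMap, Complex.ofReal_one, one_mul, zero_add]
      congr 1
      push_cast
      ring
    rw [e]; exact this
  have hf0 := penta_ne_zero n k hk0 hkn a b
  have hpow : ∀ j : ℕ, ζ ^ j = circleMap 0 1 (j * (π / 6)) := by
    intro j
    rw [hζ]
    simp only [circleMap, Complex.ofReal_one, one_mul, zero_add]
    rw [← Complex.exp_nat_mul]
    congr 1
    push_cast
    ring
  have hroots : ∀ j : ℕ, aeval (ζ ^ j) (penta n k a b) = 0 → rootB n k a b j = true := by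
    intro j hj
    have h2 := norm_penta n k hkn.le a b (j * (π / 6))
    rw [← hpow, hj, norm_zero] at h2
    have h3 := abs_eq_zero.1 h2.symm
    unfold FF at h3
    have h4 := cos_table (n * j)
    have h5 := cos_table (k * j)
    push_cast at h4 h5
    have h6 : (((rT (n * j % 12) + a * rT (k * j % 12) + b : ℤ)) : ℝ) +
        ((sT (n * j % 12) + a * sT (k * j % 12) : ℤ) : ℝ) * Real.sqrt 3 = 0 := by
      push_cast
      rw [← mul_assoc] at h3
      have e1 : 2 * Real.cos (n * j * (π / 6)) + 2 * a * Real.cos (k * j * (π / 6)) + b = 0 := by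
        rw [← h3]
        ring_nf
      linear_combination e1 - h4 - a * h5
    obtain ⟨h7, h8⟩ := sqrt3_indep h6
    unfold rootB
    rw [Bool.and_eq_true, decide_eq_true_iff, decide_eq_true_iff]
    exact ⟨h7, h8⟩
  set S := (Finset.range 12).filter (fun j => rootB n k a b j = true) with hS
  have hinj : Set.InjOn (fun j : ℕ => ζ ^ j) S := by
    intro i hi j hj hij
    rw [hS, Finset.coe_filter, Set.mem_ofPred_eq, Finset.mem_range] at hi hj
    exact hprim.pow_inj hi.1 hj.1 hij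
  have hmain := natDegree_unity_part hf0 hfg hΦ (S.image (fun j => ζ ^ j))
    (fun z => if z ^ 2 = 1 then 2 else 1) (by
      intro z hz hun
      refine ⟨?_, count_le hk0 hkn hk hn ha ha4 hz hun⟩
      have h12 := root_pow12 hkn hk ha ha4 hz hun
      obtain ⟨i, hi, hzi⟩ := hprim.eq_pow_of_pow_eq_one h12
      rw [Finset.mem_image]
      refine ⟨i, ?_, hzi⟩
      rw [hS, Finset.mem_filter, Finset.mem_range]
      exact ⟨hi, hroots i (by rw [hzi]; exact hz)⟩)
  rw [Finset.sum_image hinj] at hmain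
  refine hmain.trans (le_of_eq ?_)
  unfold cntB
  rw [← hS]
  apply Finset.sum_congr rfl
  intro j hj
  have e : ((ζ ^ j) ^ 2 = 1) ↔ (j % 6 = 0) := by
    rw [← pow_mul, hprim.pow_eq_one_iff_dvd]
    omega
  simp only [e]

end Pool.Agent.H25
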