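import Mathlib
import Pool.Agent.H25.TwoAdic

set_option autoImplicit false

open Polynomial N60ffa576

namespace Pool.Agent.H25

lemma coeff_symm (f : ℤ[X]) (hrec : f.reverse = f ∨ f.reverse = -f) :
    ∃ δ : ℤ, (δ = 1 ∨ δ = -1) ∧ ∀ i ≤ f.natDegree, f.coeff (f.natDegree - i) = δ * f.coeff i := by
  rcases hrec with h | h
  · refine ⟨1, Or.inl rfl, ?_⟩
    intro i hi
    have := congrArg (fun P => P.coeff i) h
    simp only [coeff_reverse, revAt_le hi] at this
    rw [this, one_mul]
  · refine ⟨-1, Or.inr rfl, ?_⟩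
    intro i hi
    have := congrArg (fun P => P.coeff i) h
    simp only [coeff_reverse, revAt_le hi, coeff_neg] at this
    rw [this, neg_one_mul]

/-- The shape of a set of at most four elements that is symmetric under `i ↦ d - i` and contains
`0` and `d`. -/
lemma symm_set (S : Finset ℕ) (d : ℕ) (hd : 0 < d) (h0 : 0 ∈ S) (hdS : d ∈ S)
    (hle : ∀ i ∈ S, i ≤ d) (hsym : ∀ i ∈ S, d - i ∈ S) (hcard : S.card ≤ 4) :
    (∀ i ∈ S, i = 0 ∨ i = d) ∨
    (∃ n, 0 < n ∧ d = 2 * n ∧ n ∈ S ∧ ∀ i ∈ S, i = 0 ∨ i = d ∨ i = n) ∨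
    (∃ a b, 0 < a ∧ a < b ∧ a + b = d ∧ a ∈ S ∧ b ∈ S ∧ ∀ i ∈ S, i = 0 ∨ i = d ∨ i = a ∨ i = b) := by
  classical
  set T := (S.erase 0).erase d with hT
  have hTc : T.card ≤ 2 := by
    have h1 : (S.erase 0).card = S.card - 1 := Finset.card_erase_of_mem h0
    have h2 : d ∈ S.erase 0 := Finset.mem_erase.2 ⟨by omega, hdS⟩
    have h3 : T.card = (S.erase 0).card - 1 := Finset.card_erase_of_mem h2
    omega
  have hmem : ∀ i, i ∈ S → i = 0 ∨ i = d ∨ i ∈ T := by
    intro i hi
    by_cases h1 : i = 0
    · exact Or.inl h1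
    by_cases h2 : i = d
    · exact Or.inr (Or.inl h2)
    · exact Or.inr (Or.inr (Finset.mem_erase.2 ⟨h2, Finset.mem_erase.2 ⟨h1, hi⟩⟩))
  have hTprop : ∀ i ∈ T, i ∈ S ∧ 0 < i ∧ i < d := by
    intro i hi
    rw [hT, Finset.mem_erase, Finset.mem_erase] at hi
    obtain ⟨h1, h2, h3⟩ := hi
    have := hle i h3
    exact ⟨h3, by omega, by omega⟩
  have hTsym : ∀ i ∈ T, d - i ∈ T := by
    intro i hi
    obtain ⟨h1, h2, h3⟩ := hTprop i hi
    rcases hmem (d - i) (hsym i h1) with h | h | h
    · omega
    · omega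
    · exact h
  rcases Nat.lt_or_ge T.card 1 with h | h
  · left
    have : T = ∅ := Finset.card_eq_zero.1 (by omega)
    intro i hi
    rcases hmem i hi with h | h | h
    · exact Or.inl h
    · exact Or.inr h
    · rw [this] at h; simp at h
  rcases Nat.lt_or_ge T.card 2 with h' | h'
  · right; left
    obtain ⟨n, hn⟩ := Finset.card_eq_one.1 (by omega : T.card = 1)
    have hnT : n ∈ T := by rw [hn]; simp
    have h2 := hTsym n hnT
    rw [hn, Finset.mem_singleton] at h2
    obtain ⟨h3, h4, h5⟩ := hTprop n hnT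
    refine ⟨n, h4, by omega, h3, ?_⟩
    intro i hi
    rcases hmem i hi with h | h | h
    · exact Or.inl h
    · exact Or.inr (Or.inl h)
    · rw [hn, Finset.mem_singleton] at h
      exact Or.inr (Or.inr h)
  · right; right
    obtain ⟨x, y, hxy, hT2⟩ := Finset.card_eq_two.1 (by omega : T.card = 2)
    have hx : x ∈ T := by rw [hT2]; simp
    have hy : y ∈ T := by rw [hT2]; simp
    obtain ⟨px1, px2, px3⟩ := hTprop x hx
    obtain ⟨py1, py2, py3⟩ := hTprop y hy
    have sx := hTsym x hx
    have sy := hTsym y hy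
    rw [hT2, Finset.mem_insert, Finset.mem_singleton] at sx sy
    have hsum : x + y = d := by omega
    rcases Nat.lt_or_ge x y with hlt | hge
    · refine ⟨x, y, px2, hlt, hsum, px1, py1, ?_⟩
      intro i hi
      rcases hmem i hi with h | h | h
      · exact Or.inl h
      · exact Or.inr (Or.inl h)
      · rw [hT2, Finset.mem_insert, Finset.mem_singleton] at h
        rcases h with h | h
        · exact Or.inr (Or.inr (Or.inl h))
        · exact Or.inr (Or.inr (Or.inr h))
    · refine ⟨y, x, py2, by omega, by omega, py1, px1, ?_⟩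
      intro i hi
      rcases hmem i hi with h | h | h
      · exact Or.inl h
      · exact Or.inr (Or.inl h)
      · rw [hT2, Finset.mem_insert, Finset.mem_singleton] at h
        rcases h with h | h
        · exact Or.inr (Or.inr (Or.inr h))
        · exact Or.inr (Or.inr (Or.inl h))

lemma exists_of_coeff_dvd (P Q : ℤ[X]) (p : ℤ) (h : ∀ i, p ∣ P.coeff i - Q.coeff i) :
    ∃ g : ℤ[X], P = Q + C p * g := by
  have : C p ∣ P - Q := by
    rw [C_dvd_iff_dvd_coeff]
    intro i
    rw [coeff_sub]
    exact h i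
  obtain ⟨g, hg⟩ := this
  exact ⟨g, by rw [← hg]; ring⟩

lemma C_two : (C 2 : ℤ[X]) = 2 := by simp
lemma C_three : (C 3 : ℤ[X]) = 3 := by simp

/-- From `a^d ≤ (M^e)^d`-type inequalities. -/
lemma root_ineq {x M : ℝ} {d e : ℕ} (hd : 0 < d) (hM : 0 ≤ M)
    (h : x ^ d ≤ M ^ (e * d)) : x ≤ M ^ e := by
  rw [pow_mul] at h
  exact le_of_pow_le_pow_left₀ (by omega) (pow_nonneg hM _) h


/-- The symmetry data of a polynomial `h` whose reverse is `±h`, relative to a prime `p`. -/
lemma symm_data (h : ℤ[X]) (p : ℤ) (hlc : ¬ p ∣ h.leadingCoeff)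
    (hrec : h.reverse = h ∨ h.reverse = -h) :
    ∃ δ : ℤ, (δ = 1 ∨ δ = -1) ∧ (∀ i ≤ h.natDegree, h.coeff (h.natDegree - i) = δ * h.coeff i) ∧
      (∀ i, i ∈ h.support.filter (fun i => ¬ p ∣ h.coeff i) ↔ ¬ p ∣ h.coeff i) ∧
      h.natDegree ∈ h.support.filter (fun i => ¬ p ∣ h.coeff i) ∧
      (∀ i ∈ h.support.filter (fun i => ¬ p ∣ h.coeff i), i ≤ h.natDegree) ∧
      (∀ i ∈ h.support.filter (fun i => ¬ p ∣ h.coeff i), h.natDegree - i ∈
        h.support.filter (fun i => ¬ p ∣ h.coeff i)) ∧
      0 ∈ h.support.filter (fun i => ¬ p ∣ h.coeff i) := by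
  obtain ⟨δ, hδ, hsym⟩ := coeff_symm h hrec
  have hmemS : ∀ i, i ∈ h.support.filter (fun i => ¬ p ∣ h.coeff i) ↔ ¬ p ∣ h.coeff i := by
    intro i
    rw [Finset.mem_filter, mem_support_iff]
    constructor
    · exact fun h => h.2
    · intro h
      refine ⟨?_, h⟩
      intro h0; rw [h0] at h; simp at h
  have hdS : h.natDegree ∈ h.support.filter (fun i => ¬ p ∣ h.coeff i) := by
    rw [hmemS]; exact hlc
  have hleS : ∀ i ∈ h.support.filter (fun i => ¬ p ∣ h.coeff i), i ≤ h.natDegree := by
    intro i hi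
    rw [Finset.mem_filter] at hi
    exact le_natDegree_of_mem_supp i hi.1
  have hsymS : ∀ i ∈ h.support.filter (fun i => ¬ p ∣ h.coeff i), h.natDegree - i ∈
        h.support.filter (fun i => ¬ p ∣ h.coeff i) := by
    intro i hi
    have h1 := hsym i (hleS i hi)
    rw [hmemS] at hi ⊢
    rw [h1]
    rcases hδ with h | h <;> rw [h] <;> simpa using hi
  refine ⟨δ, hδ, hsym, hmemS, hdS, hleS, hsymS, ?_⟩
  have := hsymS _ hdS
  rwa [Nat.sub_self] at this

/-- **Few odd coefficients.** -/
theorem few_odd (f u h : ℤ[X]) (huf : h = u * f) (hd : 0 < h.natDegree)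
    (hlc : |f.leadingCoeff| = 1) (hhlc : ¬ (2 : ℤ) ∣ h.leadingCoeff)
    (hrec : h.reverse = h ∨ h.reverse = -h) (hU : NoUnityRoots f)
    (hcard : (h.support.filter (fun i => ¬ (2 : ℤ) ∣ h.coeff i)).card ≤ 4) :
    (3 / 2 : ℝ) ^ f.natDegree ≤ mahlerMeasureZ f ^ (2 * h.natDegree) := by
  obtain ⟨δ, hδ, hsym, hmemS, hdS, hleS, hsymS, h0S⟩ := symm_data h 2 hhlc hrec
  set d := h.natDegree with hdd
  set S := h.support.filter (fun i => ¬ (2 : ℤ) ∣ h.coeff i) with hS
  have hf0 : f ≠ 0 := by rintro rfl; simp at hlc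
  have hM1 : 1 ≤ mahlerMeasureZ f := one_le_mmZ hf0
  have hpar : ∀ i, i ∉ S → (2 : ℤ) ∣ h.coeff i := by
    intro i hi
    rw [hmemS, not_not] at hi
    exact hi
  rcases symm_set S d hd h0S hdS hleS hsymS hcard with hh | ⟨n, hn, hdn, hnS, hh⟩ |
    ⟨a, b, ha, hab, habd, haS, hbS, hh⟩
  · -- X^d - 1
    obtain ⟨g, hg⟩ := exists_of_coeff_dvd (X ^ d - 1) h 2 (by
      intro i
      rw [coeff_sub, coeff_X_pow, coeff_one]
      by_cases hi : i ∈ S
      · have hi' := (hmemS i).1 hi
        rcases hh i hi with h' | h'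
        · subst h'; simp only [hd.ne, if_false, if_true]; omega
        · rw [h'] at hi' ⊢; simp only [hd.ne', if_false, if_true]; omega
      · have h1 := hpar i hi
        have h2 : i ≠ d := fun h => hi (h ▸ hdS)
        have h3 : i ≠ 0 := fun h => hi (h ▸ h0S)
        simp only [h2, h3, if_false]; omega)
    rw [C_two] at hg
    have key := one_binomial f u g d hd hlc hU (by rw [hg, huf]; ring)
    have h1 : ((3 / 2 : ℝ) ^ f.natDegree) ^ 6 ≤ (mahlerMeasureZ f ^ (2 * d)) ^ 6 := by
      calc ((3 / 2 : ℝ) ^ f.natDegree) ^ 6 = ((3 / 2 : ℝ) ^ 6) ^ f.natDegree := by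
            rw [← pow_mul, ← pow_mul, mul_comm]
        _ ≤ 108 ^ f.natDegree := by gcongr; norm_num
        _ ≤ mahlerMeasureZ f ^ (12 * d) := key
        _ = _ := by ring
    exact le_of_pow_le_pow_left₀ (by norm_num) (by positivity) h1
  · -- X^(2n) + X^n + 1
    obtain ⟨g, hg⟩ := exists_of_coeff_dvd (X ^ (2 * n) + X ^ n + 1) h 2 (by
      intro i
      rw [coeff_add, coeff_add, coeff_X_pow, coeff_X_pow, coeff_one]
      by_cases hi : i ∈ S
      · have hi' := (hmemS i).1 hi
        rcases hh i hi with h' | h' | h'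
        · have e1 : ¬ (i = 2 * n) := by omega
          have e2 : ¬ (i = n) := by omega
          simp only [e1, e2, if_false]
          simp only [h', if_true]
          rw [h'] at hi'
          omega
        · have e1 : i = 2 * n := by omega
          have e2 : ¬ (i = n) := by omega
          have e3 : ¬ (i = 0) := by omega
          simp only [e2, e3, if_false]
          simp only [e1, if_true]
          rw [e1] at hi'
          omega
        · have e1 : ¬ (i = 2 * n) := by omega
          have e3 : ¬ (i = 0) := by omega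
          simp only [e1, e3, if_false]
          simp only [h', if_true]
          rw [h'] at hi'
          omega
      · have h1 := hpar i hi
        have h2 : i ≠ 2 * n := fun h => hi (h ▸ hdn ▸ hdS)
        have h3 : i ≠ 0 := fun h => hi (h ▸ h0S)
        have h4 : i ≠ n := fun h => hi (h ▸ hnS)
        simp only [h2, h3, h4, if_false]; omega)
    rw [C_two] at hg
    have key := one_binomial f ((X ^ n - 1) * u) ((X ^ n - 1) * g) (3 * n) (by omega) hlc hU (by
      have : (X : ℤ[X]) ^ (3 * n) - 1 = (X ^ (2 * n) + X ^ n + 1) * (X ^ n - 1) := by ring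
      rw [this, hg, huf]
      ring)
    have h1 : ((3 / 2 : ℝ) ^ f.natDegree) ^ 9 ≤ (mahlerMeasureZ f ^ (2 * d)) ^ 9 := by
      calc ((3 / 2 : ℝ) ^ f.natDegree) ^ 9 = ((3 / 2 : ℝ) ^ 9) ^ f.natDegree := by
            rw [← pow_mul, ← pow_mul, mul_comm]
        _ ≤ 108 ^ f.natDegree := by gcongr; norm_num
        _ ≤ mahlerMeasureZ f ^ (12 * (3 * n)) := key
        _ = _ := by rw [hdn]; ring
    exact le_of_pow_le_pow_left₀ (by norm_num) (by positivity) h1
  · -- (X^a - 1)(X^b - 1)
    obtain ⟨g, hg⟩ := exists_of_coeff_dvd ((X ^ a - 1) * (X ^ b - 1)) h 2 (by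
      intro i
      have e0 : ((X : ℤ[X]) ^ a - 1) * (X ^ b - 1) = X ^ (a + b) - X ^ a - X ^ b + 1 := by ring
      rw [e0, coeff_add, coeff_sub, coeff_sub, coeff_X_pow, coeff_X_pow, coeff_X_pow,
        coeff_one, habd]
      by_cases hi : i ∈ S
      · have hi' := (hmemS i).1 hi
        rcases hh i hi with h' | h' | h' | h'
        · have e1 : ¬ (i = d) := by omega
          have e2 : ¬ (i = a) := by omega
          have e3 : ¬ (i = b) := by omega
          simp only [e1, e2, e3, if_false]
          simp only [h', if_true]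
          rw [h'] at hi'
          omega
        · have e1 : ¬ (i = 0) := by omega
          have e2 : ¬ (i = a) := by omega
          have e3 : ¬ (i = b) := by omega
          simp only [e1, e2, e3, if_false]
          simp only [h', if_true]
          rw [h'] at hi'
          omega
        · have e1 : ¬ (i = 0) := by omega
          have e2 : ¬ (i = d) := by omega
          have e3 : ¬ (i = b) := by omega
          simp only [e1, e2, e3, if_false]
          simp only [h', if_true]
          rw [h'] at hi'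
          omega
        · have e1 : ¬ (i = 0) := by omega
          have e2 : ¬ (i = d) := by omega
          have e3 : ¬ (i = a) := by omega
          simp only [e1, e2, e3, if_false]
          simp only [h', if_true]
          rw [h'] at hi'
          omega
      · have h1 := hpar i hi
        have h2 : i ≠ d := fun h => hi (h ▸ hdS)
        have h3 : i ≠ 0 := fun h => hi (h ▸ h0S)
        have h4 : i ≠ a := fun h => hi (h ▸ haS)
        have h5 : i ≠ b := fun h => hi (h ▸ hbS)
        simp only [h2, h3, h4, h5, if_false]; omega)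
    rw [C_two] at hg
    have key := two_binomials f u g a b (by omega) (by omega) hlc hU (by rw [hg, huf]; ring)
    rw [habd] at key
    exact key

lemma sign_cases {c : ℤ} (h : ¬ (3 : ℤ) ∣ c) : ∃ ε : ℤ, (ε = 1 ∨ ε = -1) ∧ (3 : ℤ) ∣ c - ε := by
  have : c % 3 = 1 ∨ c % 3 = 2 := by omega
  rcases this with h | h
  · exact ⟨1, Or.inl rfl, by omega⟩
  · exact ⟨-1, Or.inr rfl, by omega⟩

lemma abs_sign {c : ℤ} (h : c = 1 ∨ c = -1) : |c| = 1 := by
  rcases h with h | h <;> rw [h] <;> norm_num

/-- **Few coefficients prime to 3.** -/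
theorem few_three (f u h : ℤ[X]) (huf : h = u * f) (hd : 0 < h.natDegree)
    (hlc : |f.leadingCoeff| = 1) (hhlc : ¬ (3 : ℤ) ∣ h.leadingCoeff)
    (hrec : h.reverse = h ∨ h.reverse = -h) (hU : NoUnityRoots f)
    (hcard : (h.support.filter (fun i => ¬ (3 : ℤ) ∣ h.coeff i)).card ≤ 4) :
    (9 / 4 : ℝ) ^ f.natDegree ≤ mahlerMeasureZ f ^ (3 * h.natDegree) := by
  obtain ⟨δ, hδ, hsym, hmemS, hdS, hleS, hsymS, h0S⟩ := symm_data h 3 hhlc hrec
  obtain ⟨c, hc, hcc⟩ := sign_cases hhlc
  set d := h.natDegree with hdd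
  set S := h.support.filter (fun i => ¬ (3 : ℤ) ∣ h.coeff i) with hS
  have hf0 : f ≠ 0 := by rintro rfl; simp at hlc
  have hM1 : 1 ≤ mahlerMeasureZ f := one_le_mmZ hf0
  have hcd : (3 : ℤ) ∣ h.coeff d - c := hcc
  have h0 : h.coeff 0 = δ * h.coeff d := by
    have := hsym d le_rfl
    rwa [Nat.sub_self] at this
  have hpar : ∀ i, i ∉ S → (3 : ℤ) ∣ h.coeff i := by
    intro i hi
    rw [hmemS, not_not] at hi
    exact hi
  rcases symm_set S d hd h0S hdS hleS hsymS hcard with hh | ⟨n, hn, hdn, hnS, hh⟩ |
    ⟨a, b, ha, hab, habd, haS, hbS, hh⟩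
  · -- X^d + δ
    obtain ⟨g, hg⟩ := exists_of_coeff_dvd (X ^ d - C (-δ)) (C c * h) 3 (by
      intro i
      rw [coeff_sub, coeff_X_pow, coeff_C, coeff_C_mul]
      by_cases hi : i ∈ S
      · rcases hh i hi with h' | h'
        · have e1 : ¬ (i = d) := by omega
          simp only [e1, if_false]
          simp only [h', if_true]
          rw [h0]
          rcases hc with h2 | h2 <;> rcases hδ with h3 | h3 <;> rw [h2, h3] <;>
            rw [h2] at hcd <;> omega
        · have e1 : ¬ (i = 0) := by omega
          simp only [e1, if_false]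
          simp only [h', if_true]
          rcases hc with h2 | h2 <;> rw [h2] <;> rw [h2] at hcd <;> omega
      · have h1 := hpar i hi
        have h2 : i ≠ d := fun h => hi (h ▸ hdS)
        have h3 : i ≠ 0 := fun h => hi (h ▸ h0S)
        simp only [h2, h3, if_false]
        rcases hc with h2 | h2 <;> rw [h2] <;> omega)
    rw [C_three] at hg
    have key := one_binomial3 f (C c * u) g d hd (-δ) (by rw [abs_neg]; exact abs_sign hδ) hlc hU
      (by rw [hg, huf]; ring)
    have h1 : (9 / 4 : ℝ) ^ f.natDegree ≤ mahlerMeasureZ f ^ (3 * d) := by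
      calc (9 / 4 : ℝ) ^ f.natDegree ≤ ((3 / 2 : ℝ) ^ 3) ^ f.natDegree := by gcongr; norm_num
        _ = ((3 / 2 : ℝ) ^ f.natDegree) ^ 3 := by
            rw [← pow_mul, ← pow_mul, mul_comm]
        _ ≤ (mahlerMeasureZ f ^ d) ^ 3 := by gcongr
        _ = _ := by ring
    exact h1
  · -- X^(2n) + a X^n + 1
    obtain ⟨a, ha, haa⟩ := sign_cases ((hmemS n).1 hnS)
    have hn' : h.coeff n = δ * h.coeff n := by
      have := hsym n (by omega)
      rwa [show d - n = n by omega] at this
    have hδ1 : δ = 1 := by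
      rcases hδ with h | h
      · exact h
      · exfalso
        rw [h] at hn'
        have := (hmemS n).1 hnS
        omega
    obtain ⟨g, hg⟩ := exists_of_coeff_dvd ((X ^ n - C (a * c)) ^ 2) (C c * h) 3 (by
      intro i
      have e0 : ((X : ℤ[X]) ^ n - C (a * c)) ^ 2 = X ^ (2 * n) - C (2 * (a * c)) * X ^ n
          + C ((a * c) ^ 2) := by
        simp only [C_mul, C_pow]
        rw [show (C 2 : ℤ[X]) = 2 by simp]
        ring
      have e5 : (a * c) ^ 2 = 1 := by
        rcases ha with h | h <;> rcases hc with h' | h' <;> rw [h, h'] <;> norm_num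
      rw [e0, e5, coeff_add, coeff_sub, coeff_C_mul, coeff_X_pow, coeff_X_pow, coeff_C,
        coeff_C_mul]
      by_cases hi : i ∈ S
      · have hi' := (hmemS i).1 hi
        rcases hh i hi with h' | h' | h'
        · have e1 : ¬ (i = 2 * n) := by omega
          have e2 : ¬ (i = n) := by omega
          simp only [e1, e2, if_false]
          simp only [h', if_true]
          rw [h0, hδ1]
          rcases hc with h2 | h2 <;> rw [h2] <;> rw [h2] at hcd <;> omega
        · have e1 : i = 2 * n := by omega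
          have e2 : ¬ (i = n) := by omega
          have e3 : ¬ (i = 0) := by omega
          simp only [e2, e3, if_false]
          simp only [e1, if_true]
          rw [← hdn]
          rcases hc with h2 | h2 <;> rw [h2] <;> rw [h2] at hcd <;> omega
        · have e1 : ¬ (i = 2 * n) := by omega
          have e3 : ¬ (i = 0) := by omega
          simp only [e1, e3, if_false]
          simp only [h', if_true]
          rcases hc with h2 | h2 <;> rcases ha with h3 | h3 <;> rw [h2, h3] <;>
            rw [h3] at haa <;> omega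
      · have h1 := hpar i hi
        have h2 : i ≠ 2 * n := fun h => hi (h ▸ hdn ▸ hdS)
        have h3 : i ≠ 0 := fun h => hi (h ▸ h0S)
        have h4 : i ≠ n := fun h => hi (h ▸ hnS)
        simp only [h2, h3, h4, if_false]
        rcases hc with h2 | h2 <;> rw [h2] <;> omega)
    rw [C_three] at hg
    have key := sq_binomial3 f (C c * u) g n hn (a * c)
      (by rw [abs_mul, abs_sign ha, abs_sign hc, mul_one]) hlc hU (by rw [hg, huf]; ring)
    calc (9 / 4 : ℝ) ^ f.natDegree ≤ (27 / 4 : ℝ) ^ f.natDegree := by gcongr; norm_num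
        _ ≤ mahlerMeasureZ f ^ (6 * n) := key
        _ = _ := by rw [hdn]; ring
  · -- (X^a + α)(X^b + δα)
    obtain ⟨α, hα, hαα⟩ := sign_cases ((hmemS b).1 hbS)
    have hb' : h.coeff a = δ * h.coeff b := by
      have := hsym b (by omega)
      rwa [show d - b = a by omega] at this
    obtain ⟨g, hg⟩ := exists_of_coeff_dvd ((X ^ a - C (-(α * c))) * (X ^ b - C (-(δ * α * c))))
      (C c * h) 3 (by
      intro i
      have e0 : ((X : ℤ[X]) ^ a - C (-(α * c))) * (X ^ b - C (-(δ * α * c))) = X ^ (a + b)
          + C (δ * α * c) * X ^ a + C (α * c) * X ^ b + C (δ * (α * c) ^ 2) := by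
        simp only [C_mul, C_pow, C_neg]
        ring
      have e5 : (α * c) ^ 2 = 1 := by
        rcases hα with h | h <;> rcases hc with h' | h' <;> rw [h, h'] <;> norm_num
      rw [e0, e5, mul_one, coeff_add, coeff_add, coeff_add, coeff_C_mul, coeff_C_mul, coeff_X_pow,
        coeff_X_pow, coeff_X_pow, coeff_C, coeff_C_mul, habd]
      by_cases hi : i ∈ S
      · rcases hh i hi with h' | h' | h' | h'
        · have e1 : ¬ (i = d) := by omega
          have e2 : ¬ (i = a) := by omega
          have e3 : ¬ (i = b) := by omega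
          simp only [e1, e2, e3, if_false]
          simp only [h', if_true]
          rw [h0]
          rcases hc with h2 | h2 <;> rcases hδ with h3 | h3 <;> rw [h2, h3] <;>
            rw [h2] at hcd <;> omega
        · have e1 : ¬ (i = 0) := by omega
          have e2 : ¬ (i = a) := by omega
          have e3 : ¬ (i = b) := by omega
          simp only [e1, e2, e3, if_false]
          simp only [h', if_true]
          rcases hc with h2 | h2 <;> rw [h2] <;> rw [h2] at hcd <;> omega
        · have e1 : ¬ (i = 0) := by omega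
          have e2 : ¬ (i = d) := by omega
          have e3 : ¬ (i = b) := by omega
          simp only [e1, e2, e3, if_false]
          simp only [h', if_true]
          rw [hb']
          rcases hc with h2 | h2 <;> rcases hδ with h3 | h3 <;> rcases hα with h4 | h4 <;>
            rw [h2, h3, h4] <;> rw [h4] at hαα <;> omega
        · have e1 : ¬ (i = 0) := by omega
          have e2 : ¬ (i = d) := by omega
          have e3 : ¬ (i = a) := by omega
          simp only [e1, e2, e3, if_false]
          simp only [h', if_true]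
          rcases hc with h2 | h2 <;> rcases hα with h4 | h4 <;>
            rw [h2, h4] <;> rw [h4] at hαα <;> omega
      · have h1 := hpar i hi
        have h2 : i ≠ d := fun h => hi (h ▸ hdS)
        have h3 : i ≠ 0 := fun h => hi (h ▸ h0S)
        have h4 : i ≠ a := fun h => hi (h ▸ haS)
        have h5 : i ≠ b := fun h => hi (h ▸ hbS)
        simp only [h2, h3, h4, h5, if_false]
        rcases hc with h2 | h2 <;> rw [h2] <;> omega)
    rw [C_three] at hg
    have key := two_binomials3 f (C c * u) g a b (by omega) (by omega) (-(α * c)) (-(δ * α * c))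
      (by rw [abs_neg, abs_mul, abs_sign hα, abs_sign hc, mul_one])
      (by rw [abs_neg, abs_mul, abs_mul, abs_sign hδ, abs_sign hα, abs_sign hc, mul_one, mul_one])
      hlc hU (by rw [hg, huf]; ring)
    rw [habd] at key
    exact key

end Pool.Agent.H25
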