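import Mathlib
import Pool.Agent.H25.PentaOne

/-!
Finite check for small `n`.
-/

set_option autoImplicit false

open Polynomial N60ffa576

namespace Pool.Agent.H25

/-- coefficients of the pentanomial -/
def pentaL (n k : ℕ) (a b : ℤ) : List ℤ :=
  (1 :: List.replicate (n - k - 1) 0) ++ ((a :: List.replicate (k - 1) 0) ++
    ((b :: List.replicate (k - 1) 0) ++ ((a :: List.replicate (n - k - 1) 0) ++ [1])))

lemma toPoly_append : ∀ l m : List ℤ, toPoly (l ++ m) = toPoly l + X ^ l.length * toPoly m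
  | [], m => by simp [toPoly]
  | a :: l, m => by
    simp only [List.cons_append, toPoly, toPoly_append l m, List.length_cons, pow_succ]
    ring

lemma toPoly_replicate : ∀ m : ℕ, toPoly (List.replicate m 0) = 0
  | 0 => by simp [toPoly]
  | m + 1 => by simp [List.replicate_succ, toPoly, toPoly_replicate m]

lemma toPoly_pentaL {n k : ℕ} (hk0 : 0 < k) (hkn : k < n) (a b : ℤ) :
    toPoly (pentaL n k a b) = penta n k a b := by
  unfold pentaL penta
  rw [toPoly_append, toPoly_append, toPoly_append, toPoly_append]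
  simp only [toPoly, toPoly_replicate, List.length_cons, List.length_replicate]
  rw [show n - k - 1 + 1 = n - k by omega, show k - 1 + 1 = k by omega]
  have h1 : (X : ℤ[X]) ^ (2 * n) = X ^ (n - k) * X ^ k * X ^ k * X ^ (n - k) := by
    rw [← pow_add, ← pow_add, ← pow_add]; congr 1; omega
  have h2 : (X : ℤ[X]) ^ (n + k) = X ^ (n - k) * X ^ k * X ^ k := by
    rw [← pow_add, ← pow_add]; congr 1; omega
  have h3 : (X : ℤ[X]) ^ n = X ^ (n - k) * X ^ k := by
    rw [← pow_add]; congr 1; omega
  rw [h1, h2, h3]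
  simp
  ring

def excList : List (ℕ × ℕ × ℤ × ℤ) :=
  [(2, 1, 1, 1), (3, 1, 1, 1), (3, 2, -1, 1), (4, 3, 1, 1), (6, 1, 1, -1), (7, 4, 1, 1),
   (2, 1, 1, 2)]

def okOne (n k : ℕ) (a b : ℤ) : Bool :=
  decide ((n, k, a, b) ∈ excList) || searchR 8 (pentaL n k a b) 0

/-- one representative of each class under `X ↦ -X` -/
def okCls (B : ℤ) (n k : ℕ) : Bool :=
  (Nat.gcd n k != 1) || (cond (n % 2 == 1) (okOne n k 1 B && okOne n k (-1) B)
    (okOne n k 1 B && okOne n k 1 (-B)))

def okK (B : ℤ) (n : ℕ) : ℕ → Bool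
  | 0 => true
  | k + 1 => okK B n k && (k == 0 || okCls B n k)

def okN (B : ℤ) : ℕ → Bool
  | 0 => true
  | n + 1 => okN B n && okK B n n

set_option maxRecDepth 100000 in
theorem check_one : okN 1 14 = true := by decide +kernel

set_option maxRecDepth 100000 in
theorem check_two : okN 2 5 = true := by decide +kernel

set_option maxRecDepth 100000 in
theorem check_three : okN 3 4 = true := by decide +kernel

lemma okK_spec (B : ℤ) (n : ℕ) : ∀ K : ℕ, okK B n K = true → ∀ k, 0 < k → k < K →
    okCls B n k = true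
  | 0, _, k, _, h => absurd h (Nat.not_lt_zero k)
  | K + 1, h, k, hk, hkK => by
    rw [okK, Bool.and_eq_true, Bool.or_eq_true, beq_iff_eq] at h
    rcases Nat.lt_succ_iff_lt_or_eq.1 hkK with h1 | h1
    · exact okK_spec B n K h.1 k hk h1
    · rw [h1] at hk ⊢
      rcases h.2 with h2 | h2
      · omega
      · exact h2

lemma okN_spec (B : ℤ) : ∀ N : ℕ, okN B N = true → ∀ n k, 0 < k → k < n → n < N →
    okCls B n k = true
  | 0, _, n, _, _, _, h => absurd h (Nat.not_lt_zero n)
  | N + 1, h, n, k, hk, hkn, hnN => by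
    rw [okN, Bool.and_eq_true] at h
    rcases Nat.lt_succ_iff_lt_or_eq.1 hnN with h1 | h1
    · exact okN_spec B N h.1 n k hk hkn h1
    · rw [h1] at hkn ⊢
      exact okK_spec B N N h.2 k hk hkn

end Pool.Agent.H25
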