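import Mathlib
import Pool.Agent.H25.Check

/-!
Lehmer's inequality for pentanomials with `a = ±1`.
-/

set_option autoImplicit false

open Polynomial N60ffa576

namespace Pool.Agent.H25

/-- the conclusion: Mahler measure one or at least `M(L)` -/
def Good (f : ℤ[X]) : Prop :=
  mahlerMeasureZ f = 1 ∨ mahlerMeasureZ lehmerPolynomial ≤ mahlerMeasureZ f

lemma good_of_ge {f : ℤ[X]} (h : 1.1763 ≤ mahlerMeasureZ f) : Good f := by
  right
  have := lehmer_upper
  linarith

lemma mm_X_pow_sub_one (m : ℕ) (hm : 0 < m) : mahlerMeasureZ (X ^ m - 1) = 1 := by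
  have e : (X ^ m - 1 : ℤ[X]) = (X - 1 : ℤ[X]).comp (X ^ m) := by simp
  rw [e, mm_expand _ hm]
  unfold mahlerMeasureZ
  have e2 : (X - 1 : ℤ[X]).map (algebraMap ℤ ℂ) = X - C 1 := by simp
  rw [e2, mahlerMeasure_X_sub_C]
  simp

lemma mm_one_of_mul {f g h : ℤ[X]} (hfg : f * g = h) (hh : mahlerMeasureZ h = 1)
    (hf : f ≠ 0) (hg : g ≠ 0) : mahlerMeasureZ f = 1 := by
  have h1 := one_le_mmZ hf
  have h2 := one_le_mmZ hg
  rw [← hfg, mmZ_mul] at hh
  nlinarith

lemma mm_ge_of_mul {f g h : ℤ[X]} (hfg : f * g = h) (hg : g ≠ 0) :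
    mahlerMeasureZ f ≤ mahlerMeasureZ h := by
  have h2 := one_le_mmZ hg
  have h3 := mmZ_nonneg f
  rw [← hfg, mmZ_mul]
  nlinarith

lemma penta_comp_neg (n k : ℕ) (hkn : k < n) (a b : ℤ) :
    (penta n k a b).comp (-X) = penta n k ((-1) ^ (n + k) * a) ((-1) ^ n * b) := by
  unfold penta
  simp only [add_comp, mul_comp, pow_comp, X_comp, one_comp, C_mul, C_pow, C_neg, C_1, C_comp]
  have h1 : (-X : ℤ[X]) ^ (2 * n) = X ^ (2 * n) := by
    rw [pow_mul, neg_sq, ← pow_mul]
  have h2 : (-X : ℤ[X]) ^ (n + k) = (-1) ^ (n + k) * X ^ (n + k) := by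
    rw [neg_pow]
  have h3 : (-X : ℤ[X]) ^ n = (-1) ^ n * X ^ n := by
    rw [neg_pow]
  have h4 : (-X : ℤ[X]) ^ (n - k) = (-1) ^ (n + k) * X ^ (n - k) := by
    rw [neg_pow]
    congr 1
    have : n + k = (n - k) + 2 * k := by omega
    rw [this, pow_add, pow_mul (-1 : ℤ[X]) 2 k]
    simp
  rw [h1, h2, h3, h4]
  ring

lemma penta_expand (n k g : ℕ) (a b : ℤ) :
    penta (g * n) (g * k) a b = (penta n k a b).comp (X ^ g) := by
  unfold penta
  simp only [add_comp, mul_comp, pow_comp, X_comp, one_comp, C_comp]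
  simp only [← pow_mul]
  have e1 : 2 * (g * n) = g * (2 * n) := by ring
  have e2 : g * n + g * k = g * (n + k) := by ring
  have e3 : g * n - g * k = g * (n - k) := by rw [Nat.mul_sub]
  rw [e1, e2, e3]

lemma exc_good {n k : ℕ} {a b : ℤ} (h : (n, k, a, b) ∈ excList) : Good (penta n k a b) := by
  simp only [excList, List.mem_cons, Prod.mk.injEq, List.not_mem_nil, or_false] at h
  rcases h with ⟨rfl, rfl, rfl, rfl⟩ | ⟨rfl, rfl, rfl, rfl⟩ | ⟨rfl, rfl, rfl, rfl⟩ |
    ⟨rfl, rfl, rfl, rfl⟩ | ⟨rfl, rfl, rfl, rfl⟩ | ⟨rfl, rfl, rfl, rfl⟩ | ⟨rfl, rfl, rfl, rfl⟩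
  · left
    have hm : mahlerMeasureZ (X ^ 5 - 1) = 1 := mm_X_pow_sub_one 5 (by norm_num)
    refine mm_one_of_mul (g := X - 1) (h := X ^ 5 - 1) ?_ hm (penta_ne_zero _ _ (by norm_num) (by norm_num) _ _) ?_
    · unfold penta; simp; ring
    · exact X_sub_C_ne_zero 1
  · left
    have hm : mahlerMeasureZ ((X ^ 5 - 1) * (X ^ 6 - 1)) = 1 := by
      rw [mmZ_mul, mm_X_pow_sub_one 5 (by norm_num), mm_X_pow_sub_one 6 (by norm_num), mul_one]
    refine mm_one_of_mul (g := (X - 1) * ((X ^ 3 - 1) * (X + 1))) (h := (X ^ 5 - 1) * (X ^ 6 - 1))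
      ?_ hm (penta_ne_zero _ _ (by norm_num) (by norm_num) _ _) ?_
    · unfold penta; simp; ring
    · refine mul_ne_zero (X_sub_C_ne_zero 1) (mul_ne_zero (X_pow_sub_C_ne_zero (by norm_num) 1) ?_)
      exact X_add_C_ne_zero 1
  · left
    have hm : mahlerMeasureZ ((X ^ 12 - 1) * (X ^ 6 - 1)) = 1 := by
      rw [mmZ_mul, mm_X_pow_sub_one 12 (by norm_num), mm_X_pow_sub_one 6 (by norm_num), mul_one]
    refine mm_one_of_mul (g := ((X ^ 6 - 1) * ((X ^ 3 - 1) * (X + 1))) * (X ^ 2 + 1))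
      (h := (X ^ 12 - 1) * (X ^ 6 - 1))
      ?_ hm (penta_ne_zero _ _ (by norm_num) (by norm_num) _ _) ?_
    · unfold penta; simp; ring
    · refine mul_ne_zero (mul_ne_zero (X_pow_sub_C_ne_zero (by norm_num) 1)
        (mul_ne_zero (X_pow_sub_C_ne_zero (by norm_num) 1) ?_)) ?_
      · exact X_add_C_ne_zero 1
      · exact X_pow_add_C_ne_zero (by norm_num) 1
  · left
    have hm : mahlerMeasureZ ((X ^ 5 - 1) * (X ^ 12 - 1)) = 1 := by
      rw [mmZ_mul, mm_X_pow_sub_one 5 (by norm_num), mm_X_pow_sub_one 12 (by norm_num), mul_one]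
    refine mm_one_of_mul (g := (X - 1) * ((X ^ 6 - 1) * (X ^ 2 + 1)))
      (h := (X ^ 5 - 1) * (X ^ 12 - 1))
      ?_ hm (penta_ne_zero _ _ (by norm_num) (by norm_num) _ _) ?_
    · unfold penta; simp; ring
    · refine mul_ne_zero (X_sub_C_ne_zero 1) (mul_ne_zero (X_pow_sub_C_ne_zero (by norm_num) 1) ?_)
      exact X_pow_add_C_ne_zero (by norm_num) 1
  · right
    rw [← mm_neg lehmerPolynomial]
    refine mm_ge_of_mul (g := X ^ 2 + X + 1) ?_ ?_
    · unfold penta lehmerPolynomial; simp; ring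
    · intro h; have := congrArg (fun p => p.coeff 0) h; simp at this
  · right
    rw [← mm_neg lehmerPolynomial]
    refine mm_ge_of_mul (g := X ^ 4 + X ^ 3 + X ^ 2 + X + 1) ?_ ?_
    · unfold penta lehmerPolynomial; simp; ring
    · intro h; have := congrArg (fun p => p.coeff 0) h; simp at this
  · left
    have hm : mahlerMeasureZ ((X ^ 3 - 1) * (X ^ 4 - 1)) = 1 := by
      rw [mmZ_mul, mm_X_pow_sub_one 3 (by norm_num), mm_X_pow_sub_one 4 (by norm_num), mul_one]
    refine mm_one_of_mul (g := (X - 1) * (X ^ 2 - 1)) (h := (X ^ 3 - 1) * (X ^ 4 - 1))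
      ?_ hm (penta_ne_zero _ _ (by norm_num) (by norm_num) _ _) ?_
    · unfold penta; simp; ring
    · exact mul_ne_zero (X_sub_C_ne_zero 1) (X_pow_sub_C_ne_zero (by norm_num) 1)

lemma okOne_good {n k : ℕ} (hk0 : 0 < k) (hkn : k < n) {a b : ℤ} (h : okOne n k a b = true) :
    Good (penta n k a b) := by
  unfold okOne at h
  rw [Bool.or_eq_true, decide_eq_true_iff] at h
  rcases h with h | h
  · exact exc_good h
  · have := cert_sound 8 _ h
    rw [toPoly_pentaL hk0 hkn] at this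
    exact good_of_ge this

lemma okCls_good {B : ℤ} {n k : ℕ} (hk0 : 0 < k) (hkn : k < n) (hk : k.Coprime n)
    (h : okCls B n k = true) (a b : ℤ) (ha : a = 1 ∨ a = -1) (hb : b = B ∨ b = -B) :
    Good (penta n k a b) := by
  unfold okCls at h
  rw [Nat.coprime_comm] at hk
  have hg : n.gcd k = 1 := hk
  rw [hg] at h
  simp only [bne_self_eq_false, Bool.false_or] at h
  have hneg : mahlerMeasureZ (penta n k a b) =
      mahlerMeasureZ (penta n k ((-1) ^ (n + k) * a) ((-1) ^ n * b)) := by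
    rw [← penta_comp_neg n k hkn, mm_neg]
  rcases Nat.even_or_odd n with hn | hn
  · have hn2 : n % 2 = 0 := Nat.even_iff.1 hn
    rw [hn2] at h
    have e0 : ((0:ℕ) == 1) = false := rfl
    simp only [e0, cond_false, Bool.and_eq_true] at h
    have hk2 : Odd (n + k) := by
      have : ¬ Even k := by
        intro hk2
        have : 2 ∣ n.gcd k := Nat.dvd_gcd hn.two_dvd hk2.two_dvd
        rw [hg] at this; norm_num at this
      rw [Nat.not_even_iff_odd] at this
      exact hn.add_odd this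
    have g1 := okOne_good hk0 hkn h.1
    have g2 := okOne_good hk0 hkn h.2
    rcases ha with rfl | rfl
    · rcases hb with rfl | rfl
      · exact g1
      · exact g2
    · rw [hk2.neg_one_pow, hn.neg_one_pow, one_mul, neg_one_mul, neg_neg] at hneg
      unfold Good
      rw [hneg]
      rcases hb with rfl | rfl
      · exact g1
      · exact g2
  · have hn2 : n % 2 = 1 := Nat.odd_iff.1 hn
    rw [hn2] at h
    simp only [beq_self_eq_true, cond_true, Bool.and_eq_true] at h
    have g1 := okOne_good hk0 hkn h.1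
    have g2 := okOne_good hk0 hkn h.2
    rcases hb with rfl | rfl
    · rcases ha with rfl | rfl
      · exact g1
      · exact g2
    · rw [hn.neg_one_pow, neg_one_mul, neg_neg] at hneg
      unfold Good
      rw [hneg]
      have : (-1) ^ (n + k) * a = 1 ∨ (-1) ^ (n + k) * a = -1 := by
        rcases neg_one_pow_eq_or ℤ (n + k) with h | h <;> rcases ha with h' | h' <;>
          rw [h, h'] <;> norm_num
      rcases this with h' | h' <;> rw [h']
      · exact g1
      · exact g2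

theorem penta_a1_coprime {n k : ℕ} (hk0 : 0 < k) (hkn : k < n) (hk : k.Coprime n)
    (a b : ℤ) (ha : a = 1 ∨ a = -1) (hb : b ≠ 0) : Good (penta n k a b) := by
  have ha0 : a ≠ 0 := by rcases ha with h | h <;> rw [h] <;> norm_num
  have haabs : |a| = 1 := by rcases ha with h | h <;> rw [h] <;> norm_num
  have hpos : 0 < mahlerMeasureZ (penta n k a b) := mmZ_pos (penta_ne_zero n k hk0 hkn a b)
  have hb1 : 1 ≤ |b| := Int.one_le_abs hb
  rcases le_or_gt 4 |b| with h4 | h4
  · have := penta_pos n k hk0 hkn a b ha0 (by rw [haabs]; omega)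
    exact good_of_ge (by linarith)
  have hcases : |b| = 1 ∨ |b| = 2 ∨ |b| = 3 := by omega
  rcases hcases with h | h | h
  · rcases le_or_gt 14 n with hn | hn
    · exact good_of_ge (mm_of_log hpos (penta_b1 hk0 hkn hk hn a b ha h))
    · exact okCls_good hk0 hkn hk (okN_spec 1 14 check_one n k hk0 hkn hn) a b ha
        ((abs_eq (by norm_num)).1 h)
  · rcases le_or_gt 5 n with hn | hn
    · exact good_of_ge (mm_of_log hpos (penta_b2 hk0 hkn hk hn a b ha h))
    · exact okCls_good hk0 hkn hk (okN_spec 2 5 check_two n k hk0 hkn hn) a b ha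
        ((abs_eq (by norm_num)).1 h)
  · rcases le_or_gt 4 n with hn | hn
    · exact good_of_ge (mm_of_log hpos (penta_b3 hk0 hkn hk hn a b ha h))
    · exact okCls_good hk0 hkn hk (okN_spec 3 4 check_three n k hk0 hkn hn) a b ha
        ((abs_eq (by norm_num)).1 h)

/-- reduction to coprime exponents -/
theorem good_of_coprime (a b : ℤ)
    (H : ∀ n k : ℕ, 0 < k → k < n → k.Coprime n → Good (penta n k a b))
    {n k : ℕ} (hk0 : 0 < k) (hkn : k < n) : Good (penta n k a b) := by
  set g := k.gcd n with hg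
  have hgpos : 0 < g := Nat.gcd_pos_of_pos_left _ hk0
  obtain ⟨k', hk'⟩ : g ∣ k := Nat.gcd_dvd_left _ _
  obtain ⟨n', hn'⟩ : g ∣ n := Nat.gcd_dvd_right _ _
  have hcop : k'.Coprime n' := by
    have := Nat.coprime_div_gcd_div_gcd (m := k) (n := n) hgpos
    rw [← hg] at this
    have e1 : k / g = k' := by
      conv_lhs => rw [hk']
      exact Nat.mul_div_cancel_left k' hgpos
    have e2 : n / g = n' := by
      conv_lhs => rw [hn']
      exact Nat.mul_div_cancel_left n' hgpos
    rwa [e1, e2] at this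
  have hk'0 : 0 < k' := by
    rcases Nat.eq_zero_or_pos k' with h | h
    · rw [h, mul_zero] at hk'; omega
    · exact h
  have hk'n : k' < n' := by
    have : g * k' < g * n' := by rw [← hk', ← hn']; exact hkn
    exact lt_of_mul_lt_mul_left this (Nat.zero_le g)
  have h1 := H n' k' hk'0 hk'n hcop
  have h2 : mahlerMeasureZ (penta n k a b) = mahlerMeasureZ (penta n' k' a b) := by
    rw [hn', hk', penta_expand n' k' g, mm_expand _ hgpos]
  unfold Good
  rw [h2]
  exact h1

theorem penta_a1 {n k : ℕ} (hk0 : 0 < k) (hkn : k < n)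
    (a b : ℤ) (ha : a = 1 ∨ a = -1) (hb : b ≠ 0) : Good (penta n k a b) :=
  good_of_coprime a b (fun _ _ h1 h2 h3 => penta_a1_coprime h1 h2 h3 a b ha hb) hk0 hkn

end Pool.Agent.H25
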