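import Mathlib
import Pool.Agent.H25.Count
import Pool.Agent.H25.PentaA1
import Pool.Agent.H25.Few

/-!
Lehmer's inequality for pentanomials with `2 ≤ |a| ≤ 4`, `n ≥ 6`.
-/

set_option autoImplicit false

open Polynomial N60ffa576

namespace Pool.Agent.H25

lemma penta_natDegree (n k : ℕ) (hk0 : 0 < k) (hkn : k < n) (a b : ℤ) :
    (penta n k a b).natDegree = 2 * n ∧ (penta n k a b).leadingCoeff = 1 := by
  have h1 : (penta n k a b).coeff (2 * n) = 1 := by
    unfold penta
    simp only [coeff_add, coeff_C_mul, coeff_X_pow, coeff_one]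
    have e2 : ¬ (2 * n = n + k) := by omega
    have e3 : ¬ (2 * n = n) := by omega
    have e4 : ¬ (2 * n = n - k) := by omega
    have e5 : ¬ (2 * n = 0) := by omega
    have e6 : ¬ (n = 0) := by omega
    simp [e2, e3, e4, e5, e6]
  have h2 : (penta n k a b).natDegree ≤ 2 * n := by
    rw [natDegree_le_iff_coeff_eq_zero]
    intro i hi
    unfold penta
    simp only [coeff_add, coeff_C_mul, coeff_X_pow, coeff_one]
    have e1 : ¬ (i = 2 * n) := by omega
    have e2 : ¬ (i = n + k) := by omega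
    have e3 : ¬ (i = n) := by omega
    have e4 : ¬ (i = n - k) := by omega
    have e5 : ¬ (i = 0) := by omega
    simp [e1, e2, e3, e4, e5]
  have h3 : (penta n k a b).natDegree = 2 * n :=
    le_antisymm h2 (le_natDegree_of_ne_zero (by rw [h1]; norm_num))
  exact ⟨h3, by rw [leadingCoeff, h3, h1]⟩

/-- if `A^(2n-c) ≤ M^(e n)` for `n ≥ 6` -/
lemma num_aux {A M : ℝ} {n c e d : ℕ} (hn : 6 ≤ n) (hA : 1 ≤ A) (hM : 0 ≤ M)
    (hd : 2 * n ≤ d + c) (hc : c ≤ 12) (he : 0 < e)
    (h : A ^ d ≤ M ^ (e * n)) (h1 : (1.1763:ℝ) ^ (e * 6) ≤ A ^ (12 - c))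
    (h2 : (1.1763:ℝ) ^ e ≤ A ^ 2) : 1.1763 ≤ M := by
  by_contra hlt
  push Not at hlt
  obtain ⟨m, rfl⟩ : ∃ m, n = 6 + m := ⟨n - 6, by omega⟩
  have h3 : M ^ (e * (6 + m)) < 1.1763 ^ (e * (6 + m)) :=
    pow_lt_pow_left₀ hlt hM (by positivity)
  have h4 : (1.1763:ℝ) ^ (e * (6 + m)) ≤ A ^ (12 - c + 2 * m) := by
    rw [mul_add, pow_add, pow_add, pow_mul 1.1763 e m, pow_mul A 2 m]
    apply mul_le_mul h1 (pow_le_pow_left₀ (by positivity) h2 m) (by positivity) (by positivity)
  have h5 : A ^ (12 - c + 2 * m) ≤ A ^ d := pow_le_pow_right₀ hA (by omega)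
  linarith

theorem penta_mid {n k : ℕ} (hk0 : 0 < k) (hkn : k < n) (hk : k.Coprime n) (hn : 6 ≤ n) {a b : ℤ}
    (ha : 2 ≤ |a|) (ha4 : |a| ≤ 4) (hb : |b| ≤ 9) : 1.1763 ≤ mahlerMeasureZ (penta n k a b) := by
  set f := penta n k a b with hf
  have hf0 : f ≠ 0 := penta_ne_zero n k hk0 hkn a b
  obtain ⟨hdeg, hlc⟩ := penta_natDegree n k hk0 hkn a b
  rw [← hf] at hdeg hlc
  obtain ⟨Φ, g, hfg, hΦ, hg⟩ := factor_unity _ f le_rfl hf0
  have hΦ0 : Φ ≠ 0 := by rintro rfl; rw [zero_mul] at hfg; exact hf0 hfg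
  have hg0 : g ≠ 0 := by rintro rfl; rw [mul_zero] at hfg; exact hf0 hfg
  have hcnt := unity_degree hk0 hkn hk (by omega) ha ha4 hfg hΦ
  obtain ⟨hc6, hc4⟩ := cntB_le hk ha ha4 hb
  have hdeg2 : Φ.natDegree + g.natDegree = 2 * n := by
    rw [← natDegree_mul hΦ0 hg0, ← hfg, hdeg]
  have hglc : |g.leadingCoeff| = 1 := by
    have h1 : Φ.leadingCoeff * g.leadingCoeff = 1 := by
      rw [← leadingCoeff_mul, ← hfg, hlc]
    have h2 : g.leadingCoeff ∣ 1 := ⟨Φ.leadingCoeff, by rw [mul_comm]; exact h1.symm⟩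
    have h3 := Int.isUnit_iff_abs_eq.1 (isUnit_of_dvd_one h2)
    exact h3
  have hle : mahlerMeasureZ g ≤ mahlerMeasureZ f := by
    rw [hfg, mmZ_mul]
    have h1 := one_le_mmZ hΦ0
    have h2 := mmZ_nonneg g
    nlinarith
  refine le_trans ?_ hle
  have hM := mmZ_nonneg g
  have habs : (a % 2 = 0) ∨ |a| = 3 := by
    rcases abs_cases a with ⟨h, _⟩ | ⟨h, _⟩ <;> omega
  rcases habs with h2 | h3
  · obtain ⟨a', ha'⟩ : ∃ a', a = 2 * a' := ⟨a / 2, by omega⟩
    rcases Int.emod_two_eq_zero_or_one b with hb2 | hb2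
    · -- both even
      obtain ⟨b', hb'⟩ : ∃ b', b = 2 * b' := ⟨b / 2, by omega⟩
      have key := one_binomial g Φ (-(C a' * X ^ (n + k) + C b' * X ^ n + C a' * X ^ (n - k) + 1))
        (2 * n) (by omega) hglc hg (by
          rw [mul_comm g Φ, ← hfg, hf]
          unfold penta
          rw [ha', hb', C_mul, C_mul, C_two]
          ring)
      refine num_aux (A := 108) (c := 6) (e := 24) hn (by norm_num) hM (by omega) (by norm_num) (by norm_num)
        (d := g.natDegree) ?_ (by norm_num) (by norm_num)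
      rw [show 24 * n = 12 * (2 * n) by ring]
      exact key
    · obtain ⟨b', hb'⟩ : ∃ b', b = 2 * b' + 1 := ⟨b / 2, by omega⟩
      have key := one_binomial g (Φ * (X ^ n - 1))
        (-((C a' * X ^ (n + k) + C b' * X ^ n + C a' * X ^ (n - k)) * (X ^ n - 1)))
        (3 * n) (by omega) hglc hg (by
          rw [show g * (Φ * (X ^ n - 1)) = Φ * g * (X ^ n - 1) by ring, ← hfg, hf]
          unfold penta
          rw [ha', hb', C_mul, C_add, C_mul, C_two, C_1]
          ring)
      refine num_aux (A := 108) (c := 4) (e := 36) hn (by norm_num) hM (by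
          have := hc4 h2 hb2; omega) (by norm_num) (by norm_num)
        (d := g.natDegree) ?_ (by norm_num) (by norm_num)
      rw [show 36 * n = 12 * (3 * n) by ring]
      exact key
  · obtain ⟨a', ha'⟩ : ∃ a', a = 3 * a' := by
      rcases abs_cases a with ⟨h, _⟩ | ⟨h, _⟩
      · exact ⟨1, by omega⟩
      · exact ⟨-1, by omega⟩
    have h3' : b % 3 = 0 ∨ b % 3 = 1 ∨ b % 3 = 2 := by omega
    have hsq : ∀ s b' : ℤ, |s| = 1 → b = 3 * b' + s → 1.1763 ≤ mahlerMeasureZ g := by
      intro s b' hs hb'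
      have hss : s ^ 2 = 1 := by rw [← sq_abs, hs]; norm_num
      have key := sq_binomial3 g Φ
        (-(C a' * X ^ (n + k) + (C b' + C s) * X ^ n + C a' * X ^ (n - k)))
        n (by omega) s hs hglc hg (by
          rw [mul_comm g Φ, ← hfg, hf]
          unfold penta
          have hCs : (C s : ℤ[X]) ^ 2 = 1 := by rw [← C_pow, hss, C_1]
          rw [ha', hb', C_mul, C_add, C_mul, C_three]
          linear_combination hCs)
      refine num_aux (A := 27 / 4) (c := 6) (e := 6) hn (by norm_num) hM (by omega) (by norm_num) (by norm_num)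
        (d := g.natDegree) key (by norm_num) (by norm_num)
    rcases h3' with h | h | h
    · obtain ⟨b', hb'⟩ : ∃ b', b = 3 * b' := ⟨b / 3, by omega⟩
      have key := one_binomial3 g Φ
        (-(C a' * X ^ (n + k) + C b' * X ^ n + C a' * X ^ (n - k)))
        (2 * n) (by omega) (-1) (by norm_num) hglc hg (by
          rw [mul_comm g Φ, ← hfg, hf]
          unfold penta
          rw [ha', hb', C_mul, C_mul, C_three, C_neg, C_1]
          ring)
      exact num_aux (A := 3 / 2) (c := 6) (e := 2) hn (by norm_num) hM (by omega) (by norm_num) (by norm_num)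
        (d := g.natDegree) key (by norm_num) (by norm_num)
    · exact hsq 1 (b / 3) (by norm_num) (by omega)
    · exact hsq (-1) (b / 3 + 1) (by norm_num) (by omega)

end Pool.Agent.H25
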