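import Mathlib
import Pool.Agent.H25.PentaMid

/-!
Finite check for `2 ≤ |a| ≤ 4` and `n ≤ 5`; all reciprocal pentanomials.
-/

set_option autoImplicit false

open Polynomial N60ffa576

namespace Pool.Agent.H25

def cycC (l : List ℤ) : Bool :=
  decide (graeffe (graeffe (graeffe (graeffe l))) = graeffe (graeffe (graeffe l)))

lemma cycC_sound (l : List ℤ) (hl : toPoly l ≠ 0) (h : cycC l = true) :
    mahlerMeasureZ (toPoly l) = 1 := by
  unfold cycC at h
  rw [decide_eq_true_iff] at h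
  have h1 := congrArg (fun l => mahlerMeasureZ (toPoly l)) h
  simp only [mm_graeffe] at h1
  have hpos := mmZ_pos hl
  have hge := one_le_mmZ hl
  set M := mahlerMeasureZ (toPoly l) with hM
  have h2 : M ^ 8 = 1 := by
    have h3 : M ^ 8 * M ^ 8 = M ^ 8 * 1 := by
      rw [mul_one]
      calc M ^ 8 * M ^ 8 = (((M ^ 2) ^ 2) ^ 2) ^ 2 := by ring
        _ = ((M ^ 2) ^ 2) ^ 2 := h1
        _ = M ^ 8 := by ring
    exact mul_left_cancel₀ (by positivity) h3
  exact (pow_eq_one_iff_of_nonneg hpos.le (by norm_num)).1 h2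

def okM (l : List ℤ) : Bool := searchR 4 l 0 || cycC l

lemma okM_good {l : List ℤ} {f : ℤ[X]} (hl : toPoly l = f) (hf : f ≠ 0) (h : okM l = true) :
    Good f := by
  rw [okM, Bool.or_eq_true] at h
  subst hl
  rcases h with h | h
  · exact good_of_ge (cert_sound _ _ h)
  · exact Or.inl (cycC_sound _ hf h)

def okMB (n k : ℕ) (a : ℤ) : ℕ → Bool
  | 0 => true
  | i + 1 => okM (pentaL n k a i) && okM (pentaL n k a (-(i:ℤ))) && okMB n k a i

def okMA (n k : ℕ) : Bool :=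
  okMB n k 2 6 && okMB n k (-2) 6 && okMB n k 3 8 && okMB n k (-3) 8 && okMB n k 4 10 &&
    okMB n k (-4) 10

set_option maxRecDepth 100000 in
theorem okMA_2_1 : okMA 2 1 = true := by decide +kernel
set_option maxRecDepth 100000 in
theorem okMA_3_1 : okMA 3 1 = true := by decide +kernel
set_option maxRecDepth 100000 in
theorem okMA_3_2 : okMA 3 2 = true := by decide +kernel
set_option maxRecDepth 100000 in
theorem okMA_4_1 : okMA 4 1 = true := by decide +kernel
set_option maxRecDepth 100000 in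
theorem okMA_4_3 : okMA 4 3 = true := by decide +kernel
set_option maxRecDepth 100000 in
theorem okMA_5_1 : okMA 5 1 = true := by decide +kernel
set_option maxRecDepth 100000 in
theorem okMA_5_2 : okMA 5 2 = true := by decide +kernel
set_option maxRecDepth 100000 in
theorem okMA_5_3 : okMA 5 3 = true := by decide +kernel
set_option maxRecDepth 100000 in
theorem okMA_5_4 : okMA 5 4 = true := by decide +kernel

lemma okMB_spec {n k : ℕ} (hk0 : 0 < k) (hkn : k < n) (a : ℤ) : ∀ I : ℕ, okMB n k a I = true →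
    ∀ b : ℤ, |b| < I → Good (penta n k a b)
  | 0, _, b, hb => by
    have := abs_nonneg b
    simp at hb
    omega
  | I + 1, h, b, hb => by
    rw [okMB, Bool.and_eq_true, Bool.and_eq_true] at h
    have hb' : |b| < (I : ℤ) ∨ |b| = I := by push_cast at hb; omega
    rcases hb' with h' | h'
    · exact okMB_spec hk0 hkn a I h.2 b h'
    · rcases (abs_eq (by omega)).1 h' with h'' | h''
      · rw [h'']
        exact okM_good (toPoly_pentaL hk0 hkn a _) (penta_ne_zero n k hk0 hkn a _) h.1.1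
      · rw [h'']
        exact okM_good (toPoly_pentaL hk0 hkn a _) (penta_ne_zero n k hk0 hkn a _) h.1.2

lemma okMA_spec {n k : ℕ} (hk0 : 0 < k) (hkn : k < n) (h : okMA n k = true) {a b : ℤ}
    (ha : 2 ≤ |a|) (ha4 : |a| ≤ 4) (hb : |b| ≤ 2 * |a| + 1) : Good (penta n k a b) := by
  unfold okMA at h
  simp only [Bool.and_eq_true] at h
  obtain ⟨⟨⟨⟨⟨h2, h3⟩, h4⟩, h5⟩, h6⟩, h7⟩ := h
  have hac : a = 2 ∨ a = -2 ∨ a = 3 ∨ a = -3 ∨ a = 4 ∨ a = -4 := by
    rcases abs_cases a with ⟨h, _⟩ | ⟨h, _⟩ <;> omega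
  rcases hac with rfl | rfl | rfl | rfl | rfl | rfl
  · exact okMB_spec hk0 hkn _ _ h2 b (by norm_num at hb ⊢; omega)
  · exact okMB_spec hk0 hkn _ _ h3 b (by norm_num at hb ⊢; omega)
  · exact okMB_spec hk0 hkn _ _ h4 b (by norm_num at hb ⊢; omega)
  · exact okMB_spec hk0 hkn _ _ h5 b (by norm_num at hb ⊢; omega)
  · exact okMB_spec hk0 hkn _ _ h6 b (by norm_num at hb ⊢; omega)
  · exact okMB_spec hk0 hkn _ _ h7 b (by norm_num at hb ⊢; omega)

theorem penta_mid_all {n k : ℕ} (hk0 : 0 < k) (hkn : k < n) (hk : k.Coprime n) {a b : ℤ}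
    (ha : 2 ≤ |a|) (ha4 : |a| ≤ 4) (hb : |b| ≤ 2 * |a| + 1) : Good (penta n k a b) := by
  rcases le_or_gt 6 n with hn | hn
  · exact good_of_ge (penta_mid hk0 hkn hk hn ha ha4 (by omega))
  · have hcases : (n = 2 ∧ k = 1) ∨ (n = 3 ∧ k = 1) ∨ (n = 3 ∧ k = 2) ∨ (n = 4 ∧ k = 1) ∨
        (n = 4 ∧ k = 2) ∨ (n = 4 ∧ k = 3) ∨ (n = 5 ∧ k = 1) ∨ (n = 5 ∧ k = 2) ∨
        (n = 5 ∧ k = 3) ∨ (n = 5 ∧ k = 4) := by omega
    have h21 := @okMA_spec 2 1 (by norm_num) (by norm_num) okMA_2_1 a b ha ha4 hb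
    have h31 := @okMA_spec 3 1 (by norm_num) (by norm_num) okMA_3_1 a b ha ha4 hb
    have h32 := @okMA_spec 3 2 (by norm_num) (by norm_num) okMA_3_2 a b ha ha4 hb
    have h41 := @okMA_spec 4 1 (by norm_num) (by norm_num) okMA_4_1 a b ha ha4 hb
    have h43 := @okMA_spec 4 3 (by norm_num) (by norm_num) okMA_4_3 a b ha ha4 hb
    have h51 := @okMA_spec 5 1 (by norm_num) (by norm_num) okMA_5_1 a b ha ha4 hb
    have h52 := @okMA_spec 5 2 (by norm_num) (by norm_num) okMA_5_2 a b ha ha4 hb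
    have h53 := @okMA_spec 5 3 (by norm_num) (by norm_num) okMA_5_3 a b ha ha4 hb
    have h54 := @okMA_spec 5 4 (by norm_num) (by norm_num) okMA_5_4 a b ha ha4 hb
    rcases hcases with ⟨h1, h2⟩ | ⟨h1, h2⟩ | ⟨h1, h2⟩ | ⟨h1, h2⟩ | ⟨h1, h2⟩ | ⟨h1, h2⟩ |
      ⟨h1, h2⟩ | ⟨h1, h2⟩ | ⟨h1, h2⟩ | ⟨h1, h2⟩
    · rw [h1, h2]; exact h21
    · rw [h1, h2]; exact h31
    · rw [h1, h2]; exact h32
    · rw [h1, h2]; exact h41
    · rw [h1, h2] at hk; norm_num at hk
    · rw [h1, h2]; exact h43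
    · rw [h1, h2]; exact h51
    · rw [h1, h2]; exact h52
    · rw [h1, h2]; exact h53
    · rw [h1, h2]; exact h54

end Pool.Agent.H25
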