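import Mathlib
import Pool.Agent.H25.CheckMid
import Pool.Agent.H25.AV

/-!
All reciprocal polynomials with at most five terms.
-/

set_option autoImplicit false

open Polynomial N60ffa576

namespace Pool.Agent.H25

lemma av_int (N : ℕ) (S : Finset ℕ) (f : ℤ[X]) (hS : S.card = N + 1)
    (hf : ∀ i, i ∉ S → f.coeff i = 0) (i : ℕ) (hi : i ∈ S) :
    |(f.coeff i : ℝ)| ≤ (N.choose (S.filter (· < i)).card : ℝ) * mahlerMeasureZ f := by
  have h := sparse_coeff_le N S (f.map (algebraMap ℤ ℂ)) hS (by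
    intro j hj
    rw [coeff_map, hf j hj, map_zero]) i hi
  rw [coeff_map, algebraMap_int_eq, eq_intCast, Complex.norm_intCast] at h
  exact h

lemma penta_coeffs {n k : ℕ} (hk0 : 0 < k) (hkn : k < n) (a b : ℤ) :
    (penta n k a b).coeff (n - k) = a ∧ ∀ i, i ∉ ({0, n - k, n, n + k, 2 * n} : Finset ℕ) →
      (penta n k a b).coeff i = 0 := by
  constructor
  · unfold penta
    simp only [coeff_add, coeff_C_mul, coeff_X_pow, coeff_one]
    have e1 : ¬ (n - k = 2 * n) := by omega
    have e2 : ¬ (n - k = n + k) := by omega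
    have e3 : ¬ (n - k = n) := by omega
    have e5 : ¬ (n - k = 0) := by omega
    simp [e1, e2, e3, e5]
  · intro i hi
    simp only [Finset.mem_insert, Finset.mem_singleton, not_or] at hi
    obtain ⟨e5, e4, e3, e2, e1⟩ := hi
    unfold penta
    simp only [coeff_add, coeff_C_mul, coeff_X_pow, coeff_one]
    simp [e1, e2, e3, e4, e5]

theorem penta_big {n k : ℕ} (hk0 : 0 < k) (hkn : k < n) (a b : ℤ) (ha : 5 ≤ |a|) :
    1.25 ≤ mahlerMeasureZ (penta n k a b) := by
  obtain ⟨h1, h2⟩ := penta_coeffs hk0 hkn a b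
  have hS : ({0, n - k, n, n + k, 2 * n} : Finset ℕ).card = 4 + 1 := by
    rw [Finset.card_insert_of_notMem, Finset.card_insert_of_notMem, Finset.card_insert_of_notMem,
      Finset.card_insert_of_notMem, Finset.card_singleton]
    all_goals simp only [Finset.mem_insert, Finset.mem_singleton, not_or]; omega
  have h := av_int 4 _ _ hS h2 (n - k) (by simp)
  have hf : ({0, n - k, n, n + k, 2 * n} : Finset ℕ).filter (· < n - k) = {0} := by
    ext i
    simp only [Finset.mem_filter, Finset.mem_insert, Finset.mem_singleton]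
    omega
  rw [hf, h1, Finset.card_singleton] at h
  norm_num at h
  have haR : (5:ℝ) ≤ |(a:ℝ)| := by exact_mod_cast ha
  linarith

lemma penta_zero_one {n k : ℕ} (hk0 : 0 < k) (hkn : k < n) (a : ℤ) (ha : a = 1 ∨ a = -1) :
    mahlerMeasureZ (penta n k a 0) = 1 := by
  have hs : ∀ (m : ℕ) (s : ℤ), 0 < m → (s = 1 ∨ s = -1) → mahlerMeasureZ (X ^ m + C s) = 1 := by
    intro m s hm hs
    rcases hs with rfl | rfl
    · refine mm_one_of_mul (g := X ^ m - 1) (h := X ^ (2 * m) - 1) ?_
        (mm_X_pow_sub_one _ (by omega)) (X_pow_add_C_ne_zero hm 1) (X_pow_sub_C_ne_zero hm 1)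
      rw [C_1]; ring
    · rw [C_neg, C_1, ← sub_eq_add_neg]; exact mm_X_pow_sub_one m hm
  have haa : (C a : ℤ[X]) * C a = 1 := by
    rw [← C_mul]; rcases ha with h | h <;> rw [h] <;> norm_num
  have e : penta n k a 0 = (X ^ (n + k) + C a) * (X ^ (n - k) + C a) := by
    unfold penta
    have h1 : (X : ℤ[X]) ^ (2 * n) = X ^ (n + k) * X ^ (n - k) := by
      rw [← pow_add]; congr 1; omega
    rw [h1, C_0]
    linear_combination -haa
  rw [e, mmZ_mul, hs _ a (by omega) ha, hs _ a (by omega) ha, mul_one]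

theorem penta_all {n k : ℕ} (hk0 : 0 < k) (hkn : k < n) (a b : ℤ) (ha : a ≠ 0) :
    Good (penta n k a b) := by
  have ha1 : 1 ≤ |a| := Int.one_le_abs ha
  rcases eq_or_lt_of_le ha1 with h1 | h1
  · have ha' : a = 1 ∨ a = -1 := (abs_eq (by norm_num)).1 h1.symm
    by_cases hb : b = 0
    · rw [hb]; exact Or.inl (penta_zero_one hk0 hkn a ha')
    · exact penta_a1 hk0 hkn a b ha' hb
  rcases le_or_gt 5 |a| with h5 | h5
  · have := penta_big hk0 hkn a b h5
    exact good_of_ge (by linarith)
  rcases le_or_gt (2 * |a| + 2) |b| with hb | hb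
  · have := penta_pos n k hk0 hkn a b ha hb
    exact good_of_ge (by linarith)
  · exact good_of_coprime a b (fun _ _ g1 g2 g3 => penta_mid_all g1 g2 g3 (by omega) (by omega)
      (by omega)) hk0 hkn

end Pool.Agent.H25
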