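import Mathlib
import Pool.Agent.H25.PentaAll

/-!
Antireciprocal polynomials with four terms.
-/

set_option autoImplicit false

open Polynomial N60ffa576

namespace Pool.Agent.H25

/-- `X^(2n) + a X^(n+k) - a X^(n-k) - 1` -/
noncomputable def pentaS (n k : ℕ) (a : ℤ) : ℤ[X] :=
  X ^ (2 * n) + C a * X ^ (n + k) - C a * X ^ (n - k) - 1

lemma pentaS_expand (n k g : ℕ) (a : ℤ) :
    pentaS (g * n) (g * k) a = (pentaS n k a).comp (X ^ g) := by
  unfold pentaS
  simp only [add_comp, sub_comp, mul_comp, pow_comp, X_comp, one_comp, C_comp]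
  simp only [← pow_mul]
  have e1 : 2 * (g * n) = g * (2 * n) := by ring
  have e2 : g * n + g * k = g * (n + k) := by ring
  have e3 : g * n - g * k = g * (n - k) := by rw [Nat.mul_sub]
  rw [e1, e2, e3]

lemma pentaS_natDegree (n k : ℕ) (hk0 : 0 < k) (hkn : k < n) (a : ℤ) :
    (pentaS n k a).natDegree = 2 * n ∧ (pentaS n k a).leadingCoeff = 1 := by
  have h1 : (pentaS n k a).coeff (2 * n) = 1 := by
    unfold pentaS
    simp only [coeff_add, coeff_sub, coeff_C_mul, coeff_X_pow, coeff_one]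
    have e2 : ¬ (2 * n = n + k) := by omega
    have e4 : ¬ (2 * n = n - k) := by omega
    have e5 : ¬ (2 * n = 0) := by omega
    have e6 : ¬ (n = 0) := by omega
    simp [e2, e4, e6]
  have h2 : (pentaS n k a).natDegree ≤ 2 * n := by
    rw [natDegree_le_iff_coeff_eq_zero]
    intro i hi
    unfold pentaS
    simp only [coeff_add, coeff_sub, coeff_C_mul, coeff_X_pow, coeff_one]
    have e1 : ¬ (i = 2 * n) := by omega
    have e2 : ¬ (i = n + k) := by omega
    have e4 : ¬ (i = n - k) := by omega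
    have e5 : ¬ (i = 0) := by omega
    simp [e1, e2, e4, e5]
  have h3 : (pentaS n k a).natDegree = 2 * n :=
    le_antisymm h2 (le_natDegree_of_ne_zero (by rw [h1]; norm_num))
  exact ⟨h3, by rw [leadingCoeff, h3, h1]⟩

lemma pentaS_ne_zero (n k : ℕ) (hk0 : 0 < k) (hkn : k < n) (a : ℤ) : pentaS n k a ≠ 0 := by
  intro h
  have := (pentaS_natDegree n k hk0 hkn a).2
  rw [h] at this
  simp at this

lemma pentaS_one {n k : ℕ} (hk0 : 0 < k) (hkn : k < n) (a : ℤ) (ha : a = 1 ∨ a = -1) :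
    mahlerMeasureZ (pentaS n k a) = 1 := by
  have hs : ∀ (m : ℕ) (s : ℤ), 0 < m → (s = 1 ∨ s = -1) → mahlerMeasureZ (X ^ m + C s) = 1 := by
    intro m s hm hs
    rcases hs with rfl | rfl
    · refine mm_one_of_mul (g := X ^ m - 1) (h := X ^ (2 * m) - 1) ?_
        (mm_X_pow_sub_one _ (by omega)) (X_pow_add_C_ne_zero hm 1) (X_pow_sub_C_ne_zero hm 1)
      rw [C_1]; ring
    · rw [C_neg, C_1, ← sub_eq_add_neg]; exact mm_X_pow_sub_one m hm
  have haa : (C a : ℤ[X]) * C a = 1 := by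
    rw [← C_mul]; rcases ha with h | h <;> rw [h] <;> norm_num
  have e : pentaS n k a = (X ^ (n + k) + C (-a)) * (X ^ (n - k) + C a) := by
    unfold pentaS
    have h1 : (X : ℤ[X]) ^ (2 * n) = X ^ (n + k) * X ^ (n - k) := by
      rw [← pow_add]; congr 1; omega
    rw [h1, C_neg]
    linear_combination haa
  rw [e, mmZ_mul, hs _ a (by omega) ha, hs _ (-a) (by omega) (by rcases ha with h | h <;> omega),
    mul_one]

lemma pentaS_big {n k : ℕ} (hk0 : 0 < k) (hkn : k < n) (a : ℤ) (ha : 4 ≤ |a|) :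
    1.25 ≤ mahlerMeasureZ (pentaS n k a) := by
  have h1 : (pentaS n k a).coeff (n - k) = -a := by
    unfold pentaS
    simp only [coeff_add, coeff_sub, coeff_C_mul, coeff_X_pow, coeff_one]
    have e1 : ¬ (n - k = 2 * n) := by omega
    have e2 : ¬ (n - k = n + k) := by omega
    have e5 : ¬ (n - k = 0) := by omega
    simp [e1, e2, e5]
  have h2 : ∀ i, i ∉ ({0, n - k, n + k, 2 * n} : Finset ℕ) → (pentaS n k a).coeff i = 0 := by
    intro i hi
    simp only [Finset.mem_insert, Finset.mem_singleton, not_or] at hi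
    obtain ⟨e5, e4, e2, e1⟩ := hi
    unfold pentaS
    simp only [coeff_add, coeff_sub, coeff_C_mul, coeff_X_pow, coeff_one]
    simp [e1, e2, e4, e5]
  have hS : ({0, n - k, n + k, 2 * n} : Finset ℕ).card = 3 + 1 := by
    rw [Finset.card_insert_of_notMem, Finset.card_insert_of_notMem, Finset.card_insert_of_notMem,
      Finset.card_singleton]
    all_goals simp only [Finset.mem_insert, Finset.mem_singleton, not_or]; omega
  have h := av_int 3 _ _ hS h2 (n - k) (by simp)
  have hf : ({0, n - k, n + k, 2 * n} : Finset ℕ).filter (· < n - k) = {0} := by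
    ext i
    simp only [Finset.mem_filter, Finset.mem_insert, Finset.mem_singleton]
    omega
  rw [hf, h1, Finset.card_singleton] at h
  norm_num at h
  have haR : (4:ℝ) ≤ |(a:ℝ)| := by exact_mod_cast ha
  linarith

lemma norm_pentaS (n k : ℕ) (hk : k ≤ n) (a : ℤ) (θ : ℝ) :
    ‖aeval (circleMap 0 1 θ) (pentaS n k a)‖ = |2 * Real.sin (n * θ) + 2 * a * Real.sin (k * θ)| := by
  have hz : circleMap 0 1 θ = Complex.exp (θ * Complex.I) := by simp [circleMap]
  have hsin : ∀ m : ℕ, ((2 * Real.sin (m * θ) : ℝ) : ℂ) * Complex.I =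
      circleMap 0 1 θ ^ m - (circleMap 0 1 θ ^ m)⁻¹ := by
    intro m
    rw [hz, ← Complex.exp_nat_mul, ← Complex.exp_neg]
    push_cast
    rw [Complex.two_sin]
    have e1 : (m:ℂ) * (θ * Complex.I) = (m * θ) * Complex.I := by ring
    rw [e1]
    have hI : Complex.I * Complex.I = -1 := Complex.I_mul_I
    have e2 : -((m:ℂ) * θ) * Complex.I = -((m:ℂ) * θ * Complex.I) := by ring
    rw [e2]
    linear_combination (Complex.exp (-((m:ℂ) * θ * Complex.I)) -
      Complex.exp ((m:ℂ) * θ * Complex.I)) * hI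
  have hz0 := circle_ne_zero θ
  have hn := hsin n
  have hk' := hsin k
  set z := circleMap 0 1 θ with hzdef
  obtain ⟨m, rfl⟩ : ∃ m, n = m + k := ⟨n - k, by omega⟩
  have e : aeval z (pentaS (m + k) k a) =
      z ^ (m + k) * (((2 * Real.sin ((m + k : ℕ) * θ) + 2 * a * Real.sin (k * θ) : ℝ) : ℂ) *
        Complex.I) := by
    unfold pentaS
    rw [Nat.add_sub_cancel]
    simp only [map_add, map_sub, map_mul, map_pow, aeval_X, map_one, eq_intCast, map_intCast]
    have e2 : ((2 * Real.sin ((m + k : ℕ) * θ) + 2 * a * Real.sin (k * θ) : ℝ) : ℂ) * Complex.I =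
        ((2 * Real.sin ((m + k : ℕ) * θ) : ℝ) : ℂ) * Complex.I +
          a * (((2 * Real.sin (k * θ) : ℝ) : ℂ) * Complex.I) := by push_cast; ring
    rw [e2, hn, hk']
    have h3 : z ^ (m + k) * (z ^ (m + k))⁻¹ = 1 := mul_inv_cancel₀ (pow_ne_zero _ hz0)
    have h4 : z ^ k * (z ^ k)⁻¹ = 1 := mul_inv_cancel₀ (pow_ne_zero _ hz0)
    rw [show z ^ (2 * (m + k)) = z ^ (m + k) * z ^ (m + k) by rw [two_mul, pow_add],
      show z ^ (m + k + k) = z ^ (m + k) * z ^ k by rw [pow_add]]
    have h5 : z ^ (m + k) * (z ^ k)⁻¹ = z ^ m := by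
      rw [pow_add, mul_assoc, h4, mul_one]
    linear_combination h3 + (a:ℂ) * h5
  rw [e, norm_mul, norm_pow, hzdef, circle_norm, one_pow, one_mul, norm_mul, Complex.norm_I,
    mul_one, Complex.norm_real, Real.norm_eq_abs]

/-- roots of unity among the roots -/
lemma unity_rootS {n k : ℕ} (hkn : k < n) (hk : k.Coprime n) {a : ℤ}
    (ha : 2 ≤ |a|) {z : ℂ} (hroot : aeval z (pentaS n k a) = 0) (hun : IsUnity z) :
    z ^ 2 = 1 ∨ (|a| = 2 ∧ z ^ 12 = 1 ∧ z ^ (2 * n) = -1 ∧ z ^ (4 * k) - z ^ (2 * k) + 1 = 0) := by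
  have hnorm : ‖z‖ = 1 := by
    obtain ⟨N, hN, hzN⟩ := hun
    exact Complex.norm_eq_one_of_pow_eq_one hzN hN.ne'
  obtain ⟨N', hN', hzN⟩ := hun
  obtain ⟨hpos, hprim, q, hq⟩ := cyc_dvd_of_root hroot hN' hzN
  set m := orderOf z with hm
  -- relation at all conjugates
  have hrel : ∀ w : ℂ, IsPrimitiveRoot w m → ∀ ψ : ℝ, w = circleMap 0 1 ψ →
      Real.sin (n * ψ) = -a * Real.sin (k * ψ) := by
    intro w hw ψ hψ
    have h1 : aeval w (pentaS n k a) = 0 := by
      rw [hq, map_mul, (aeval_cyc_iff hpos w).2 hw, zero_mul]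
    have h2 := norm_pentaS n k hkn.le a ψ
    rw [← hψ, h1, norm_zero] at h2
    have := abs_eq_zero.1 h2.symm
    linear_combination this / 2
  have haR : (2:ℝ) ≤ |(a:ℝ)| := by exact_mod_cast ha
  have hsinb : ∀ w : ℂ, IsPrimitiveRoot w m → ∀ ψ : ℝ, w = circleMap 0 1 ψ →
      Real.sin (k * ψ) ^ 2 ≤ 1 / 4 := by
    intro w hw ψ hψ
    have h1 := hrel w hw ψ hψ
    have h2 : Real.sin (n * ψ) ^ 2 ≤ 1 := Real.sin_sq_le_one _
    rw [h1, mul_pow, neg_sq] at h2
    have h3 : (4:ℝ) ≤ (a:ℝ) ^ 2 := by rw [← sq_abs]; nlinarith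
    nlinarith [sq_nonneg (Real.sin (k * ψ))]
  have hcos2 : ∀ ψ : ℝ, 2 * Real.cos ((2 * k : ℕ) * ψ) = 2 - 4 * Real.sin (k * ψ) ^ 2 := by
    intro ψ
    have h1 := Real.cos_two_mul (k * ψ)
    have h2 := Real.sin_sq_add_cos_sq (k * ψ)
    rw [show ((2 * k : ℕ) : ℝ) * ψ = 2 * (k * ψ) by push_cast; ring]
    linarith
  have hH := small_conj hpos hprim (quad (2 * k) 2 * quad (2 * k) 1) (by
    intro w hw
    have hnw : ‖w‖ = 1 := Complex.norm_eq_one_of_pow_eq_one hw.pow_eq_one hpos.ne'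
    obtain ⟨ψ, hψ⟩ := exists_circleMap hnw
    rw [hψ, map_mul, norm_mul, norm_aeval_quad, norm_aeval_quad, hcos2]
    have h1 := hsinb w hw ψ hψ
    have h2 := sq_nonneg (Real.sin (k * ψ))
    set s := Real.sin (k * ψ) ^ 2 with hs
    push_cast
    rw [← abs_mul, abs_le]
    constructor <;> nlinarith)
  obtain ⟨φ, hφ⟩ := exists_circleMap hnorm
  have hrelz := hrel z hprim φ hφ
  have hquad0 : ∀ (j : ℕ) (c : ℤ), aeval z (quad j c) = 0 → z ^ (2 * j) - c * z ^ j + 1 = 0 := by
    intro j c h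
    unfold quad at h
    simpa [map_add, map_sub, map_mul, map_pow, aeval_X, map_one] using h
  rw [map_mul, mul_eq_zero] at hH
  rcases hH with h | h
  · left
    have h1 := hquad0 _ _ h
    have h2 : z ^ (2 * k) = 1 := by
      have h3 : (z ^ (2 * k) - 1) ^ 2 = 0 := by
        rw [pow_mul z 2 (2 * k), show (z ^ 2) ^ (2 * k) = (z ^ (2 * k)) ^ 2 by
          rw [← pow_mul, ← pow_mul, mul_comm]] at h1
        push_cast at h1
        linear_combination h1
      have := (pow_eq_zero_iff two_ne_zero).1 h3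
      linear_combination this
    have hs0 : Real.sin (k * φ) ^ 2 = 0 := by
      rw [hφ] at h
      have := quad_root_int h
      rw [hcos2] at this
      push_cast at this
      linarith
    have hsn : Real.sin (n * φ) = 0 := by
      rw [hrelz, (pow_eq_zero_iff two_ne_zero).1 hs0, mul_zero]
    have h4 : z ^ (2 * n) = 1 := by
      have h5 := norm_aeval_quad (2 * n) 2 φ
      have h6 : 2 * Real.cos ((2 * n : ℕ) * φ) = 2 := by
        have h1 := Real.cos_two_mul (n * φ)
        have h2 := Real.sin_sq_add_cos_sq (n * φ)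
        rw [hsn] at h2
        rw [show ((2 * n : ℕ) : ℝ) * φ = 2 * (n * φ) by push_cast; ring]
        linarith
      rw [h6] at h5
      push_cast at h5
      rw [sub_self, abs_zero, ← hφ, norm_eq_zero] at h5
      have h1 := hquad0 _ _ h5
      have h3 : (z ^ (2 * n) - 1) ^ 2 = 0 := by
        rw [pow_mul z 2 (2 * n), show (z ^ 2) ^ (2 * n) = (z ^ (2 * n)) ^ 2 by
          rw [← pow_mul, ← pow_mul, mul_comm]] at h1
        push_cast at h1
        linear_combination h1
      have := (pow_eq_zero_iff two_ne_zero).1 h3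
      linear_combination this
    have d1 := orderOf_dvd_of_pow_eq_one h2
    have d2 := orderOf_dvd_of_pow_eq_one h4
    have d3 : orderOf z ∣ Nat.gcd (2 * k) (2 * n) := Nat.dvd_gcd d1 d2
    rw [Nat.gcd_mul_left, hk, mul_one] at d3
    exact orderOf_dvd_iff_pow_eq_one.1 d3
  · right
    have h1 := hquad0 _ _ h
    have hs0 : Real.sin (k * φ) ^ 2 = 1 / 4 := by
      rw [hφ] at h
      have := quad_root_int h
      rw [hcos2] at this
      push_cast at this
      linarith
    have hsn : Real.sin (n * φ) ^ 2 = (a:ℝ) ^ 2 / 4 := by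
      rw [hrelz, mul_pow, hs0]; ring
    have ha2 : |a| = 2 := by
      have h2 : Real.sin (n * φ) ^ 2 ≤ 1 := Real.sin_sq_le_one _
      rw [hsn] at h2
      have h3 : (|a| : ℤ) < 3 := by
        by_contra hlt
        push Not at hlt
        have : (3:ℝ) ≤ |(a:ℝ)| := by exact_mod_cast hlt
        have h4 : (9:ℝ) ≤ (a:ℝ) ^ 2 := by rw [← sq_abs]; nlinarith
        linarith
      omega
    have haR2 : (a:ℝ) ^ 2 = 4 := by
      have : (a:ℤ) ^ 2 = 4 := by rw [← sq_abs, ha2]; norm_num
      exact_mod_cast this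
    have h4 : z ^ (2 * n) = -1 := by
      have h5 := norm_aeval_quad (2 * n) (-2) φ
      have h6 : 2 * Real.cos ((2 * n : ℕ) * φ) = -2 := by
        have h1 := Real.cos_two_mul (n * φ)
        have h2 := Real.sin_sq_add_cos_sq (n * φ)
        rw [hsn, haR2] at h2
        rw [show ((2 * n : ℕ) : ℝ) * φ = 2 * (n * φ) by push_cast; ring]
        linarith
      rw [h6] at h5
      push_cast at h5
      rw [sub_self, abs_zero, ← hφ, norm_eq_zero] at h5
      have h1 := hquad0 _ _ h5
      have h3 : (z ^ (2 * n) + 1) ^ 2 = 0 := by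
        rw [pow_mul z 2 (2 * n), show (z ^ 2) ^ (2 * n) = (z ^ (2 * n)) ^ 2 by
          rw [← pow_mul, ← pow_mul, mul_comm]] at h1
        push_cast at h1
        linear_combination h1
      have := (pow_eq_zero_iff two_ne_zero).1 h3
      linear_combination this
    have h5 : z ^ (4 * k) - z ^ (2 * k) + 1 = 0 := by
      rw [show 2 * (2 * k) = 4 * k by ring] at h1
      push_cast at h1
      linear_combination h1
    refine ⟨ha2, ?_, h4, h5⟩
    have h6 : z ^ (12 * k) = 1 := by
      have e4 : z ^ (4 * k) = (z ^ (2 * k)) ^ 2 := by rw [← pow_mul]; ring_nf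
      have e12 : z ^ (12 * k) = (z ^ (2 * k)) ^ 6 := by rw [← pow_mul]; ring_nf
      rw [e4] at h5
      rw [e12]
      set y := z ^ (2 * k)
      have h7 : y ^ 3 = -1 := by linear_combination (y + 1) * h5
      calc y ^ 6 = (y ^ 3) ^ 2 := by ring
        _ = 1 := by rw [h7]; norm_num
    have h8 : z ^ (12 * n) = 1 := by
      have e12 : z ^ (12 * n) = (z ^ (2 * n)) ^ 6 := by rw [← pow_mul]; ring_nf
      rw [e12, h4]; norm_num
    have d1 := orderOf_dvd_of_pow_eq_one h6
    have d2 := orderOf_dvd_of_pow_eq_one h8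
    have d3 : orderOf z ∣ Nat.gcd (12 * k) (12 * n) := Nat.dvd_gcd d1 d2
    rw [Nat.gcd_mul_left, hk, mul_one] at d3
    exact orderOf_dvd_iff_pow_eq_one.1 d3

end Pool.Agent.H25
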