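import Mathlib
import Pool.Agent.H25.Anti

/-!
Antireciprocal polynomials with four terms, conclusion.
-/

set_option autoImplicit false

open Polynomial N60ffa576

namespace Pool.Agent.H25

lemma aeval_pentaS {m k : ℕ} (a : ℤ) (z : ℂ) :
    aeval z (pentaS (m + k) k a) = z ^ (2 * (m + k)) + a * z ^ (m + 2 * k)
        - a * z ^ m - 1 := by
  unfold pentaS
  rw [Nat.add_sub_cancel]
  simp only [map_add, map_sub, map_mul, map_pow, aeval_X, map_one, eq_intCast, map_intCast]
  have e5 : m + k + k = m + 2 * k := by ring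
  rw [e5]

lemma aeval_deriv_pentaS {m k : ℕ} (a : ℤ) (z : ℂ) :
    z * aeval z (derivative (pentaS (m + k) k a)) =
      2 * (m + k) * z ^ (2 * (m + k)) + a * (m + 2 * k) * z ^ (m + 2 * k)
        - a * m * z ^ m := by
  unfold pentaS
  rw [Nat.add_sub_cancel]
  have hX : ∀ (j : ℕ), z * aeval z (derivative (X ^ j : ℤ[X])) = j * z ^ j := by
    intro j
    rw [derivative_X_pow]
    rcases Nat.eq_zero_or_pos j with rfl | hj
    · simp
    · obtain ⟨i, rfl⟩ : ∃ i, j = i + 1 := ⟨j - 1, by omega⟩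
      rw [Nat.add_sub_cancel, pow_succ, map_mul, aeval_C, map_pow, aeval_X]
      simp only [map_natCast]
      ring
  have h1 := hX (2 * (m + k))
  have h2 := hX (m + k + k)
  have h4 := hX m
  simp only [derivative_add, derivative_sub, derivative_C_mul, derivative_one, sub_zero]
  rw [map_sub, map_add, map_mul, map_mul, aeval_C, mul_sub, mul_add]
  simp only [algebraMap_int_eq, eq_intCast]
  rw [h1]
  have e2 : z * ((a:ℂ) * aeval z (derivative (X ^ (m + k + k) : ℤ[X]))) =
      a * ((m + k + k : ℕ) * z ^ (m + k + k)) := by rw [← h2]; ring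
  have e4 : z * ((a:ℂ) * aeval z (derivative (X ^ m : ℤ[X]))) =
      a * (m * z ^ m) := by rw [← h4]; ring
  rw [e2, e4]
  have e5 : m + k + k = m + 2 * k := by ring
  rw [e5]
  push_cast
  ring

lemma simple_rootS {n k : ℕ} (hk0 : 0 < k) (hkn : k < n) (hk : k.Coprime n) (hn : 4 ≤ n) {a : ℤ}
    (ha : 2 ≤ |a|) (ha3 : |a| ≤ 3) {z : ℂ} (hroot : aeval z (pentaS n k a) = 0)
    (hd : aeval z (derivative (pentaS n k a)) = 0) (hun : IsUnity z) : False := by
  have hcase := unity_rootS hkn hk ha hroot hun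
  have hz0 : z ≠ 0 := by
    obtain ⟨j, hj, hzj⟩ := hun
    rintro rfl
    rw [zero_pow hj.ne'] at hzj
    exact zero_ne_one hzj
  obtain ⟨m, hm⟩ : ∃ m, n = m + k := ⟨n - k, by omega⟩
  subst hm
  have hA := aeval_pentaS (m := m) (k := k) a z
  have hB := aeval_deriv_pentaS (m := m) (k := k) a z
  rw [hroot] at hA
  rw [hd, mul_zero] at hB
  have ep : z ^ (2 * (m + k)) = (z ^ m * z ^ k) ^ 2 := by rw [← pow_add, ← pow_mul]; ring_nf
  have eq1 : z ^ (m + 2 * k) = z ^ m * (z ^ k) ^ 2 := by rw [← pow_mul, ← pow_add]; ring_nf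
  have hkm : ((m:ℤ) + k) ≠ 0 := by omega
  rcases hcase with h2 | ⟨_, _, h3, h4⟩
  · -- z = ±1
    have e1 : z ^ (2 * (m + k)) = 1 := by rw [pow_mul, h2, one_pow]
    have e2 : z ^ (m + 2 * k) = z ^ m := by rw [pow_add, pow_mul, h2, one_pow, mul_one]
    rw [e1, e2] at hB
    have hzm : z ^ m = 1 ∨ z ^ m = -1 := by
      have : (z ^ m) ^ 2 = 1 := by rw [← pow_mul, mul_comm, pow_mul, h2, one_pow]
      exact sq_eq_one_iff.1 this
    have key2 : ∃ s : ℤ, (s = 1 ∨ s = -1) ∧ ((m:ℤ) + k) + a * k * s = 0 := by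
      have h5 : (2:ℂ) * ((m + k : ℂ) + a * k * z ^ m) = 0 := by linear_combination -hB
      have h6 : (m + k : ℂ) + a * k * z ^ m = 0 := by
        rcases mul_eq_zero.1 h5 with h | h
        · norm_num at h
        · exact h
      rcases hzm with h | h
      · refine ⟨1, Or.inl rfl, ?_⟩
        rw [h] at h6
        exact_mod_cast h6
      · refine ⟨-1, Or.inr rfl, ?_⟩
        rw [h] at h6
        exact_mod_cast h6
    obtain ⟨s, hs, key3⟩ := key2
    have hcop : IsCoprime ((m:ℤ) + k) k := by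
      have : Nat.Coprime (m + k) k := hk.symm
      exact_mod_cast Nat.isCoprime_iff_coprime.2 this
    have h6 : ((m:ℤ) + k) ∣ k * (-(a * s)) := ⟨1, by linear_combination -key3⟩
    have h7 := hcop.dvd_of_dvd_mul_left h6
    have hn3 : (4:ℤ) ≤ (m:ℤ) + k := by exact_mod_cast hn
    have ha0 : a * s ≠ 0 := by
      intro h
      have : ((m:ℤ) + k) = 0 := by linear_combination key3 - (k:ℤ) * h
      omega
    have h8 := Int.le_of_dvd (a := ((m:ℤ) + k)) (b := |a * s|) (abs_pos.2 ha0)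
      ((dvd_abs _ _).2 ((dvd_neg).1 h7))
    have h9 : |a * s| ≤ 3 := by
      rw [abs_mul]
      rcases hs with h | h <;> rw [h] <;> simpa using ha3
    linarith
  · rw [ep] at h3
    rw [ep, eq1] at hA hB
    have e4 : z ^ (4 * k) = (z ^ k) ^ 4 := by rw [← pow_mul]; ring_nf
    have e5 : z ^ (2 * k) = (z ^ k) ^ 2 := by rw [← pow_mul]; ring_nf
    rw [e4, e5] at h4
    have hW0 : z ^ m ≠ 0 := pow_ne_zero _ hz0
    have hQ0 : z ^ k ≠ 0 := pow_ne_zero _ hz0
    set W := z ^ m with hW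
    set Q := z ^ k with hQ
    -- z f' - n f : n (P² + 1) + a k (W Q² + W) = 0
    have h5 : (a:ℂ) * k * W * (Q ^ 2 + 1) = 0 := by
      linear_combination (m + k : ℂ) * hA - hB - (m + k : ℂ) * h3
    have ha0 : (a:ℂ) ≠ 0 := by
      intro h
      have : a = 0 := by exact_mod_cast h
      rw [this] at ha; simp at ha
    have hk0' : (k:ℂ) ≠ 0 := by exact_mod_cast hk0.ne'
    have h6 : Q ^ 2 + 1 = 0 := by
      rcases mul_eq_zero.1 h5 with h | h
      · exact absurd h (mul_ne_zero (mul_ne_zero ha0 hk0') hW0)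
      · exact h
    have h7 : (3:ℂ) = 0 := by linear_combination h4 - (Q ^ 2 - 2) * h6
    norm_num at h7

/-- degree of the part with roots of unity -/
lemma unity_degreeS {n k : ℕ} (hk0 : 0 < k) (hkn : k < n) (hk : k.Coprime n) (hn : 4 ≤ n) {a : ℤ}
    (ha : 2 ≤ |a|) (ha3 : |a| ≤ 3) {Φ g : ℤ[X]} (hfg : pentaS n k a = Φ * g)
    (hΦ : ∀ z : ℂ, aeval z Φ = 0 → IsUnity z) : Φ.natDegree ≤ 12 ∧ (|a| = 3 → Φ.natDegree ≤ 2) := by
  classical
  have hf0 := pentaS_ne_zero n k hk0 hkn a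
  have hcount : ∀ z : ℂ, aeval z (pentaS n k a) = 0 → IsUnity z →
      (croots (pentaS n k a)).count z ≤ 1 := by
    intro z hz hun
    by_contra hlt
    push Not at hlt
    exact simple_rootS hk0 hkn hk hn ha ha3 hz
      (aeval_iter_derivative_of_lt_count (m := 1) (by omega)) hun
  set ζ : ℂ := Complex.exp (2 * Real.pi * Complex.I / (12:ℕ)) with hζ
  have hprim : IsPrimitiveRoot ζ 12 := Complex.isPrimitiveRoot_exp 12 (by norm_num)
  constructor
  · have hmain := natDegree_unity_part hf0 hfg hΦ ((Finset.range 12).image (fun j => ζ ^ j))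
      (fun z => 1) (by
        intro z hz hun
        refine ⟨?_, hcount z hz hun⟩
        have h12 : z ^ 12 = 1 := by
          rcases unity_rootS hkn hk ha hz hun with h | ⟨_, h, _⟩
          · calc z ^ 12 = (z ^ 2) ^ 6 := by ring
              _ = 1 := by rw [h, one_pow]
          · exact h
        obtain ⟨i, hi, hzi⟩ := hprim.eq_pow_of_pow_eq_one h12
        rw [Finset.mem_image]
        exact ⟨i, Finset.mem_range.2 hi, hzi⟩)
    refine hmain.trans ?_
    rw [Finset.sum_const, smul_eq_mul, mul_one]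
    exact Finset.card_image_le.trans (by simp)
  · intro h3
    have hmain := natDegree_unity_part hf0 hfg hΦ {1, -1} (fun z => 1) (by
        intro z hz hun
        refine ⟨?_, hcount z hz hun⟩
        rcases unity_rootS hkn hk ha hz hun with h | ⟨h, _⟩
        · rw [Finset.mem_insert, Finset.mem_singleton]
          exact sq_eq_one_iff.1 h
        · omega)
    refine hmain.trans ?_
    rw [Finset.sum_const, smul_eq_mul, mul_one]
    exact Finset.card_le_two

/-- general numerical lemma -/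
lemma num_aux2 {A M : ℝ} {n c e d n0 : ℕ} (hn : n0 ≤ n) (hA : 1 ≤ A) (hM : 0 ≤ M)
    (hd : 2 * n ≤ d + c) (hc : c ≤ 2 * n0) (he : 0 < e) (hn0 : 0 < n0)
    (h : A ^ d ≤ M ^ (e * n)) (h1 : (1.1763:ℝ) ^ (e * n0) ≤ A ^ (2 * n0 - c))
    (h2 : (1.1763:ℝ) ^ e ≤ A ^ 2) : 1.1763 ≤ M := by
  by_contra hlt
  push Not at hlt
  obtain ⟨m, rfl⟩ : ∃ m, n = n0 + m := ⟨n - n0, by omega⟩
  have h3 : M ^ (e * (n0 + m)) < 1.1763 ^ (e * (n0 + m)) :=
    pow_lt_pow_left₀ hlt hM (by positivity)
  have h4 : (1.1763:ℝ) ^ (e * (n0 + m)) ≤ A ^ (2 * n0 - c + 2 * m) := by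
    rw [mul_add, pow_add, pow_add, pow_mul 1.1763 e m, pow_mul A 2 m]
    apply mul_le_mul h1 (pow_le_pow_left₀ (by positivity) h2 m) (by positivity) (by positivity)
  have h5 : A ^ (2 * n0 - c + 2 * m) ≤ A ^ d := pow_le_pow_right₀ hA (by omega)
  linarith

theorem pentaS_mid {n k : ℕ} (hk0 : 0 < k) (hkn : k < n) (hk : k.Coprime n) (hn : 4 ≤ n) {a : ℤ}
    (ha : 2 ≤ |a|) (ha3 : |a| ≤ 3) (hn2 : |a| = 2 → 11 ≤ n) :
    1.1763 ≤ mahlerMeasureZ (pentaS n k a) := by
  set f := pentaS n k a with hf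
  have hf0 : f ≠ 0 := pentaS_ne_zero n k hk0 hkn a
  obtain ⟨hdeg, hlc⟩ := pentaS_natDegree n k hk0 hkn a
  rw [← hf] at hdeg hlc
  obtain ⟨Φ, g, hfg, hΦ, hg⟩ := factor_unity _ f le_rfl hf0
  have hΦ0 : Φ ≠ 0 := by rintro rfl; rw [zero_mul] at hfg; exact hf0 hfg
  have hg0 : g ≠ 0 := by rintro rfl; rw [mul_zero] at hfg; exact hf0 hfg
  obtain ⟨hc12, hc2⟩ := unity_degreeS hk0 hkn hk hn ha ha3 hfg hΦ
  have hdeg2 : Φ.natDegree + g.natDegree = 2 * n := by
    rw [← natDegree_mul hΦ0 hg0, ← hfg, hdeg]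
  have hglc : |g.leadingCoeff| = 1 := by
    have h1 : Φ.leadingCoeff * g.leadingCoeff = 1 := by
      rw [← leadingCoeff_mul, ← hfg, hlc]
    have h2 : g.leadingCoeff ∣ 1 := ⟨Φ.leadingCoeff, by rw [mul_comm]; exact h1.symm⟩
    have h3 := Int.isUnit_iff_abs_eq.1 (isUnit_of_dvd_one h2)
    exact h3
  have hle : mahlerMeasureZ g ≤ mahlerMeasureZ f := by
    rw [hfg, mmZ_mul]
    have h1 := one_le_mmZ hΦ0
    have h2 := mmZ_nonneg g
    nlinarith
  refine le_trans ?_ hle
  have hM := mmZ_nonneg g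
  have habs : |a| = 2 ∨ |a| = 3 := by omega
  rcases habs with h2 | h3
  · obtain ⟨a', ha'⟩ : ∃ a', a = 2 * a' := by
      rcases abs_cases a with ⟨h, _⟩ | ⟨h, _⟩
      · exact ⟨1, by omega⟩
      · exact ⟨-1, by omega⟩
    have key := one_binomial g Φ (-(C a' * X ^ (n + k) - C a' * X ^ (n - k)))
      (2 * n) (by omega) hglc hg (by
        rw [mul_comm g Φ, ← hfg, hf]
        unfold pentaS
        rw [ha', C_mul, C_two]
        ring)
    refine num_aux2 (A := 108) (c := 12) (e := 24) (n0 := 11) (hn2 h2) (by norm_num) hM (by omega)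
      (by norm_num) (by norm_num) (by norm_num) (d := g.natDegree) ?_ (by
        rw [show 24 * 11 = 132 * 2 from rfl, pow_mul]; norm_num) (by norm_num)
    rw [show 24 * n = 12 * (2 * n) by ring]
    exact key
  · obtain ⟨a', ha'⟩ : ∃ a', a = 3 * a' := by
      rcases abs_cases a with ⟨h, _⟩ | ⟨h, _⟩
      · exact ⟨1, by omega⟩
      · exact ⟨-1, by omega⟩
    have key := one_binomial3 g Φ
      (-(C a' * X ^ (n + k) - C a' * X ^ (n - k)))
      (2 * n) (by omega) 1 (by norm_num) hglc hg (by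
        rw [mul_comm g Φ, ← hfg, hf]
        unfold pentaS
        rw [ha', C_mul, C_three, C_1]
        ring)
    exact num_aux2 (A := 3 / 2) (c := 2) (e := 2) (n0 := 4) hn (by norm_num) hM
      (by have := hc2 h3; omega) (by norm_num) (by norm_num) (by norm_num) (d := g.natDegree) key
      (by norm_num) (by norm_num)

/-! finite check -/

def pentaSL (n k : ℕ) (a : ℤ) : List ℤ :=
  (-1 :: List.replicate (n - k - 1) 0) ++ ((-a :: List.replicate (2 * k - 1) 0) ++
    ((a :: List.replicate (n - k - 1) 0) ++ [1]))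

lemma toPoly_pentaSL {n k : ℕ} (hk0 : 0 < k) (hkn : k < n) (a : ℤ) :
    toPoly (pentaSL n k a) = pentaS n k a := by
  unfold pentaSL pentaS
  rw [toPoly_append, toPoly_append, toPoly_append]
  simp only [toPoly, toPoly_replicate, List.length_cons, List.length_replicate]
  rw [show n - k - 1 + 1 = n - k by omega, show 2 * k - 1 + 1 = 2 * k by omega]
  have h1 : (X : ℤ[X]) ^ (2 * n) = X ^ (n - k) * X ^ (2 * k) * X ^ (n - k) := by
    rw [← pow_add, ← pow_add]; congr 1; omega
  have h2 : (X : ℤ[X]) ^ (n + k) = X ^ (n - k) * X ^ (2 * k) := by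
    rw [← pow_add]; congr 1; omega
  rw [h1, h2]
  simp
  ring

def okM8 (l : List ℤ) : Bool := searchR 8 l 0 || cycC l

lemma okM8_good {l : List ℤ} {f : ℤ[X]} (hl : toPoly l = f) (hf : f ≠ 0) (h : okM8 l = true) :
    Good f := by
  rw [okM8, Bool.or_eq_true] at h
  subst hl
  rcases h with h | h
  · exact good_of_ge (cert_sound _ _ h)
  · exact Or.inl (cycC_sound _ hf h)

def okS (n k : ℕ) : Bool :=
  (Nat.gcd n k != 1) || (k == 0) || (okM8 (pentaSL n k 2) && okM8 (pentaSL n k (-2)) &&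
    (Nat.ble 4 n || (okM8 (pentaSL n k 3) && okM8 (pentaSL n k (-3)))))

def okSK (n : ℕ) : ℕ → Bool
  | 0 => true
  | k + 1 => okSK n k && okS n k

def okSN : ℕ → Bool
  | 0 => true
  | n + 1 => okSN n && okSK n n

set_option maxRecDepth 100000 in
theorem check_S : okSN 11 = true := by decide +kernel

lemma okSK_spec (n : ℕ) : ∀ K : ℕ, okSK n K = true → ∀ k, k < K → okS n k = true
  | 0, _, k, h => absurd h (Nat.not_lt_zero k)
  | K + 1, h, k, hkK => by
    rw [okSK, Bool.and_eq_true] at h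
    rcases Nat.lt_succ_iff_lt_or_eq.1 hkK with h1 | h1
    · exact okSK_spec n K h.1 k h1
    · rw [h1]; exact h.2

lemma okSN_spec : ∀ N : ℕ, okSN N = true → ∀ n k, k < n → n < N → okS n k = true
  | 0, _, n, _, _, h => absurd h (Nat.not_lt_zero n)
  | N + 1, h, n, k, hkn, hnN => by
    rw [okSN, Bool.and_eq_true] at h
    rcases Nat.lt_succ_iff_lt_or_eq.1 hnN with h1 | h1
    · exact okSN_spec N h.1 n k hkn h1
    · rw [h1] at hkn ⊢
      exact okSK_spec N N h.2 k hkn

theorem pentaS_coprime {n k : ℕ} (hk0 : 0 < k) (hkn : k < n) (hk : k.Coprime n) {a : ℤ}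
    (ha : 2 ≤ |a|) (ha3 : |a| ≤ 3) : Good (pentaS n k a) := by
  by_cases hbig : 4 ≤ n ∧ (|a| = 2 → 11 ≤ n)
  · exact good_of_ge (pentaS_mid hk0 hkn hk hbig.1 ha ha3 hbig.2)
  · have hn11 : n < 11 := by
      by_contra h
      push Not at h
      exact hbig ⟨by omega, fun _ => h⟩
    have h := okSN_spec 11 check_S n k hkn hn11
    unfold okS at h
    rw [Nat.coprime_comm] at hk
    have hg : n.gcd k = 1 := hk
    rw [hg] at h
    simp only [bne_self_eq_false, Bool.false_or, Bool.or_eq_true, beq_iff_eq, Bool.and_eq_true,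
      Nat.ble_eq] at h
    rcases h with h | ⟨⟨h1, h2⟩, h3⟩
    · omega
    · have hcases : a = 2 ∨ a = -2 ∨ a = 3 ∨ a = -3 := by
        rcases abs_cases a with ⟨h, _⟩ | ⟨h, _⟩ <;> omega
      have hgood : ∀ a' : ℤ, okM8 (pentaSL n k a') = true → Good (pentaS n k a') := fun a' h' =>
        okM8_good (toPoly_pentaSL hk0 hkn a') (pentaS_ne_zero n k hk0 hkn a') h'
      rcases hcases with rfl | rfl | rfl | rfl
      · exact hgood _ h1
      · exact hgood _ h2
      · rcases h3 with h3 | h3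
        · exact absurd ⟨h3, by norm_num⟩ hbig
        · exact hgood _ h3.1
      · rcases h3 with h3 | h3
        · exact absurd ⟨h3, by norm_num⟩ hbig
        · exact hgood _ h3.2

theorem pentaS_all {n k : ℕ} (hk0 : 0 < k) (hkn : k < n) (a : ℤ) (ha : a ≠ 0) :
    Good (pentaS n k a) := by
  have ha1 : 1 ≤ |a| := Int.one_le_abs ha
  rcases eq_or_lt_of_le ha1 with h1 | h1
  · exact Or.inl (pentaS_one hk0 hkn a ((abs_eq (by norm_num)).1 h1.symm))
  rcases le_or_gt 4 |a| with h5 | h5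
  · have := pentaS_big hk0 hkn a h5
    exact good_of_ge (by linarith)
  set g := k.gcd n with hg
  have hgpos : 0 < g := Nat.gcd_pos_of_pos_left _ hk0
  obtain ⟨k', hk'⟩ : g ∣ k := Nat.gcd_dvd_left _ _
  obtain ⟨n', hn'⟩ : g ∣ n := Nat.gcd_dvd_right _ _
  have hcop : k'.Coprime n' := by
    have := Nat.coprime_div_gcd_div_gcd (m := k) (n := n) hgpos
    rw [← hg] at this
    have e1 : k / g = k' := by
      conv_lhs => rw [hk']
      exact Nat.mul_div_cancel_left k' hgpos
    have e2 : n / g = n' := by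
      conv_lhs => rw [hn']
      exact Nat.mul_div_cancel_left n' hgpos
    rwa [e1, e2] at this
  have hk'0 : 0 < k' := by
    rcases Nat.eq_zero_or_pos k' with h | h
    · rw [h, mul_zero] at hk'; omega
    · exact h
  have hk'n : k' < n' := by
    have : g * k' < g * n' := by rw [← hk', ← hn']; exact hkn
    exact lt_of_mul_lt_mul_left this (Nat.zero_le g)
  have h1 := pentaS_coprime hk'0 hk'n hcop (a := a) (by omega) (by omega)
  have h2 : mahlerMeasureZ (pentaS n k a) = mahlerMeasureZ (pentaS n' k' a) := by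
    rw [hn', hk', pentaS_expand n' k' g, mm_expand _ hgpos]
  unfold Good
  rw [h2]
  exact h1

end Pool.Agent.H25
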