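import Pool.Agent.H96.CoulombUnstable

/-!
# Relativistic Coulomb matter: block-antisymmetric states

Wave functions `ψ` of `N` electrons without spin variables, antisymmetric within each block of
a partition of the electrons into `q` (possibly empty) blocks.
-/

set_option autoImplicit false
set_option linter.unusedSectionVars false
open FourierTransform MeasureTheory
open scoped SchwartzMap ENNReal

namespace Pool.Agent.H25.CoulombBlocks

/-- The configuration space `ℝ^{3N}`. -/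
abbrev Conf (N : ℕ) := EuclideanSpace ℝ (Fin N × Fin 3)

/-- Exchange of the electrons `i` and `j` in a configuration. -/
def exch {N : ℕ} (i j : Fin N) (x : Conf N) : Conf N :=
  WithLp.toLp 2 (fun p : Fin N × Fin 3 => WithLp.ofLp x (Equiv.swap i j p.1, p.2))

/-- `ψ ∈ H^q`: for some partition of the electrons into `q` blocks (electron `i` lies in block
`b i`; blocks may be empty), `ψ` is antisymmetric in the variables of each block. -/
def InHq (q : ℕ) {N : ℕ} (ψ : 𝓢(Conf N, ℂ)) : Prop :=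
  ∃ b : Fin N → Fin q, ∀ i j : Fin N, i ≠ j → b i = b j → ∀ x, ψ (exch i j x) = - ψ x

/-- The kinetic energy `⟨ψ, ∑ |p_i| ψ⟩ = ∫ ∑_i 2π|k_i| |ψ̂(k)|² dk`. -/
noncomputable def kinetic {N : ℕ} (ψ : 𝓢(Conf N, ℂ)) : ℝ :=
  ∫ k : Conf N, (∑ i : Fin N, 2 * Real.pi *
    Real.sqrt (∑ c : Fin 3, (WithLp.ofLp k (i, c)) ^ 2)) * ‖𝓕 ψ k‖ ^ 2

/-- The Coulomb potential `V_c` of `N` electrons and `K` nuclei of charge `z` at `R`. -/
noncomputable def Vc {N K : ℕ} (z : ℝ) (R : Fin K → Fin 3 → ℝ) (x : Conf N) : ℝ :=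
  (∑ i : Fin N, ∑ j : Fin N, if i < j then
      1 / Real.sqrt (∑ c : Fin 3, (WithLp.ofLp x (i, c) - WithLp.ofLp x (j, c)) ^ 2) else 0)
  - z * (∑ i : Fin N, ∑ l : Fin K,
      1 / Real.sqrt (∑ c : Fin 3, (WithLp.ofLp x (i, c) - R l c) ^ 2))
  + z ^ 2 * (∑ l : Fin K, ∑ m : Fin K, if l < m then
      1 / Real.sqrt (∑ c : Fin 3, (R l c - R m c) ^ 2) else 0)

/-- The quadratic form of `H_{NK} = ∑ |p_i| + α V_c` at `ψ`. -/
noncomputable def energy {N K : ℕ} (α z : ℝ) (R : Fin K → Fin 3 → ℝ) (ψ : 𝓢(Conf N, ℂ)) : ℝ :=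
  kinetic ψ + α * ∫ x : Conf N, Vc z R x * ‖ψ x‖ ^ 2

/-- Stability of `H(α, z)`: for all `N, K ≥ 1`, all positions of the nuclei and all `ψ ∈ H^q` the
energy is nonnegative. -/
def Stable (q : ℕ) (α z : ℝ) : Prop :=
  ∀ N K : ℕ, 1 ≤ N → 1 ≤ K → ∀ R : Fin K → Fin 3 → ℝ, Function.Injective R →
    ∀ ψ : 𝓢(Conf N, ℂ), InHq q ψ → 0 ≤ energy α z R ψ

/-- `S_β`: the couplings `α > 0` for which `H(α, z)`, `z = 2β/(πα)`, is stable. -/
def stableSet (q : ℕ) (β : ℝ) : Set ℝ :=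
  {α | 0 < α ∧ Stable q α (2 * β / (Real.pi * α))}

/-- `α_c(β) = sup {a > 0 : (0,a) ⊆ S_β}`, a number in `[0, ∞]`. -/
noncomputable def alphaC (q : ℕ) (β : ℝ) : ℝ≥0∞ :=
  ⨆ a ∈ {a : ℝ | 0 < a ∧ Set.Ioo 0 a ⊆ stableSet q β}, ENNReal.ofReal a

/-- `ᾱ_c(β) = inf {b > 0 : S_β ∩ (b,∞) = ∅}`, a number in `[0, ∞]`. -/
noncomputable def alphaBar (q : ℕ) (β : ℝ) : ℝ≥0∞ :=
  ⨅ b ∈ {b : ℝ | 0 < b ∧ stableSet q β ∩ Set.Ioi b = ∅}, ENNReal.ofReal b

/-! ### Proofs -/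

open Pool.Agent.H96

lemma kinetic_eq {N : ℕ} (ψ : 𝓢(Conf N, ℂ)) :
    kinetic ψ = ∫ k, kinB Finset.univ k * ‖𝓕 ψ k‖ ^ 2 := rfl

lemma Vc_eq {N K : ℕ} (z : ℝ) (R : Fin K → Fin 3 → ℝ) (x : Conf N) :
    Vc z R x = potB Finset.univ z R x := rfl

lemma energy_nonneg_of_zero {N K : ℕ} {α z : ℝ} (hα : 0 ≤ α) (h : N = 0 ∨ K = 0)
    (R : Fin K → Fin 3 → ℝ) (ψ : 𝓢(Conf N, ℂ)) : 0 ≤ energy α z R ψ := by
  have h1 : 0 ≤ kinetic ψ := by
    unfold kinetic
    refine integral_nonneg fun k => ?_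
    have : 0 ≤ ∑ i : Fin N, 2 * Real.pi *
        Real.sqrt (∑ c : Fin 3, (WithLp.ofLp k (i, c)) ^ 2) :=
      Finset.sum_nonneg fun i _ => by positivity
    positivity
  have h2 : 0 ≤ ∫ x : Conf N, Vc z R x * ‖ψ x‖ ^ 2 := by
    refine integral_nonneg fun x => ?_
    have ha : 0 ≤ ∑ i : Fin N, ∑ j : Fin N, (if i < j then
        1 / Real.sqrt (∑ c : Fin 3, (WithLp.ofLp x (i, c) - WithLp.ofLp x (j, c)) ^ 2) else 0) :=
      Finset.sum_nonneg fun i _ => Finset.sum_nonneg fun j _ => by split_ifs <;> positivity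
    have hc : 0 ≤ ∑ l : Fin K, ∑ m : Fin K, (if l < m then
        1 / Real.sqrt (∑ c : Fin 3, (R l c - R m c) ^ 2) else 0) :=
      Finset.sum_nonneg fun l _ => Finset.sum_nonneg fun m _ => by split_ifs <;> positivity
    have hb : (∑ i : Fin N, ∑ l : Fin K,
        1 / Real.sqrt (∑ c : Fin 3, (WithLp.ofLp x (i, c) - R l c) ^ 2)) = 0 := by
      rcases h with rfl | rfl <;> simp
    have hV : 0 ≤ Vc z R x := by
      unfold Vc
      rw [hb, mul_zero, sub_zero]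
      have := mul_nonneg (sq_nonneg z) hc
      linarith
    positivity
  unfold energy
  have := mul_nonneg hα h2
  linarith

lemma Stable.all {q : ℕ} {α z : ℝ} (hα : 0 ≤ α) (hS : Stable q α z) {N K : ℕ}
    (R : Fin K → Fin 3 → ℝ) (hR : Function.Injective R) (ψ : 𝓢(Conf N, ℂ)) (hψ : InHq q ψ) :
    0 ≤ energy α z R ψ := by
  by_cases hN : 1 ≤ N
  · by_cases hK : 1 ≤ K
    · exact hS N K hN hK R hR ψ hψ
    · exact energy_nonneg_of_zero hα (Or.inr (by omega)) R ψ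
  · exact energy_nonneg_of_zero hα (Or.inl (by omega)) R ψ

section slicing
variable {N : ℕ} (B : Finset (Fin N))

lemma extPerm_swap (i j : Fin B.card) :
    extPerm B (Equiv.swap i j) = Equiv.swap (eB B (Sum.inl i)) (eB B (Sum.inl j)) := by
  apply Equiv.ext
  intro n
  obtain ⟨t, rfl⟩ := (eB B).surjective n
  rcases t with k | k
  · rw [extPerm_inl]
    have h : Function.Injective fun k : Fin B.card => eB B (Sum.inl k) := by
      intro a b hab
      exact Sum.inl_injective ((eB B).injective hab)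
    exact h.map_swap i j k
  · rw [extPerm_inr, Equiv.swap_apply_of_ne_of_ne]
    · intro h; exact Sum.inr_ne_inl ((eB B).injective h)
    · intro h; exact Sum.inr_ne_inl ((eB B).injective h)

lemma inHq_slice {q : ℕ} {ψ : 𝓢(Conf N, ℂ)} (hψ : InHq q ψ)
    (c : EuclideanSpace ℝ (Fin Bᶜ.card × Fin 3)) : InHq q (sliceI (eB3 B) ψ c) := by
  obtain ⟨b, hb⟩ := hψ
  refine ⟨fun i => b (eB B (Sum.inl i)), fun i j hij hbij x => ?_⟩
  rw [sliceI_apply, sliceI_apply]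
  have h := cmb_comp B x c (Equiv.swap i j)
  rw [extPerm_swap] at h
  unfold exch
  rw [h]
  exact hb _ _ (fun hc => hij (Sum.inl_injective ((eB B).injective hc))) hbij _

theorem form_subset_nonneg {q K : ℕ} {α z : ℝ} (hα : 0 ≤ α) (hS : Stable q α z)
    (R : Fin K → Fin 3 → ℝ) (hR : Function.Injective R) {ψ : 𝓢(Conf N, ℂ)} (hψ : InHq q ψ) :
    0 ≤ (∫ k, kinB B k * ‖𝓕 ψ k‖ ^ 2) + α * ∫ x, potB B z R x * ‖ψ x‖ ^ 2 := by
  have h0 : ∀ c, 0 ≤ energy α z R (sliceI (eB3 B) ψ c) := fun c =>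
    hS.all hα R hR _ (inHq_slice B hψ c)
  have h1 := partial_plancherelI (eB3 B) (continuous_kinB (N := B.card) Finset.univ) (kinB_cmb B)
    ψ (integrable_kinB B _)
  have h2 := integral_sliceI (eB3 B) (potB_cmb B z R) ψ (integrable_potB B z R _)
  have h3 : 0 ≤ ∫ c, energy α z R (sliceI (eB3 B) ψ c) := integral_nonneg h0
  have h4 : ∫ c, energy α z R (sliceI (eB3 B) ψ c) =
      (∫ k, kinB B k * ‖𝓕 ψ k‖ ^ 2) + α * ∫ x, potB B z R x * ‖ψ x‖ ^ 2 := by
    unfold energy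
    simp only [kinetic_eq, Vc_eq]
    rw [integral_add h1.1 (h2.1.const_mul _), integral_const_mul, h1.2, h2.2]
  rwa [h4] at h3

end slicing

/-- **Key monotonicity.** -/
theorem stable_mono {q : ℕ} {α z p : ℝ} (hα : 0 ≤ α) (hp0 : 0 < p) (hp1 : p ≤ 1)
    (hS : Stable q α z) : Stable q (p * α) (z / p) := by
  intro N K _ _ R hR ψ hψ
  have h0 : ∀ B : Finset (Fin N), 0 ≤ (∫ k, kinB B k * ‖𝓕 ψ k‖ ^ 2) +
      α * ∫ x, potB B z R x * ‖ψ x‖ ^ 2 := fun B => form_subset_nonneg B hα hS R hR hψ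
  have hsum : 0 ≤ ∑ B : Finset (Fin N), wt p B * ((∫ k, kinB B k * ‖𝓕 ψ k‖ ^ 2) +
      α * ∫ x, potB B z R x * ‖ψ x‖ ^ 2) :=
    Finset.sum_nonneg fun B _ => mul_nonneg (wt_nonneg hp0.le hp1 B) (h0 B)
  have hkin : ∑ B : Finset (Fin N), wt p B * ∫ k, kinB B k * ‖𝓕 ψ k‖ ^ 2 =
      p * ∫ k, kinB Finset.univ k * ‖𝓕 ψ k‖ ^ 2 := by
    have h1 : ∀ B : Finset (Fin N), wt p B * ∫ k, kinB B k * ‖𝓕 ψ k‖ ^ 2 =
        ∫ k, wt p B * (kinB B k * ‖𝓕 ψ k‖ ^ 2) := fun B => (integral_const_mul _ _).symm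
    simp_rw [h1]
    rw [← integral_finsetSum _ fun B _ => (integrable_kinB B (𝓕 ψ)).const_mul _,
      ← integral_const_mul]
    congr 1
    funext k
    rw [← mul_assoc, ← avg_kin, Finset.sum_mul]
    refine Finset.sum_congr rfl fun B _ => ?_
    ring
  have hpot : α * ∑ B : Finset (Fin N), wt p B * ∫ x, potB B z R x * ‖ψ x‖ ^ 2 =
      p * ((p * α) * ∫ x, potB Finset.univ (z / p) R x * ‖ψ x‖ ^ 2) := by
    have h1 : ∀ B : Finset (Fin N), wt p B * ∫ x, potB B z R x * ‖ψ x‖ ^ 2 =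
        ∫ x, wt p B * (potB B z R x * ‖ψ x‖ ^ 2) := fun B => (integral_const_mul _ _).symm
    simp_rw [h1]
    rw [← integral_finsetSum _ fun B _ => (integrable_potB B z R ψ).const_mul _,
      ← integral_const_mul, ← integral_const_mul, ← integral_const_mul]
    congr 1
    funext x
    have h2 := avg_pot hp0.ne' α z R x
    have h3 : ∑ B : Finset (Fin N), wt p B * (potB B z R x * ‖ψ x‖ ^ 2) =
        (∑ B : Finset (Fin N), wt p B * potB B z R x) * ‖ψ x‖ ^ 2 := by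
      rw [Finset.sum_mul]
      refine Finset.sum_congr rfl fun B _ => ?_
      ring
    rw [h3, ← mul_assoc, h2]
    ring
  have heq : ∑ B : Finset (Fin N), wt p B * ((∫ k, kinB B k * ‖𝓕 ψ k‖ ^ 2) +
      α * ∫ x, potB B z R x * ‖ψ x‖ ^ 2) = p * energy (p * α) (z / p) R ψ := by
    have e1 : ∀ B : Finset (Fin N), wt p B * ((∫ k, kinB B k * ‖𝓕 ψ k‖ ^ 2) +
        α * ∫ x, potB B z R x * ‖ψ x‖ ^ 2) = wt p B * (∫ k, kinB B k * ‖𝓕 ψ k‖ ^ 2) +
        α * (wt p B * ∫ x, potB B z R x * ‖ψ x‖ ^ 2) := fun B => by ring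
    rw [Finset.sum_congr rfl fun B _ => e1 B, Finset.sum_add_distrib, hkin, ← Finset.mul_sum,
      hpot]
    unfold energy
    simp only [kinetic_eq, Vc_eq]
    ring
  rw [heq] at hsum
  exact nonneg_of_mul_nonneg_right hsum hp0

/-- Monotonicity at fixed `β`. -/
theorem stableSet_down {q : ℕ} {β α₁ α₂ : ℝ} (h1 : 0 < α₁) (h12 : α₁ ≤ α₂)
    (h : α₂ ∈ stableSet q β) : α₁ ∈ stableSet q β := by
  obtain ⟨h2, hS⟩ := h
  refine ⟨h1, ?_⟩
  have h3 := stable_mono (p := α₁ / α₂) h2.le (by positivity) (by rw [div_le_one h2]; exact h12) hS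
  have e1 : α₁ / α₂ * α₂ = α₁ := by field_simp
  have e2 : 2 * β / (Real.pi * α₂) / (α₁ / α₂) = 2 * β / (Real.pi * α₁) := by
    have := Real.pi_pos.ne'
    field_simp
  rwa [e1, e2] at h3

/-- Block stability implies stability with spin components. -/
theorem spin_of_block {q : ℕ} {α z : ℝ} (hα : 0 ≤ α) (hS : Stable q α z) :
    Pool.Agent.H96.Stable q α z := by
  intro N K R hR ψ hψ
  have h : formB Finset.univ α z R ψ = ∑ σ, energy α z R (ψ σ) := by
    unfold formB energy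
    rw [Finset.sum_add_distrib, Finset.mul_sum]
    rfl
  rw [h]
  refine Finset.sum_nonneg fun σ _ => hS.all hα R hR (ψ σ) ⟨σ, fun i j hij hσ x => ?_⟩
  have h1 := hψ (Equiv.swap i j) σ x
  have h2 : σ ∘ (Equiv.swap i j) = σ := by
    funext k
    simp only [Function.comp_apply]
    by_cases hi : k = i
    · subst hi; rw [Equiv.swap_apply_left, hσ]
    · by_cases hj : k = j
      · subst hj; rw [Equiv.swap_apply_right, hσ]
      · rw [Equiv.swap_apply_of_ne_of_ne hi hj]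
  rw [h2, Equiv.Perm.sign_swap hij] at h1
  unfold exch
  rw [h1]
  simp

/-- `S_β` is bounded above. -/
theorem stableSet_bdd {q : ℕ} (hq : 0 < q) {β : ℝ} (hβ : 0 < β) :
    ∃ b : ℝ, 0 < b ∧ stableSet q β ∩ Set.Ioi b = ∅ := by
  have hκ : 0 < 2 * β / Real.pi := by positivity
  have h := not_forall_stable hq hκ
  push Not at h
  obtain ⟨b, hb, hb'⟩ := h
  refine ⟨b, hb, ?_⟩
  rw [Set.eq_empty_iff_forall_notMem]
  rintro α ⟨hα, hαb⟩
  have h1 := stableSet_down hb (le_of_lt hαb) hα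
  apply hb'
  have h2 := spin_of_block hb.le h1.2
  rwa [div_div]

theorem alphaC_eq_alphaBar {q : ℕ} {β : ℝ} : alphaC q β = alphaBar q β := by
  apply le_antisymm
  · unfold alphaC alphaBar
    refine iSup₂_le fun a ha => le_iInf₂ fun b hb => ?_
    apply ENNReal.ofReal_le_ofReal
    by_contra hab
    push Not at hab
    have h1 : (a + b) / 2 ∈ stableSet q β := ha.2 ⟨by linarith [ha.1, hb.1], by linarith⟩
    have h2 : (a + b) / 2 ∈ stableSet q β ∩ Set.Ioi b := ⟨h1, by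
      rw [Set.mem_Ioi]; linarith⟩
    rw [hb.2] at h2
    exact h2
  · by_contra hcon
    push Not at hcon
    obtain ⟨r, hr1, hr2⟩ := ENNReal.lt_iff_exists_real_btwn.1 hcon
    obtain ⟨hr0, hr⟩ := hr2
    have hr0' : 0 < r := by
      by_contra hle
      push Not at hle
      rw [ENNReal.ofReal_of_nonpos hle] at hr0
      exact not_lt_bot hr0
    by_cases hS : stableSet q β ∩ Set.Ioi r = ∅
    · have h3 : alphaBar q β ≤ ENNReal.ofReal r := by
        unfold alphaBar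
        exact iInf₂_le r ⟨hr0', hS⟩
      exact absurd (lt_of_le_of_lt h3 hr) (lt_irrefl _)
    · obtain ⟨s, hs, hrs⟩ := Set.nonempty_iff_ne_empty.2 hS
      have h3 : ENNReal.ofReal r ≤ alphaC q β := by
        unfold alphaC
        refine le_iSup₂_of_le (f := fun a (_ : a ∈ {a : ℝ | 0 < a ∧
          Set.Ioo 0 a ⊆ stableSet q β}) => ENNReal.ofReal a) r ⟨hr0', fun t ht => ?_⟩ le_rfl
        exact stableSet_down ht.1 (ht.2.le.trans (le_of_lt hrs)) hs
      exact absurd (lt_of_lt_of_le hr0 h3) (lt_irrefl _)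

end Pool.Agent.H25.CoulombBlocks
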