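import Mathlib
import Pool.Agent.H25.AntiAll
import Pool.Agent.H25.SmythWeak
import Pool.Agent.H25.Few

/-!
Lehmer's inequality for integer polynomials with at most five non-zero coefficients.
-/

set_option autoImplicit false

open Polynomial N60ffa576

namespace Pool.Agent.H25

lemma mmZ_X : mahlerMeasureZ (X : ℤ[X]) = 1 := by
  unfold mahlerMeasureZ
  rw [map_X]
  have h := mahlerMeasure_X_sub_C (0:ℂ)
  simpa using h

lemma mmZ_neg (f : ℤ[X]) : mahlerMeasureZ (-f) = mahlerMeasureZ f := by
  have e : -f = C (-1) * f := by rw [C_neg, C_1, neg_one_mul]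
  rw [e, mmZ_mul, mmZ_C]
  norm_num

lemma good_neg {f : ℤ[X]} (h : Good (-f)) : Good f := by
  unfold Good at h ⊢
  rwa [mmZ_neg] at h

/-- `X^m ± 1` -/
lemma mm_binom (m : ℕ) (s : ℤ) (hm : 0 < m) (hs : s = 1 ∨ s = -1) :
    mahlerMeasureZ (X ^ m + C s) = 1 := by
  rcases hs with rfl | rfl
  · refine mm_one_of_mul (g := X ^ m - 1) (h := X ^ (2 * m) - 1) ?_
      (mm_X_pow_sub_one _ (by omega)) (X_pow_add_C_ne_zero hm 1) (X_pow_sub_C_ne_zero hm 1)
    rw [C_1]; ring
  · rw [C_neg, C_1, ← sub_eq_add_neg]; exact mm_X_pow_sub_one m hm

lemma quad2_good (b : ℤ) : Good (X ^ 2 + C b * X + 1) := by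
  have hcoef : (X ^ 2 + C b * X + 1 : ℤ[X]).coeff 1 = b := by
    rw [coeff_add, coeff_add, coeff_X_pow, coeff_C_mul, coeff_X, coeff_one]; norm_num
  have hcoef2 : (X ^ 2 + C b * X + 1 : ℤ[X]).coeff 2 = 1 := by
    rw [coeff_add, coeff_add, coeff_X_pow, coeff_C_mul, coeff_X, coeff_one]; norm_num
  have hne : (X ^ 2 + C b * X + 1 : ℤ[X]) ≠ 0 := by
    intro h
    rw [h] at hcoef2
    simp at hcoef2
  have hdeg : (X ^ 2 + C b * X + 1 : ℤ[X]).natDegree ≤ 2 := by
    compute_degree
  rcases le_or_gt 3 |b| with h | h
  · apply good_of_ge
    have h1 := abs_coeff_le (X ^ 2 + C b * X + 1) 1 2 hdeg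
    rw [hcoef, show Nat.choose 2 1 = 2 from rfl] at h1
    have h2 : (3:ℝ) ≤ |(b:ℝ)| := by exact_mod_cast h
    push_cast at h1
    linarith
  · left
    rw [abs_lt] at h
    have hcases : b = -2 ∨ b = -1 ∨ b = 0 ∨ b = 1 ∨ b = 2 := by omega
    have hX1 := mm_X_pow_sub_one 1 (by norm_num)
    have hX2 := mm_X_pow_sub_one 2 (by norm_num)
    have hX3 := mm_X_pow_sub_one 3 (by norm_num)
    have hX4 := mm_X_pow_sub_one 4 (by norm_num)
    have hX6 := mm_X_pow_sub_one 6 (by norm_num)
    rw [pow_one] at hX1
    rcases hcases with rfl | rfl | rfl | rfl | rfl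
    · have e : (X ^ 2 + C (-2) * X + 1 : ℤ[X]) = (X - 1) * (X - 1) := by
        rw [C_neg, C_two]; ring
      rw [e, mmZ_mul, hX1, mul_one]
    · refine mm_one_of_mul (g := (X ^ 3 - 1) * (X + 1)) (h := X ^ 6 - 1) ?_ hX6 hne
        (mul_ne_zero (X_pow_sub_C_ne_zero (by norm_num) 1) (X_add_C_ne_zero 1))
      rw [C_neg, C_1]; ring
    · refine mm_one_of_mul (g := X ^ 2 - 1) (h := X ^ 4 - 1) ?_ hX4 hne
        (X_pow_sub_C_ne_zero (by norm_num) 1)
      rw [C_0]; ring
    · refine mm_one_of_mul (g := X - 1) (h := X ^ 3 - 1) ?_ hX3 hne
        (X_sub_C_ne_zero 1)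
      rw [C_1]; ring
    · refine mm_one_of_mul (g := (X - 1) * (X - 1)) (h := (X ^ 2 - 1) * (X ^ 2 - 1)) ?_ ?_ hne
        (mul_ne_zero (X_sub_C_ne_zero 1) (X_sub_C_ne_zero 1))
      · rw [C_two]; ring
      · rw [mmZ_mul, hX2, mul_one]

lemma good_comp {f : ℤ[X]} {m : ℕ} (hm : 0 < m) : Good (f.comp (X ^ m)) ↔ Good f := by
  unfold Good
  rw [mm_expand f hm]

/-- the monic (anti)reciprocal case -/
theorem five_monic (f : ℤ[X]) (hd : 0 < f.natDegree) (hlc : f.leadingCoeff = 1)
    (hrec : f.reverse = f ∨ f.reverse = -f) (hcard : f.support.card ≤ 5) : Good f := by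
  classical
  obtain ⟨δ, hδ, hsym⟩ := coeff_symm f hrec
  set d := f.natDegree with hdd
  have hcd : f.coeff d = 1 := hlc
  have hc0 : f.coeff 0 = δ := by
    have h1 := hsym d le_rfl
    rw [Nat.sub_self, hcd, mul_one] at h1
    exact h1
  have hδ0 : δ ≠ 0 := by rcases hδ with h | h <;> rw [h] <;> norm_num
  have hδδ : δ * δ = 1 := by rcases hδ with h | h <;> rw [h] <;> norm_num
  have hle : ∀ i, f.coeff i ≠ 0 → i ≤ d := fun i hi => le_natDegree_of_ne_zero hi
  have hsym' : ∀ i ≤ d, f.coeff i = δ * f.coeff (d - i) := by
    intro i hi
    rw [hsym i hi, ← mul_assoc, hδδ, one_mul]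
  have hsne : ∀ i ≤ d, f.coeff i ≠ 0 → f.coeff (d - i) ≠ 0 := by
    intro i hi h
    rw [hsym i hi]
    exact mul_ne_zero hδ0 h
  set T := f.support.filter (fun i => 0 < i ∧ 2 * i < d) with hT
  rcases T.eq_empty_or_nonempty with hTe | ⟨j, hj⟩
  · -- at most three terms
    have hsupp : ∀ i, f.coeff i ≠ 0 → i = 0 ∨ i = d ∨ 2 * i = d := by
      intro i hi
      by_contra hcon
      push Not at hcon
      obtain ⟨h1, h2, h3⟩ := hcon
      have hid := hle i hi
      rcases lt_or_gt_of_ne h3 with h | h
      · have : i ∈ T := by
          rw [hT, Finset.mem_filter, mem_support_iff]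
          exact ⟨hi, by omega, h⟩
        rw [hTe] at this
        simp at this
      · have : d - i ∈ T := by
          rw [hT, Finset.mem_filter, mem_support_iff]
          exact ⟨hsne i hid hi, by omega, by omega⟩
        rw [hTe] at this
        simp at this
    rcases Nat.even_or_odd' d with ⟨n, hn | hn⟩
    · by_cases hb : f.coeff n = 0
      · left
        have e : f = X ^ d + C δ := by
          ext i
          rw [coeff_add, coeff_X_pow, coeff_C]
          by_cases hi : f.coeff i = 0
          · have h1 : i ≠ d := by rintro rfl; rw [hcd] at hi; norm_num at hi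
            have h2 : i ≠ 0 := by rintro rfl; rw [hc0] at hi; exact hδ0 hi
            simp [h1, h2, hi]
          · rcases hsupp i hi with h | h | h
            · have h1 : i ≠ d := by omega
              rw [if_neg h1, if_pos h, h, hc0, zero_add]
            · have h1 : i ≠ 0 := by omega
              rw [if_neg h1, if_pos h, h, hcd, add_zero]
            · have : i = n := by omega
              rw [this] at hi; exact absurd hb hi
        rw [e]
        exact mm_binom d δ hd hδ
      · have hδ1 : δ = 1 := by
          rcases hδ with h | h
          · exact h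
          · exfalso
            have h1 := hsym n (by omega)
            rw [show d - n = n by omega, h] at h1
            apply hb
            linarith
        have e : f = (X ^ 2 + C (f.coeff n) * X + 1).comp (X ^ n) := by
          simp only [add_comp, mul_comp, pow_comp, X_comp, C_comp, one_comp]
          rw [← pow_mul]
          ext i
          rw [coeff_add, coeff_add, coeff_X_pow, coeff_C_mul, coeff_X_pow, coeff_one]
          have hn2 : n * 2 = d := by omega
          rw [hn2]
          by_cases hi : f.coeff i = 0
          · have h1 : i ≠ d := by rintro rfl; rw [hcd] at hi; norm_num at hi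
            have h2 : i ≠ 0 := by rintro rfl; rw [hc0] at hi; exact hδ0 hi
            have h3 : i ≠ n := by rintro rfl; exact hb hi
            simp [h1, h2, h3, hi]
          · rcases hsupp i hi with h | h | h
            · have h1 : i ≠ d := by omega
              have h2 : i ≠ n := by omega
              rw [if_neg h1, if_neg h2, if_pos h, h, hc0, hδ1]; norm_num
            · have h1 : i ≠ 0 := by omega
              have h2 : i ≠ n := by omega
              rw [if_neg h1, if_pos h, if_neg h2, h, hcd]; norm_num
            · have h3 : i = n := by omega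
              have h1 : i ≠ 0 := by omega
              have h2 : i ≠ d := by omega
              rw [if_neg h1, if_neg h2, if_pos h3, h3]; norm_num
        rw [e]
        exact (good_comp (by omega)).2 (quad2_good _)
    · left
      have e : f = X ^ d + C δ := by
        ext i
        rw [coeff_add, coeff_X_pow, coeff_C]
        by_cases hi : f.coeff i = 0
        · have h1 : i ≠ d := by rintro rfl; rw [hcd] at hi; norm_num at hi
          have h2 : i ≠ 0 := by rintro rfl; rw [hc0] at hi; exact hδ0 hi
          simp [h1, h2, hi]
        · rcases hsupp i hi with h | h | h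
          · have h1 : i ≠ d := by omega
            rw [if_neg h1, if_pos h, h, hc0, zero_add]
          · have h1 : i ≠ 0 := by omega
            rw [if_neg h1, if_pos h, h, hcd, add_zero]
          · omega
      rw [e]
      exact mm_binom d δ hd hδ
  · -- four or five terms
    have hj' := hj
    rw [hT, Finset.mem_filter, mem_support_iff] at hj'
    obtain ⟨hj0, hjpos, hjd⟩ := hj'
    have huniq : ∀ i, f.coeff i ≠ 0 → 0 < i → 2 * i < d → i = j := by
      intro i hi h1 h2
      by_contra hij
      have hsub : ({0, d, i, j, d - i, d - j} : Finset ℕ) ⊆ f.support := by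
        intro x hx
        simp only [Finset.mem_insert, Finset.mem_singleton] at hx
        rw [mem_support_iff]
        rcases hx with h | h | h | h | h | h
        · rw [h, hc0]; exact hδ0
        · rw [h, hcd]; norm_num
        · rw [h]; exact hi
        · rw [h]; exact hj0
        · rw [h]; exact hsne i (by omega) hi
        · rw [h]; exact hsne j (by omega) hj0
      have hc := Finset.card_le_card hsub
      have h6 : ({0, d, i, j, d - i, d - j} : Finset ℕ).card = 6 := by
        rw [Finset.card_insert_of_notMem, Finset.card_insert_of_notMem,
          Finset.card_insert_of_notMem, Finset.card_insert_of_notMem,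
          Finset.card_insert_of_notMem, Finset.card_singleton]
        all_goals simp only [Finset.mem_insert, Finset.mem_singleton, not_or]; omega
      omega
    have hsupp : ∀ i, f.coeff i ≠ 0 → i = 0 ∨ i = d ∨ i = j ∨ i = d - j ∨ 2 * i = d := by
      intro i hi
      by_contra hcon
      push Not at hcon
      obtain ⟨h1, h2, h3, h4, h5⟩ := hcon
      have hid := hle i hi
      rcases lt_or_gt_of_ne h5 with h | h
      · exact h3 (huniq i hi (by omega) h)
      · have := huniq (d - i) (hsne i hid hi) (by omega) (by omega)
        omega
    have hcdj : f.coeff (d - j) = δ * f.coeff j := hsym j (by omega)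
    rcases Nat.even_or_odd' d with ⟨n, hn | hn⟩
    · rcases hδ with h1 | h1
      · -- penta
        have e : f = penta n (n - j) (f.coeff j) (f.coeff n) := by
          unfold penta
          rw [show n + (n - j) = d - j by omega, show n - (n - j) = j by omega,
            show 2 * n = d by omega]
          ext i
          rw [coeff_add, coeff_add, coeff_add, coeff_add, coeff_X_pow, coeff_C_mul, coeff_C_mul,
            coeff_C_mul, coeff_X_pow, coeff_X_pow, coeff_X_pow, coeff_one]
          rw [h1] at hc0
          rw [h1, one_mul] at hcdj
          by_cases hi : f.coeff i = 0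
          · have g1 : i ≠ d := by rintro rfl; rw [hcd] at hi; norm_num at hi
            have g2 : i ≠ 0 := by rintro rfl; rw [hc0] at hi; norm_num at hi
            have g3 : i ≠ j := by rintro rfl; exact hj0 hi
            have g4 : i ≠ d - j := by rintro rfl; rw [hcdj] at hi; exact hj0 hi
            rw [if_neg g1, if_neg g2, if_neg g3, if_neg g4]
            by_cases g5 : i = n
            · rw [if_pos g5, ← g5, hi]; norm_num
            · rw [if_neg g5, hi]; norm_num
          · rcases hsupp i hi with h | h | h | h | h
            · rw [if_neg (by omega : ¬ i = d), if_pos h, if_neg (by omega : ¬ i = j),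
                if_neg (by omega : ¬ i = d - j), if_neg (by omega : ¬ i = n), h, hc0]
              norm_num
            · rw [if_pos h, if_neg (by omega : ¬ i = 0), if_neg (by omega : ¬ i = j),
                if_neg (by omega : ¬ i = d - j), if_neg (by omega : ¬ i = n), h, hcd]
              norm_num
            · rw [if_neg (by omega : ¬ i = d), if_neg (by omega : ¬ i = 0), if_pos h,
                if_neg (by omega : ¬ i = d - j), if_neg (by omega : ¬ i = n), h]
              norm_num
            · rw [if_neg (by omega : ¬ i = d), if_neg (by omega : ¬ i = 0),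
                if_neg (by omega : ¬ i = j), if_pos h, if_neg (by omega : ¬ i = n), h, hcdj]
              norm_num
            · have g : i = n := by omega
              rw [if_neg (by omega : ¬ i = d), if_neg (by omega : ¬ i = 0),
                if_neg (by omega : ¬ i = j), if_neg (by omega : ¬ i = d - j), if_pos g, g]
              norm_num
        rw [e]
        exact penta_all (by omega) (by omega) _ _ hj0
      · -- antireciprocal of even degree
        have hmid : f.coeff n = 0 := by
          have h2 := hsym n (by omega)
          rw [show d - n = n by omega, h1] at h2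
          linarith
        have e : f = pentaS n (n - j) (f.coeff (d - j)) := by
          unfold pentaS
          rw [show n + (n - j) = d - j by omega, show n - (n - j) = j by omega,
            show 2 * n = d by omega]
          ext i
          rw [coeff_sub, coeff_sub, coeff_add, coeff_X_pow, coeff_C_mul, coeff_C_mul,
            coeff_X_pow, coeff_X_pow, coeff_one]
          rw [h1] at hc0
          rw [h1] at hcdj
          by_cases hi : f.coeff i = 0
          · have g1 : i ≠ d := by rintro rfl; rw [hcd] at hi; norm_num at hi
            have g2 : i ≠ 0 := by rintro rfl; rw [hc0] at hi; norm_num at hi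
            have g3 : i ≠ j := by rintro rfl; exact hj0 hi
            have g4 : i ≠ d - j := by
              rintro rfl; rw [hcdj] at hi; exact hj0 (by linarith)
            rw [if_neg g1, if_neg g2, if_neg g3, if_neg g4, hi]
            norm_num
          · rcases hsupp i hi with h | h | h | h | h
            · rw [if_neg (by omega : ¬ i = d), if_pos h, if_neg (by omega : ¬ i = j),
                if_neg (by omega : ¬ i = d - j), h, hc0]
              norm_num
            · rw [if_pos h, if_neg (by omega : ¬ i = 0), if_neg (by omega : ¬ i = j),
                if_neg (by omega : ¬ i = d - j), h, hcd]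
              norm_num
            · rw [if_neg (by omega : ¬ i = d), if_neg (by omega : ¬ i = 0), if_pos h,
                if_neg (by omega : ¬ i = d - j), h, hcdj]
              norm_num
            · rw [if_neg (by omega : ¬ i = d), if_neg (by omega : ¬ i = 0),
                if_neg (by omega : ¬ i = j), if_pos h, h]
              norm_num
            · have g : i = n := by omega
              rw [g] at hi; exact absurd hmid hi
        rw [e]
        exact pentaS_all (by omega) (by omega) _ (by
          rw [hcdj]; exact mul_ne_zero hδ0 hj0)
    · -- odd degree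
      have hsupp' : ∀ i, f.coeff i ≠ 0 → i = 0 ∨ i = d ∨ i = j ∨ i = d - j := by
        intro i hi
        rcases hsupp i hi with h | h | h | h | h
        · exact Or.inl h
        · exact Or.inr (Or.inl h)
        · exact Or.inr (Or.inr (Or.inl h))
        · exact Or.inr (Or.inr (Or.inr h))
        · omega
      have e : f = X ^ d + C (δ * f.coeff j) * X ^ (d - j) + C (f.coeff j) * X ^ j + C δ := by
        ext i
        rw [coeff_add, coeff_add, coeff_add, coeff_X_pow, coeff_C_mul, coeff_C_mul,
            coeff_X_pow, coeff_X_pow, coeff_C]
        by_cases hi : f.coeff i = 0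
        · have g1 : i ≠ d := by rintro rfl; rw [hcd] at hi; norm_num at hi
          have g2 : i ≠ 0 := by rintro rfl; rw [hc0] at hi; exact hδ0 hi
          have g3 : i ≠ j := by rintro rfl; exact hj0 hi
          have g4 : i ≠ d - j := by
            rintro rfl; rw [hcdj] at hi; exact mul_ne_zero hδ0 hj0 hi
          rw [if_neg g1, if_neg g2, if_neg g3, if_neg g4, hi]
          norm_num
        · rcases hsupp' i hi with h | h | h | h
          · rw [if_neg (by omega : ¬ i = d), if_pos h, if_neg (by omega : ¬ i = j),
              if_neg (by omega : ¬ i = d - j), h, hc0]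
            norm_num
          · rw [if_pos h, if_neg (by omega : ¬ i = 0), if_neg (by omega : ¬ i = j),
              if_neg (by omega : ¬ i = d - j), h, hcd]
            norm_num
          · rw [if_neg (by omega : ¬ i = d), if_neg (by omega : ¬ i = 0), if_pos h,
              if_neg (by omega : ¬ i = d - j), h]
            norm_num
          · rw [if_neg (by omega : ¬ i = d), if_neg (by omega : ¬ i = 0),
              if_neg (by omega : ¬ i = j), if_pos h, h, hcdj]
            norm_num
      rw [← good_comp (f := f) (m := 2) (by norm_num)]
      rcases hδ with h1 | h1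
      · have e2 : f.comp (X ^ 2) = penta d (d - 2 * j) (f.coeff j) 0 := by
          conv_lhs => rw [e]
          unfold penta
          simp only [add_comp, mul_comp, pow_comp, X_comp, C_comp]
          rw [h1, one_mul, C_1, C_0, ← pow_mul, ← pow_mul, ← pow_mul,
            show d + (d - 2 * j) = 2 * (d - j) by omega, show d - (d - 2 * j) = 2 * j by omega]
          ring
        rw [e2]
        exact penta_all (by omega) (by omega) _ _ hj0
      · have e2 : f.comp (X ^ 2) = pentaS d (d - 2 * j) (-(f.coeff j)) := by
          conv_lhs => rw [e]
          unfold pentaS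
          simp only [add_comp, mul_comp, pow_comp, X_comp, C_comp]
          rw [h1, ← pow_mul, ← pow_mul, ← pow_mul,
            show d + (d - 2 * j) = 2 * (d - j) by omega, show d - (d - 2 * j) = 2 * j by omega]
          simp only [C_neg, C_1, C_mul]
          ring
        rw [e2]
        exact pentaS_all (by omega) (by omega) _ (neg_ne_zero.2 hj0)

/-- nonzero constant term -/
theorem five_const (f : ℤ[X]) (h0 : f.coeff 0 ≠ 0) (hcard : f.support.card ≤ 5) : Good f := by
  have hf : f ≠ 0 := by rintro rfl; simp at h0
  rcases le_or_gt 2 |f.leadingCoeff| with h | h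
  · apply good_of_ge
    have h1 := lc_le_mmZ f
    have h2 : (2:ℝ) ≤ |(f.leadingCoeff:ℝ)| := by exact_mod_cast h
    linarith
  have hlc : |f.leadingCoeff| = 1 := by
    have := Int.one_le_abs (leadingCoeff_ne_zero.2 hf)
    omega
  by_cases hr : f.reverse = f ∨ f.reverse = -f
  · rcases Nat.eq_zero_or_pos f.natDegree with hd | hd
    · left
      obtain ⟨c, hc⟩ := natDegree_eq_zero.1 hd
      rw [← hc] at hlc ⊢
      rw [leadingCoeff_C] at hlc
      rw [mmZ_C]
      exact_mod_cast hlc
    · rcases (abs_eq (by norm_num : (0:ℤ) ≤ 1)).1 hlc with h1 | h1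
      · exact five_monic f hd h1 hr hcard
      · apply good_neg
        apply five_monic (-f)
        · rw [natDegree_neg]; exact hd
        · rw [leadingCoeff_neg, h1, neg_neg]
        · rw [reverse_neg]
          rcases hr with h2 | h2
          · left; rw [h2]
          · right; rw [h2]
        · rw [support_neg]; exact hcard
  · push Not at hr
    apply good_of_ge
    have := smyth_weak' f h0 hr.1 hr.2
    linarith

/-- **Lehmer's inequality for polynomials with at most five terms.** -/
theorem five_terms : ∀ (d : ℕ) (f : ℤ[X]), f.natDegree ≤ d → f ≠ 0 → f.support.card ≤ 5 →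
    Good f := by
  intro d
  induction d with
  | zero =>
    intro f hd hf hcard
    apply five_const f _ hcard
    have h1 : f.natDegree = 0 := Nat.le_zero.1 hd
    have h2 : f.coeff f.natDegree ≠ 0 := leadingCoeff_ne_zero.2 hf
    rwa [h1] at h2
  | succ d ih =>
    intro f hd hf hcard
    by_cases h0 : f.coeff 0 = 0
    · have e : f = X * f.divX := by
        have := divX_mul_X_add f
        rw [h0, C_0, add_zero] at this
        rw [mul_comm]; exact this.symm
      have hg0 : f.divX ≠ 0 := by
        intro h; rw [h, mul_zero] at e; exact hf e
      have hM : mahlerMeasureZ f = mahlerMeasureZ f.divX := by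
        conv_lhs => rw [e]
        rw [mmZ_mul, mmZ_X, one_mul]
      have hdeg : f.divX.natDegree ≤ d := by
        rw [natDegree_divX_eq_natDegree_tsub_one]; omega
      have hc : f.divX.support.card ≤ f.support.card := by
        apply Finset.card_le_card_of_injOn (fun i => i + 1)
        · intro i hi
          rw [Finset.mem_coe, mem_support_iff, coeff_divX] at hi
          rw [Finset.mem_coe, mem_support_iff]
          exact hi
        · intro x _ y _ hxy
          simpa using hxy
      have := ih f.divX hdeg hg0 (hc.trans hcard)
      unfold Good at this ⊢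
      rwa [hM]
    · exact five_const f h0 hcard

end Pool.Agent.H25
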