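import Pool.Agent.H84.Chain.PP

/-!
# An infinite ascending chain of digraphs under pp-constructability, with the formula `⊥` allowed
-/

set_option autoImplicit false

namespace Pool.Agent.H25.PPBot

open Pool.Agent.H84.Chain Equiv.Perm

/-- A primitive positive formula over digraphs with free variables `F`: an existentially quantified
conjunction (`m` quantified variables) of the atoms `E(u, v)` for `(u, v) ∈ edges`, the atoms
`u = v` for `(u, v) ∈ eqs` and, if `bot` is true, the formula `⊥`. -/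
structure PPFormula (F : Type) where
  /-- number of quantified variables -/
  m : ℕ
  /-- edge atoms -/
  edges : Set ((F ⊕ Fin m) × (F ⊕ Fin m))
  /-- equality atoms -/
  eqs : Set ((F ⊕ Fin m) × (F ⊕ Fin m))
  /-- is `⊥` a conjunct? -/
  bot : Prop

/-- The formula holds in `A` under the assignment `x`. -/
def PPFormula.Holds {F V : Type} (φ : PPFormula F) (A : Digraph V) (x : F → V) : Prop :=
  ¬ φ.bot ∧ ∃ s : Fin φ.m → V,
    (∀ p ∈ φ.edges, A.Adj (Sum.elim x s p.1) (Sum.elim x s p.2)) ∧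
    (∀ p ∈ φ.eqs, Sum.elim x s p.1 = Sum.elim x s p.2)

/-- The `n`-th pp-power of `A` given by a formula with `2 n` free variables. -/
def ppPower {V : Type} (A : Digraph V) (n : ℕ) (φ : PPFormula (Fin 2 × Fin n)) :
    Digraph (Fin n → V) where
  Adj x y := φ.Holds A (fun q => (![x, y] q.1) q.2)

/-- There is a homomorphism from `A` to `B`. -/
def Maps {V W : Type} (A : Digraph V) (B : Digraph W) : Prop :=
  ∃ f : V → W, ∀ a b, A.Adj a b → B.Adj (f a) (f b)

/-- `A` pp-constructs `B`: `B` is homomorphically equivalent to a pp-power of `A`. -/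
def PPConstructs {V W : Type} (A : Digraph V) (B : Digraph W) : Prop :=
  ∃ n : ℕ, 1 ≤ n ∧ ∃ φ : PPFormula (Fin 2 × Fin n),
    Maps B (ppPower A n φ) ∧ Maps (ppPower A n φ) B

theorem ppConstructs_of_ppc {kB kA : ℕ} {B : Digraph (Fin kB)} {A : Digraph (Fin kA)}
    (h : PPC kB B kA A) : PPConstructs B A := by
  obtain ⟨n, m, Es, Qs, E, hn, hE, ⟨f, hf⟩, ⟨g, hg⟩⟩ := h
  refine ⟨n, hn, ⟨m, Es, Qs, False⟩, ⟨f, fun a b hab => ?_⟩, ⟨g, fun x y hxy => ?_⟩⟩
  · exact ⟨fun h => h, (hE _ _).1 (hf a b hab)⟩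
  · exact hg x y ((hE _ _).2 hxy.2)

theorem ppc_of_ppConstructs {kB kA : ℕ} {B : Digraph (Fin kB)} {A : Digraph (Fin kA)}
    (hA : ∃ a b, A.Adj a b) (h : PPConstructs B A) : PPC kB B kA A := by
  obtain ⟨n, hn, ⟨m, Es, Qs, bot⟩, ⟨f, hf⟩, ⟨g, hg⟩⟩ := h
  have hbot : ¬ bot := by
    obtain ⟨a, b, hab⟩ := hA
    exact (hf a b hab).1
  exact ⟨n, m, Es, Qs, fun x y => ∃ s : Fin m → Fin kB,
        (∀ p ∈ Es,
          B.Adj (Sum.elim (fun q : Fin 2 × Fin n => (![x, y] q.1) q.2) s p.1)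
                (Sum.elim (fun q : Fin 2 × Fin n => (![x, y] q.1) q.2) s p.2)) ∧
        (∀ p ∈ Qs,
          Sum.elim (fun q : Fin 2 × Fin n => (![x, y] q.1) q.2) s p.1 =
            Sum.elim (fun q : Fin 2 × Fin n => (![x, y] q.1) q.2) s p.2),
    hn, fun x y => Iff.rfl, ⟨f, fun a b hab => (hf a b hab).2⟩,
    ⟨g, fun x y hxy => hg x y ⟨hbot, hxy⟩⟩⟩

/-- The embedding of an alternating group into the next one. -/
theorem exists_hom (n : ℕ) : ∃ ι : alternatingGroup (Fin n) →* alternatingGroup (Fin (n + 1)),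
    Function.Injective ι := by
  classical
  let f : Fin n ≃ {x : Fin (n + 1) // x ∈ Set.range (Fin.castSucc : Fin n → Fin (n + 1))} :=
    Equiv.ofInjective _ (Fin.castSucc_injective n)
  have h : ∀ σ : alternatingGroup (Fin n),
      (extendDomainHom f).comp (alternatingGroup (Fin n)).subtype σ ∈
        alternatingGroup (Fin (n + 1)) := by
    intro σ
    have h1 := σ.2
    rw [mem_alternatingGroup] at h1 ⊢
    rw [← h1]
    exact sign_extendDomain σ.1 f
  refine ⟨((extendDomainHom f).comp (alternatingGroup (Fin n)).subtype).codRestrict _ h, ?_⟩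
  intro σ τ hστ
  have h2 := congrArg Subtype.val hστ
  exact Subtype.ext (extendDomainHom_injective f h2)

instance simple_alt (i : ℕ) : IsSimpleGroup (alternatingGroup (Fin (i + 5))) :=
  alternatingGroup.isSimpleGroup (by simp)

theorem card_lt (i : ℕ) : Nat.card (alternatingGroup (Fin (i + 5))) <
    Nat.card (alternatingGroup (Fin (i + 1 + 5))) := by
  have h1 := two_mul_nat_card_alternatingGroup (α := Fin (i + 5))
  have h2 := two_mul_nat_card_alternatingGroup (α := Fin (i + 1 + 5))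
  rw [Nat.card_perm, Nat.card_fin] at h1 h2
  have h3 : (i + 5).factorial < (i + 1 + 5).factorial := by
    apply (Nat.factorial_lt (by omega)).2
    omega
  omega

theorem chain : ∃ (k : ℕ → ℕ) (G : (i : ℕ) → Digraph (Fin (k i))),
    (∀ i, 0 < k i) ∧ (∀ i, ∃ a b, (G i).Adj a b) ∧
    ∀ i, PPC (k i) (G i) (k (i + 1)) (G (i + 1)) ∧
      ¬ PPC (k (i + 1)) (G (i + 1)) (k i) (G i) := by
  classical
  have hen : ∀ i : ℕ, ∃ l : ℕ, Nonempty (Fin l ≃ Fin 4 ⊕ alternatingGroup (Fin (i + 5))) :=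
    fun i => ⟨_, ⟨(Finite.equivFin (Fin 4 ⊕ alternatingGroup (Fin (i + 5)))).symm⟩⟩
  choose l hl using hen
  let e : ∀ i : ℕ, Fin (l i) ≃ Fin 4 ⊕ alternatingGroup (Fin (i + 5)) := fun i => (hl i).some
  refine ⟨fun i => Nat.card (Vert (Set (alternatingGroup (Fin (i + 5)))) (l i)),
    fun i => toDigraph (Edge (RX (e i))), ?_, ?_, ?_⟩
  · intro i
    have : Nonempty (Vert (Set (alternatingGroup (Fin (i + 5)))) (l i)) := ⟨.bot ∅⟩
    exact Nat.card_pos
  · intro i
    refine ⟨Finite.equivFin _ (pthN 0), Finite.equivFin _ (pthN (0 + 1)), ?_⟩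
    rw [toDigraph_adj, Equiv.symm_apply_apply, Equiv.symm_apply_apply]
    exact edge_pthN _ (by omega)
  · intro i
    have hne : Nonempty (Vert (Set (alternatingGroup (Fin (i + 5)))) (l i)) := ⟨.bot ∅⟩
    constructor
    · obtain ⟨ι, hι⟩ := exists_hom (i + 5)
      have hι' : ∃ q, ι q ≠ 1 := by
        obtain ⟨q, hq⟩ := exists_ne (1 : alternatingGroup (Fin (i + 5)))
        refine ⟨q, fun h => hq (hι ?_)⟩
        rw [h, map_one]
      obtain ⟨Φ, hΦ⟩ := up_step (P := alternatingGroup (Fin (i + 1 + 5))) ι hι' (e i) (e (i + 1))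
      exact ppc_toDigraph _ _ Φ hΦ
    · intro h
      obtain ⟨g, hg, hsym⟩ := exists_sym (Q := alternatingGroup (Fin (i + 5)))
        (P := alternatingGroup (Fin (i + 1 + 5))) (card_lt i) (e (i + 1))
      obtain ⟨g', hg', hsym'⟩ := sym_toDigraph (Edge (RX (e (i + 1))))
        (fun (q : alternatingGroup (Fin (i + 5))) (n : NN (alternatingGroup (Fin (i + 5)))) => q • n)
        g hg hsym
      obtain ⟨g'', hg'', hsym''⟩ := h.sym _ g' hg' hsym'
      obtain ⟨g₃, hg₃, hsym₃⟩ := sym_of_toDigraph (Edge (RX (e i))) _ g'' hg'' hsym''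
      exact not_sym (e i) g₃ hg₃ hsym₃

end Pool.Agent.H25.PPBot
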